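import Mathlib
import Pool.Agent.Lib.MP_209724_lc.OV.Defs

namespace Pool.Agent.Lib.MP_209724_lc.SC

open MvPolynomial

section

variable {k : Type} [Field k] [Algebra k ℂ] {m : ℕ}

set_option linter.unusedSectionVars false

theorem expG_add0 (F G : MvPolynomial (Fin m ⊕ Fin m) k) (v : Fin m → ℂ) :
    expG (F + G) v = expG F v + expG G v := by
  simp [expG]

theorem expG_mul0 (F G : MvPolynomial (Fin m ⊕ Fin m) k) (v : Fin m → ℂ) :
    expG (F * G) v = expG F v * expG G v := by
  simp [expG]

theorem expG_C0 (c : k) (v : Fin m → ℂ) :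
    expG (C c : MvPolynomial (Fin m ⊕ Fin m) k) v = algebraMap k ℂ c := by
  simp [expG]

theorem expG_inl0 (i : Fin m) (v : Fin m → ℂ) :
    expG (X (Sum.inl i) : MvPolynomial (Fin m ⊕ Fin m) k) v = v i := by
  simp [expG]

theorem expG_inr0 (i : Fin m) (v : Fin m → ℂ) :
    expG (X (Sum.inr i) : MvPolynomial (Fin m ⊕ Fin m) k) v = Complex.exp (v i) := by
  simp [expG]

theorem eD_add0 (i : Fin m) (F G : MvPolynomial (Fin m ⊕ Fin m) k) :
    eD i (F + G) = eD i F + eD i G := by
  simp only [eD, map_add]; ring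

theorem eD_mul0 (i : Fin m) (F G : MvPolynomial (Fin m ⊕ Fin m) k) :
    eD i (F * G) = F * eD i G + G * eD i F := by
  simp only [eD, Derivation.leibniz, smul_eq_mul]; ring

theorem eD_C0 (i : Fin m) (c : k) : eD i (C c : MvPolynomial (Fin m ⊕ Fin m) k) = 0 := by
  simp [eD]

theorem eD_inl0 (i j : Fin m) :
    eD i (X (Sum.inl j) : MvPolynomial (Fin m ⊕ Fin m) k) = if j = i then 1 else 0 := by
  classical
  simp only [eD, pderiv_X]
  by_cases h : j = i
  · subst h; simp
  · simp [h]

theorem eD_inr0 (i j : Fin m) :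
    eD i (X (Sum.inr j) : MvPolynomial (Fin m ⊕ Fin m) k) =
      if j = i then X (Sum.inr j) else 0 := by
  classical
  simp only [eD, pderiv_X]
  by_cases h : j = i
  · subst h; simp
  · simp [h]

end

/-- SC-10b: exponential polynomials are smooth. -/
theorem contDiff_expG {k : Type} [Field k] [Algebra k ℂ] {m : ℕ}
    (F : MvPolynomial (Fin m ⊕ Fin m) k) (N : WithTop ℕ∞) : ContDiff ℂ N (expG F) := by
  induction F using MvPolynomial.induction_on with
  | C c =>
    have : (expG (C c : MvPolynomial (Fin m ⊕ Fin m) k)) = fun _ => algebraMap k ℂ c :=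
      funext fun v => expG_C0 c v
    rw [this]
    exact contDiff_const
  | add p q hp hq =>
    have : expG (p + q) = fun v => expG p v + expG q v := funext fun v => expG_add0 p q v
    rw [this]
    exact hp.add hq
  | mul_X p j hp =>
    have : expG (p * X j) = fun v => expG p v * expG (X j) v := funext fun v => expG_mul0 p _ v
    rw [this]
    refine hp.mul ?_
    rcases j with j | j
    · have : (expG (X (Sum.inl j) : MvPolynomial (Fin m ⊕ Fin m) k)) = fun v => v j :=
        funext fun v => expG_inl0 j v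
      rw [this]
      exact contDiff_apply ℂ ℂ j
    · have : (expG (X (Sum.inr j) : MvPolynomial (Fin m ⊕ Fin m) k)) =
          fun v => Complex.exp (v j) := funext fun v => expG_inr0 j v
      rw [this]
      exact (contDiff_apply ℂ ℂ j).cexp

theorem sum_proj_apply0 {𝕜 : Type} [NontriviallyNormedField 𝕜] {m : ℕ} (c : Fin m → 𝕜)
    (w : Fin m → 𝕜) :
    (∑ i, c i • (ContinuousLinearMap.proj i : (Fin m → 𝕜) →L[𝕜] 𝕜)) w = ∑ i, c i * w i := by
  simp [sum_apply]

/-- The derivative exists and is given by the formula. -/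
theorem exists_strict0 {k : Type} [Field k] [Algebra k ℂ] {m : ℕ}
    (F : MvPolynomial (Fin m ⊕ Fin m) k) (P : Fin m → ℂ) :
    ∃ L : (Fin m → ℂ) →L[ℂ] ℂ, HasStrictFDerivAt (expG F) L P ∧
      ∀ w, L w = ∑ i, expG (eD i F) P * w i := by
  classical
  have h0 : ∀ v : Fin m → ℂ, expG (0 : MvPolynomial (Fin m ⊕ Fin m) k) v = 0 := by
    intro v; simp [expG]
  have h1 : ∀ v : Fin m → ℂ, expG (1 : MvPolynomial (Fin m ⊕ Fin m) k) v = 1 := by
    intro v; simp [expG]
  induction F using MvPolynomial.induction_on with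
  | C c =>
    have : (expG (C c : MvPolynomial (Fin m ⊕ Fin m) k)) = fun _ => algebraMap k ℂ c :=
      funext fun v => expG_C0 c v
    rw [this]
    refine ⟨0, hasStrictFDerivAt_const (𝕜 := ℂ) (algebraMap k ℂ c) P, fun w => ?_⟩
    simp [eD_C0, h0]
  | add p q hp hq =>
    have : expG (p + q) = fun v => expG p v + expG q v := funext fun v => expG_add0 p q v
    rw [this]
    obtain ⟨L, hL, hL'⟩ := hp
    obtain ⟨M, hM, hM'⟩ := hq
    refine ⟨L + M, hL.add hM, fun w => ?_⟩
    rw [add_apply, hL', hM', ← Finset.sum_add_distrib]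
    refine Finset.sum_congr rfl fun i _ => ?_
    rw [eD_add0, expG_add0, add_mul]
  | mul_X p j hp =>
    have hX : ∃ L : (Fin m → ℂ) →L[ℂ] ℂ,
        HasStrictFDerivAt (expG (X j : MvPolynomial (Fin m ⊕ Fin m) k)) L P ∧
        ∀ w, L w = ∑ i, expG (eD i (X j : MvPolynomial (Fin m ⊕ Fin m) k)) P * w i := by
      rcases j with j | j
      · have : (expG (X (Sum.inl j) : MvPolynomial (Fin m ⊕ Fin m) k)) = fun v => v j :=
          funext fun v => expG_inl0 j v
        rw [this]
        refine ⟨_, hasStrictFDerivAt_apply (𝕜 := ℂ) (F' := fun _ : Fin m => ℂ) j P,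
          fun w => ?_⟩
        rw [Finset.sum_eq_single j]
        · rw [eD_inl0, if_pos rfl, h1, one_mul]
          rfl
        · intro i _ hi
          rw [eD_inl0, if_neg (Ne.symm hi), h0, zero_mul]
        · intro h; exact absurd (Finset.mem_univ _) h
      · have : (expG (X (Sum.inr j) : MvPolynomial (Fin m ⊕ Fin m) k)) =
            fun v => Complex.exp (v j) := funext fun v => expG_inr0 j v
        rw [this]
        refine ⟨_, (hasStrictFDerivAt_apply (𝕜 := ℂ) (F' := fun _ : Fin m => ℂ) j P).cexp,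
          fun w => ?_⟩
        rw [Finset.sum_eq_single j]
        · rw [eD_inr0, if_pos rfl, expG_inr0]
          rfl
        · intro i _ hi
          rw [eD_inr0, if_neg (Ne.symm hi), h0, zero_mul]
        · intro h; exact absurd (Finset.mem_univ _) h
    have : expG (p * X j) = fun v => expG p v * expG (X j) v := funext fun v => expG_mul0 p _ v
    rw [this]
    obtain ⟨L, hL, hL'⟩ := hp
    obtain ⟨M, hM, hM'⟩ := hX
    refine ⟨_, hL.mul hM, fun w => ?_⟩
    change expG p P * M w + expG (X j) P * L w = _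
    rw [hL', hM', Finset.mul_sum, Finset.mul_sum, ← Finset.sum_add_distrib]
    refine Finset.sum_congr rfl fun i _ => ?_
    rw [eD_mul0, expG_add0, expG_mul0, expG_mul0, add_mul]
    ring

/-- SC-10c: the derivative of an exponential polynomial. -/
theorem hasStrictFDerivAt_expG {k : Type} [Field k] [Algebra k ℂ] {m : ℕ}
    (F : MvPolynomial (Fin m ⊕ Fin m) k) (P : Fin m → ℂ) :
    HasStrictFDerivAt (expG F)
      (∑ i, expG (eD i F) P • (ContinuousLinearMap.proj i : (Fin m → ℂ) →L[ℂ] ℂ)) P := by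
  obtain ⟨L, hL, hL'⟩ := exists_strict0 F P
  refine hL.congr_fderiv (ContinuousLinearMap.ext fun w => ?_)
  rw [hL']
  exact (sum_proj_apply0 (𝕜 := ℂ) (fun i => expG (eD i F) P) w).symm

/-- SC-10a: the derivative of an exponential polynomial along a curve. Proof: induction on `F`
(`MvPolynomial.induction_on`), or the chain rule for `aeval`. -/
theorem hasDerivAt_expG {k : Type} [Field k] [Algebra k ℂ] {m : ℕ}
    (F : MvPolynomial (Fin m ⊕ Fin m) k) {v : ℂ → Fin m → ℂ} {v' : Fin m → ℂ} {τ : ℂ}
    (hv : HasDerivAt v v' τ) :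
    HasDerivAt (fun τ => expG F (v τ)) (∑ i, expG (eD i F) (v τ) * v' i) τ := by
  obtain ⟨L, hL, hL'⟩ := exists_strict0 F (v τ)
  rw [← hL']
  exact hL.hasFDerivAt.comp_hasDerivAt τ hv

end Pool.Agent.Lib.MP_209724_lc.SC
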