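import Mathlib
import Pool.Agent.Lib.MP_209724_lc.OV.Defs
import Pool.Agent.Lib.MP_e52354_nt.DerivExist

section

/-!
Algebraic closures and transcendence degrees of subsets of a field, through the matroid of
algebraically independent sets.
-/

namespace Pool.Agent.Lib.MP_209724_lc.OV

open MvPolynomial AlgebraicIndependent

variable {Ω : Type} [Field Ω] [Algebra ℂ Ω]

/-- the elements which are algebraic over `ℂ(s)` -/
def cl (s : Set Ω) : Set Ω := {x | IsAlgebraic (Algebra.adjoin ℂ s) x}

/-- the transcendence degree of `ℂ(s)` -/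
noncomputable def td (s : Set Ω) : ℕ∞ := (matroid ℂ Ω).eRk s

theorem mem_cl {s : Set Ω} {x : Ω} : x ∈ cl s ↔ IsAlgebraic (Algebra.adjoin ℂ s) x := Iff.rfl

theorem algOver_iff_mem {u f : Ω} : AlgOver u f ↔ f ∈ cl {u} := Iff.rfl

theorem closure_eq (s : Set Ω) : (matroid ℂ Ω).closure s = cl s := by
  rw [matroid_closure_eq]
  rfl

theorem subset_cl (s : Set Ω) : s ⊆ cl s := by
  rw [← closure_eq]
  exact (matroid ℂ Ω).subset_closure s (by simp)

theorem cl_mono {s t : Set Ω} (h : s ⊆ t) : cl s ⊆ cl t := by
  rw [← closure_eq, ← closure_eq]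
  exact (matroid ℂ Ω).closure_subset_closure h

theorem cl_cl (s : Set Ω) : cl (cl s) = cl s := by
  rw [← closure_eq, ← closure_eq, Matroid.closure_closure]

theorem cl_subset {s t : Set Ω} (h : s ⊆ cl t) : cl s ⊆ cl t := by
  rw [← cl_cl t]
  exact cl_mono h

theorem td_cl (s : Set Ω) : td (cl s) = td s := by
  rw [td, td, ← closure_eq, Matroid.eRk_closure_eq]

theorem td_mono {s t : Set Ω} (h : s ⊆ t) : td s ≤ td t := (matroid ℂ Ω).eRk_mono h

theorem td_le_of_subset_cl {s t : Set Ω} (h : s ⊆ cl t) : td s ≤ td t := by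
  rw [← td_cl t]
  exact td_mono h

theorem cl_eq_of {s t : Set Ω} (h1 : s ⊆ cl t) (h2 : t ⊆ cl s) : cl s = cl t :=
  Set.Subset.antisymm (cl_subset h1) (cl_subset h2)

theorem td_eq_of_cl {s t : Set Ω} (h : cl s = cl t) : td s = td t := by
  rw [← td_cl s, h, td_cl]

theorem cl_eq_of_td {s t : Set Ω} (h : s ⊆ cl t) (ht : td t ≠ ⊤) (hst : td t ≤ td s) :
    cl s = cl t := by
  have hs : (matroid ℂ Ω).IsRkFinite s := by
    rw [← Matroid.eRk_ne_top_iff]
    exact ne_top_of_le_ne_top ht (td_le_of_subset_cl h)
  have h1 := hs.closure_eq_closure_of_subset_of_eRk_ge_eRk h (by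
    show td (cl t) ≤ td s
    rw [td_cl]
    exact hst)
  rw [closure_eq, closure_eq, cl_cl] at h1
  exact h1

theorem cl_union_cl_left (s t : Set Ω) : cl (cl s ∪ t) = cl (s ∪ t) :=
  cl_eq_of (Set.union_subset (cl_mono Set.subset_union_left)
      (Set.subset_union_right.trans (subset_cl _)))
    (Set.union_subset ((subset_cl s).trans (Set.subset_union_left.trans (subset_cl _)))
      (Set.subset_union_right.trans (subset_cl _)))

theorem td_union_eq_of_subset {s t : Set Ω} (h : t ⊆ cl s) : td (s ∪ t) = td s := by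
  refine td_eq_of_cl (cl_eq_of (Set.union_subset (subset_cl s) h) ?_)
  exact Set.subset_union_left.trans (subset_cl _)

theorem td_insert_le (x : Ω) (s : Set Ω) : td (insert x s) ≤ td s + 1 :=
  (matroid ℂ Ω).eRk_insert_le_add_one x s

theorem td_insert_eq {x : Ω} {s : Set Ω} (h : x ∉ cl s) : td (insert x s) = td s + 1 := by
  refine (matroid ℂ Ω).eRk_insert_eq_add_one ⟨by simp, ?_⟩
  rw [closure_eq]
  exact h

theorem td_insert_of_mem {x : Ω} {s : Set Ω} (h : x ∈ cl s) : td (insert x s) = td s := by
  rw [Set.insert_eq, Set.union_comm]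
  exact td_union_eq_of_subset (Set.singleton_subset_iff.2 h)

theorem td_empty : td (∅ : Set Ω) = 0 := Matroid.eRk_empty _

theorem td_union_le (s t : Set Ω) : td (s ∪ t) ≤ td s + td t :=
  (matroid ℂ Ω).eRk_union_le_eRk_add_eRk s t

theorem td_union_inter (s t : Set Ω) : td (s ∩ t) + td (s ∪ t) ≤ td s + td t :=
  (matroid ℂ Ω).eRk_inter_add_eRk_union_le s t

theorem td_le_encard (s : Set Ω) : td s ≤ s.encard := (matroid ℂ Ω).eRk_le_encard s

theorem td_singleton_le (x : Ω) : td ({x} : Set Ω) ≤ 1 := by
  refine (td_le_encard _).trans ?_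
  rw [Set.encard_singleton]

/-- exchange property -/
theorem cl_exchange {x y : Ω} {s : Set Ω} (h : y ∈ cl (insert x s)) (h' : y ∉ cl s) :
    x ∈ cl (insert y s) := by
  rw [← closure_eq] at h h' ⊢
  exact ((matroid ℂ Ω).closure_exchange ⟨h, h'⟩).1

/-- relative algebraic closure -/
noncomputable def Cl (s : Set Ω) : IntermediateField ℂ Ω where
  carrier := cl s
  mul_mem' ha hb := IsAlgebraic.mul ha hb
  one_mem' := isAlgebraic_one
  add_mem' ha hb := IsAlgebraic.add ha hb
  zero_mem' := isAlgebraic_zero
  algebraMap_mem' c := by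
    have h := isAlgebraic_algebraMap (R := Algebra.adjoin ℂ s) (A := Ω)
      (algebraMap ℂ (Algebra.adjoin ℂ s) c)
    exact h
  inv_mem' _ hx := IsAlgebraic.inv hx

theorem mem_Cl {s : Set Ω} {x : Ω} : x ∈ Cl s ↔ x ∈ cl s := Iff.rfl

theorem coe_Cl (s : Set Ω) : (Cl s : Set Ω) = cl s := rfl

theorem mem_cl_of_isAlgebraic {s : Set Ω} {x : Ω} (h : IsAlgebraic (Cl s) x) : x ∈ cl s := by
  have h1 : IsAlgebraic (Cl s).toSubalgebra x := h
  rw [← Algebra.adjoin_eq (Cl s).toSubalgebra] at h1
  have h2 : x ∈ cl (cl s) := h1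
  rw [cl_cl] at h2
  exact h2

theorem isAlgClosed_Cl [IsAlgClosed Ω] (s : Set Ω) : IsAlgClosed (Cl s) := by
  refine IsAlgClosed.of_exists_root _ fun p hp hirr => ?_
  have hdeg : (p.map (algebraMap (Cl s) Ω)).degree ≠ 0 := by
    rw [Polynomial.degree_map]
    exact hirr.degree_pos.ne'
  obtain ⟨x, hx⟩ := IsAlgClosed.exists_root _ hdeg
  have h1 : IsAlgebraic (Cl s) x := by
    refine ⟨p, hirr.ne_zero, ?_⟩
    rw [Polynomial.IsRoot.def, Polynomial.eval_map_algebraMap] at hx
    exact hx
  refine ⟨⟨x, mem_cl_of_isAlgebraic h1⟩, ?_⟩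
  rw [Polynomial.IsRoot.def, Polynomial.eval_map_algebraMap] at hx
  have h2 : (algebraMap (Cl s) Ω) (Polynomial.eval ⟨x, mem_cl_of_isAlgebraic h1⟩ p) = 0 := by
    rw [← hx]
    exact (Polynomial.aeval_algebraMap_apply_eq_algebraMap_eval
      (⟨x, mem_cl_of_isAlgebraic h1⟩ : Cl s) p).symm
  exact (map_eq_zero_iff _ (algebraMap (Cl s) Ω).injective).1 h2

end Pool.Agent.Lib.MP_209724_lc.OV
end

section

namespace Pool.Agent.Lib.MP_209724_lc.OV

open MvPolynomial Filter Topology Metric

variable {K : Type} [Field K] [Algebra ℂ K]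

/-- A derivation which vanishes on a subalgebra vanishes on the elements algebraic over it. -/
theorem derAlg_zero_of_subalgebra (B : Subalgebra ℂ K) (D : Derivation ℂ K K)
    (hD : ∀ b ∈ B, D b = 0) {f : K} (hf : IsAlgebraic B f) : D f = 0 := by
  let D' : Derivation B K K := Derivation.mk'
    { toFun := D
      map_add' := D.map_add
      map_smul' := fun b x => by
        rw [Algebra.smul_def, RingHom.id_apply, Derivation.leibniz, Algebra.smul_def]
        change (b : K) • D x + x • D (b : K) = (b : K) * D x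
        rw [hD b b.2, smul_zero, add_zero, smul_eq_mul] }
    (fun a b => D.leibniz a b)
  have hD' : ∀ x, D' x = D x := fun _ => rfl
  have hinj : Function.Injective (algebraMap B K) := Subtype.coe_injective
  have : CharZero B := charZero_of_injective_algebraMap (algebraMap ℂ B).injective
  have key : ∀ n : ℕ, ∀ p : Polynomial B, p ≠ 0 → p.natDegree = n → Polynomial.aeval f p = 0 →
      D f = 0 := by
    intro n
    induction n using Nat.strong_induction_on with
    | _ n ih =>
      intro p hp hn h0
      have h1 := D'.map_aeval p f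
      rw [h0, map_zero, hD', smul_eq_mul] at h1
      by_cases h2 : Polynomial.aeval f (Polynomial.derivative p) = 0
      · by_cases h3 : Polynomial.derivative p = 0
        · exfalso
          have h4 := Polynomial.derivative_eq_zero.mp h3
          rw [Polynomial.eq_C_of_natDegree_eq_zero h4, Polynomial.aeval_C] at h0
          have h5 : p.coeff 0 = 0 := hinj (by rw [h0, map_zero])
          apply hp
          rw [Polynomial.eq_C_of_natDegree_eq_zero h4, h5, map_zero]
        · refine ih _ ?_ (Polynomial.derivative p) h3 rfl h2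
          rw [← hn]
          apply Polynomial.natDegree_derivative_lt
          intro h4
          apply h3
          rw [Polynomial.eq_C_of_natDegree_eq_zero h4, Polynomial.derivative_C]
      · rcases mul_eq_zero.mp h1.symm with h4 | h4
        · exact absurd h4 h2
        · exact h4
  obtain ⟨p, hp, h0⟩ := hf
  exact key _ p hp rfl h0

/-- A derivation which vanishes on a set vanishes on the elements algebraic over the algebra
generated by it. -/
theorem derAlg_zero_of_adjoin (S : Set K) (D : Derivation ℂ K K) (hD : ∀ b ∈ S, D b = 0) {f : K}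
    (hf : IsAlgebraic (Algebra.adjoin ℂ S) f) : D f = 0 := by
  refine derAlg_zero_of_subalgebra _ D (fun b hb => ?_) hf
  have h := Derivation.eqOn_adjoin (D1 := D) (D2 := 0) (s := S) (fun x hx => hD x hx) hb
  exact h

theorem derAlg_isTB {z : Fin 2 → K} : IsBase z ↔ IsTranscendenceBasis ℂ z :=
  isTranscendenceBasis_iff_algebraicIndependent_isAlgebraic.symm

theorem derAlg_pair {f w : K} : AlgebraicIndependent ℂ ![f, w] ↔
    Transcendental ℂ w ∧ ¬ IsAlgebraic (Algebra.adjoin ℂ {w}) f := by
  rw [AlgebraicIndependent.iff_transcendental_adjoin_image (0 : Fin 2)]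
  have h1 : ![f, w] '' {(0 : Fin 2)}ᶜ = {w} := by
    ext x
    constructor
    · rintro ⟨i, hi, rfl⟩
      fin_cases i
      · exact absurd rfl hi
      · rfl
    · rintro rfl
      exact ⟨1, by simp, rfl⟩
  rw [h1]
  have hs : Subsingleton {j : Fin 2 // j ≠ 0} := by
    constructor
    rintro ⟨a, ha⟩ ⟨b, hb⟩
    apply Subtype.ext
    change a = b
    omega
  rw [algebraicIndependent_singleton_iff (⟨1, by simp⟩ : {j : Fin 2 // j ≠ 0})]
  rfl

theorem derAlg_base_of {z : Fin 2 → K} (hz : IsBase z) {y : Fin 2 → K}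
    (hy : AlgebraicIndependent ℂ y) : IsBase y := by
  rw [derAlg_isTB] at hz ⊢
  apply hy.isTranscendenceBasis_of_trdeg_le_of_finite
  exact hz.cardinalMk_eq_trdeg.ge

/-- OV-5a: dual derivations exist. Proof: `MP_e52354_nt`'s `exists_derivation` (twice). -/
theorem exists_dual {z : Fin 2 → K} (hz : IsBase z) :
    ∃ dU dT : Derivation ℂ K K, IsDual z dU dT := by
  obtain ⟨h1, h2⟩ := hz
  obtain ⟨dU, hU⟩ := MP_e52354_nt.exists_derivation h1 ![1, 0]
  obtain ⟨dT, hT⟩ := MP_e52354_nt.exists_derivation h1 ![0, 1]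
  exact ⟨dU, dT, hU 0, hU 1, hT 0, hT 1⟩

/-- OV-5b: every derivation is a combination of the dual ones.
Proof: `E - E(z 0) • dU - E(z 1) • dT` vanishes on `z 0`, `z 1`, hence on `ℂ[z]`, hence (minimal
polynomial, characteristic zero) on every element algebraic over `ℂ[z]`. It is convenient to prove
first: a derivation of a field of characteristic zero which vanishes on a subalgebra `B` vanishes on
the elements algebraic over `B`. -/
theorem der_eq {z : Fin 2 → K} (hz : IsBase z) {dU dT : Derivation ℂ K K} (hd : IsDual z dU dT)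
    (E : Derivation ℂ K K) (f : K) : E f = E (z 0) * dU f + E (z 1) * dT f := by
  obtain ⟨h1, h2, h3, h4⟩ := hd
  have h5 : (E - E (z 0) • dU - E (z 1) • dT) f = 0 := by
    apply derAlg_zero_of_adjoin (Set.range z)
    · rintro _ ⟨i, rfl⟩
      fin_cases i
      · simp [h1, h3]
      · simp [h2, h4]
    · exact hz.2.isAlgebraic f
  simp only [Derivation.sub_apply, Derivation.smul_apply, smul_eq_mul] at h5
  linear_combination h5

/-- OV-5c: `dU` and `dT` commute. Proof: the commutator is a derivation which vanishes on `z`; use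
`der_eq`. -/
theorem der_comm {z : Fin 2 → K} (hz : IsBase z) {dU dT : Derivation ℂ K K}
    (hd : IsDual z dU dT) (f : K) : dU (dT f) = dT (dU f) := by
  have h := der_eq hz hd ⁅dU, dT⁆ f
  obtain ⟨h1, h2, h3, h4⟩ := hd
  simp only [Derivation.commutator_apply, h1, h2, h3, h4, map_zero, Derivation.map_one_eq_zero,
    sub_zero, zero_mul, add_zero] at h
  exact sub_eq_zero.mp h

/-- OV-5d: `f` is algebraic over `ℂ(u)` iff `∂f/∂τ = 0`.
Proof: `→` by the remark in `der_eq` (`dT` vanishes on `ℂ[u]`). `←`: if `f` is not algebraic over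
`ℂ[u]` then `![f, z 0]` is algebraically independent and, the transcendence degree being two, `K` is
algebraic over `ℂ[f, z 0]`; `dT` vanishes on `f` and on `z 0`, hence on `K`, contradiction with
`dT (z 1) = 1`. -/
theorem algOver_iff {z : Fin 2 → K} (hz : IsBase z) {dU dT : Derivation ℂ K K}
    (hd : IsDual z dU dT) (f : K) : AlgOver (z 0) f ↔ dT f = 0 := by
  obtain ⟨h1, h2, h3, h4⟩ := hd
  constructor
  · intro h
    refine derAlg_zero_of_adjoin {z 0} dT (fun b hb => ?_) h
    rw [Set.mem_singleton_iff.mp hb, h3]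
  · intro h
    by_contra hna
    have h5 : IsBase ![f, z 0] :=
      derAlg_base_of hz (derAlg_pair.mpr ⟨hz.1.transcendental 0, hna⟩)
    have h6 : dT (z 1) = 0 := by
      apply derAlg_zero_of_adjoin (Set.range ![f, z 0])
      · rintro _ ⟨i, rfl⟩
        fin_cases i
        · exact h
        · exact h3
      · exact h5.2.isAlgebraic (z 1)
    rw [h4] at h6
    exact one_ne_zero h6

/-- OV-5e: an element killed by both derivations is a constant. Proof: if `f` is transcendental over
`ℂ` then `![f, w]` is a transcendence basis for `w = z 0` or `w = z 1`; a derivation `E` with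
`E f = 1`, `E w = 0` exists by `exists_derivation`, but `E f = 0` by `der_eq`. So `f` is algebraic
over `ℂ`, hence in `ℂ`. -/
theorem isConst_of {z : Fin 2 → K} (hz : IsBase z) {dU dT : Derivation ℂ K K}
    (hd : IsDual z dU dT) {f : K} (h1 : dU f = 0) (h2 : dT f = 0) : IsConst f := by
  by_cases hf : IsAlgebraic ℂ f
  · have h3 : (minpoly ℂ f).degree = 1 :=
      IsAlgClosed.degree_eq_one_of_irreducible ℂ (minpoly.irreducible hf.isIntegral)
    obtain ⟨c, hc⟩ := minpoly.mem_range_of_degree_eq_one ℂ f h3
    exact ⟨c, hc.symm⟩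
  · exfalso
    have h3 : AlgebraicIndepOn ℂ (id : K → K) {f} := by
      rw [AlgebraicIndepOn, algebraicIndependent_singleton_iff (⟨f, rfl⟩ : ({f} : Set K))]
      exact hf
    have hu : Algebra.IsAlgebraic (Algebra.adjoin ℂ (Set.univ : Set K)) K :=
      ⟨fun x => isAlgebraic_algebraMap
        (⟨x, Algebra.subset_adjoin (Set.mem_univ x)⟩ : Algebra.adjoin ℂ (Set.univ : Set K))⟩
    obtain ⟨B, hfB, -, hB⟩ := exists_isTranscendenceBasis_between ({f} : Set K) Set.univ
      (Set.subset_univ _) h3
    have := hB.isAlgebraic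
    obtain ⟨E, hE⟩ := MP_e52354_nt.exists_derivation hB.1 (fun _ => (1 : K))
    have h4 : E f = 1 := hE ⟨f, hfB rfl⟩
    rw [der_eq hz hd E f, h1, h2, mul_zero, mul_zero, add_zero] at h4
    exact zero_ne_one h4

/-- OV-5f: change of basis. If `∂f/∂τ ≠ 0` then `(f, u)` is a transcendence basis.
Proof: by `algOver_iff` `f` is not algebraic over `ℂ[u]`. -/
theorem isBase_of_dT {z : Fin 2 → K} (hz : IsBase z) {dU dT : Derivation ℂ K K}
    (hd : IsDual z dU dT) {f : K} (h : dT f ≠ 0) : IsBase ![f, z 0] :=
  derAlg_base_of hz (derAlg_pair.mpr ⟨hz.1.transcendental 0,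
    fun h1 => h ((algOver_iff hz hd f).mp h1)⟩)

/-- OV-5g: change of basis. If `∂f/∂u ≠ 0` then `(f, τ)` is a transcendence basis. (Apply the
previous statement to `![z 1, z 0]` and the derivations `dT`, `dU`.) -/
theorem isBase_of_dU {z : Fin 2 → K} (hz : IsBase z) {dU dT : Derivation ℂ K K}
    (hd : IsDual z dU dT) {f : K} (h : dU f ≠ 0) : IsBase ![f, z 1] := by
  have h1 : IsBase ![z 1, z 0] := by
    apply derAlg_base_of hz
    have h2 : ![z 1, z 0] = z ∘ Equiv.swap (0 : Fin 2) 1 := by
      funext i
      fin_cases i <;> simp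
    rw [h2]
    exact hz.1.comp _ (Equiv.injective _)
  obtain ⟨h3, h4, h5, h6⟩ := hd
  exact isBase_of_dT (z := ![z 1, z 0]) (dU := dT) (dT := dU) h1 ⟨h6, h5, h4, h3⟩ h

/-- OV-5h: swapping. -/
theorem isBase_swap {a b : K} (h : IsBase ![a, b]) : IsBase ![b, a] := by
  apply derAlg_base_of h
  have h2 : ![b, a] = ![a, b] ∘ Equiv.swap (0 : Fin 2) 1 := by
    funext i
    fin_cases i <;> simp
  rw [h2]
  exact h.1.comp _ (Equiv.injective _)

end Pool.Agent.Lib.MP_209724_lc.OV
end

section

namespace Pool.Agent.Lib.MP_209724_lc.SC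

private theorem ff3_sum {k F : Type} [Field k] [Field F] [Algebra k F] {N : ℕ} (c : Fin N → F)
    (E : Fin N → Derivation k F F) (a : F) : (∑ j, c j • E j) a = ∑ j, c j * E j a := by
  have h : ∀ s : Finset (Fin N), (∑ j ∈ s, c j • E j) a = ∑ j ∈ s, c j * E j a := by
    intro s
    induction s using Finset.induction_on with
    | empty => rfl
    | insert j s hj ih =>
      rw [Finset.sum_insert hj, Finset.sum_insert hj, Derivation.add_apply, ih]
      rfl
  exact h _

/-- a derivation which vanishes on a transcendence basis vanishes -/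
private theorem ff3_zero {k F ι : Type} [Field k] [CharZero k] [Field F] [Algebra k F] {z : ι → F}
    (hz : Algebra.IsAlgebraic (Algebra.adjoin k (Set.range z)) F) (D : Derivation k F F)
    (hD : ∀ j, D (z j) = 0) : D = 0 := by
  let D' : Unit → Derivation k F F := fun _ => D
  have hle : Algebra.adjoin k (Set.range z) ≤ (consts D').toSubalgebra := by
    refine Algebra.adjoin_le ?_
    rintro _ ⟨j, rfl⟩
    exact mem_consts.2 fun _ => hD j
  have halg : Algebra.IsAlgebraic (consts D') F := by
    refine ⟨fun a => ?_⟩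
    exact IsAlgebraic.tower_top_of_subalgebra_le hle (hz.isAlgebraic a)
  have hchar : CharZero (consts D') := charZero_of_injective_algebraMap (algebraMap k (consts D')).injective
  have hsep : Algebra.IsSeparable (consts D') F := inferInstance
  have hun : Algebra.FormallyUnramified (consts D') F := Algebra.FormallyUnramified.of_isSeparable _ _
  have hsub : Subsingleton (KaehlerDifferential (consts D') F) := inferInstance
  have h1 : ∀ E : Derivation (consts D') F F, E = 0 := by
    intro E
    have h2 : E.liftKaehlerDifferential = 0 := by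
      ext x
      have : KaehlerDifferential.D (consts D') F x = 0 := Subsingleton.elim _ _
      simp [this]
    have h3 := Derivation.liftKaehlerDifferential_comp E
    rw [h2] at h3
    rw [← h3]
    ext x
    rfl
  ext a
  have h2 := h1 (toConsts D' ())
  have h3 : toConsts D' () a = 0 := by rw [h2]; rfl
  exact h3

/-- SC-24a: the derivations of `F / k` form a space of dimension the transcendence degree. Proof: a
transcendence basis `z : Fin N → F` (from `htd`), the dual derivations `E j` by
`MP_e52354_nt.exists_derivation`; `E - ∑ E(z_j) • E_j` kills `z`, hence everything algebraic over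
`k(z)`. -/
theorem exists_dual_basis {k F : Type} [Field k] [CharZero k] [Field F] [Algebra k F] {N : ℕ}
    (htd : Algebra.trdeg k F = (N : Cardinal)) :
    ∃ (z : Fin N → F) (E : Fin N → Derivation k F F), (∀ j j', E j (z j') = if j = j' then 1 else 0) ∧
      ∀ (D : Derivation k F F) (a : F), D a = ∑ j, D (z j) * E j a := by
  obtain ⟨s, hs⟩ := exists_isTranscendenceBasis k F
  have hc : Cardinal.mk s = Cardinal.mk (Fin N) := by
    rw [hs.cardinalMk_eq_trdeg, htd, Cardinal.mk_fin]
  obtain ⟨f⟩ := Cardinal.eq.1 hc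
  let z : Fin N → F := fun j => (f.symm j : F)
  have hr : Set.range z = Set.range ((↑) : s → F) := by
    ext a
    constructor
    · rintro ⟨j, rfl⟩
      exact ⟨f.symm j, rfl⟩
    · rintro ⟨b, rfl⟩
      exact ⟨f b, by simp [z]⟩
  have hind : AlgebraicIndependent k z := hs.1.comp _ f.symm.injective
  have halg : Algebra.IsAlgebraic (Algebra.adjoin k (Set.range z)) F := by
    rw [hr]
    exact hs.isAlgebraic
  have hex : ∀ j : Fin N, ∃ D : Derivation k F F, ∀ j', D (z j') = if j = j' then 1 else 0 := fun j =>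
    MP_e52354_nt.exists_derivation hind _
  choose E hE using hex
  refine ⟨z, E, hE, fun D a => ?_⟩
  have h1 : D - ∑ j, D (z j) • E j = 0 := by
    refine ff3_zero halg _ fun j => ?_
    rw [Derivation.sub_apply, ff3_sum]
    simp [hE]
  have h2 : (D - ∑ j, D (z j) • E j) a = 0 := by rw [h1]; rfl
  rw [Derivation.sub_apply, ff3_sum, sub_eq_zero] at h2
  exact h2

/-- SC-24b: existence of the dual family of the derivations compatible with `exp`.

Proof. With `z, E` from `exists_dual_basis` (`N = n + e`), a derivation `D = ∑ c_j • E_j`, `c ∈ F^N`, is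
compatible with `exp` iff the `n` linear equations `∑ c_j (E_j (y i) - y i * E_j (x i)) = 0` hold. The
solution space `S` has dimension at least `e`, and the linear map `S → (Fin e → F)`,
`c ↦ (∑ c_j E_j (g l))_l` is injective by `hg` (`∑ c_j • E_j = 0` implies `c = 0`, evaluate at `z`). So it
is bijective, and we can take the preimages of the unit vectors. -/
theorem exists_nabla {k F : Type} [Field k] [CharZero k] [Field F] [Algebra k F] {n e : ℕ}
    (x y : Fin n → F) (htd : Algebra.trdeg k F = ((n + e : ℕ) : Cardinal)) (g : Fin e → F)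
    (hg : ∀ D : Derivation k F F, (∀ i, D (y i) = y i * D (x i)) → (∀ l, D (g l) = 0) → D = 0) :
    ∃ D : Fin e → Derivation k F F, (∀ l i, D l (y i) = y i * D l (x i)) ∧
      ∀ l l', D l (g l') = if l = l' then 1 else 0 := by
  obtain ⟨z, E, hE, -⟩ := exists_dual_basis htd
  let T : (Fin (n + e) → F) →ₗ[F] (Fin n → F) × (Fin e → F) :=
    { toFun := fun c => (fun i => ∑ j, c j * (E j (y i) - y i * E j (x i)), fun l => ∑ j, c j * E j (g l))
      map_add' := fun c c' => by
        refine Prod.ext (funext fun i => ?_) (funext fun l => ?_)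
        · show ∑ j, (c j + c' j) * _ = (∑ j, c j * _) + ∑ j, c' j * _
          rw [← Finset.sum_add_distrib]
          exact Finset.sum_congr rfl fun j _ => by ring
        · show ∑ j, (c j + c' j) * _ = (∑ j, c j * _) + ∑ j, c' j * _
          rw [← Finset.sum_add_distrib]
          exact Finset.sum_congr rfl fun j _ => by ring
      map_smul' := fun r c => by
        refine Prod.ext (funext fun i => ?_) (funext fun l => ?_)
        · show ∑ j, (r * c j) * _ = r * ∑ j, c j * _
          rw [Finset.mul_sum]
          exact Finset.sum_congr rfl fun j _ => by ring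
        · show ∑ j, (r * c j) * _ = r * ∑ j, c j * _
          rw [Finset.mul_sum]
          exact Finset.sum_congr rfl fun j _ => by ring }
  have hcomp : ∀ (c : Fin (n + e) → F) (i : Fin n), ∑ j, c j * (E j (y i) - y i * E j (x i)) = 0 →
      (∑ j, c j • E j) (y i) = y i * (∑ j, c j • E j) (x i) := by
    intro c i h
    rw [ff3_sum, ff3_sum, Finset.mul_sum, ← sub_eq_zero, ← Finset.sum_sub_distrib, ← h]
    exact Finset.sum_congr rfl fun j _ => by ring
  have hT : Function.Injective T := by
    rw [← LinearMap.ker_eq_bot, LinearMap.ker_eq_bot']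
    intro c hc
    have h1 : ∀ i, ∑ j, c j * (E j (y i) - y i * E j (x i)) = 0 := fun i =>
      congrFun (congrArg Prod.fst hc) i
    have h2 : ∀ l, ∑ j, c j * E j (g l) = 0 := fun l => congrFun (congrArg Prod.snd hc) l
    have h3 : (∑ j, c j • E j) = 0 := hg _ (fun i => hcomp c i (h1 i)) fun l => by
      rw [ff3_sum]
      exact h2 l
    funext j
    have h4 : (∑ j, c j • E j) (z j) = 0 := by rw [h3]; rfl
    rw [ff3_sum] at h4
    simpa [hE] using h4
  have hs : Function.Surjective T := by
    refine (LinearMap.injective_iff_surjective_of_finrank_eq_finrank ?_).1 hT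
    simp
  choose c hc using fun l : Fin e => hs (0, fun l' => if l = l' then 1 else 0)
  refine ⟨fun l => ∑ j, c l j • E j, fun l i => hcomp (c l) i ?_, fun l l' => ?_⟩
  · exact congrFun (congrArg Prod.fst (hc l)) i
  · rw [ff3_sum]
    exact congrFun (congrArg Prod.snd (hc l)) l'

end Pool.Agent.Lib.MP_209724_lc.SC
end
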