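import Mathlib
import Pool.Agent.Lib.MP_209724_lc.SC.FF3
import Pool.Agent.Lib.MP_209724_lc.SC.Ed0
import Pool.Agent.Lib.MP_209724_lc.MV.Idem
import Pool.Agent.Lib.MP_209724_lc.MV.Branch
import Pool.Agent.Lib.MP_209724_lc.MV.Defs

section

/-!
Free and rotund tuples `(ξ, η)`.
-/

namespace Pool.Agent.Lib.MP_209724_lc.OV

open MvPolynomial AlgebraicIndependent

variable {Ω : Type} [Field Ω] [Algebra ℂ Ω] {n : ℕ}

/-- the linear form `∑ m_i ξ_i` -/
noncomputable def lin (m : Fin n → ℤ) (ξ : Fin n → Ω) : Ω :=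
  ∑ i, algebraMap ℂ Ω (m i : ℂ) * ξ i

/-- the monomial `∏ η_i ^ m_i` -/
noncomputable def mon (m : Fin n → ℤ) (η : Fin n → Ω) : Ω := ∏ i, η i ^ m i

/-- The point `(ξ, η)` generates a free variety of dimension `n`, which satisfies the conditions of
rotundity for the matrices of rank two. -/
structure FR (ξ η : Fin n → Ω) : Prop where
  ne : ∀ i, η i ≠ 0
  add : ∀ m : Fin n → ℤ, m ≠ 0 → ¬ IsConst (lin m ξ)
  mul : ∀ m : Fin n → ℤ, m ≠ 0 → ¬ IsConst (mon m η)
  rot : ∀ a b : Fin n → ℤ, LinearIndependent ℤ ![a, b] →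
    2 ≤ td {lin a ξ, lin b ξ, mon a η, mon b η}
  dim : td (Set.range ξ ∪ Set.range η) = n

theorem sum_mem_cl {s : Set Ω} {ι : Type*} (t : Finset ι) (f : ι → Ω) (h : ∀ i ∈ t, f i ∈ cl s) :
    ∑ i ∈ t, f i ∈ cl s :=
  (Cl s).sum_mem h

theorem prod_mem_cl {s : Set Ω} {ι : Type*} (t : Finset ι) (f : ι → Ω) (h : ∀ i ∈ t, f i ∈ cl s) :
    ∏ i ∈ t, f i ∈ cl s :=
  (Cl s).prod_mem h

theorem mul_mem_cl {s : Set Ω} {a b : Ω} (ha : a ∈ cl s) (hb : b ∈ cl s) : a * b ∈ cl s :=
  (Cl s).mul_mem ha hb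

theorem add_mem_cl {s : Set Ω} {a b : Ω} (ha : a ∈ cl s) (hb : b ∈ cl s) : a + b ∈ cl s :=
  (Cl s).add_mem ha hb

theorem sub_mem_cl {s : Set Ω} {a b : Ω} (ha : a ∈ cl s) (hb : b ∈ cl s) : a - b ∈ cl s :=
  (Cl s).sub_mem ha hb

theorem div_mem_cl {s : Set Ω} {a b : Ω} (ha : a ∈ cl s) (hb : b ∈ cl s) : a / b ∈ cl s :=
  (Cl s).div_mem ha hb

theorem inv_mem_cl {s : Set Ω} {a : Ω} (ha : a ∈ cl s) : a⁻¹ ∈ cl s :=
  (Cl s).inv_mem ha

theorem zpow_mem_cl {s : Set Ω} {a : Ω} (ha : a ∈ cl s) (k : ℤ) : a ^ k ∈ cl s :=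
  zpow_mem (S := IntermediateField ℂ Ω) (K := Cl s) ha k

theorem pow_mem_cl {s : Set Ω} {a : Ω} (ha : a ∈ cl s) (k : ℕ) : a ^ k ∈ cl s :=
  _root_.pow_mem (S := Cl s) ha k

theorem const_mem_cl (s : Set Ω) (c : ℂ) : algebraMap ℂ Ω c ∈ cl s :=
  (Cl s).algebraMap_mem c

theorem isConst_mem_cl {s : Set Ω} {a : Ω} (ha : IsConst a) : a ∈ cl s := by
  obtain ⟨c, rfl⟩ := ha
  exact const_mem_cl s c

theorem lin_mem_cl {s : Set Ω} {ξ : Fin n → Ω} (m : Fin n → ℤ) (h : ∀ i, ξ i ∈ cl s) :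
    lin m ξ ∈ cl s :=
  sum_mem_cl _ _ fun i _ => mul_mem_cl (const_mem_cl s _) (h i)

theorem mon_mem_cl {s : Set Ω} {η : Fin n → Ω} (m : Fin n → ℤ) (h : ∀ i, η i ∈ cl s) :
    mon m η ∈ cl s :=
  prod_mem_cl _ _ fun i _ => zpow_mem_cl (h i) _

theorem mem_cl_of_pow {s : Set Ω} {a : Ω} {N : ℕ} (hN : 0 < N) (h : a ^ N ∈ cl s) : a ∈ cl s := by
  apply mem_cl_of_isAlgebraic
  exact IsAlgebraic.of_pow hN (isAlgebraic_algebraMap (⟨_, h⟩ : Cl s))

/-- constants are the algebraic elements -/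
theorem isConst_iff {a : Ω} : IsConst a ↔ a ∈ cl ∅ := by
  constructor
  · exact isConst_mem_cl
  · intro h
    rw [mem_cl, Algebra.adjoin_empty] at h
    have h1 : IsAlgebraic ℂ a := h.restrictScalars ℂ
    have h2 : (minpoly ℂ a).degree = 1 :=
      IsAlgClosed.degree_eq_one_of_irreducible ℂ (minpoly.irreducible h1.isIntegral)
    obtain ⟨c, hc⟩ := minpoly.mem_range_of_degree_eq_one ℂ a h2
    exact ⟨c, hc.symm⟩

theorem mem_cl_of_td {s : Set Ω} {a : Ω} (hs : td s ≠ ⊤) (h : td (insert a s) ≤ td s) :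
    a ∈ cl s := by
  by_contra hcon
  rw [td_insert_eq hcon] at h
  obtain ⟨k, hk⟩ := ENat.ne_top_iff_exists.1 hs
  rw [← hk] at h
  have : ((k + 1 : ℕ) : ℕ∞) ≤ k := by exact_mod_cast h
  have := Nat.cast_le.1 this
  omega

theorem td_singleton {u : Ω} (hu : ¬ IsConst u) : td {u} = 1 := by
  have h := td_insert_eq (x := u) (s := ∅) (fun h => hu (isConst_iff.2 h))
  rw [td_empty, zero_add] at h
  simpa using h

theorem td_pair {u w : Ω} (hu : ¬ IsConst u) (hw : w ∉ cl {u}) : td {u, w} = 2 := by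
  rw [Set.pair_comm, td_insert_eq hw, td_singleton hu]
  norm_num

theorem not_mem_of_td_pair {u w : Ω} (h : td {u, w} = 2) : w ∉ cl {u} := by
  intro hw
  rw [Set.pair_comm, td_insert_of_mem hw] at h
  have := td_singleton_le u
  rw [h] at this
  exact absurd this (by decide)

theorem not_isConst_of_td_pair {u w : Ω} (h : td {u, w} = 2) : ¬ IsConst u := by
  intro hu
  rw [td_insert_of_mem (isConst_mem_cl hu)] at h
  have := td_singleton_le w
  rw [h] at this
  exact absurd this (by decide)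

/-- a set of transcendence degree one is contained in the closure of its nonconstant elements -/
theorem cl_eq_of_td_one {s : Set Ω} (hs : td s = 1) {u : Ω} (hu : u ∈ cl s)
    (huc : ¬ IsConst u) : cl {u} = cl s := by
  refine cl_eq_of_td (Set.singleton_subset_iff.2 hu) (by rw [hs]; decide) ?_
  rw [hs, td_singleton huc]

/-- a set of transcendence degree two is contained in the closure of its independent pairs -/
theorem cl_eq_of_td_two {s : Set Ω} (hs : td s = 2) {u w : Ω} (hu : u ∈ cl s) (hw : w ∈ cl s)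
    (huw : td {u, w} = 2) : cl {u, w} = cl s := by
  refine cl_eq_of_td ?_ (by rw [hs]; decide) ?_
  · rintro x (rfl | rfl)
    · exact hu
    · exact hw
  · rw [hs, huw]

end Pool.Agent.Lib.MP_209724_lc.OV
end

section

namespace Pool.Agent.Lib.MP_209724_lc.OV

open MvPolynomial AlgebraicIndependent

variable {Ω : Type} [Field Ω] [Algebra ℂ Ω] {n : ℕ}

/-- an independent subset of `s` gives a lower bound for the transcendence degree of `ℂ[s]` -/
private theorem mk_le_trdeg {b s : Set Ω} (hbs : b ⊆ s) (hb : (matroid ℂ Ω).Indep b) :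
    Cardinal.mk b ≤ Algebra.trdeg ℂ (Algebra.adjoin ℂ s) := by
  have hb' : AlgebraicIndependent ℂ (fun i : b => (i : Ω)) := matroid_indep_iff.1 hb
  let x : b → Algebra.adjoin ℂ s := fun i => ⟨i, Algebra.subset_adjoin (hbs i.2)⟩
  have hx : AlgebraicIndependent ℂ x :=
    AlgebraicIndependent.of_comp (Algebra.adjoin ℂ s).val hb'
  exact hx.cardinalMk_le_trdeg

/-- independent subsets of `ℂ[s]` have at most `td s` elements -/
private theorem encard_le_td {s : Set Ω} (t : Set (Algebra.adjoin ℂ s))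
    (ht : AlgebraicIndepOn ℂ id t) : t.encard ≤ td s := by
  have ht' : AlgebraicIndependent ℂ (fun i : t => (i : Algebra.adjoin ℂ s)) := ht
  have h1 : AlgebraicIndependent ℂ (fun i : t => ((i : Algebra.adjoin ℂ s) : Ω)) :=
    ht'.map' (f := (Algebra.adjoin ℂ s).val) Subtype.val_injective
  have h2 : AlgebraicIndepOn ℂ id (Subtype.val '' t : Set Ω) := by
    have h3 := h1.to_subtype_range
    have h4 : Set.range (fun i : t => ((i : Algebra.adjoin ℂ s) : Ω)) = Subtype.val '' t := by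
      ext y
      simp
    rw [h4] at h3
    exact h3
  have h5 : (matroid ℂ Ω).Indep (Subtype.val '' t : Set Ω) := matroid_indep_iff.2 h2
  have h6 : (Subtype.val '' t : Set Ω) ⊆ cl s := by
    rintro _ ⟨y, -, rfl⟩
    exact isAlgebraic_algebraMap y
  rw [← Subtype.val_injective.encard_image t, ← h5.eRk_eq_encard, ← td_cl s]
  exact td_mono h6

/-- OV-28a: `td` and the transcendence degree of the algebra generated by a set.

Proof: take a basis `b ⊆ s` of `s` in the matroid (`Matroid.exists_isBasis`); `b` has `n` elements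
(`Matroid.IsBasis.encard_eq_eRk`), it is algebraically independent and `s ⊆ cl b`
(`matroid_isBasis_iff`). So `b` is a transcendence basis of `Algebra.adjoin ℂ s`. (Or compare with
`Algebra.trdeg` of the field `Cl s`.) -/
theorem trdeg_adjoin (s : Set Ω) (h : td s = n) :
    Algebra.trdeg ℂ (Algebra.adjoin ℂ s) = n := by
  refine le_antisymm ?_ ?_
  · refine ciSup_le' fun t => ?_
    have h1 := encard_le_td t.1 t.2
    rw [h] at h1
    have hfin : t.1.Finite := Set.finite_of_encard_le_coe h1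
    rw [← hfin.cast_ncard_eq] at h1
    have h2 : t.1.ncard ≤ n := by exact_mod_cast h1
    rw [← Set.cast_ncard hfin]
    exact_mod_cast h2
  · obtain ⟨b, hb⟩ := (matroid ℂ Ω).exists_isBasis s
    have h1 : b.encard = n := by rw [hb.encard_eq_eRk, ← h]; rfl
    have hfin : b.Finite := Set.finite_of_encard_eq_coe h1
    have h2 := mk_le_trdeg hb.subset hb.indep
    rw [← hfin.cast_ncard_eq] at h1
    have h3 : b.ncard = n := by exact_mod_cast h1
    rw [← Set.cast_ncard hfin, h3] at h2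
    exact h2

private theorem td_ne_top (s : Set Ω) (h : Algebra.trdeg ℂ (Algebra.adjoin ℂ s) = n) :
    td s ≠ ⊤ := by
  intro htop
  obtain ⟨b, hb⟩ := (matroid ℂ Ω).exists_isBasis s
  have h1 : b.encard = ⊤ := by rw [hb.encard_eq_eRk, ← htop]; rfl
  have h2 : b.Infinite := Set.encard_eq_top_iff.1 h1
  have h3 := mk_le_trdeg hb.subset hb.indep
  rw [h] at h3
  have : Infinite b := h2.to_subtype
  exact absurd (h3.trans_lt Cardinal.natCast_lt_aleph0) (not_lt.2 (Cardinal.aleph0_le_mk b))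

/-- OV-28b: conversely. -/
theorem td_of_trdeg_adjoin (s : Set Ω) (h : Algebra.trdeg ℂ (Algebra.adjoin ℂ s) = n) :
    td s = n := by
  obtain ⟨m, hm⟩ := ENat.ne_top_iff_exists.1 (td_ne_top s h)
  have h1 := trdeg_adjoin s hm.symm
  rw [h] at h1
  have h2 : n = m := by exact_mod_cast h1
  rw [← hm, h2]

/-- OV-28c: inequalities. -/
theorem le_td_of_trdeg_adjoin (s : Set Ω) (h : (n : Cardinal) ≤ Algebra.trdeg ℂ (Algebra.adjoin ℂ s)) :
    (n : ℕ∞) ≤ td s := by
  by_cases htop : td s = ⊤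
  · rw [htop]
    exact le_top
  · obtain ⟨m, hm⟩ := ENat.ne_top_iff_exists.1 htop
    have h1 := trdeg_adjoin s hm.symm
    rw [h1] at h
    have h2 : n ≤ m := by exact_mod_cast h
    rw [← hm]
    exact_mod_cast h2

/-- OV-28d: a family whose transcendence degree is its length is algebraically independent. -/
theorem algebraicIndependent_of_td_range (ξ : Fin n → Ω) (h : td (Set.range ξ) = n) :
    AlgebraicIndependent ℂ ξ := by
  obtain ⟨b, hb⟩ := (matroid ℂ Ω).exists_isBasis (Set.range ξ)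
  have h1 : b.encard = n := by rw [hb.encard_eq_eRk, ← h]; rfl
  have huniv : (Set.univ : Set (Fin n)).encard = n := by simp
  have h2 : (Set.range ξ).encard ≤ n := by
    rw [← Set.image_univ, ← huniv]
    exact Set.encard_image_le _ _
  have hfin : (Set.range ξ).Finite := Set.finite_range ξ
  have h3 : b = Set.range ξ := (hfin.subset hb.subset).eq_of_subset_of_encard_le hb.subset
    (by rw [h1]; exact h2)
  have hinj : Function.Injective ξ := by
    have h4 : (ξ '' Set.univ).encard = (Set.univ : Set (Fin n)).encard := by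
      rw [Set.image_univ, ← h3, h1, huniv]
    have h5 := Set.finite_univ.injOn_of_encard_image_eq h4
    exact Set.injOn_univ.1 h5
  have h6 := hb.indep
  rw [h3] at h6
  exact (algebraicIndependent_subtype_range hinj).1 (matroid_indep_iff.1 h6)

end Pool.Agent.Lib.MP_209724_lc.OV
end

section

namespace Pool.Agent.Lib.MP_209724_lc.SC

open MvPolynomial Metric

/-- the map which straightens the curve -/
private noncomputable def Ed4Th {k : Type} [Field k] [Algebra k ℂ] {m r : ℕ}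
    (F : Fin r → MvPolynomial (Fin m ⊕ Fin m) k) (J : Fin r → Fin m) (v : Fin m → ℂ) : Fin m → ℂ :=
  Function.extend J (fun j => expG (F j) v) v

/-- the derivative -/
private noncomputable def Ed4L {k : Type} [Field k] [Algebra k ℂ] {m r : ℕ}
    (F : Fin r → MvPolynomial (Fin m ⊕ Fin m) k) (J : Fin r → Fin m) (P : Fin m → ℂ) :
    (Fin m → ℂ) →L[ℂ] (Fin m → ℂ) :=
  ContinuousLinearMap.pi (Function.extend J
    (fun j => ∑ i, expG (eD i (F j)) P • (ContinuousLinearMap.proj i : (Fin m → ℂ) →L[ℂ] ℂ))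
    fun i => ContinuousLinearMap.proj i)

private theorem ed4_contDiff {k : Type} [Field k] [Algebra k ℂ] {m r : ℕ}
    (F : Fin r → MvPolynomial (Fin m ⊕ Fin m) k) {J : Fin r → Fin m} (hJ : Function.Injective J) :
    ContDiff ℂ 1 (Ed4Th F J) := by
  rw [contDiff_pi]
  intro i
  by_cases h : ∃ j, J j = i
  · obtain ⟨j, rfl⟩ := h
    have h1 : (fun v => Ed4Th F J v (J j)) = expG (F j) := by
      funext v
      exact hJ.extend_apply _ _ j
    rw [h1]
    exact contDiff_expG (F j) 1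
  · have h1 : (fun v => Ed4Th F J v i) = fun v => v i := by
      funext v
      exact Function.extend_apply' _ _ _ h
    rw [h1]
    exact contDiff_apply ℂ ℂ i

private theorem ed4_hasFDerivAt {k : Type} [Field k] [Algebra k ℂ] {m r : ℕ}
    (F : Fin r → MvPolynomial (Fin m ⊕ Fin m) k) {J : Fin r → Fin m} (hJ : Function.Injective J)
    (P : Fin m → ℂ) : HasFDerivAt (Ed4Th F J) (Ed4L F J P) P := by
  refine hasFDerivAt_pi.2 fun i => ?_
  by_cases h : ∃ j, J j = i
  · obtain ⟨j, rfl⟩ := h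
    have h1 : (fun v => Ed4Th F J v (J j)) = expG (F j) := by
      funext v
      exact hJ.extend_apply _ _ j
    rw [h1, hJ.extend_apply]
    exact (hasStrictFDerivAt_expG (F j) P).hasFDerivAt
  · have h1 : (fun v => Ed4Th F J v i) = fun v => v i := by
      funext v
      exact Function.extend_apply' _ _ _ h
    rw [h1, Function.extend_apply' _ _ _ h]
    exact (ContinuousLinearMap.proj i : (Fin m → ℂ) →L[ℂ] ℂ).hasFDerivAt

private theorem ed4_inj {k : Type} [Field k] [Algebra k ℂ] {m r : ℕ}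
    (F : Fin r → MvPolynomial (Fin m ⊕ Fin m) k) {J : Fin r → Fin m} (hJ : Function.Injective J)
    (P : Fin m → ℂ) (hdet : Matrix.det (fun a b => expG (eD (J b) (F a)) P) ≠ 0) :
    Function.Injective (Ed4L F J P : (Fin m → ℂ) →ₗ[ℂ] (Fin m → ℂ)) := by
  rw [← LinearMap.ker_eq_bot, LinearMap.ker_eq_bot']
  intro w hw
  have h1 : ∀ i, (¬∃ j, J j = i) → w i = 0 := by
    intro i h
    have h2 : Ed4L F J P w i = 0 := congrFun hw i
    have h3 : Ed4L F J P w i = w i := by
      show (Function.extend J _ _ i : (Fin m → ℂ) →L[ℂ] ℂ) w = w i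
      rw [Function.extend_apply' _ _ _ h]
      rfl
    rw [← h3, h2]
  have h4 : (Matrix.of fun a b => expG (eD (J b) (F a)) P).mulVec (fun b => w (J b)) = 0 := by
    funext a
    have h2 : Ed4L F J P w (J a) = 0 := congrFun hw (J a)
    have h3 : Ed4L F J P w (J a) = ∑ i, expG (eD i (F a)) P * w i := by
      show (Function.extend J _ _ (J a) : (Fin m → ℂ) →L[ℂ] ℂ) w = _
      rw [hJ.extend_apply, ContinuousLinearMap.sum_apply]
      rfl
    have h5 : ∑ i, expG (eD i (F a)) P * w i = ∑ b, expG (eD (J b) (F a)) P * w (J b) := by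
      rw [← Finset.sum_subset (Finset.subset_univ (Finset.univ.map ⟨J, hJ⟩)), Finset.sum_map]
      · rfl
      · intro i _ hi
        rw [h1 i, mul_zero]
        rintro ⟨j, rfl⟩
        exact hi (Finset.mem_map_of_mem ⟨J, hJ⟩ (Finset.mem_univ j))
    show ∑ b, expG (eD (J b) (F a)) P * w (J b) = 0
    rw [← h5, ← h3, h2]
  have h6 := Matrix.eq_zero_of_mulVec_eq_zero (M := Matrix.of fun a b => expG (eD (J b) (F a)) P) hdet h4
  funext i
  by_cases h : ∃ j, J j = i
  · obtain ⟨j, rfl⟩ := h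
    exact congrFun h6 j
  · exact h1 i h

/-- SC-14: the implicit function theorem along lines.

Proof. `J` is injective (a determinant with two equal columns vanishes). Let
`Θ : (Fin m → ℂ) → (Fin m → ℂ)`: for `i = J j` the coordinate `Θ(v) i` is `expG (F j) v`, for
`i ∉ range J` it is `v i`. It is smooth (`contDiff_expG`) and its derivative at `P` is invertible
(block triangular matrix with the block `(expG (eD (J b) (F a)) P)` and an identity). By the inverse
function theorem (`ContDiffAt.toOpenPartialHomeomorph`, `ContDiffAt.to_localInverse`) there are an open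
neighbourhood `U` of `Θ(P)` and `Ψ : U → (Fin m → ℂ)` differentiable with `Θ (Ψ w) = w`,
`Ψ (Θ P) = P`; after shrinking `U` also `det ≠ 0` at `Ψ w`. Let `2 ε` be the radius of a ball around
`Θ(P)` contained in `U`. For `‖c‖ < ε` put `v τ = Ψ (w τ)` with `w τ i = 0` for `i ∈ range J`
(`= Θ(P) i`) and `w τ i = P i + τ c i` for `i ∉ range J`. -/
theorem exists_curve {k : Type} [Field k] [Algebra k ℂ] {m r : ℕ}
    (F : Fin r → MvPolynomial (Fin m ⊕ Fin m) k) (J : Fin r → Fin m) (P : Fin m → ℂ)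
    (hF : ∀ j, expG (F j) P = 0)
    (hdet : Matrix.det (fun a b => expG (eD (J b) (F a)) P) ≠ 0) :
    ∃ ε > 0, ∀ c : Fin m → ℂ, ‖c‖ < ε → ∃ v : ℂ → Fin m → ℂ,
      DifferentiableOn ℂ v (ball 0 2) ∧ v 0 = P ∧
        ∀ τ ∈ ball (0 : ℂ) 2, (∀ i, i ∉ Set.range J → v τ i = P i + τ * c i) ∧
          (∀ j, expG (F j) (v τ) = 0) ∧
          Matrix.det (fun a b => expG (eD (J b) (F a)) (v τ)) ≠ 0 := by
  have hJ : Function.Injective J := by
    intro a b hab
    by_contra hne
    exact hdet (Matrix.det_zero_of_column_eq hne fun i => by rw [hab])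
  have hinj := ed4_inj F hJ P hdet
  set e : (Fin m → ℂ) ≃L[ℂ] (Fin m → ℂ) :=
    (LinearEquiv.ofInjectiveEndo (Ed4L F J P : (Fin m → ℂ) →ₗ[ℂ] (Fin m → ℂ)) hinj).toContinuousLinearEquiv
    with he
  have he' : (e : (Fin m → ℂ) →L[ℂ] (Fin m → ℂ)) = Ed4L F J P := by
    ext1 w
    rfl
  have hf : ContDiffAt ℂ 1 (Ed4Th F J) P := (ed4_contDiff F hJ).contDiffAt
  have hf' : HasFDerivAt (Ed4Th F J) (e : (Fin m → ℂ) →L[ℂ] (Fin m → ℂ)) P := by
    rw [he']
    exact ed4_hasFDerivAt F hJ P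
  set Ψ := hf.localInverse hf' one_ne_zero with hΨ
  have hΨP : Ψ (Ed4Th F J P) = P := hf.localInverse_apply_image hf' one_ne_zero
  have hcd : ContDiffAt ℂ 1 Ψ (Ed4Th F J P) := hf.to_localInverse hf' one_ne_zero
  have ev1 : ∀ᶠ w in nhds (Ed4Th F J P), ContDiffAt ℂ 1 Ψ w := hcd.eventually (by simp)
  have ev2 : ∀ᶠ w in nhds (Ed4Th F J P), Ed4Th F J (Ψ w) = w :=
    (hf.hasStrictFDerivAt' hf' one_ne_zero).eventually_right_inverse
  have ev3 : ∀ᶠ w in nhds (Ed4Th F J P), Matrix.det (fun a b => expG (eD (J b) (F a)) (Ψ w)) ≠ 0 := by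
    have hc : ContinuousAt (fun w => Matrix.det (fun a b => expG (eD (J b) (F a)) (Ψ w))) (Ed4Th F J P) := by
      have h1 : Continuous fun v : Fin m → ℂ => Matrix.det (fun a b => expG (eD (J b) (F a)) v) := by
        refine Continuous.matrix_det ?_
        refine continuous_pi fun a => continuous_pi fun b => ?_
        exact (contDiff_expG (eD (J b) (F a)) 0).continuous
      exact h1.continuousAt.comp hcd.continuousAt
    refine hc.eventually_ne ?_
    rw [hΨP]
    exact hdet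
  obtain ⟨ε₀, hε₀, hball⟩ := Metric.eventually_nhds_iff.1 (ev1.and (ev2.and ev3))
  refine ⟨ε₀ / 2, half_pos hε₀, fun c hc => ?_⟩
  set w : ℂ → Fin m → ℂ := fun τ => Function.extend J (fun _ => (0 : ℂ)) (fun i => P i + τ * c i) with hw
  have hwJ : ∀ τ j, w τ (J j) = 0 := fun τ j => hJ.extend_apply _ _ j
  have hwi : ∀ τ i, (¬∃ j, J j = i) → w τ i = P i + τ * c i := fun τ i h => Function.extend_apply' _ _ _ h
  have hΘJ : ∀ v j, Ed4Th F J v (J j) = expG (F j) v := fun v j => hJ.extend_apply _ _ j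
  have hΘi : ∀ v i, (¬∃ j, J j = i) → Ed4Th F J v i = v i := fun v i h => Function.extend_apply' _ _ _ h
  have hdist : ∀ τ ∈ ball (0 : ℂ) 2, dist (w τ) (Ed4Th F J P) < ε₀ := by
    intro τ hτ
    rw [dist_pi_lt_iff hε₀]
    intro i
    by_cases h : ∃ j, J j = i
    · obtain ⟨j, rfl⟩ := h
      rw [hwJ, hΘJ, hF, dist_self]
      exact hε₀
    · rw [hwi τ i h, hΘi P i h, dist_eq_norm, add_sub_cancel_left, norm_mul]
      rw [mem_ball, dist_zero_right] at hτ
      have h1 : ‖c i‖ ≤ ‖c‖ := norm_le_pi_norm c i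
      have h2 : ‖τ‖ * ‖c i‖ ≤ 2 * ‖c‖ := mul_le_mul hτ.le h1 (norm_nonneg _) zero_le_two
      linarith
  refine ⟨fun τ => Ψ (w τ), ?_, ?_, ?_⟩
  · intro τ hτ
    have h1 := (hball (hdist τ hτ)).1.differentiableAt one_ne_zero
    have h2 : DifferentiableAt ℂ w τ := by
      refine differentiableAt_pi.2 fun i => ?_
      by_cases h : ∃ j, J j = i
      · obtain ⟨j, rfl⟩ := h
        have h3 : (fun τ => w τ (J j)) = fun _ => (0 : ℂ) := funext fun τ => hwJ τ j
        rw [h3]
        exact differentiableAt_const _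
      · have h3 : (fun τ => w τ i) = fun τ => P i + τ * c i := funext fun τ => hwi τ i h
        rw [h3]
        exact (differentiableAt_id.mul_const _).const_add _
    exact (h1.comp τ h2).differentiableWithinAt
  · have h1 : w 0 = Ed4Th F J P := by
      funext i
      by_cases h : ∃ j, J j = i
      · obtain ⟨j, rfl⟩ := h
        rw [hwJ, hΘJ, hF]
      · rw [hwi 0 i h, hΘi P i h, zero_mul, add_zero]
    show Ψ (w 0) = P
    rw [h1, hΨP]
  · intro τ hτ
    obtain ⟨-, h2, h3⟩ := hball (hdist τ hτ)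
    refine ⟨fun i hi => ?_, fun j => ?_, h3⟩
    · have hi' : ¬∃ j, J j = i := hi
      show Ψ (w τ) i = _
      rw [← hΘi (Ψ (w τ)) i hi', h2, hwi τ i hi']
    · show expG (F j) (Ψ (w τ)) = 0
      rw [← hΘJ (Ψ (w τ)) j, h2, hwJ]

end Pool.Agent.Lib.MP_209724_lc.SC
end

section

namespace Pool.Agent.Lib.MP_209724_lc.HS

open MvPolynomial Filter Topology Metric
open MV (lead)

theorem lead_zero {σ : Type*} : lead (0 : MvPolynomial σ ℂ) = 0 := by simp [lead]

theorem lead_mul {σ : Type*} (p q : MvPolynomial σ ℂ) : lead (p * q) = lead p * lead q := by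
  rcases eq_or_ne p 0 with rfl | hp
  · simp [lead_zero]
  rcases eq_or_ne q 0 with rfl | hq
  · simp [lead_zero]
  apply MvPolynomial.funext
  intro v
  have hdeg : (p * q).totalDegree = p.totalDegree + q.totalDegree :=
    totalDegree_mul_of_isDomain hp hq
  have hc : ∀ (r : MvPolynomial σ ℂ) (d : ℕ), Continuous (fun h : ℂ => MV.asymResc r d h v) :=
    fun r d => (MV.continuous_asymResc r d).comp (by fun_prop : Continuous fun h : ℂ => (h, v))
  have h1 : ∀ h : ℂ, h ≠ 0 → MV.asymResc (p * q) (p.totalDegree + q.totalDegree) h v =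
      MV.asymResc p p.totalDegree h v * MV.asymResc q q.totalDegree h v := by
    intro h hh
    have h2 := MV.eval_eq_asymResc (p * q) hdeg (inv_ne_zero hh) v
    rw [map_mul, MV.eval_eq_asymResc p rfl (inv_ne_zero hh) v,
      MV.eval_eq_asymResc q rfl (inv_ne_zero hh) v, inv_inv, pow_add] at h2
    have h3 : (h⁻¹ : ℂ) ^ p.totalDegree ≠ 0 := pow_ne_zero _ (inv_ne_zero hh)
    have h4 : (h⁻¹ : ℂ) ^ q.totalDegree ≠ 0 := pow_ne_zero _ (inv_ne_zero hh)
    apply mul_left_cancel₀ (mul_ne_zero h3 h4)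
    rw [← h2]
    ring
  have h5 : MV.asymResc (p * q) (p.totalDegree + q.totalDegree) 0 v =
      MV.asymResc p p.totalDegree 0 v * MV.asymResc q q.totalDegree 0 v := by
    have hd : Dense {h : ℂ | h ≠ 0} := dense_compl_singleton 0
    have := Continuous.ext_on hd (hc (p * q) _) ((hc p _).mul (hc q _)) (fun h hh => h1 h hh)
    exact congrFun this 0
  rw [MV.asymResc_zero, MV.asymResc_zero, MV.asymResc_zero, ← hdeg] at h5
  rw [map_mul]
  exact h5

theorem lead_prod {σ ι : Type*} (s : Finset ι) (p : ι → MvPolynomial σ ℂ) :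
    lead (∏ i ∈ s, p i) = ∏ i ∈ s, lead (p i) := by
  classical
  induction s using Finset.induction_on with
  | empty =>
    simp only [Finset.prod_empty]
    have : (1 : MvPolynomial σ ℂ) = C 1 := rfl
    rw [lead, this, totalDegree_C, homogeneousComponent_zero, coeff_C, if_pos rfl]
  | insert a s ha ih => rw [Finset.prod_insert ha, lead_mul, ih, Finset.prod_insert ha]

/-- uniform asymptotics of a polynomial along dilations -/
theorem eval_dil {σ : Type*} [Fintype σ] (c : MvPolynomial σ ℂ) (w : σ → ℂ)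
    (hw : eval w (lead c) ≠ 0) : ∃ ε Λ C : ℝ, 0 < ε ∧ 0 < C ∧ ∀ s : ℂ, Λ < s.re →
      ∀ v ∈ ball w ε, C⁻¹ * Real.exp (c.totalDegree * s.re) ≤ ‖eval (fun i => Complex.exp s * v i) c‖ ∧
        ‖eval (fun i => Complex.exp s * v i) c‖ ≤ C * Real.exp (c.totalDegree * s.re) := by
  set d := c.totalDegree with hd
  have hcont := MV.continuous_asymResc c d
  have h0 : MV.asymResc c d 0 w ≠ 0 := by rw [MV.asymResc_zero]; exact hw
  set a := ‖MV.asymResc c d 0 w‖ with ha
  have ha0 : 0 < a := norm_pos_iff.mpr h0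
  have hnhds : ∀ᶠ p in 𝓝 ((0 : ℂ), w), a / 2 < ‖MV.asymResc c d p.1 p.2‖ ∧
      ‖MV.asymResc c d p.1 p.2‖ < 2 * a := by
    have h1 : ContinuousAt (fun p : ℂ × (σ → ℂ) => ‖MV.asymResc c d p.1 p.2‖) ((0 : ℂ), w) :=
      hcont.norm.continuousAt
    have h2 : a / 2 < a := by linarith
    have h3 : a < 2 * a := by linarith
    exact (h1.eventually_const_lt h2).and (h1.eventually_lt_const h3)
  rw [Metric.eventually_nhds_iff] at hnhds
  obtain ⟨ε, hε, h⟩ := hnhds
  refine ⟨ε, -Real.log ε, max (2 * a) (2 / a), hε, by positivity, ?_⟩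
  intro s hs v hv
  have hes : (Complex.exp s)⁻¹ = Complex.exp (-s) := (Complex.exp_neg s).symm
  have hsmall : ‖Complex.exp (-s)‖ < ε := by
    rw [Complex.norm_exp, Complex.neg_re]
    calc Real.exp (-s.re) < Real.exp (Real.log ε) := Real.exp_lt_exp.mpr (by linarith)
      _ = ε := Real.exp_log hε
  have h1 := h (y := (Complex.exp (-s), v)) (by
    rw [Prod.dist_eq, max_lt_iff]
    refine ⟨?_, hv⟩
    rw [dist_zero_right]
    exact hsmall)
  have h2 := MV.eval_eq_asymResc c hd.symm (Complex.exp_ne_zero s) v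
  rw [h2, hes, norm_mul, norm_pow, Complex.norm_exp, ← Real.exp_nat_mul]
  have hE := Real.exp_pos (d * s.re)
  constructor
  · have h3 : (max (2 * a) (2 / a))⁻¹ ≤ a / 2 := by
      rw [inv_le_comm₀ (by positivity) (by positivity)]
      calc (a / 2)⁻¹ = 2 / a := by rw [inv_div]
        _ ≤ _ := le_max_right _ _
    rw [mul_comm]
    exact mul_le_mul_of_nonneg_left (h3.trans h1.1.le) hE.le
  · rw [mul_comm]
    exact mul_le_mul_of_nonneg_right (h1.2.le.trans (le_max_left _ _)) hE.le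

end Pool.Agent.Lib.MP_209724_lc.HS
end

section

/-!
Definitions for the theorem on fibrations in curves over hypersurfaces (all ends).
-/

namespace Pool.Agent.Lib.MP_209724_lc.HS

open MvPolynomial Filter Topology Metric
open MV (lead evT glue)
open GC (evM)

/-- The domain `{(v, s) : |v - w| < ε, Re s > Λ}`; the point `(v, s)` stands for `exp s • v`. -/
def Dil {ι : Type*} [Fintype ι] (w : ι → ℂ) (ε Λ : ℝ) : Set ((ι → ℂ) × ℂ) :=
  ball w ε ×ˢ {s : ℂ | Λ < s.re}

/-- `Φ` is an analytic family of homomorphisms `A → ℂ` over `U`, with `z ↦ exp s • v`. -/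
def IsFam {ι M : Type*} [Fintype ι] [Field M] [Algebra ℂ M] (z : ι → M) (A : Subalgebra ℂ M)
    (hzA : ∀ i, z i ∈ A) (U : Set ((ι → ℂ) × ℂ)) (Φ : (ι → ℂ) × ℂ → (A →ₐ[ℂ] ℂ)) : Prop :=
  (∀ p ∈ U, ∀ i, Φ p ⟨z i, hzA i⟩ = Complex.exp p.2 * p.1 i) ∧
    ∀ x : A, AnalyticOnNhd ℂ (fun p => Φ p x) U

/-- The purely imaginary vector `2πi β`. -/
noncomputable def ipt {ι : Type*} (β : ι → ℝ) : ι → ℂ := fun i => 2 * Real.pi * Complex.I * β i

/-- The tropical condition at `ρ` for the relation `f` with coefficients in `ℂ[ξ]`. -/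
def TropAt {n : ℕ} {L : Type*} [Field L] [Algebra ℂ L] (ξ : Fin n → L)
    (f : MvPolynomial (Fin n) (MvPolynomial (Fin n) ℂ)) (ρ : Fin n → ℝ) : Prop :=
  ∀ m, aeval ξ (f.coeff m) ≠ 0 → ∃ m', m' ≠ m ∧ aeval ξ (f.coeff m') ≠ 0 ∧
    ∑ i, ρ i * (m' i : ℝ) ≤ ∑ i, ρ i * (m i : ℝ)

/-- The domain `|x - 2πi m₀| < ρ`, `|Im ζ - φ| < c₀`, `|Re ζ| < R`. -/
def Dom {ι : Type} [Fintype ι] (m₀ : ι → ℤ) (ρ c₀ φ R : ℝ) : Set ((ι → ℂ) × ℂ) :=
  ball (ipt fun j => (m₀ j : ℝ)) ρ ×ˢ {ζ : ℂ | |ζ.im - φ| < c₀ ∧ |ζ.re| < R}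

/-- The conclusion of the region lemmas: there are large balls with purely imaginary centre on
which `b(x, exp (K σ))` is not too small and `σ` is small compared with the radius. -/
def Region {ι M : Type} [Fintype ι] [Field M] [Algebra ℂ M] (A : Subalgebra ℂ M)
    (σ : A) (b : Polynomial (MvPolynomial ι ℂ)) (K : ℕ) (w : ι → ℂ) (ε₀ Λ₀ : ℝ)
    (Φ : (ι → ℂ) × ℂ → (A →ₐ[ℂ] ℂ)) : Prop :=
  ∃ ε₁ : ℝ, 0 < ε₁ ∧ ∀ δ : ℝ, 0 < δ → ∃ᶠ N : ℕ in atTop, ∃ (s : ℂ) (β : ι → ℝ),
    s.re = Real.log N ∧ ∀ x ∈ ball (ipt β) (ε₁ * N), (Complex.exp (-s) • x, s) ∈ Dil w ε₀ Λ₀ ∧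
      Real.exp (-(δ * N)) ≤ ‖evT x (Complex.exp (K * Φ (Complex.exp (-s) • x, s) σ)) b‖ ∧
      ‖Φ (Complex.exp (-s) • x, s) σ‖ ≤ δ * N

theorem isOpen_dil {ι : Type*} [Fintype ι] (w : ι → ℂ) (ε Λ : ℝ) : IsOpen (Dil w ε Λ) :=
  isOpen_ball.prod (isOpen_lt continuous_const Complex.continuous_re)

theorem convex_dil {ι : Type*} [Fintype ι] (w : ι → ℂ) (ε Λ : ℝ) : Convex ℝ (Dil w ε Λ) :=
  (convex_ball w ε).prod (convex_halfSpace_re_gt Λ)

theorem mem_dil {ι : Type*} [Fintype ι] {w : ι → ℂ} {ε Λ : ℝ} {p : (ι → ℂ) × ℂ} :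
    p ∈ Dil w ε Λ ↔ p.1 ∈ ball w ε ∧ Λ < p.2.re := Iff.rfl

theorem dil_mono {ι : Type*} [Fintype ι] {w : ι → ℂ} {ε ε' Λ Λ' : ℝ} (h : ε' ≤ ε) (h' : Λ ≤ Λ') :
    Dil w ε' Λ' ⊆ Dil w ε Λ :=
  fun _ hp => ⟨ball_subset_ball h hp.1, lt_of_le_of_lt h' hp.2⟩

end Pool.Agent.Lib.MP_209724_lc.HS
end

section

namespace Pool.Agent.Lib.MP_209724_lc.SC

open MvPolynomial

private theorem ed3_countable_mv (k : Type) [Field k] [Countable k] (m : ℕ) :
    Countable (MvPolynomial (Fin m ⊕ Fin m) k) := by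
  rw [← Cardinal.mk_le_aleph0_iff]
  refine (MvPolynomial.cardinalMk_le_max (σ := Fin m ⊕ Fin m) (R := k)).trans ?_
  refine max_le (max_le ?_ ?_) le_rfl
  · exact Cardinal.mk_le_aleph0
  · exact Cardinal.mk_le_aleph0

/-- The set of nondegenerate zeros with prescribed remaining coordinates. -/
private def ed3Z {k : Type} [Field k] [Algebra k ℂ] {m r : ℕ} (F : Fin r → MvPolynomial (Fin m ⊕ Fin m) k)
    (J : Fin r → Fin m) (s : Fin m → ℂ) : Set (Fin m → ℂ) :=
  {v | (∀ j, expG (F j) v = 0) ∧ Matrix.det (fun a b => expG (eD (J b) (F a)) v) ≠ 0 ∧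
    ∀ i, i ∉ Set.range J → v i = s i}

private theorem ed3_discrete {k : Type} [Field k] [Algebra k ℂ] {m r : ℕ}
    (F : Fin r → MvPolynomial (Fin m ⊕ Fin m) k) (J : Fin r → Fin m) (s : Fin m → ℂ) :
    DiscreteTopology (ed3Z F J s) := by
  classical
  rw [discreteTopology_subtype_iff]
  intro v hv
  rw [Filter.inf_principal_eq_bot]
  obtain ⟨h1, h2, h3⟩ := hv
  -- the map
  let L1 : (Fin m → ℂ) →L[ℂ] (Fin r → ℂ) := ContinuousLinearMap.pi fun j =>
    ∑ i, expG (eD i (F j)) v • (ContinuousLinearMap.proj i : (Fin m → ℂ) →L[ℂ] ℂ)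
  let L2 : (Fin m → ℂ) →L[ℂ] (Fin m → ℂ) := ContinuousLinearMap.pi fun i =>
    if i ∈ Set.range J then 0 else (ContinuousLinearMap.proj i : (Fin m → ℂ) →L[ℂ] ℂ)
  have hd1 : HasFDerivAt (fun (v' : Fin m → ℂ) (j : Fin r) => expG (F j) v') L1 v :=
    hasFDerivAt_pi.2 fun j => (hasStrictFDerivAt_expG (F j) v).hasFDerivAt
  have hd2 : HasFDerivAt (fun v' : Fin m → ℂ => L2 v') L2 v := L2.hasFDerivAt
  have hd := hd1.prodMk hd2
  have hker : LinearMap.ker (L1.prod L2 : (Fin m → ℂ) →ₗ[ℂ] (Fin r → ℂ) × (Fin m → ℂ)) = ⊥ := by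
    rw [LinearMap.ker_eq_bot']
    intro w hw
    have hw1 : L1 w = 0 := congrArg Prod.fst hw
    have hw2 : L2 w = 0 := congrArg Prod.snd hw
    have hw3 : ∀ i, i ∉ Set.range J → w i = 0 := by
      intro i hi
      have h4 := congrFun hw2 i
      simp only [L2, ContinuousLinearMap.coe_pi', if_neg hi, ContinuousLinearMap.proj_apply,
        Pi.zero_apply] at h4
      exact h4
    have hJ : Function.Injective J := by
      intro a b hab
      by_contra hne
      apply h2
      refine Matrix.det_zero_of_column_eq hne ?_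
      intro i
      show expG (eD (J a) (F i)) v = expG (eD (J b) (F i)) v
      rw [hab]
    have hw4 : ∀ a, ∑ b, expG (eD (J b) (F a)) v * w (J b) = 0 := by
      intro a
      have h4 := congrFun hw1 a
      simp only [L1, ContinuousLinearMap.coe_pi', ContinuousLinearMap.sum_apply,
        ContinuousLinearMap.smul_apply, ContinuousLinearMap.proj_apply, Pi.zero_apply, smul_eq_mul] at h4
      rw [← h4]
      rw [← Finset.sum_image (s := Finset.univ) (g := J) (f := fun i => expG (eD i (F a)) v * w i)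
        (fun x _ y _ hxy => hJ hxy)]
      refine Finset.sum_subset (Finset.subset_univ _) ?_
      intro i _ hi
      rw [hw3 i, mul_zero]
      rintro ⟨b, rfl⟩
      exact hi (Finset.mem_image_of_mem _ (Finset.mem_univ b))
    have hw5 : (fun b => w (J b)) = 0 := by
      refine Matrix.eq_zero_of_mulVec_eq_zero h2 ?_
      funext a
      exact hw4 a
    funext i
    by_cases hi : i ∈ Set.range J
    · obtain ⟨b, rfl⟩ := hi
      exact congrFun hw5 b
    · exact hw3 i hi
  obtain ⟨K, _, hK⟩ := LinearMap.exists_antilipschitzWith _ hker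
  have hev := hd.eventually_ne (c := ((fun j : Fin r => expG (F j) v), L2 v)) ⟨K, hK⟩
  filter_upwards [hev] with v' hv' hmem
  apply hv'
  obtain ⟨g1, g2, g3⟩ := hmem
  refine Prod.ext ?_ ?_
  · funext j
    show expG (F j) v' = expG (F j) v
    rw [h1 j, g1 j]
  · funext i
    show L2 v' i = L2 v i
    by_cases hi : i ∈ Set.range J
    · simp only [L2, ContinuousLinearMap.coe_pi', if_pos hi, ContinuousLinearMap.zero_apply]
    · simp only [L2, ContinuousLinearMap.coe_pi', if_neg hi, ContinuousLinearMap.proj_apply]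
      rw [h3 i hi, g3 i hi]

private theorem ed3_countable {k : Type} [Field k] [Algebra k ℂ] {m r : ℕ}
    (F : Fin r → MvPolynomial (Fin m ⊕ Fin m) k) (J : Fin r → Fin m) (s : Fin m → ℂ) :
    (ed3Z F J s).Countable := by
  have := ed3_discrete F J s
  exact Set.countable_coe_iff.1 (TopologicalSpace.separableSpace_iff_countable.1 inferInstance)

/-- SC-13: countability.

Proof. `eclSet k` is contained in the union, over the countably many data
`(m, r, F, J, s : Fin m → ℚ × ℚ, i₀)`, of the sets `{v i₀ | v ∈ Z}` where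
`Z = {v | (∀ j, expG (F j) v = 0) ∧ det ≠ 0 ∧ ∀ i ∉ range J, v i = s i}`. Each `Z` is discrete, hence
countable: let `v ∈ Z`. The map `v' ↦ (expG (F j) v')_j` from `{v' | v' i = v i for i ∉ range J}`
(identified with `Fin r → ℂ`; `J` is injective because the determinant is not zero) to `Fin r → ℂ` has a
strict derivative at `v` with the invertible matrix `(expG (eD (J b) (F a)) v)`
(`hasStrictFDerivAt_expG`), so it is injective near `v` (inverse function theorem,
`HasStrictFDerivAt.to_localInverse` or `HasStrictFDerivAt.toOpenPartialHomeomorph`), and `v` is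
isolated in `Z`. A discrete subset of a second countable space is countable. -/
theorem countable_eclSet (k : Type) [Field k] [Algebra k ℂ] [Countable k] :
    (eclSet k).Countable := by
  have hcm := ed3_countable_mv k
  have hsub : eclSet k ⊆ ⋃ (m : ℕ) (r : ℕ) (F : Fin r → MvPolynomial (Fin m ⊕ Fin m) k)
      (J : Fin r → Fin m) (s : Fin m → ℚ × ℚ) (i₀ : Fin m),
      (fun v : Fin m → ℂ => v i₀) '' ed3Z F J fun i => ((s i).1 : ℂ) + ((s i).2 : ℂ) * Complex.I := by
    rintro t ⟨m, r, F, J, v, i₀, h1, h2, h3, rfl⟩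
    simp only [Set.mem_iUnion]
    have h4 : ∀ i, ∃ s : ℚ × ℚ, i ∉ Set.range J → v i = (s.1 : ℂ) + (s.2 : ℂ) * Complex.I := by
      intro i
      by_cases hi : i ∈ Set.range J
      · exact ⟨(0, 0), fun h => absurd hi h⟩
      · obtain ⟨p, q, hpq⟩ := h3 i hi
        exact ⟨(p, q), fun _ => hpq⟩
    choose s hs using h4
    exact ⟨m, r, F, J, s, i₀, v, ⟨h1, h2, hs⟩, rfl⟩
  refine Set.Countable.mono hsub ?_
  refine Set.countable_iUnion fun m => Set.countable_iUnion fun r => ?_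
  have := hcm m
  refine Set.countable_iUnion fun F => Set.countable_iUnion fun J => Set.countable_iUnion fun s =>
    Set.countable_iUnion fun i₀ => ?_
  exact (ed3_countable F J _).image _

end Pool.Agent.Lib.MP_209724_lc.SC
end
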