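import Mathlib
import Pool.Agent.Lib.MP_209724_lc.OV.Defs

namespace Pool.Agent.Lib.MP_209724_lc.SC

/-- SC-11: from local to global `E`-derivations.

Proof. In the `ℂ`-vector space `Ω[ℂ⁄k]` let `N` be the span of all `d(exp z) - exp z • dz`, `z ∈ ℂ`. If
`dt ∉ N` there is a linear functional `f : Ω[ℂ⁄k] → ℂ` with `f = 0` on `N`, `f (dt) = 1`
(`Submodule.exists_le_ker_of_notMem` or `exists_dual_map_eq_bot_of_notMem`, normalised), and
`D = f ∘ d` (`LinearMap.compDer`) is the derivation. If `dt ∈ N`, then `dt` is a finite combination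
(`Submodule.mem_span_range_iff_exists_fun` or `Finsupp.mem_span_range_iff_exists_finsupp`) of the
elements for `z_1, ..., z_m`; applying `δ.liftKaehlerDifferential` for the `δ` of the hypothesis gives
`1 = 0`. -/
theorem exists_eder_of_local {k : Type} [Field k] [Algebra k ℂ] (t : ℂ)
    (h : ∀ (m : ℕ) (z : Fin m → ℂ), ∃ δ : Derivation k ℂ ℂ, δ t = 1 ∧
      ∀ i, δ (Complex.exp (z i)) = Complex.exp (z i) * δ (z i)) :
    ∃ D : Derivation k ℂ ℂ, D t = 1 ∧ ∀ z, D (Complex.exp z) = Complex.exp z * D z := by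
  have hN : KaehlerDifferential.D k ℂ t ∉ Submodule.span ℂ (Set.range fun z : ℂ =>
      KaehlerDifferential.D k ℂ (Complex.exp z) - Complex.exp z • KaehlerDifferential.D k ℂ z) := by
    intro hm
    obtain ⟨c, hc⟩ := Finsupp.mem_span_range_iff_exists_finsupp.1 hm
    obtain ⟨δ, h1, h2⟩ := h c.support.card fun i => (c.support.equivFin.symm i : ℂ)
    have h3 : δ.liftKaehlerDifferential (KaehlerDifferential.D k ℂ t) = 1 := by
      rw [Derivation.liftKaehlerDifferential_comp_D]
      exact h1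
    rw [← hc, Finsupp.sum, map_sum, Finset.sum_eq_zero] at h3
    · exact zero_ne_one h3
    · intro z hz
      have h4 := h2 (c.support.equivFin ⟨z, hz⟩)
      rw [Equiv.symm_apply_apply] at h4
      rw [map_smul, map_sub, map_smul, Derivation.liftKaehlerDifferential_comp_D,
        Derivation.liftKaehlerDifferential_comp_D, h4, smul_eq_mul (Complex.exp z), sub_self, smul_zero]
  obtain ⟨f, hf1, hf2⟩ := Submodule.exists_le_ker_of_notMem hN
  refine ⟨((f (KaehlerDifferential.D k ℂ t))⁻¹ • f).compDer (KaehlerDifferential.D k ℂ), ?_, ?_⟩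
  · show (f (KaehlerDifferential.D k ℂ t))⁻¹ * f (KaehlerDifferential.D k ℂ t) = 1
    exact inv_mul_cancel₀ hf1
  · intro z
    show (f (KaehlerDifferential.D k ℂ t))⁻¹ * f (KaehlerDifferential.D k ℂ (Complex.exp z)) =
      Complex.exp z * ((f (KaehlerDifferential.D k ℂ t))⁻¹ * f (KaehlerDifferential.D k ℂ z))
    have h1 : f (KaehlerDifferential.D k ℂ (Complex.exp z) - Complex.exp z • KaehlerDifferential.D k ℂ z) = 0 :=
      hf2 (Submodule.subset_span ⟨z, rfl⟩)
    rw [map_sub, map_smul, sub_eq_zero, smul_eq_mul] at h1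
    rw [h1]
    ring

end Pool.Agent.Lib.MP_209724_lc.SC
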