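import Mathlib
import Pool.Agent.Lib.MP_209724_lc.OV.Defs
import Pool.Agent.Lib.MP_e52354_nt.DerivExist

section

namespace Pool.Agent.Lib.MP_209724_lc.SC

open MvPolynomial

/-- a linear functional applied to the coefficients -/
private noncomputable def fin1Phi {K σ : Type} [Field K] [Algebra K ℂ] (φ : ℂ →ₗ[K] K)
    (p : MvPolynomial σ ℂ) : MvPolynomial σ K :=
  ∑ m ∈ p.support, monomial m (φ (coeff m p))

private theorem fin1_coeff {K σ : Type} [Field K] [Algebra K ℂ] (φ : ℂ →ₗ[K] K)
    (p : MvPolynomial σ ℂ) (m : σ →₀ ℕ) : coeff m (fin1Phi φ p) = φ (coeff m p) := by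
  classical
  unfold fin1Phi
  rw [coeff_sum]
  simp only [coeff_monomial]
  rw [Finset.sum_ite_eq']
  split_ifs with h
  · rfl
  · rw [notMem_support_iff.mp h, map_zero]

private theorem fin1_add {K σ : Type} [Field K] [Algebra K ℂ] (φ : ℂ →ₗ[K] K)
    (p q : MvPolynomial σ ℂ) : fin1Phi φ (p + q) = fin1Phi φ p + fin1Phi φ q := by
  ext m
  rw [fin1_coeff, coeff_add, coeff_add, fin1_coeff, fin1_coeff, map_add]

private theorem fin1_zero {K σ : Type} [Field K] [Algebra K ℂ] (φ : ℂ →ₗ[K] K) :
    fin1Phi φ (0 : MvPolynomial σ ℂ) = 0 := by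
  ext m
  rw [fin1_coeff, coeff_zero, coeff_zero, map_zero]

private theorem fin1_sum {K σ ι : Type} [Field K] [Algebra K ℂ] (φ : ℂ →ₗ[K] K) (s : Finset ι)
    (f : ι → MvPolynomial σ ℂ) : fin1Phi φ (∑ i ∈ s, f i) = ∑ i ∈ s, fin1Phi φ (f i) := by
  classical
  induction s using Finset.induction_on with
  | empty => rw [Finset.sum_empty, Finset.sum_empty, fin1_zero]
  | insert a s ha ih => rw [Finset.sum_insert ha, Finset.sum_insert ha, fin1_add, ih]

private theorem fin1_mul {K σ : Type} [Field K] [Algebra K ℂ] (φ : ℂ →ₗ[K] K)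
    (p : MvPolynomial σ ℂ) (g : MvPolynomial σ K) :
    fin1Phi φ (p * map (algebraMap K ℂ) g) = fin1Phi φ p * g := by
  classical
  ext m
  rw [fin1_coeff, coeff_mul, coeff_mul, map_sum]
  refine Finset.sum_congr rfl fun x _ => ?_
  rw [fin1_coeff, coeff_map, mul_comm, ← Algebra.smul_def, map_smul, smul_eq_mul, mul_comm]

private theorem fin1_C {K σ : Type} [Field K] [Algebra K ℂ] (φ : ℂ →ₗ[K] K) (c : ℂ) :
    fin1Phi φ (C c : MvPolynomial σ ℂ) = C (φ c) := by
  classical
  ext m
  rw [fin1_coeff, coeff_C, coeff_C]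
  split_ifs
  · rfl
  · exact map_zero φ

private theorem fin1_mem' {K σ : Type} [Field K] [Algebra K ℂ] (φ : ℂ →ₗ[K] K)
    (I : Ideal (MvPolynomial σ K)) {p : MvPolynomial σ ℂ}
    (hp : p ∈ I.map (map (algebraMap K ℂ))) : ∀ a, fin1Phi φ (a * p) ∈ I := by
  rw [Ideal.map] at hp
  induction hp using Submodule.span_induction with
  | mem x hx =>
    obtain ⟨g, hg, rfl⟩ := hx
    intro a
    rw [fin1_mul]
    exact I.mul_mem_left _ hg
  | zero => intro a; rw [mul_zero, fin1_zero]; exact I.zero_mem
  | add x y _ _ hx hy => intro a; rw [mul_add, fin1_add]; exact I.add_mem (hx a) (hy a)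
  | smul b x hx ih =>
    intro a
    rw [smul_eq_mul, ← mul_assoc]
    exact ih (a * b)

private theorem fin1_mem {K σ : Type} [Field K] [Algebra K ℂ] (φ : ℂ →ₗ[K] K)
    (I : Ideal (MvPolynomial σ K)) {p : MvPolynomial σ ℂ}
    (hp : p ∈ I.map (map (algebraMap K ℂ))) : fin1Phi φ p ∈ I := by
  have h := fin1_mem' φ I hp 1
  rwa [one_mul] at h

private theorem fin1_rename {K σ τ : Type} [Field K] [Algebra K ℂ] (φ : ℂ →ₗ[K] K) (u : τ → σ)
    (f : MvPolynomial τ ℂ) : rename u (fin1Phi φ f) = fin1Phi φ (rename u f) := by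
  classical
  induction f using MvPolynomial.induction_on' with
  | monomial m c =>
    have h1 : ∀ {ρ : Type} (m : ρ →₀ ℕ), fin1Phi φ (monomial m c : MvPolynomial ρ ℂ) = monomial m (φ c) := by
      intro ρ m
      ext d
      rw [fin1_coeff, coeff_monomial, coeff_monomial]
      split_ifs
      · rfl
      · exact map_zero φ
    rw [h1, rename_monomial, rename_monomial, h1]
  | add p q hp hq => rw [fin1_add, map_add, map_add, fin1_add, hp, hq]

/-- SC-38a: extension of scalars of ideals.

Proof. `MvPolynomial σ ℂ` is a free module over `MvPolynomial σ K` with basis `C (e_i)`, `(e_i)` a basis of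
`ℂ` over `K` which extends `b` (`LinearIndependent.extend`; coefficientwise:
`MvPolynomial σ ℂ = ⊕ C (e_i) * map (MvPolynomial σ K)` because this holds for coefficients). An element
of `I.map` is `∑ a_i * map (g_i)` with `g_i ∈ I`; expand `a_i` in this basis: its components are in
`I`. Compare components. (Or: `algebraTensorAlgEquiv` and flatness.) -/
theorem mem_of_sum {K σ ι : Type} [Field K] [Algebra K ℂ] [Fintype ι]
    (I : Ideal (MvPolynomial σ K)) (b : ι → ℂ) (hb : LinearIndependent K b)
    (f : ι → MvPolynomial σ K)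
    (h : ∑ j, C (b j) * map (algebraMap K ℂ) (f j) ∈ I.map (map (algebraMap K ℂ))) (j : ι) :
    f j ∈ I := by
  classical
  obtain ⟨φ, hφ⟩ := LinearMap.exists_extend ((Finsupp.lapply j : (ι →₀ K) →ₗ[K] K) ∘ₗ hb.repr)
  have hb' : ∀ i, φ (b i) = if i = j then 1 else 0 := by
    intro i
    have hi : b i ∈ Submodule.span K (Set.range b) := Submodule.subset_span ⟨i, rfl⟩
    have h1 : φ (b i) = (φ ∘ₗ (Submodule.span K (Set.range b)).subtype) ⟨b i, hi⟩ := rfl
    rw [h1, hφ]
    show (hb.repr ⟨b i, hi⟩) j = _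
    rw [hb.repr_eq_single i ⟨b i, hi⟩ rfl, Finsupp.single_apply]
  have h2 := fin1_mem φ I h
  rw [fin1_sum, Finset.sum_congr rfl fun i _ => fin1_mul φ (C (b i)) (f i)] at h2
  simp only [fin1_C, hb'] at h2
  rw [Finset.sum_eq_single j (fun i _ hi => by rw [if_neg hi, C_0, zero_mul])
    (fun hj => absurd (Finset.mem_univ j) hj), if_pos rfl, C_1, one_mul] at h2
  exact h2

/-- SC-38b: independence of coordinates does not depend on the field of constants.

Proof. The finitely many coefficients of `f` span a finite-dimensional `K`-subspace of `ℂ` with basis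
`b_j`; so `f = ∑ C (b j) * map (f j)`, `f j : MvPolynomial τ K`. Apply `rename u` and `mem_of_sum`:
`rename u (f j) ∈ I`, so `f j = 0`. -/
theorem coord_indep {K σ τ : Type} [Field K] [Algebra K ℂ] (I : Ideal (MvPolynomial σ K))
    (u : τ → σ) (h : ∀ f : MvPolynomial τ K, rename u f ∈ I → f = 0) (f : MvPolynomial τ ℂ)
    (hf : rename u f ∈ I.map (map (algebraMap K ℂ))) : f = 0 := by
  ext m
  rw [coeff_zero]
  refine (Module.forall_dual_apply_eq_zero_iff K (coeff m f)).mp fun φ => ?_
  have h1 : fin1Phi φ f = 0 := h _ (by rw [fin1_rename]; exact fin1_mem φ I hf)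
  rw [← fin1_coeff, h1, coeff_zero]

end Pool.Agent.Lib.MP_209724_lc.SC
end

section

namespace Pool.Agent.Lib.MP_209724_lc.SC

open MvPolynomial

/-- the obstruction of `δ` to be the tangent vector -/
private noncomputable def ed2E {k L σ : Type} [Field k] [Field L] [Algebra k L] [Fintype σ]
    (u w : σ → L) (δ : Derivation k L L) (F : MvPolynomial σ k) : L :=
  ∑ i, aeval u (pderiv i F) * w i - δ (aeval u F)

private theorem ed2E_C {k L σ : Type} [Field k] [Field L] [Algebra k L] [Fintype σ]
    (u w : σ → L) (δ : Derivation k L L) (c : k) : ed2E u w δ (C c) = 0 := by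
  unfold ed2E
  simp

private theorem ed2E_add {k L σ : Type} [Field k] [Field L] [Algebra k L] [Fintype σ]
    (u w : σ → L) (δ : Derivation k L L) (F G : MvPolynomial σ k) :
    ed2E u w δ (F + G) = ed2E u w δ F + ed2E u w δ G := by
  unfold ed2E
  simp only [map_add, add_mul, Finset.sum_add_distrib]
  ring

private theorem ed2E_mul {k L σ : Type} [Field k] [Field L] [Algebra k L] [Fintype σ]
    (u w : σ → L) (δ : Derivation k L L) (F G : MvPolynomial σ k) :
    ed2E u w δ (F * G) = aeval u F * ed2E u w δ G + aeval u G * ed2E u w δ F := by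
  unfold ed2E
  have h : ∀ i, aeval u (pderiv i (F * G)) * w i =
      aeval u F * (aeval u (pderiv i G) * w i) + aeval u G * (aeval u (pderiv i F) * w i) := fun i => by
    rw [Derivation.leibniz, map_add, smul_eq_mul, smul_eq_mul, map_mul, map_mul]
    ring
  rw [Finset.sum_congr rfl fun i _ => h i, Finset.sum_add_distrib, ← Finset.mul_sum, ← Finset.mul_sum,
    map_mul, Derivation.leibniz, smul_eq_mul, smul_eq_mul]
  ring

private theorem ed2E_X {k L σ : Type} [Field k] [Field L] [Algebra k L] [Fintype σ]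
    (u w : σ → L) (δ : Derivation k L L) (i : σ) : ed2E u w δ (X i) = w i - δ (u i) := by
  classical
  unfold ed2E
  rw [aeval_X, Finset.sum_eq_single i]
  · rw [pderiv_X_self, map_one, one_mul]
  · intro j _ hj
    rw [pderiv_X_of_ne (Ne.symm hj), map_zero, zero_mul]
  · intro hi
    exact absurd (Finset.mem_univ i) hi

/-- separability in characteristic `0` -/
private theorem ed2_sep {A L : Type} [CommRing A] [IsDomain A] [CharZero A] [Field L] [Algebra A L]
    [FaithfulSMul A L] (a : L) : ∀ (N : ℕ) (p : Polynomial A), p.natDegree ≤ N → p ≠ 0 →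
      Polynomial.aeval a p = 0 →
      ∃ q : Polynomial A, Polynomial.aeval a q = 0 ∧ Polynomial.aeval a (Polynomial.derivative q) ≠ 0 := by
  intro N
  induction N with
  | zero =>
    intro p hN hp h
    exfalso
    rw [Polynomial.eq_C_of_natDegree_le_zero hN, Polynomial.aeval_C] at h
    have h1 : p.coeff 0 = 0 := (FaithfulSMul.algebraMap_injective A L) (by rw [h, map_zero])
    exact hp (by rw [Polynomial.eq_C_of_natDegree_le_zero hN, h1, Polynomial.C_0])
  | succ N ih =>
    intro p hN hp h
    by_cases hd : Polynomial.aeval a (Polynomial.derivative p) = 0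
    · by_cases h0 : Polynomial.derivative p = 0
      · have h1 := Polynomial.derivative_eq_zero.1 h0
        exact ih p (by omega) hp h
      · refine ih _ ?_ h0 hd
        have h2 := Polynomial.natDegree_derivative_le p
        omega
    · exact ⟨p, h, hd⟩

/-- SC-12: tangent vectors of the `k`-locus of `u` are the values of derivations.

Proof. Choose `B ⊆ σ` (a finset or a set of indices) such that `(u i)_{i ∈ B}` is algebraically
independent over `k` and all `u i` are algebraic over `k(u_B)` (maximal such `B`). Extend to a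
transcendence basis of `L / k`; by `MP_e52354_nt.exists_derivation` there is `δ : Derivation k L L` with
`δ (u b) = w b` for `b ∈ B`. Let `i ∉ B`. Among the polynomials `H ∈ k[X_B, X_i]` (as elements of
`MvPolynomial σ k` whose variables are in `B ∪ {i}`) with `H(u) = 0` and `H ≠ 0` choose one of minimal
degree in `X_i` and, if you like, minimal total degree; its degree in `X_i` is positive (independence
of `u_B`), so `∂H/∂X_i` is nonzero, of smaller degree in `X_i`, hence `(∂H/∂X_i)(u) ≠ 0`. Now
`0 = δ (H(u)) = ∑_j (∂H/∂X_j)(u) δ(u_j)` and, by hypothesis, `0 = ∑_j (∂H/∂X_j)(u) w_j`; the terms with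
`j ≠ i` agree (`j ∈ B`; the others have `∂H/∂X_j = 0`), so `δ (u i) = w i`.

(`δ (aeval u H) = ∑ aeval u (pderiv j H) * δ (u j)`: `MvPolynomial.mkDerivation` / induction.)

Another possible proof: `k[u] ≅ k[X]/ker`, the derivation `pderiv`-combination descends to
`k[u] → L`, extends to the fraction field and to `L` (formally smooth). -/
theorem exists_tangent {k L σ : Type} [Field k] [CharZero k] [Field L] [Algebra k L] [Fintype σ]
    (u w : σ → L)
    (h : ∀ F : MvPolynomial σ k, aeval u F = 0 → ∑ i, aeval u (pderiv i F) * w i = 0) :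
    ∃ δ : Derivation k L L, ∀ i, δ (u i) = w i := by
  classical
  obtain ⟨s, -, hs⟩ := exists_maximal_algebraicIndependent (R := k) (∅ : Set L) (Set.range u)
    (Set.empty_subset _) (algebraicIndependent_empty (K := k) (A := L))
  obtain ⟨hsi, hsr⟩ := hs.prop
  have halg : ∀ i, IsAlgebraic (Algebra.adjoin k s) (u i) := by
    intro i
    by_contra hcon
    have h1 : AlgebraicIndepOn k id (insert (u i) s) := hsi.insert (by rw [Set.image_id]; exact hcon)
    have h2 : insert (u i) s ⊆ s :=
      hs.le_of_ge ⟨h1, Set.insert_subset ⟨i, rfl⟩ hsr⟩ (Set.subset_insert _ _)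
    have h3 : u i ∈ s := h2 (Set.mem_insert _ _)
    exact hcon (isAlgebraic_algebraMap (⟨u i, Algebra.subset_adjoin h3⟩ : Algebra.adjoin k s))
  obtain ⟨t, hst, ht⟩ := exists_isTranscendenceBasis_superset hsi
  have iA : Algebra.IsAlgebraic (Algebra.adjoin k (Set.range ((↑) : t → L))) L := ht.isAlgebraic
  choose b hb using fun z : s => hsr z.2
  obtain ⟨δ, hδ⟩ := MP_e52354_nt.exists_derivation ht.1
    (fun z : t => if hz : (z : L) ∈ s then w (b ⟨z, hz⟩) else 0)
  refine ⟨δ, fun i => ?_⟩
  have hlift : ∀ c ∈ Algebra.adjoin k s, ∃ P : MvPolynomial σ k, aeval u P = c ∧ ed2E u w δ P = 0 := by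
    intro c hc
    induction hc using Algebra.adjoin_induction with
    | mem x hx =>
      refine ⟨X (b ⟨x, hx⟩), ?_, ?_⟩
      · rw [aeval_X]
        exact hb ⟨x, hx⟩
      · have h1 : δ x = w (b ⟨x, hx⟩) := by
          have h2 := hδ ⟨x, hst hx⟩
          simpa only [dif_pos hx] using h2
        have h3 : u (b ⟨x, hx⟩) = x := hb ⟨x, hx⟩
        rw [ed2E_X, h3, h1, sub_self]
    | algebraMap r => exact ⟨C r, aeval_C _ _, ed2E_C u w δ r⟩
    | add x y _ _ hx hy =>
      obtain ⟨P, h1, h2⟩ := hx
      obtain ⟨Q, h3, h4⟩ := hy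
      exact ⟨P + Q, by rw [map_add, h1, h3], by rw [ed2E_add, h2, h4, add_zero]⟩
    | mul x y _ _ hx hy =>
      obtain ⟨P, h1, h2⟩ := hx
      obtain ⟨Q, h3, h4⟩ := hy
      exact ⟨P * Q, by rw [map_mul, h1, h3], by rw [ed2E_mul, h2, h4, mul_zero, mul_zero, add_zero]⟩
  have hpol : ∀ q : Polynomial (Algebra.adjoin k s), ∃ H : MvPolynomial σ k,
      aeval u H = Polynomial.aeval (u i) q ∧
      ed2E u w δ H = Polynomial.aeval (u i) (Polynomial.derivative q) * ed2E u w δ (X i) := by
    intro q
    induction q using Polynomial.induction_on with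
    | C a =>
      obtain ⟨P, h1, h2⟩ := hlift a a.2
      refine ⟨P, ?_, ?_⟩
      · rw [Polynomial.aeval_C, h1]
        rfl
      · rw [Polynomial.derivative_C, map_zero, zero_mul, h2]
    | add p q hp hq =>
      obtain ⟨P, h1, h2⟩ := hp
      obtain ⟨Q, h3, h4⟩ := hq
      exact ⟨P + Q, by rw [map_add, map_add, h1, h3],
        by rw [ed2E_add, h2, h4, Polynomial.derivative_add, map_add, add_mul]⟩
    | monomial n a h =>
      obtain ⟨P, h1, h2⟩ := h
      have e1 : Polynomial.C a * Polynomial.X ^ (n + 1) =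
          (Polynomial.C a * Polynomial.X ^ n) * Polynomial.X := by rw [pow_succ, mul_assoc]
      have e2 : Polynomial.derivative (Polynomial.C a * Polynomial.X ^ (n + 1)) =
          Polynomial.derivative (Polynomial.C a * Polynomial.X ^ n) * Polynomial.X +
            Polynomial.C a * Polynomial.X ^ n := by
        rw [e1, Polynomial.derivative_mul, Polynomial.derivative_X, mul_one]
      refine ⟨P * X i, ?_, ?_⟩
      · rw [map_mul, aeval_X, h1, e1, map_mul _ _ Polynomial.X, Polynomial.aeval_X]
      · rw [ed2E_mul, aeval_X, h1, h2, e2, map_add, map_mul _ _ Polynomial.X, Polynomial.aeval_X]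
        ring
  have : CharZero (Algebra.adjoin k s) := charZero_of_injective_algebraMap
    (algebraMap k (Algebra.adjoin k s)).injective
  obtain ⟨p, hp, hp0⟩ := halg i
  obtain ⟨q, hq, hq'⟩ := ed2_sep (u i) p.natDegree p le_rfl hp hp0
  obtain ⟨H, h1, h2⟩ := hpol q
  rw [hq] at h1
  have h3 : ed2E u w δ H = 0 := by
    unfold ed2E
    rw [h H h1, h1, map_zero, sub_zero]
  rw [h3] at h2
  have h4 : ed2E u w δ (X i) = 0 := (mul_eq_zero.1 h2.symm).resolve_left hq'
  rw [ed2E_X] at h4
  exact (sub_eq_zero.1 h4).symm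

end Pool.Agent.Lib.MP_209724_lc.SC
end
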