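import Mathlib
import Pool.Agent.Lib.MP_209724_lc.OV.Defs

namespace Pool.Agent.Lib.MP_209724_lc.SC

open MvPolynomial

private theorem ed7_minor {r m : ℕ} (A : Matrix (Fin r) (Fin m) ℂ) (hA : LinearIndependent ℂ A.row) :
    ∃ J : Fin r → Fin m, Matrix.det (A.submatrix id J) ≠ 0 := by
  classical
  have hrank : A.rank = r := by
    have := hA.rank_matrix
    simpa using this
  have hspan : Submodule.span ℂ (Set.range A.col) = ⊤ := by
    rw [← Matrix.range_mulVecLin]
    apply Submodule.eq_top_of_finrank_eq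
    rw [Module.finrank_fin_fun]
    exact hrank
  obtain ⟨κ, a, ha, hsp, hli⟩ := exists_linearIndependent' ℂ A.col
  rw [hspan] at hsp
  have : Finite κ := hli.finite
  have : Fintype κ := Fintype.ofFinite κ
  have hb : Fintype.card κ = r := by
    have h1 := finrank_span_eq_card hli
    rw [hsp, finrank_top, Module.finrank_fin_fun] at h1
    exact h1.symm
  let e : Fin r ≃ κ := (Fintype.equivFinOfCardEq hb).symm
  refine ⟨a ∘ e, ?_⟩
  have h2 : LinearIndependent ℂ (A.submatrix id (a ∘ e)).col := hli.comp e e.injective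
  rw [Matrix.linearIndependent_cols_iff_isUnit, Matrix.isUnit_iff_isUnit_det] at h2
  exact h2.ne_zero

/-- SC-17: choice of rows and columns. Proof: linear algebra. The span `R ⊆ (Fin m → ℂ)` of the
vectors `(expG (eD i H) P)_i` with `expG H P = 0` has a basis consisting of such vectors, given by
`F_1, ..., F_r` (`exists_linearIndependent`, finite-dimensional); the `r × m` matrix of the basis has
rank `r`, so it has a nonzero `r × r` minor with columns `J`. -/
theorem exists_rows {k : Type} [Field k] [Algebra k ℂ] {m : ℕ} (P : Fin m → ℂ) :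
    ∃ (r : ℕ) (F : Fin r → MvPolynomial (Fin m ⊕ Fin m) k) (J : Fin r → Fin m),
      (∀ j, expG (F j) P = 0) ∧
      Matrix.det (fun a b => expG (eD (J b) (F a)) P) ≠ 0 ∧
      ∀ H : MvPolynomial (Fin m ⊕ Fin m) k, expG H P = 0 →
        ∃ b : Fin r → ℂ, ∀ i, expG (eD i H) P = ∑ j, b j * expG (eD i (F j)) P := by
  classical
  let v : {H : MvPolynomial (Fin m ⊕ Fin m) k // expG H P = 0} → (Fin m → ℂ) :=
    fun H i => expG (eD i H.1) P
  obtain ⟨κ, a, ha, hsp, hli⟩ := exists_linearIndependent' ℂ v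
  have : Finite κ := hli.finite
  have : Fintype κ := Fintype.ofFinite κ
  let e : Fin (Fintype.card κ) ≃ κ := (Fintype.equivFin κ).symm
  have hli' : LinearIndependent ℂ ((v ∘ a) ∘ e) := hli.comp e e.injective
  obtain ⟨J, hJ⟩ := ed7_minor (Matrix.of ((v ∘ a) ∘ e)) hli'
  refine ⟨Fintype.card κ, fun j => (a (e j)).1, J, fun j => (a (e j)).2, hJ, ?_⟩
  intro H hH
  have h1 : v ⟨H, hH⟩ ∈ Submodule.span ℂ (Set.range ((v ∘ a) ∘ e)) := by
    rw [Set.range_comp (v ∘ a) e, e.surjective.range_eq, Set.image_univ, hsp]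
    exact Submodule.subset_span ⟨_, rfl⟩
  rw [Submodule.mem_span_range_iff_exists_fun] at h1
  obtain ⟨c, hc⟩ := h1
  refine ⟨c, fun i => ?_⟩
  have := congrFun hc i
  rw [Finset.sum_apply] at this
  exact this.symm

end Pool.Agent.Lib.MP_209724_lc.SC
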