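import Mathlib
import Pool.Agent.Lib.MP_209724_lc.SC.Ed0
import Pool.Agent.Lib.MP_209724_lc.SC.Ed3
import Pool.Agent.Lib.MP_209724_lc.SC.Ed7
import Pool.Agent.Lib.MP_209724_lc.SC.Ed1
import Pool.Agent.Lib.MP_209724_lc.SC.Ed2

section

namespace Pool.Agent.Lib.MP_209724_lc.SC

open MvPolynomial Metric

variable {k : Type} [Field k] [Algebra k ℂ] {m r : ℕ}

/-- The matrix `(eD (J b) (F a))` of polynomials. -/
noncomputable def jac (F : Fin r → MvPolynomial (Fin m ⊕ Fin m) k) (J : Fin r → Fin m) :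
    Matrix (Fin r) (Fin r) (MvPolynomial (Fin m ⊕ Fin m) k) :=
  fun a b => eD (J b) (F a)

/-- The polynomial which gives the derivative of `H` in the direction of the free variable `i` along
the manifold `F = 0`, multiplied by the determinant. -/
noncomputable def dlt (F : Fin r → MvPolynomial (Fin m ⊕ Fin m) k) (J : Fin r → Fin m) (i : Fin m)
    (H : MvPolynomial (Fin m ⊕ Fin m) k) : MvPolynomial (Fin m ⊕ Fin m) k :=
  (jac F J).det * eD i H - ∑ a, ∑ b, eD (J b) H * (jac F J).adjugate b a * eD i (F a)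

theorem expG_det_jac (F : Fin r → MvPolynomial (Fin m ⊕ Fin m) k) (J : Fin r → Fin m)
    (v : Fin m → ℂ) :
    expG (jac F J).det v = Matrix.det (fun a b => expG (eD (J b) (F a)) v) := by
  simp only [expG]
  rw [AlgHom.map_det]
  rfl

theorem expG_adj_jac (F : Fin r → MvPolynomial (Fin m ⊕ Fin m) k) (J : Fin r → Fin m)
    (v : Fin m → ℂ) (b a : Fin r) :
    expG ((jac F J).adjugate b a) v =
      Matrix.adjugate (fun a b => expG (eD (J b) (F a)) v) b a := by
  have h := congrFun (congrFun (AlgHom.map_adjugate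
    (aeval (Sum.elim v fun i => Complex.exp (v i)) : MvPolynomial (Fin m ⊕ Fin m) k →ₐ[k] ℂ)
    (jac F J)) b) a
  exact h

theorem expG_dlt (F : Fin r → MvPolynomial (Fin m ⊕ Fin m) k) (J : Fin r → Fin m) (i : Fin m)
    (H : MvPolynomial (Fin m ⊕ Fin m) k) (v : Fin m → ℂ) :
    expG (dlt F J i H) v = Matrix.det (fun a b => expG (eD (J b) (F a)) v) * expG (eD i H) v -
      ∑ a, ∑ b, expG (eD (J b) H) v *
        Matrix.adjugate (fun a b => expG (eD (J b) (F a)) v) b a * expG (eD i (F a)) v := by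
  have h1 : ∀ G G' : MvPolynomial (Fin m ⊕ Fin m) k, expG (G - G') v = expG G v - expG G' v :=
    fun G G' => by simp [expG]
  have h2 : ∀ f : Fin r → MvPolynomial (Fin m ⊕ Fin m) k,
      expG (∑ a, f a) v = ∑ a, expG (f a) v := fun f => by simp [expG]
  simp only [dlt, h1, h2, expG_mul0, expG_det_jac, expG_adj_jac]

theorem sum_split_inj {R : Type*} [AddCommMonoid R] {J : Fin r → Fin m}
    [DecidablePred fun i : Fin m => i ∉ Set.range J]
    (hJ : Function.Injective J) (f : Fin m → R) :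
    ∑ i, f i = ∑ i ∈ Finset.univ.filter (fun i => i ∉ Set.range J), f i + ∑ b, f (J b) := by
  classical
  rw [← Finset.sum_filter_add_sum_filter_not Finset.univ (fun i => i ∉ Set.range J)]
  congr 1
  have : Finset.univ.filter (fun i => ¬ i ∉ Set.range J) = Finset.univ.image J := by
    ext i
    simp
  rw [this, Finset.sum_image fun a _ b _ h => hJ h]

/-- Cramer's rule in the form needed below. -/
theorem cramer_curve {R : Type*} [CommRing R] (J : Fin r → Fin m)
    [DecidablePred fun i : Fin m => i ∉ Set.range J]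
    (hJ : Function.Injective J) (N : Fin r → Fin m → R) (M : Matrix (Fin r) (Fin r) R)
    (hM : ∀ a b, M a b = N a (J b)) (h u c : Fin m → R)
    (hu : ∀ i, i ∉ Set.range J → u i = c i) (h0 : ∀ a, ∑ i, N a i * u i = 0) :
    M.det * ∑ i, h i * u i =
      ∑ i ∈ Finset.univ.filter (fun i => i ∉ Set.range J),
        c i * (M.det * h i - ∑ a, ∑ b, h (J b) * M.adjugate b a * N a i) := by
  classical
  set S := Finset.univ.filter (fun i => i ∉ Set.range J) with hS
  have huS : ∀ i ∈ S, u i = c i := fun i hi => hu i (Finset.mem_filter.1 hi).2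
  -- the square system
  have h1 : ∀ a, ∑ b, M a b * u (J b) = - ∑ i ∈ S, N a i * c i := by
    intro a
    have h2 := h0 a
    rw [sum_split_inj hJ] at h2
    rw [eq_neg_iff_add_eq_zero, add_comm, ← h2]
    congr 1
    · exact Finset.sum_congr rfl fun i hi => by rw [huS i hi]
    · exact Finset.sum_congr rfl fun b _ => by rw [hM]
  have h3 : ∀ b, M.det * u (J b) = - ∑ a, M.adjugate b a * ∑ i ∈ S, N a i * c i := by
    intro b
    have h4 : (M.adjugate * M).mulVec (fun b => u (J b)) b = M.det * u (J b) := by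
      rw [Matrix.adjugate_mul, Matrix.smul_mulVec, Matrix.one_mulVec]
      rfl
    rw [← h4, ← Matrix.mulVec_mulVec]
    change ∑ a, M.adjugate b a * (∑ b', M a b' * u (J b')) = _
    simp only [h1, mul_neg, Finset.sum_neg_distrib]
  rw [sum_split_inj hJ, mul_add]
  have h5 : M.det * ∑ b, h (J b) * u (J b) =
      - ∑ b, h (J b) * ∑ a, M.adjugate b a * ∑ i ∈ S, N a i * c i := by
    rw [Finset.mul_sum, ← Finset.sum_neg_distrib]
    refine Finset.sum_congr rfl fun b _ => ?_
    rw [mul_left_comm, h3]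
    ring
  rw [h5]
  have h6 : ∑ b, h (J b) * ∑ a, M.adjugate b a * ∑ i ∈ S, N a i * c i =
      ∑ i ∈ S, c i * ∑ a, ∑ b, h (J b) * M.adjugate b a * N a i := by
    simp only [Finset.mul_sum]
    rw [Finset.sum_comm]
    rw [Finset.sum_comm (s := S)]
    refine Finset.sum_congr rfl fun a _ => ?_
    rw [Finset.sum_comm (s := S)]
    refine Finset.sum_congr rfl fun b _ => ?_
    refine Finset.sum_congr rfl fun i _ => ?_
    ring
  rw [h6, ← sub_eq_add_neg, Finset.mul_sum, ← Finset.sum_sub_distrib]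
  refine Finset.sum_congr rfl fun i hi => ?_
  rw [huS i hi]
  ring

/-- SC-15a: the derivative along the curve.

Proof. Differentiate `expG (F a) (v τ) = 0` (`hasDerivAt_expG`):
`∑_b M_{ab} v'_{J b} + ∑_{i ∉ range J} expG (eD i (F a)) c_i = 0` with `M = (expG (eD (J b) (F a)) (v τ))`
(`J` is injective; `v'_i = c_i` for `i ∉ range J`). So `det M • v'_{J b} = - ∑_a adj(M)_{ba}
∑_i expG (eD i (F a)) c_i` (`Matrix.adjugate_mul`), insert this in
`det M * d/dτ expG H (v τ) = det M * ∑_i expG (eD i H) v'_i`. -/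
theorem deriv_curve (F : Fin r → MvPolynomial (Fin m ⊕ Fin m) k) (J : Fin r → Fin m)
    (P c : Fin m → ℂ) (v : ℂ → Fin m → ℂ) (hv : DifferentiableOn ℂ v (ball 0 2))
    (hJ : Function.Injective J)
    (h1 : ∀ τ ∈ ball (0 : ℂ) 2, ∀ i, i ∉ Set.range J → v τ i = P i + τ * c i)
    (h2 : ∀ τ ∈ ball (0 : ℂ) 2, ∀ j, expG (F j) (v τ) = 0)
    (H : MvPolynomial (Fin m ⊕ Fin m) k) {τ : ℂ} (hτ : τ ∈ ball (0 : ℂ) 2) :
    expG (jac F J).det (v τ) * deriv (fun τ => expG H (v τ)) τ =
      ∑ i ∈ Finset.univ.filter (fun i => i ∉ Set.range J), c i * expG (dlt F J i H) (v τ) := by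
  classical
  have hn : ball (0 : ℂ) 2 ∈ nhds τ := isOpen_ball.mem_nhds hτ
  have hd : HasDerivAt v (deriv v τ) τ := (hv.differentiableAt hn).hasDerivAt
  have hu : ∀ i, i ∉ Set.range J → deriv v τ i = c i := by
    intro i hi
    have h3 : HasDerivAt (fun τ => v τ i) (deriv v τ i) τ := (hasDerivAt_pi.1 hd) i
    have h4 : HasDerivAt (fun τ : ℂ => P i + τ * c i) (c i) τ := by
      have := ((hasDerivAt_id τ).mul_const (c i)).const_add (P i)
      simpa using this
    have h5 : (fun τ => v τ i) =ᶠ[nhds τ] (fun τ : ℂ => P i + τ * c i) :=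
      Filter.eventually_of_mem hn fun σ hσ => h1 σ hσ i hi
    exact h3.unique (h4.congr_of_eventuallyEq h5)
  have h0 : ∀ a, ∑ i, expG (eD i (F a)) (v τ) * deriv v τ i = 0 := by
    intro a
    have h3 := hasDerivAt_expG (F a) hd
    have h5 : (fun τ => expG (F a) (v τ)) =ᶠ[nhds τ] (fun _ => (0 : ℂ)) :=
      Filter.eventually_of_mem hn fun σ hσ => h2 σ hσ a
    exact h3.unique ((hasDerivAt_const τ (0 : ℂ)).congr_of_eventuallyEq h5)
  rw [(hasDerivAt_expG H hd).deriv, expG_det_jac]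
  have hmain := cramer_curve J hJ (fun a i => expG (eD i (F a)) (v τ))
    (fun a b => expG (eD (J b) (F a)) (v τ)) (fun _ _ => rfl) (fun i => expG (eD i H) (v τ))
    (deriv v τ) c hu h0
  rw [hmain]
  exact Finset.sum_congr rfl fun i _ => by rw [expG_dlt]

/-- SC-15b: `dlt i H` vanishes at `P` if the gradient of `H` at `P` is in the span of those of the
`F j`. Proof: write `expG (eD i H) P = ∑_j b_j expG (eD i (F j)) P`; then
`∑_{a,b} expG (eD (J b) H) adj(M)_{ba} expG (eD i (F a)) = ∑_j b_j ∑_{a,b} M_{jb} adj(M)_{ba} (...)_a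
= det M ∑_j b_j expG (eD i (F j))` (`Matrix.mul_adjugate`). -/
theorem dlt_zero (F : Fin r → MvPolynomial (Fin m ⊕ Fin m) k) (J : Fin r → Fin m)
    (P : Fin m → ℂ) (H : MvPolynomial (Fin m ⊕ Fin m) k) (b : Fin r → ℂ)
    (hb : ∀ i, expG (eD i H) P = ∑ j, b j * expG (eD i (F j)) P) (i : Fin m) :
    expG (dlt F J i H) P = 0 := by
  classical
  rw [expG_dlt, sub_eq_zero]
  set M : Matrix (Fin r) (Fin r) ℂ := fun a b => expG (eD (J b) (F a)) P with hM
  have h1 : ∀ b', expG (eD (J b') H) P = ∑ j, b j * M j b' := fun b' => hb (J b')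
  have h2 : ∀ j a, ∑ b', M j b' * M.adjugate b' a = if j = a then M.det else 0 := by
    intro j a
    have := congrFun (congrFun (Matrix.mul_adjugate M) j) a
    rw [Matrix.mul_apply] at this
    rw [this, Matrix.smul_apply, Matrix.one_apply]
    split_ifs <;> simp
  calc M.det * expG (eD i H) P = ∑ j, b j * (∑ a, (if j = a then M.det else 0) *
        expG (eD i (F a)) P) := by
        rw [hb i, Finset.mul_sum]
        refine Finset.sum_congr rfl fun j _ => ?_
        simp only [ite_mul, zero_mul, Finset.sum_ite_eq, Finset.mem_univ, if_true]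
        ring
    _ = ∑ j, b j * (∑ a, (∑ b', M j b' * M.adjugate b' a) * expG (eD i (F a)) P) := by
        simp only [h2]
    _ = ∑ a, ∑ b', (∑ j, b j * M j b') * M.adjugate b' a * expG (eD i (F a)) P := by
        simp only [Finset.mul_sum, Finset.sum_mul]
        rw [Finset.sum_comm]
        refine Finset.sum_congr rfl fun a _ => ?_
        rw [Finset.sum_comm]
        refine Finset.sum_congr rfl fun b' _ => ?_
        refine Finset.sum_congr rfl fun j _ => ?_
        ring
    _ = _ := by simp only [h1]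

end Pool.Agent.Lib.MP_209724_lc.SC
end

section

namespace Pool.Agent.Lib.MP_209724_lc.SC

open MvPolynomial Metric

variable {k : Type} [Field k] [Algebra k ℂ] {m r : ℕ}

private theorem ed6_inj (F : Fin r → MvPolynomial (Fin m ⊕ Fin m) k) (J : Fin r → Fin m)
    (P : Fin m → ℂ) (hdet : Matrix.det (fun a b => expG (eD (J b) (F a)) P) ≠ 0) :
    Function.Injective J := by
  intro b b' hbb
  by_contra hne
  exact hdet (Matrix.det_zero_of_column_eq hne (fun a => by simp [hbb]))

private theorem ed6_diff (v : ℂ → Fin m → ℂ) (hv : DifferentiableOn ℂ v (ball 0 2))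
    (H : MvPolynomial (Fin m ⊕ Fin m) k) :
    DifferentiableOn ℂ (fun τ => expG H (v τ)) (ball 0 2) := by
  intro τ hτ
  exact (hasDerivAt_expG H
    ((hv.differentiableAt (isOpen_ball.mem_nhds hτ)).hasDerivAt)).differentiableAt.differentiableWithinAt

private theorem ed6_sum {ι : Type} (s : Finset ι) (f : ι → ℂ → ℂ) (N : ℕ)
    (h : ∀ i ∈ s, (N : ℕ∞) ≤ analyticOrderAt (f i) 0) :
    (N : ℕ∞) ≤ analyticOrderAt (fun τ => ∑ i ∈ s, f i τ) 0 := by
  classical
  induction s using Finset.induction_on with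
  | empty =>
    have : analyticOrderAt (fun τ : ℂ => ∑ i ∈ (∅ : Finset ι), f i τ) 0 = ⊤ := by
      rw [analyticOrderAt_eq_top]
      exact Filter.Eventually.of_forall fun z => by simp
    rw [this]
    exact le_top
  | insert a s ha ih =>
    have e : (fun τ => ∑ i ∈ insert a s, f i τ) = f a + fun τ => ∑ i ∈ s, f i τ := by
      funext τ
      rw [Finset.sum_insert ha]
      rfl
    rw [e]
    refine le_trans (le_min (h a (Finset.mem_insert_self a s)) ?_) le_analyticOrderAt_add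
    exact ih fun i hi => h i (Finset.mem_insert_of_mem hi)

private theorem ed6_order (F : Fin r → MvPolynomial (Fin m ⊕ Fin m) k) (J : Fin r → Fin m)
    (P c : Fin m → ℂ) (v : ℂ → Fin m → ℂ) (hv : DifferentiableOn ℂ v (ball 0 2)) (h0 : v 0 = P)
    (h1 : ∀ τ ∈ ball (0 : ℂ) 2, ∀ i, i ∉ Set.range J → v τ i = P i + τ * c i)
    (h2 : ∀ τ ∈ ball (0 : ℂ) 2, ∀ j, expG (F j) (v τ) = 0)
    (h3 : ∀ τ ∈ ball (0 : ℂ) 2, Matrix.det (fun a b => expG (eD (J b) (F a)) (v τ)) ≠ 0)
    (hspan : ∀ H : MvPolynomial (Fin m ⊕ Fin m) k, expG H P = 0 →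
      ∃ b : Fin r → ℂ, ∀ i, expG (eD i H) P = ∑ j, b j * expG (eD i (F j)) P) (N : ℕ) :
    ∀ H : MvPolynomial (Fin m ⊕ Fin m) k, expG H P = 0 →
      (N : ℕ∞) ≤ analyticOrderAt (fun τ => expG H (v τ)) 0 := by
  have hm0 : (0 : ℂ) ∈ ball (0 : ℂ) 2 := mem_ball_self two_pos
  have hJ : Function.Injective J := ed6_inj F J (v 0) (h3 0 hm0)
  have han : ∀ H : MvPolynomial (Fin m ⊕ Fin m) k, AnalyticAt ℂ (fun τ => expG H (v τ)) 0 :=
    fun H => (ed6_diff v hv H).analyticAt (isOpen_ball.mem_nhds hm0)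
  induction N with
  | zero => intro H _; simp
  | succ N ih =>
    intro H hH
    have hz : (fun τ => expG H (v τ)) 0 = 0 := by
      change expG H (v 0) = 0
      rw [h0]; exact hH
    have key := (analyticOrderAt_deriv_ge_iff (han H) hz (n := N)).1 ?_
    · exact_mod_cast key
    · have hsum : (N : ℕ∞) ≤ analyticOrderAt (fun τ =>
          ∑ i ∈ Finset.univ.filter (fun i => i ∉ Set.range J),
            c i * expG (dlt F J i H) (v τ)) 0 := by
        refine ed6_sum _ (fun i τ => c i * expG (dlt F J i H) (v τ)) N fun i _ => ?_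
        obtain ⟨b, hb⟩ := hspan H hH
        have h4 := ih (dlt F J i H) (dlt_zero F J P H b hb i)
        have h5 : analyticOrderAt (fun τ => c i * expG (dlt F J i H) (v τ)) 0 =
            analyticOrderAt (fun _ : ℂ => c i) 0 +
              analyticOrderAt (fun τ => expG (dlt F J i H) (v τ)) 0 :=
          analyticOrderAt_mul (f := fun _ => c i) (g := fun τ => expG (dlt F J i H) (v τ))
            analyticAt_const (han _)
        rw [h5]
        exact le_trans h4 le_add_self
      have hprod : analyticOrderAt (fun τ => expG (jac F J).det (v τ) *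
          deriv (fun τ => expG H (v τ)) τ) 0 =
          analyticOrderAt (fun τ => expG (jac F J).det (v τ)) 0 +
            analyticOrderAt (deriv (fun τ => expG H (v τ))) 0 :=
        analyticOrderAt_mul (f := fun τ => expG (jac F J).det (v τ))
          (g := deriv (fun τ => expG H (v τ))) (han _) (han H).deriv
      have hmu : analyticOrderAt (fun τ => expG (jac F J).det (v τ)) 0 = 0 := by
        rw [(han _).analyticOrderAt_eq_zero]
        change expG (jac F J).det (v 0) ≠ 0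
        rw [expG_det_jac]
        exact h3 0 hm0
      have hcongr : analyticOrderAt (fun τ => expG (jac F J).det (v τ) *
          deriv (fun τ => expG H (v τ)) τ) 0 = analyticOrderAt (fun τ =>
          ∑ i ∈ Finset.univ.filter (fun i => i ∉ Set.range J),
            c i * expG (dlt F J i H) (v τ)) 0 := by
        refine analyticOrderAt_congr ?_
        filter_upwards [isOpen_ball.mem_nhds hm0] with τ hτ
        exact deriv_curve F J P c v hv hJ h1 h2 H hτ
      rw [hmu, zero_add] at hprod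
      rw [← hprod, hcongr]
      exact hsum

/-- SC-16a: the exponential polynomials which vanish at `P` vanish along the curve, if at `P` all
their gradients are in the span of the gradients of the `F j`.

Proof. Let `h_H(τ) = expG H (v τ)`, analytic on the ball (`DifferentiableOn.analyticAt`). For `H` in the
class `𝒥 = {H | expG H P = 0}` we have `h_H(0) = 0`, and `dlt F J i H ∈ 𝒥` by `dlt_zero`. Suppose some
`h_H`, `H ∈ 𝒥`, is not identically zero near `0`; choose `H` with minimal order of vanishing `N` at `0`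
(`analyticOrderAt`, a natural number; `N ≥ 1`). By `deriv_curve`, `μ * h_H' = ∑ c_i h_{dlt i H}` with
`μ(0) ≠ 0`; the right side has order at least `N` (a sum of functions of order at least `N`) and the
left side has order `N - 1`: contradiction. So all `h_H` vanish near `0`, hence on the ball (identity
theorem, `AnalyticOnNhd.eqOn_zero_of_preconnected_of_eventuallyEq_zero`). -/
theorem order_argument (F : Fin r → MvPolynomial (Fin m ⊕ Fin m) k) (J : Fin r → Fin m)
    (P c : Fin m → ℂ) (v : ℂ → Fin m → ℂ) (hv : DifferentiableOn ℂ v (ball 0 2)) (h0 : v 0 = P)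
    (h1 : ∀ τ ∈ ball (0 : ℂ) 2, ∀ i, i ∉ Set.range J → v τ i = P i + τ * c i)
    (h2 : ∀ τ ∈ ball (0 : ℂ) 2, ∀ j, expG (F j) (v τ) = 0)
    (h3 : ∀ τ ∈ ball (0 : ℂ) 2, Matrix.det (fun a b => expG (eD (J b) (F a)) (v τ)) ≠ 0)
    (hspan : ∀ H : MvPolynomial (Fin m ⊕ Fin m) k, expG H P = 0 →
      ∃ b : Fin r → ℂ, ∀ i, expG (eD i H) P = ∑ j, b j * expG (eD i (F j)) P)
    (H : MvPolynomial (Fin m ⊕ Fin m) k) (hH : expG H P = 0) {τ : ℂ} (hτ : τ ∈ ball (0 : ℂ) 2) :
    expG H (v τ) = 0 := by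
  have hm0 : (0 : ℂ) ∈ ball (0 : ℂ) 2 := mem_ball_self two_pos
  have hd := ed6_diff v hv H
  have hon : AnalyticOnNhd ℂ (fun τ => expG H (v τ)) (ball 0 2) := hd.analyticOnNhd isOpen_ball
  have htop : analyticOrderAt (fun τ => expG H (v τ)) 0 = ⊤ := by
    rw [ENat.eq_top_iff_forall_ge]
    intro N
    exact ed6_order F J P c v hv h0 h1 h2 h3 hspan N H hH
  have hev := analyticOrderAt_eq_top.1 htop
  exact hon.eqOn_zero_of_preconnected_of_eventuallyEq_zero
    (convex_ball (0 : ℂ) 2).isPreconnected hm0 hev hτ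

/-- SC-16b: a coordinate whose differential at `P` is in the span is constant along the curve.

Proof. `h = expG (X (inl i₀)) (v τ) = v τ i₀`; its gradient at `P` is `(1 if i = i₀, else 0)`, so
`dlt F J i (X (inl i₀))` vanishes at `P` by `dlt_zero`, hence along the curve by `order_argument`; by
`deriv_curve` the derivative of `h` is `0` on the ball. -/
theorem coord_const (F : Fin r → MvPolynomial (Fin m ⊕ Fin m) k) (J : Fin r → Fin m)
    (P c : Fin m → ℂ) (v : ℂ → Fin m → ℂ) (hv : DifferentiableOn ℂ v (ball 0 2)) (h0 : v 0 = P)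
    (h1 : ∀ τ ∈ ball (0 : ℂ) 2, ∀ i, i ∉ Set.range J → v τ i = P i + τ * c i)
    (h2 : ∀ τ ∈ ball (0 : ℂ) 2, ∀ j, expG (F j) (v τ) = 0)
    (h3 : ∀ τ ∈ ball (0 : ℂ) 2, Matrix.det (fun a b => expG (eD (J b) (F a)) (v τ)) ≠ 0)
    (hspan : ∀ H : MvPolynomial (Fin m ⊕ Fin m) k, expG H P = 0 →
      ∃ b : Fin r → ℂ, ∀ i, expG (eD i H) P = ∑ j, b j * expG (eD i (F j)) P)
    (i₀ : Fin m) (b : Fin r → ℂ)
    (hb : ∀ i, (if i = i₀ then 1 else 0 : ℂ) = ∑ j, b j * expG (eD i (F j)) P)
    {τ : ℂ} (hτ : τ ∈ ball (0 : ℂ) 2) : v τ i₀ = P i₀ := by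
  have hm0 : (0 : ℂ) ∈ ball (0 : ℂ) 2 := mem_ball_self two_pos
  have hJ : Function.Injective J := ed6_inj F J (v 0) (h3 0 hm0)
  set H : MvPolynomial (Fin m ⊕ Fin m) k := X (Sum.inl i₀) with hHdef
  have hval : ∀ w : Fin m → ℂ, expG H w = w i₀ := by
    intro w
    simp [expG, hHdef]
  have hgrad : ∀ i, expG (eD i H) P = if i = i₀ then 1 else 0 := by
    intro i
    simp only [expG, eD, hHdef]
    by_cases h : i = i₀
    · subst h
      simp [pderiv_X]
    · have h' : Sum.inl i₀ ≠ (Sum.inl i : Fin m ⊕ Fin m) := fun e => h (Sum.inl_injective e).symm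
      simp [pderiv_X, h, Pi.single_apply, h', Ne.symm h']
  have hdz : ∀ i, expG (dlt F J i H) P = 0 := fun i =>
    dlt_zero F J P H b (fun j => by rw [hgrad j]; exact hb j) i
  have hder : ∀ σ ∈ ball (0 : ℂ) 2, deriv (fun τ => expG H (v τ)) σ = 0 := by
    intro σ hσ
    have h4 := deriv_curve F J P c v hv hJ h1 h2 H hσ
    rw [Finset.sum_eq_zero fun i _ => by
      rw [order_argument F J P c v hv h0 h1 h2 h3 hspan (dlt F J i H) (hdz i) hσ, mul_zero]] at h4
    rcases mul_eq_zero.1 h4 with h5 | h5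
    · exact absurd h5 (by rw [expG_det_jac]; exact h3 σ hσ)
    · exact h5
  have hd := ed6_diff v hv H
  have hconst := (convex_ball (0 : ℂ) 2).is_const_of_fderivWithin_eq_zero hd (fun σ hσ => by
    rw [fderivWithin_of_isOpen isOpen_ball hσ]
    ext
    simpa using hder σ hσ) hτ hm0
  have h6 : expG H (v τ) = expG H (v 0) := hconst
  rw [hval, hval, h0] at h6
  exact h6

end Pool.Agent.Lib.MP_209724_lc.SC
end

section

namespace Pool.Agent.Lib.MP_209724_lc.SC

open MvPolynomial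

/-- SC-18: if no tangent vector at `P` moves the coordinate `i₀`, then `P i₀` is exponentially
algebraic over `k`.

Proof. Take `r, F, J` from `exists_rows`. By hypothesis the linear functional `w ↦ w i₀` vanishes on the
common kernel of the functionals `w ↦ ∑ expG (eD i H) P w i` (`expG H P = 0`; equivalently of those for
`H = F j`), so it is a combination of the functionals of the `F j` (duality in finite dimension:
`Module.finrank`/`Submodule.mem_span_of_iInf_ker_le_ker` or `mem_span_of_iInf_ker_le_ker`): this gives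
`b` with `(if i = i₀ then 1 else 0) = ∑ b j expG (eD i (F j)) P` for all `i`. Take `ε` from `exists_curve`
and choose `c` with `‖c‖ < ε` such that `P i + c i ∈ ℚ(i)` for all `i` (density of `ℚ` in `ℝ`), the curve
`v`, and the point `v 1`: it is a zero of the `F j` with nonzero determinant, its coordinates outside
`range J` are `P i + c i ∈ ℚ(i)`, and `v 1 i₀ = P i₀` by `coord_const`. So `P i₀ ∈ eclSet k`. -/
theorem mem_eclSet {k : Type} [Field k] [Algebra k ℂ] {m : ℕ} (P : Fin m → ℂ) (i₀ : Fin m)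
    (h : ¬ ∃ w : Fin m → ℂ, w i₀ = 1 ∧ ∀ H : MvPolynomial (Fin m ⊕ Fin m) k, expG H P = 0 →
      ∑ i, expG (eD i H) P * w i = 0) : P i₀ ∈ eclSet k := by
  obtain ⟨r, F, J, hF, hdet, hspan⟩ := exists_rows (k := k) P
  -- the differential of the coordinate is in the span
  obtain ⟨b, hb⟩ : ∃ b : Fin r → ℂ, ∀ i, (if i = i₀ then 1 else 0 : ℂ) =
      ∑ j, b j * expG (eD i (F j)) P := by
    let L : Fin r → ((Fin m → ℂ) →ₗ[ℂ] ℂ) := fun j =>
      ∑ i, expG (eD i (F j)) P • (LinearMap.proj i : (Fin m → ℂ) →ₗ[ℂ] ℂ)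
    have hL : ∀ j w, L j w = ∑ i, expG (eD i (F j)) P * w i := by
      intro j w
      simp [L, LinearMap.sum_apply]
    have hker : ⨅ j, LinearMap.ker (L j) ≤
        LinearMap.ker (LinearMap.proj i₀ : (Fin m → ℂ) →ₗ[ℂ] ℂ) := by
      intro w hw
      rw [Submodule.mem_iInf] at hw
      have hw' : ∀ j, ∑ i, expG (eD i (F j)) P * w i = 0 := fun j => by
        rw [← hL]; exact LinearMap.mem_ker.1 (hw j)
      rw [LinearMap.mem_ker, LinearMap.proj_apply]
      by_contra hne
      refine h ⟨fun i => (w i₀)⁻¹ * w i, inv_mul_cancel₀ hne, fun H hH => ?_⟩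
      obtain ⟨b, hb⟩ := hspan H hH
      have e : ∑ i, expG (eD i H) P * ((w i₀)⁻¹ * w i) =
          (w i₀)⁻¹ * ∑ j, b j * ∑ i, expG (eD i (F j)) P * w i := by
        simp only [hb, Finset.sum_mul, Finset.mul_sum]
        rw [Finset.sum_comm]
        refine Finset.sum_congr rfl fun j _ => Finset.sum_congr rfl fun i _ => ?_
        ring
      rw [e]
      simp only [hw', mul_zero, Finset.sum_const_zero]
    have hmem := mem_span_of_iInf_ker_le_ker hker
    rw [Submodule.mem_span_range_iff_exists_fun] at hmem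
    obtain ⟨b, hb⟩ := hmem
    refine ⟨b, fun i => ?_⟩
    have h1 := congrArg (fun f : (Fin m → ℂ) →ₗ[ℂ] ℂ => f (Pi.single i 1)) hb
    simp only [LinearMap.sum_apply, LinearMap.smul_apply, LinearMap.proj_apply, hL,
      smul_eq_mul] at h1
    have h2 : ∀ j, ∑ i', expG (eD i' (F j)) P * (Pi.single i (1 : ℂ) : Fin m → ℂ) i' =
        expG (eD i (F j)) P := by
      intro j
      rw [Finset.sum_eq_single i]
      · simp
      · intro i' _ hne
        simp [Pi.single_apply, hne]
      · intro hi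
        exact absurd (Finset.mem_univ i) hi
    simp only [h2] at h1
    rw [h1, Pi.single_apply]
    by_cases hi : i = i₀
    · simp [hi]
    · simp [hi, Ne.symm hi]
  obtain ⟨ε, hε, hcurve⟩ := exists_curve F J P hF hdet
  -- rational coordinates
  have hrat : ∀ i, ∃ p q : ℚ, ‖((p : ℂ) + q * Complex.I) - P i‖ < ε := by
    intro i
    obtain ⟨p, hp⟩ := exists_rat_near (P i).re (half_pos hε)
    obtain ⟨q, hq⟩ := exists_rat_near (P i).im (half_pos hε)
    refine ⟨p, q, lt_of_le_of_lt (Complex.norm_le_abs_re_add_abs_im _) ?_⟩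
    have e1 : (((p : ℂ) + q * Complex.I) - P i).re = p - (P i).re := by simp
    have e2 : (((p : ℂ) + q * Complex.I) - P i).im = q - (P i).im := by simp
    rw [e1, e2, abs_sub_comm, abs_sub_comm (q : ℝ)]
    linarith
  choose p q hpq using hrat
  have hc : ‖fun i => ((p i : ℂ) + q i * Complex.I) - P i‖ < ε :=
    (pi_norm_lt_iff hε).2 hpq
  obtain ⟨v, hv, h0, hall⟩ := hcurve _ hc
  have hone : (1 : ℂ) ∈ Metric.ball (0 : ℂ) 2 := by
    simp
  have hcc := coord_const F J P (fun i => ((p i : ℂ) + q i * Complex.I) - P i) v hv h0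
    (fun τ hτ => (hall τ hτ).1) (fun τ hτ => (hall τ hτ).2.1) (fun τ hτ => (hall τ hτ).2.2)
    hspan i₀ b hb hone
  refine ⟨m, r, F, J, v 1, i₀, (hall 1 hone).2.1, (hall 1 hone).2.2, fun i hi => ?_, hcc.symm⟩
  refine ⟨p i, q i, ?_⟩
  rw [(hall 1 hone).1 i hi]
  ring

end Pool.Agent.Lib.MP_209724_lc.SC
end

section

namespace Pool.Agent.Lib.MP_209724_lc.HS

open MvPolynomial Filter Topology Metric
open MV (lead evT glue)
open GC (evM)

private lemma bc_deriv {E : Type} [NormedAddCommGroup E] [NormedSpace ℂ E] {x₀ : E} {ρ K : ℝ}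
    (hρ : 0 < ρ) (hK0 : 0 < K) {g : E → ℂ} (hg : DifferentiableOn ℂ g (ball x₀ ρ))
    (hK : ∀ x ∈ ball x₀ ρ, |(g x).re| ≤ K) {y v : E} (hy : y ∈ ball x₀ (ρ / 2)) (hv : v ≠ 0) :
    HasDerivAt (fun s : ℂ => g (y + s • v)) (deriv (fun s : ℂ => g (y + s • v)) 0) 0 ∧
      ‖deriv (fun s : ℂ => g (y + s • v)) 0‖ ≤ 16 * K / ρ * ‖v‖ := by
  have hvn : 0 < ‖v‖ := norm_pos_iff.mpr hv
  set R : ℝ := ρ / (2 * ‖v‖) with hR
  have hRpos : 0 < R := by positivity
  have hRv : R * ‖v‖ = ρ / 2 := by rw [hR]; field_simp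
  have hmap : ∀ s ∈ ball (0 : ℂ) R, y + s • v ∈ ball x₀ ρ := by
    intro s hs
    rw [mem_ball_zero_iff] at hs
    rw [mem_ball, dist_eq_norm] at hy ⊢
    have h1 : y + s • v - x₀ = (y - x₀) + s • v := by abel
    rw [h1]
    calc ‖(y - x₀) + s • v‖ ≤ ‖y - x₀‖ + ‖s • v‖ := norm_add_le _ _
      _ = ‖y - x₀‖ + ‖s‖ * ‖v‖ := by rw [norm_smul]
      _ < ρ / 2 + R * ‖v‖ := by
          have := mul_lt_mul_of_pos_right hs hvn
          linarith
      _ = ρ := by rw [hRv]; ring
  set h : ℂ → ℂ := fun s => g (y + s • v) with hh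
  have hdiff : DifferentiableOn ℂ h (ball 0 R) := by
    apply hg.comp
    · fun_prop
    · exact hmap
  have h0mem : (0 : ℂ) ∈ ball (0 : ℂ) R := mem_ball_self hRpos
  have hda : DifferentiableAt ℂ h 0 := hdiff.differentiableAt (isOpen_ball.mem_nhds h0mem)
  refine ⟨hda.hasDerivAt, ?_⟩
  have hR2 : 0 < R / 2 := by positivity
  have hbd : ∀ z ∈ sphere (0 : ℂ) (R / 2), ‖h z - h 0‖ ≤ 4 * K := by
    intro z hz
    have hzn : ‖z‖ = R / 2 := by simpa using hz
    have h6 := Complex.borelCaratheodory_zero (f := fun s => h s - h 0) (M := 2 * K) (R := R)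
      (z := z) (by positivity) (hdiff.sub_const _) (by
        intro w hw
        simp only [Set.mem_ofPred_eq, Complex.sub_re]
        have h7 := abs_le.1 (hK _ (hmap w hw))
        have h8 := abs_le.1 (hK _ (hmap 0 h0mem))
        simp only [hh]
        linarith [h7.2, h8.1]) hRpos (by
          rw [mem_ball_zero_iff, hzn]; linarith) (by simp)
    rw [hzn] at h6
    have h9 : 2 * (2 * K) * (R / 2) / (R - R / 2) = 4 * K := by
      have : R - R / 2 = R / 2 := by ring
      rw [this]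
      field_simp
      ring
    rw [h9] at h6
    exact h6
  have hdc : DiffContOnCl ℂ (fun s => h s - h 0) (ball 0 (R / 2)) := by
    apply DifferentiableOn.diffContOnCl
    refine (hdiff.sub_const _).mono ?_
    rw [closure_ball _ hR2.ne']
    exact closedBall_subset_ball (by linarith)
  have h10 := Complex.norm_deriv_le_of_forall_mem_sphere_norm_le hR2 hdc hbd
  rw [deriv_sub_const] at h10
  refine h10.trans (le_of_eq ?_)
  rw [hR]
  field_simp
  ring

/-- HS-10: Lipschitz bound from a bound of the real part. -/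
theorem bc_lip {E : Type} [NormedAddCommGroup E] [NormedSpace ℂ E] {x₀ : E} {ρ K : ℝ}
    (hρ : 0 < ρ) {g : E → ℂ} (hg : DifferentiableOn ℂ g (ball x₀ ρ))
    (hK : ∀ x ∈ ball x₀ ρ, |(g x).re| ≤ K) : ∀ x ∈ ball x₀ (ρ / 2), ∀ x' ∈ ball x₀ (ρ / 2),
      ‖g x - g x'‖ ≤ 16 * K / ρ * ‖x - x'‖ := by
  intro x hx x' hx'
  have hK0 : 0 ≤ K := (abs_nonneg _).trans (hK x₀ (mem_ball_self hρ))
  by_cases hv : x' = x
  · subst hv
    simp
  have hv' : x' - x ≠ 0 := sub_ne_zero.mpr hv
  have key : ∀ K' : ℝ, K < K' → ‖g x' - g x‖ ≤ 16 * K' / ρ * ‖x' - x‖ := by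
    intro K' hKK'
    have hK' : 0 < K' := lt_of_le_of_lt hK0 hKK'
    have hKb : ∀ x ∈ ball x₀ ρ, |(g x).re| ≤ K' := fun z hz => (hK z hz).trans hKK'.le
    have hseg : ∀ t : ℝ, t ∈ Set.Icc (0:ℝ) 1 → x + (t : ℂ) • (x' - x) ∈ ball x₀ (ρ / 2) := by
      intro t ht
      let _ : NormedSpace ℝ E := NormedSpace.restrictScalars ℝ ℂ E
      have h1 := (convex_ball x₀ (ρ / 2)).add_smul_sub_mem hx hx' ht
      exact h1
    have hder : ∀ t : ℝ, t ∈ Set.Icc (0:ℝ) 1 →
        HasDerivAt (fun t : ℝ => g (x + (t : ℂ) • (x' - x)))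
          (deriv (fun s : ℂ => g ((x + (t : ℂ) • (x' - x)) + s • (x' - x))) 0) t := by
      intro t ht
      have h2 := (bc_deriv hρ hK' hg hKb (hseg t ht) hv').1
      have h3 : HasDerivAt (fun r : ℝ => ((r - t : ℝ) : ℂ)) 1 t := by
        have := ((hasDerivAt_id t).sub_const t).ofReal_comp
        simpa using this
      have h4 : HasDerivAt (fun s : ℂ => g ((x + (t : ℂ) • (x' - x)) + s • (x' - x)))
        (deriv (fun s : ℂ => g ((x + (t : ℂ) • (x' - x)) + s • (x' - x))) 0)
          ((fun r : ℝ => ((r - t : ℝ) : ℂ)) t) := by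
        simpa using h2
      have h5 := h4.comp t h3
      rw [mul_one] at h5
      refine h5.congr_of_eventuallyEq (Eventually.of_forall fun r => ?_)
      simp only [Function.comp]
      congr 1
      rw [add_assoc, ← add_smul]
      congr 2
      push_cast
      ring
    have h6 := norm_image_sub_le_of_norm_deriv_le_segment_01'
      (f := fun t : ℝ => g (x + (t : ℂ) • (x' - x)))
      (f' := fun t : ℝ => deriv (fun s : ℂ => g ((x + (t : ℂ) • (x' - x)) + s • (x' - x))) 0)
      (C := 16 * K' / ρ * ‖x' - x‖)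
      (fun t ht => (hder t ht).hasDerivWithinAt)
      (fun t ht => (bc_deriv hρ hK' hg hKb (hseg t (Set.Ico_subset_Icc_self ht)) hv').2)
    simpa using h6
  rw [norm_sub_rev (g x), norm_sub_rev x]
  have hlim : Tendsto (fun K' : ℝ => 16 * K' / ρ * ‖x' - x‖) (𝓝[>] K)
      (𝓝 (16 * K / ρ * ‖x' - x‖)) := by
    apply Tendsto.mono_left _ nhdsWithin_le_nhds
    have : Continuous (fun K' : ℝ => 16 * K' / ρ * ‖x' - x‖) := by fun_prop
    exact this.tendsto K
  exact ge_of_tendsto hlim (by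
    filter_upwards [self_mem_nhdsWithin] with K' hK'
    exact key K' hK')

end Pool.Agent.Lib.MP_209724_lc.HS
end

section

namespace Pool.Agent.Lib.MP_209724_lc.HS

open MvPolynomial Filter Topology Metric
open MV (lead evT glue)
open GC (evM)

/-- HS-7: fixed points depending on a parameter. -/
theorem fixed_family {ι : Type} [Fintype ι] {T : Set ℂ} (hT : IsOpen T) {x₀ : ι → ℂ}
    {ρ δ K : ℝ} (hδ0 : 0 ≤ δ) (hδ : δ ≤ 1 / 4) (hK0 : 0 ≤ K) (Λ : (ι → ℂ) × ℂ → ι → ℂ)
    (hd : ∀ j, DifferentiableOn ℂ (fun p => Λ p j) (ball x₀ ρ ×ˢ T))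
    (hL : ∀ x ∈ ball x₀ ρ, ∀ x' ∈ ball x₀ ρ, ∀ ζ ∈ T,
      ‖Λ (x, ζ) - Λ (x', ζ)‖ ≤ δ * ‖x - x'‖)
    (hK : ∀ ζ ∈ T, ‖Λ (x₀, ζ)‖ ≤ K) (k : ι → ℂ) (hρ : 4 * (K + ‖k‖) < ρ) :
    ∃ X : ℂ → ι → ℂ, (∀ j, DifferentiableOn ℂ (fun ζ => X ζ j) T) ∧
      ∀ ζ ∈ T, ‖X ζ - x₀‖ ≤ 2 * (K + ‖k‖) ∧ X ζ = x₀ + k + Λ (X ζ, ζ) := by
  set b : ℝ := 2 * (K + ‖k‖) with hb
  have hk0 : 0 ≤ ‖k‖ := norm_nonneg k
  have hb0 : 0 ≤ b := by positivity
  have hbρ : b < ρ := by linarith
  have hball : ∀ x : ι → ℂ, ‖x - x₀‖ ≤ b → x ∈ ball x₀ ρ := by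
    intro x hx
    rw [mem_ball, dist_eq_norm]
    linarith
  have hx₀ : x₀ ∈ ball x₀ ρ := hball x₀ (by simpa using hb0)
  -- the iteration
  let Y : ℕ → ℂ → ι → ℂ := fun m ζ => (fun x => x₀ + k + Λ (x, ζ))^[m] x₀
  have hY0 : ∀ ζ, Y 0 ζ = x₀ := fun ζ => rfl
  have hYs : ∀ m ζ, Y (m + 1) ζ = x₀ + k + Λ (Y m ζ, ζ) := fun m ζ =>
    Function.iterate_succ_apply' _ _ _
  have hYb : ∀ m, ∀ ζ ∈ T, ‖Y m ζ - x₀‖ ≤ b := by
    intro m
    induction m with
    | zero => intro ζ _; rw [hY0]; simpa using hb0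
    | succ m ih =>
      intro ζ hζ
      rw [hYs]
      have h1 := hL (Y m ζ) (hball _ (ih ζ hζ)) x₀ hx₀ ζ hζ
      have h2 := ih ζ hζ
      have h3 := hK ζ hζ
      have h4 : x₀ + k + Λ (Y m ζ, ζ) - x₀ = k + (Λ (Y m ζ, ζ) - Λ (x₀, ζ)) + Λ (x₀, ζ) := by
        ring
      rw [h4]
      have h5 : δ * ‖Y m ζ - x₀‖ ≤ 1 / 4 * b := mul_le_mul hδ h2 (norm_nonneg _) (by norm_num)
      calc ‖k + (Λ (Y m ζ, ζ) - Λ (x₀, ζ)) + Λ (x₀, ζ)‖
          ≤ ‖k‖ + ‖Λ (Y m ζ, ζ) - Λ (x₀, ζ)‖ + ‖Λ (x₀, ζ)‖ := norm_add₃_le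
        _ ≤ ‖k‖ + 1 / 4 * b + K := by gcongr; exact h1.trans h5
        _ ≤ b := by linarith
  have hYd : ∀ m, ∀ ζ ∈ T, ‖Y (m + 1) ζ - Y m ζ‖ ≤ b * (1 / 4) ^ m := by
    intro m
    induction m with
    | zero => intro ζ hζ; rw [hY0, pow_zero, mul_one]; exact hYb 1 ζ hζ
    | succ m ih =>
      intro ζ hζ
      have h1 := hL (Y (m + 1) ζ) (hball _ (hYb (m + 1) ζ hζ)) (Y m ζ) (hball _ (hYb m ζ hζ)) ζ hζ
      have h2 : Y (m + 1 + 1) ζ - Y (m + 1) ζ = Λ (Y (m + 1) ζ, ζ) - Λ (Y m ζ, ζ) :=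
        (congrArg₂ (· - ·) (hYs (m + 1) ζ) (hYs m ζ)).trans (by simp)
      rw [h2]
      refine h1.trans ?_
      have h3 := ih ζ hζ
      calc δ * ‖Y (m + 1) ζ - Y m ζ‖ ≤ 1 / 4 * (b * (1 / 4) ^ m) :=
            mul_le_mul hδ h3 (norm_nonneg _) (by norm_num)
        _ = b * (1 / 4) ^ (m + 1) := by ring
  have hYdist : ∀ ζ ∈ T, ∀ m, dist (Y m ζ) (Y (m + 1) ζ) ≤ b * (1 / 4) ^ m := by
    intro ζ hζ m
    rw [dist_comm, dist_eq_norm]
    exact hYd m ζ hζ
  have hYdiff : ∀ m, ∀ j, DifferentiableOn ℂ (fun ζ => Y m ζ j) T := by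
    intro m
    induction m with
    | zero => intro j; simp only [hY0]; exact differentiableOn_const _
    | succ m ih =>
      intro j
      have h1 : (fun ζ => Y (m + 1) ζ j) = fun ζ => x₀ j + k j + Λ (Y m ζ, ζ) j := by
        funext ζ
        rw [hYs]
        rfl
      rw [h1]
      apply (differentiableOn_const _).add
      have h2 : DifferentiableOn ℂ (fun ζ => (Y m ζ, ζ)) T :=
        (differentiableOn_pi.2 ih).prodMk differentiableOn_id
      exact (hd j).comp h2 (fun ζ hζ => ⟨hball _ (hYb m ζ hζ), hζ⟩)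
  have hlim : ∀ ζ ∈ T, ∃ x, Tendsto (fun m => Y m ζ) atTop (𝓝 x) := fun ζ hζ =>
    cauchySeq_tendsto_of_complete (cauchySeq_of_le_geometric (1 / 4) b (by norm_num) (hYdist ζ hζ))
  choose! X hX using hlim
  have hrate : ∀ ζ ∈ T, ∀ m, dist (Y m ζ) (X ζ) ≤ b * (1 / 4) ^ m / (1 - 1 / 4) := fun ζ hζ m =>
    dist_le_of_le_geometric_of_tendsto (1 / 4) b (by norm_num) (hYdist ζ hζ) (hX ζ hζ) m
  have hXb : ∀ ζ ∈ T, ‖X ζ - x₀‖ ≤ b := fun ζ hζ =>
    le_of_tendsto ((hX ζ hζ).sub_const x₀).norm (Eventually.of_forall fun m => hYb m ζ hζ)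
  refine ⟨X, fun j => ?_, fun ζ hζ => ⟨hXb ζ hζ, ?_⟩⟩
  · have hu : TendstoUniformlyOn (fun m ζ => Y m ζ j) (fun ζ => X ζ j) atTop T := by
      rw [Metric.tendstoUniformlyOn_iff]
      intro ε hε
      have h1 : Tendsto (fun m : ℕ => b * (1 / 4 : ℝ) ^ m / (1 - 1 / 4)) atTop (𝓝 0) := by
        have := (tendsto_pow_atTop_nhds_zero_of_lt_one (r := (1 / 4 : ℝ)) (by norm_num)
          (by norm_num)).const_mul b
        simpa using this.div_const (1 - 1 / 4)
      filter_upwards [h1.eventually (gt_mem_nhds hε)] with m hm ζ hζ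
      rw [dist_comm]
      exact lt_of_le_of_lt ((dist_le_pi_dist _ _ j).trans (hrate ζ hζ m)) hm
    exact hu.tendstoLocallyUniformlyOn.differentiableOn (Eventually.of_forall fun m => hYdiff m j)
      hT
  · have h1 : Tendsto (fun m => Y (m + 1) ζ) atTop (𝓝 (X ζ)) :=
      (hX ζ hζ).comp (tendsto_add_atTop_nat 1)
    have h2 : Tendsto (fun m => Λ (Y m ζ, ζ)) atTop (𝓝 (Λ (X ζ, ζ))) := by
      rw [tendsto_iff_norm_sub_tendsto_zero]
      have h3 : Tendsto (fun m => δ * ‖Y m ζ - X ζ‖) atTop (𝓝 0) := by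
        have := (tendsto_iff_norm_sub_tendsto_zero.1 (hX ζ hζ)).const_mul δ
        simpa using this
      refine squeeze_zero (fun _ => norm_nonneg _) (fun m => ?_) h3
      exact hL _ (hball _ (hYb m ζ hζ)) _ (hball _ (hXb ζ hζ)) ζ hζ
    have h3 : Tendsto (fun m => Y (m + 1) ζ) atTop (𝓝 (x₀ + k + Λ (X ζ, ζ))) := by
      simp only [hYs]
      exact h2.const_add _
    exact tendsto_nhds_unique h1 h3

end Pool.Agent.Lib.MP_209724_lc.HS
end

section

namespace Pool.Agent.Lib.MP_209724_lc.HS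

open MvPolynomial Filter Topology Metric
open MV (lead evT glue)
open GC (evM)

private theorem twoTerms_aux (T : Finset ℕ) (a : ℕ → ℂ) (Y : ℂ) (K : ℝ)
    (ha : ∀ t ∈ T, Real.exp (-K) ≤ ‖a t‖ ∧ ‖a t‖ ≤ Real.exp K)
    (h : ∑ t ∈ T, a t * Y ^ t = 0) {t1 : ℕ} (ht1 : t1 ∈ T) {M : ℝ} (hM : 0 ≤ M)
    (hle : ∀ t ∈ T, t ≠ t1 → ‖Y‖ ^ t ≤ M) :
    Real.exp (-K) * ‖Y‖ ^ t1 ≤ T.card * (Real.exp K * M) := by
  classical
  have h1 := Finset.add_sum_erase T (fun t => a t * Y ^ t) ht1
  rw [h] at h1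
  have h2 : a t1 * Y ^ t1 = -∑ t ∈ T.erase t1, a t * Y ^ t := eq_neg_of_add_eq_zero_left h1
  have h3 : ‖a t1‖ * ‖Y‖ ^ t1 ≤ ∑ t ∈ T.erase t1, Real.exp K * M := by
    rw [← norm_pow, ← norm_mul, h2, norm_neg]
    refine (norm_sum_le _ _).trans (Finset.sum_le_sum fun t ht => ?_)
    rw [norm_mul, norm_pow]
    exact mul_le_mul (ha t (Finset.mem_of_mem_erase ht)).2
      (hle t (Finset.mem_of_mem_erase ht) (Finset.ne_of_mem_erase ht)) (by positivity)
      (Real.exp_pos _).le
  rw [Finset.sum_const, nsmul_eq_mul] at h3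
  calc Real.exp (-K) * ‖Y‖ ^ t1 ≤ ‖a t1‖ * ‖Y‖ ^ t1 :=
        mul_le_mul_of_nonneg_right (ha t1 ht1).1 (by positivity)
    _ ≤ _ := h3
    _ ≤ _ := by
        apply mul_le_mul_of_nonneg_right _ (by positivity)
        exact_mod_cast Finset.card_le_card (Finset.erase_subset _ _)

/-- HS-13: two dominant terms. -/
theorem two_terms (T : Finset ℕ) (hT : T.Nonempty) (a : ℕ → ℂ) (Y : ℂ) (hY : Y ≠ 0) (K : ℝ)
    (hK : 0 ≤ K) (ha : ∀ t ∈ T, Real.exp (-K) ≤ ‖a t‖ ∧ ‖a t‖ ≤ Real.exp K)
    (h : ∑ t ∈ T, a t * Y ^ t = 0) : |Real.log ‖Y‖| ≤ 2 * K + Real.log T.card := by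
  have hYp : 0 < ‖Y‖ := norm_pos_iff.2 hY
  have hcard : (0 : ℝ) < T.card := by exact_mod_cast Finset.card_pos.2 hT
  have hcard1 : (1 : ℝ) ≤ T.card := by exact_mod_cast Finset.card_pos.2 hT
  have hlogc : 0 ≤ Real.log T.card := Real.log_nonneg hcard1
  have hEE : Real.exp (-K) * Real.exp K = 1 := by rw [← Real.exp_add]; simp
  have hE := Real.exp_pos K
  have hE' := Real.exp_pos (-K)
  have hlogE : Real.log (T.card * (Real.exp K * Real.exp K)) = 2 * K + Real.log T.card := by
    rw [Real.log_mul hcard.ne' (by positivity), Real.log_mul hE.ne' hE.ne', Real.log_exp]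
    ring
  rcases lt_trichotomy ‖Y‖ 1 with h1 | h1 | h1
  · -- `|Y| < 1`
    have h2 := twoTerms_aux T a Y K ha h (T.min'_mem hT) (M := ‖Y‖ ^ (T.min' hT + 1))
      (by positivity) (fun t ht hne => by
        apply pow_le_pow_of_le_one hYp.le h1.le
        have := T.min'_le t ht
        omega)
    have h3 : Real.exp (-K) ≤ T.card * (Real.exp K * ‖Y‖) := by
      have hp : 0 < ‖Y‖ ^ T.min' hT := by positivity
      rw [pow_succ] at h2
      have h4 : T.card * (Real.exp K * (‖Y‖ ^ T.min' hT * ‖Y‖)) =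
          T.card * (Real.exp K * ‖Y‖) * ‖Y‖ ^ T.min' hT := by ring
      rw [h4] at h2
      exact le_of_mul_le_mul_right h2 hp
    have h5 : ‖Y‖⁻¹ ≤ T.card * (Real.exp K * Real.exp K) := by
      rw [inv_le_iff_one_le_mul₀ hYp]
      calc (1 : ℝ) = Real.exp K * Real.exp (-K) := by rw [mul_comm]; exact hEE.symm
        _ ≤ Real.exp K * (T.card * (Real.exp K * ‖Y‖)) := mul_le_mul_of_nonneg_left h3 hE.le
        _ = _ := by ring
    have h6 := Real.log_le_log (inv_pos.2 hYp) h5
    rw [hlogE, Real.log_inv] at h6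
    have h7 : Real.log ‖Y‖ ≤ 0 := Real.log_nonpos hYp.le h1.le
    rw [abs_of_nonpos h7]
    exact h6
  · rw [h1, Real.log_one, abs_zero]
    linarith
  · -- `|Y| > 1`
    have hmax := T.max'_mem hT
    have h0 : T.max' hT ≠ 0 := by
      intro h0
      have h2 := twoTerms_aux T a Y K ha h hmax (M := 0) le_rfl (fun t ht hne => by
        have := T.le_max' t ht
        omega)
      simp only [mul_zero] at h2
      have : 0 < Real.exp (-K) * ‖Y‖ ^ T.max' hT := by positivity
      linarith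
    have h2 := twoTerms_aux T a Y K ha h hmax (M := ‖Y‖ ^ (T.max' hT - 1))
      (by positivity) (fun t ht hne => by
        apply pow_le_pow_right₀ h1.le
        have := T.le_max' t ht
        omega)
    have h3 : Real.exp (-K) * ‖Y‖ ≤ T.card * Real.exp K := by
      have hp : 0 < ‖Y‖ ^ (T.max' hT - 1) := by positivity
      have h4 : ‖Y‖ ^ T.max' hT = ‖Y‖ * ‖Y‖ ^ (T.max' hT - 1) := by
        rw [← pow_succ']
        congr 1
        omega
      rw [h4] at h2
      have h5 : Real.exp (-K) * ‖Y‖ * ‖Y‖ ^ (T.max' hT - 1) ≤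
          T.card * Real.exp K * ‖Y‖ ^ (T.max' hT - 1) := by
        calc _ = Real.exp (-K) * (‖Y‖ * ‖Y‖ ^ (T.max' hT - 1)) := by ring
          _ ≤ _ := h2
          _ = _ := by ring
      exact le_of_mul_le_mul_right h5 hp
    have h5 : ‖Y‖ ≤ T.card * (Real.exp K * Real.exp K) := by
      calc ‖Y‖ = Real.exp K * (Real.exp (-K) * ‖Y‖) := by
            rw [← mul_assoc, mul_comm (Real.exp K), hEE, one_mul]
        _ ≤ Real.exp K * (T.card * Real.exp K) := mul_le_mul_of_nonneg_left h3 hE.le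
        _ = _ := by ring
    have h6 := Real.log_le_log hYp h5
    rw [hlogE] at h6
    rw [abs_of_nonneg (Real.log_nonneg h1.le)]
    exact h6

end Pool.Agent.Lib.MP_209724_lc.HS
end

section

namespace Pool.Agent.Lib.MP_209724_lc.SC

open MvPolynomial

/-- SC-19: `E`-derivations exist (Kirby, Wilkie).

Proof. By `exists_eder_of_local` let `z : Fin m → ℂ`, and put `P = Fin.cons t z : Fin (m + 1) → ℂ`,
`i₀ = 0`. As `P 0 = t ∉ eclSet k`, `mem_eclSet` gives `w` with `w 0 = 1` and
`∑ expG (eD i H) P * w i = 0` whenever `expG H P = 0`. Apply `exists_tangent` with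
`σ = Fin (m+1) ⊕ Fin (m+1)`, `u = Sum.elim P (exp ∘ P)`, `w' = Sum.elim w (fun i => exp (P i) * w i)`: its
hypothesis is the previous statement (`expG (eD i H) P * w i = aeval u (pderiv (inl i) H) * w i +
exp (P i) * aeval u (pderiv (inr i) H) * w i`, `Fintype.sum_sum_type`). `k` has characteristic zero
because it embeds in `ℂ`. -/
theorem eder_exists {k : Type} [Field k] [Algebra k ℂ] {t : ℂ} (ht : t ∉ eclSet k) :
    ∃ D : Derivation k ℂ ℂ, D t = 1 ∧ ∀ z, D (Complex.exp z) = Complex.exp z * D z := by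
  haveI : CharZero k := (algebraMap k ℂ).charZero
  refine exists_eder_of_local t fun m z => ?_
  set P : Fin (m + 1) → ℂ := Fin.cons t z with hP
  have hw : ∃ w : Fin (m + 1) → ℂ, w 0 = 1 ∧
      ∀ H : MvPolynomial (Fin (m + 1) ⊕ Fin (m + 1)) k, expG H P = 0 →
        ∑ i, expG (eD i H) P * w i = 0 := by
    by_contra hno
    have h1 := mem_eclSet P 0 hno
    exact ht (by simpa [hP] using h1)
  obtain ⟨w, hw0, hw⟩ := hw
  obtain ⟨δ, hδ⟩ := exists_tangent (k := k) (L := ℂ) (σ := Fin (m + 1) ⊕ Fin (m + 1))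
    (Sum.elim P fun i => Complex.exp (P i)) (Sum.elim w fun i => Complex.exp (P i) * w i)
    (fun H hH => by
      have h1 := hw H hH
      rw [Fintype.sum_sum_type, ← Finset.sum_add_distrib, ← h1]
      refine Finset.sum_congr rfl fun i _ => ?_
      simp only [expG, eD, map_add, map_mul, aeval_X, Sum.elim_inl, Sum.elim_inr]
      ring)
  refine ⟨δ, ?_, fun i => ?_⟩
  · have h1 := hδ (Sum.inl 0)
    simp only [Sum.elim_inl] at h1
    rw [hw0] at h1
    simpa [hP] using h1
  · have h1 := hδ (Sum.inl i.succ)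
    have h2 := hδ (Sum.inr i.succ)
    simp only [Sum.elim_inl, Sum.elim_inr, hP, Fin.cons_succ] at h1 h2
    rw [h2, h1]

end Pool.Agent.Lib.MP_209724_lc.SC
end

section

namespace Pool.Agent.Lib.MP_209724_lc.SC

open MvPolynomial

private theorem ed10_countable {k : Type} [Field k] [Algebra k ℂ] [Countable k] (s : Set ℂ) (hs : s.Countable) :
    Countable (IntermediateField.adjoin k s) := by
  rw [← Cardinal.mk_le_aleph0_iff]
  refine (IntermediateField.cardinalMk_adjoin_le k s).trans ?_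
  refine max_le (max_le ?_ ?_) le_rfl
  · exact Cardinal.mk_le_aleph0_iff.2 inferInstance
  · have : Countable s := hs
    exact Cardinal.mk_le_aleph0_iff.2 inferInstance

/-- SC-20b: several independent `E`-derivations.

Proof. Induction on `e` (`k` fixed). Given `t : Fin e → ℂ` and `D`, let
`k' = IntermediateField.adjoin k (Set.range t)` (countable: `k` is countable and `t` is finite; e.g. it
is the set of quotients of elements of `Algebra.adjoin k (range t)`, which is the range of `aeval t` on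
the countable type `MvPolynomial (Fin e) k`; or by cardinals). Choose `t' ∉ eclSet k'`
(`countable_eclSet`, `ℂ` is uncountable: `Cardinal.not_countable_complex` or similar) and
`D' : Derivation k' ℂ ℂ` from `eder_exists`, restricted to `k` (`Derivation.restrictScalars`). Then
`D' (t j) = 0`, `D' t' = 1`. The matrix for `Fin.snoc t t'`, `Fin.snoc D D'` has last row
`(0, ..., 0, 1)`; expand the determinant (`Matrix.det_succ_row` or `Matrix.det_fromBlocks_zero₂₁`). -/
theorem exists_eders (k : Type) [Field k] [Algebra k ℂ] [Countable k] (e : ℕ) :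
    ∃ (t : Fin e → ℂ) (D : Fin e → Derivation k ℂ ℂ),
      (∀ l z, D l (Complex.exp z) = Complex.exp z * D l z) ∧
      Matrix.det (fun l j => D l (t j)) ≠ 0 := by
  induction e with
  | zero =>
    refine ⟨fun i => i.elim0, fun i => i.elim0, fun i => i.elim0, ?_⟩
    rw [Matrix.det_isEmpty]
    exact one_ne_zero
  | succ e ih =>
    obtain ⟨t, D, hE, hdet⟩ := ih
    have hc : Countable (IntermediateField.adjoin k (Set.range t)) :=
      ed10_countable _ (Set.countable_range t)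
    obtain ⟨t', ht'⟩ : ∃ t' : ℂ, t' ∉ eclSet (IntermediateField.adjoin k (Set.range t)) := by
      by_contra hcon
      push Not at hcon
      refine not_countable_complex ?_
      exact (countable_eclSet (IntermediateField.adjoin k (Set.range t))).mono fun z _ => hcon z
    obtain ⟨D', h1, h2⟩ := eder_exists ht'
    refine ⟨Fin.snoc t t', Fin.snoc D (D'.restrictScalars k), ?_, ?_⟩
    · intro l z
      refine Fin.lastCases ?_ (fun i => ?_) l
      · rw [Fin.snoc_last]
        exact h2 z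
      · rw [Fin.snoc_castSucc]
        exact hE i z
    · have h0 : ∀ j, D' (t j) = 0 := fun j => by
        have h3 : t j ∈ IntermediateField.adjoin k (Set.range t) :=
          IntermediateField.subset_adjoin _ _ ⟨j, rfl⟩
        exact D'.map_algebraMap (⟨t j, h3⟩ : IntermediateField.adjoin k (Set.range t))
      have h4 : Matrix.det (fun l j => (Fin.snoc D (D'.restrictScalars k) : Fin (e + 1) → Derivation k ℂ ℂ) l
          ((Fin.snoc t t' : Fin (e + 1) → ℂ) j)) = Matrix.det (fun l j => D l (t j)) := by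
        rw [Matrix.det_succ_row _ (Fin.last e), Fin.sum_univ_castSucc, Finset.sum_eq_zero, zero_add]
        · rw [Fin.snoc_last, Fin.snoc_last]
          rw [show (D'.restrictScalars k) t' = 1 from h1, mul_one]
          have h5 : ((-1 : ℂ)) ^ (((Fin.last e : Fin (e + 1)) : ℕ) + ((Fin.last e : Fin (e + 1)) : ℕ)) = 1 :=
            Even.neg_one_pow ⟨_, rfl⟩
          rw [h5, one_mul]
          congr 1
          ext l j
          rw [Matrix.submatrix_apply, Fin.succAbove_last, Fin.snoc_castSucc, Fin.snoc_castSucc]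
        · intro j _
          rw [Fin.snoc_last, Fin.snoc_castSucc]
          rw [show (D'.restrictScalars k) (t j) = 0 from h0 j, mul_zero, zero_mul]
      rw [h4]
      exact hdet

end Pool.Agent.Lib.MP_209724_lc.SC
end
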