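import Mathlib
import Pool.Agent.Lib.MP_209724_lc.SC.Ed3
import Pool.Agent.Lib.MP_209724_lc.OV.Defs

section

namespace Pool.Agent.Lib.MP_209724_lc.HS

open MvPolynomial Filter Topology Metric
open MV (lead evT glue)
open GC (evM)

/-- HS-28: elimination. -/
theorem exists_multiple {n : ℕ} {M : Type} [Field M] [Algebra ℂ M] (ξ : Fin n → M)
    (P : MvPolynomial (Fin n) ℂ) (hP : ∀ c, aeval ξ c = 0 ↔ P ∣ c) (l : Fin n)
    (hξ : AlgebraicIndependent ℂ (fun j : {j : Fin n // j ≠ l} => ξ j))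
    (hl : IsAlgebraic (Algebra.adjoin ℂ (Set.range fun j : {j : Fin n // j ≠ l} => ξ j)) (ξ l))
    (F : MvPolynomial (Fin n) ℂ) (hF : ¬ P ∣ F) :
    ∃ (u : MvPolynomial (Fin n) ℂ) (c : MvPolynomial {j : Fin n // j ≠ l} ℂ), c ≠ 0 ∧
      P ∣ u * F - rename Subtype.val c := by
  classical
  have hf0 : aeval ξ F ≠ 0 := fun h => hF ((hP F).1 h)
  have hX : ∀ i, IsAlgebraic (Algebra.adjoin ℂ (Set.range fun j : {j : Fin n // j ≠ l} => ξ j))
      (ξ i) := by
    intro i
    by_cases hi : i = l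
    · rw [hi]; exact hl
    · exact isAlgebraic_algebraMap (⟨ξ i, Algebra.subset_adjoin ⟨⟨i, hi⟩, rfl⟩⟩ :
        Algebra.adjoin ℂ (Set.range fun j : {j : Fin n // j ≠ l} => ξ j))
  have hall : ∀ G : MvPolynomial (Fin n) ℂ, IsAlgebraic
      (Algebra.adjoin ℂ (Set.range fun j : {j : Fin n // j ≠ l} => ξ j)) (aeval ξ G) := by
    intro G
    induction G using MvPolynomial.induction_on with
    | C a =>
      rw [aeval_C]
      exact isAlgebraic_algebraMap (algebraMap ℂ
        (Algebra.adjoin ℂ (Set.range fun j : {j : Fin n // j ≠ l} => ξ j)) a)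
    | add p q hp hq => rw [map_add]; exact hp.add hq
    | mul_X p i hp => rw [map_mul, aeval_X]; exact hp.mul (hX i)
  obtain ⟨t, ht, r, hr, htr⟩ := (hall F).exists_nonzero_eq_adjoin_mul
    (mem_nonZeroDivisors_of_ne_zero hf0)
  have hadj : ∀ y ∈ Algebra.adjoin ℂ (Set.range fun j : {j : Fin n // j ≠ l} => ξ j),
      ∃ c : MvPolynomial {j : Fin n // j ≠ l} ℂ, aeval (fun j : {j : Fin n // j ≠ l} => ξ j) c =
      y := by
    rw [Algebra.adjoin_range_eq_range_aeval]
    exact fun y hy => hy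
  have hren : ∀ c : MvPolynomial {j : Fin n // j ≠ l} ℂ, aeval ξ (rename Subtype.val c) =
      aeval (fun j : {j : Fin n // j ≠ l} => ξ j) c := by
    intro c
    rw [aeval_rename]
    rfl
  obtain ⟨u, hu⟩ : ∃ u : MvPolynomial (Fin n) ℂ, aeval ξ u = t := by
    clear htr
    induction ht using Algebra.adjoin_induction with
    | mem x hx => exact ⟨F, (Set.mem_singleton_iff.1 hx).symm⟩
    | algebraMap x =>
      obtain ⟨c, hc⟩ := hadj _ x.2
      exact ⟨rename Subtype.val c, by rw [hren, hc]; rfl⟩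
    | add x y _ _ hx hy =>
      obtain ⟨a, ha⟩ := hx
      obtain ⟨b, hb⟩ := hy
      exact ⟨a + b, by rw [map_add, ha, hb]⟩
    | mul x y _ _ hx hy =>
      obtain ⟨a, ha⟩ := hx
      obtain ⟨b, hb⟩ := hy
      exact ⟨a * b, by rw [map_mul, ha, hb]⟩
  obtain ⟨c, hc⟩ := hadj _ r.2
  refine ⟨u, c, ?_, ?_⟩
  · rintro rfl
    rw [map_zero] at hc
    exact hr (Subtype.ext hc.symm)
  · rw [← hP, map_sub, map_mul, hu, hren, hc, mul_comm, htr]
    exact sub_self _

end Pool.Agent.Lib.MP_209724_lc.HS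
end

section

namespace Pool.Agent.Lib.MP_209724_lc.SC

open MvPolynomial

/-- An algebraic closure of `ℂ(X_1, ..., X_n)`. -/
abbrev Om (n : ℕ) : Type := AlgebraicClosure (FractionRing (MvPolynomial (Fin n) ℂ))

/-- The variables. -/
noncomputable def omX {n : ℕ} (i : Fin n) : Om n :=
  algebraMap (FractionRing (MvPolynomial (Fin n) ℂ)) (Om n)
    (algebraMap (MvPolynomial (Fin n) ℂ) (FractionRing (MvPolynomial (Fin n) ℂ)) (X i))

private theorem sp0_inj (n : ℕ) : Function.Injective (algebraMap (MvPolynomial (Fin n) ℂ) (Om n)) := by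
  rw [IsScalarTower.algebraMap_eq (MvPolynomial (Fin n) ℂ) (FractionRing (MvPolynomial (Fin n) ℂ))
    (Om n)]
  exact (algebraMap (FractionRing (MvPolynomial (Fin n) ℂ)) (Om n)).injective.comp
    (IsFractionRing.injective (MvPolynomial (Fin n) ℂ) (FractionRing (MvPolynomial (Fin n) ℂ)))

private theorem sp0_omX (n : ℕ) (i : Fin n) :
    (omX i : Om n) = algebraMap (MvPolynomial (Fin n) ℂ) (Om n) (X i) := by
  rw [IsScalarTower.algebraMap_apply (MvPolynomial (Fin n) ℂ)
    (FractionRing (MvPolynomial (Fin n) ℂ)) (Om n)]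
  rfl

/-- SC-33a: the variables are algebraically independent over `ℂ`. -/
theorem algInd_omX (n : ℕ) : AlgebraicIndependent ℂ (omX : Fin n → Om n) := by
  have h1 : AlgebraicIndependent ℂ (X : Fin n → MvPolynomial (Fin n) ℂ) :=
    MvPolynomial.algebraicIndependent_X (Fin n) ℂ
  have h2 := h1.map' (f := IsScalarTower.toAlgHom ℂ (MvPolynomial (Fin n) ℂ) (Om n)) (sp0_inj n)
  have h3 : (IsScalarTower.toAlgHom ℂ (MvPolynomial (Fin n) ℂ) (Om n) : _ → Om n) ∘ X =
      (omX : Fin n → Om n) := by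
    funext i
    rw [sp0_omX]
    rfl
  rw [← h3]
  exact h2

/-- SC-33b: the transcendence degree of `Om n` is `n`. Proof: every element is algebraic over
`ℂ(X)`, hence over `Algebra.adjoin ℂ (range omX)`. -/
theorem td_le_Om {n : ℕ} (s : Set (Om n)) : OV.td s ≤ n := by
  have halg : Algebra.IsAlgebraic (MvPolynomial (Fin n) ℂ) (Om n) :=
    (IsFractionRing.comap_isAlgebraic_iff (A := MvPolynomial (Fin n) ℂ)
      (K := FractionRing (MvPolynomial (Fin n) ℂ)) (C := Om n)).2 inferInstance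
  have hmem : ∀ p : MvPolynomial (Fin n) ℂ, algebraMap (MvPolynomial (Fin n) ℂ) (Om n) p ∈
      Algebra.adjoin ℂ (Set.range (omX : Fin n → Om n)) := by
    intro p
    have h1 : algebraMap (MvPolynomial (Fin n) ℂ) (Om n) p =
        aeval (omX : Fin n → Om n) p := by
      have h2 : IsScalarTower.toAlgHom ℂ (MvPolynomial (Fin n) ℂ) (Om n) =
          aeval (omX : Fin n → Om n) := by
        refine MvPolynomial.algHom_ext fun i => ?_
        rw [aeval_X, sp0_omX]
        rfl
      rw [← h2]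
      rfl
    rw [h1, Algebra.adjoin_range_eq_range_aeval]
    exact ⟨p, rfl⟩
  have hcl : (Set.univ : Set (Om n)) ⊆ OV.cl (Set.range (omX : Fin n → Om n)) := by
    intro z _
    let f : MvPolynomial (Fin n) ℂ →+* Algebra.adjoin ℂ (Set.range (omX : Fin n → Om n)) :=
      (algebraMap (MvPolynomial (Fin n) ℂ) (Om n)).codRestrict _ hmem
    refine (halg.isAlgebraic z).ringHom_of_comp_eq f (RingHom.id (Om n)) (fun p q hpq => ?_) ?_
    · exact sp0_inj n (congrArg Subtype.val hpq)
    · ext <;> rfl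
  calc OV.td s ≤ OV.td (Set.range (omX : Fin n → Om n)) :=
        OV.td_le_of_subset_cl ((Set.subset_univ s).trans hcl)
    _ ≤ (Set.range (omX : Fin n → Om n)).encard := Matroid.eRk_le_encard _ _
    _ ≤ n := by
        rw [← Set.image_univ]
        refine (Set.encard_image_le _ _).trans ?_
        simp

end Pool.Agent.Lib.MP_209724_lc.SC
end
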