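import Mathlib
import Pool.Agent.Lib.MP_209724_lc.OV.Defs

section

namespace Pool.Agent.Lib.MP_209724_lc.SC

open MvPolynomial

/-- The ring `k[x, y, 1 / d(x, y)]` inside the field `F`. -/
noncomputable def locA {k F : Type} [Field k] [Field F] [Algebra k F] {n : ℕ} (x y : Fin n → F)
    (d : MvPolynomial (Fin n ⊕ Fin n) k) : Subalgebra k F :=
  Algebra.adjoin k (Set.range x ∪ Set.range y ∪ {(aeval (Sum.elim x y) d)⁻¹})

theorem x_mem_locA {k F : Type} [Field k] [Field F] [Algebra k F] {n : ℕ} (x y : Fin n → F)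
    (d : MvPolynomial (Fin n ⊕ Fin n) k) (i : Fin n) : x i ∈ locA x y d :=
  Algebra.subset_adjoin (Or.inl (Or.inl ⟨i, rfl⟩))

theorem y_mem_locA {k F : Type} [Field k] [Field F] [Algebra k F] {n : ℕ} (x y : Fin n → F)
    (d : MvPolynomial (Fin n ⊕ Fin n) k) (i : Fin n) : y i ∈ locA x y d :=
  Algebra.subset_adjoin (Or.inl (Or.inr ⟨i, rfl⟩))

theorem inv_mem_locA {k F : Type} [Field k] [Field F] [Algebra k F] {n : ℕ} (x y : Fin n → F)
    (d : MvPolynomial (Fin n ⊕ Fin n) k) : (aeval (Sum.elim x y) d)⁻¹ ∈ locA x y d :=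
  Algebra.subset_adjoin (Or.inr rfl)

/-- SC-28a: polynomials in `x, y` are in the ring. -/
theorem aeval_mem_locA {k F : Type} [Field k] [Field F] [Algebra k F] {n : ℕ} (x y : Fin n → F)
    (d f : MvPolynomial (Fin n ⊕ Fin n) k) : aeval (Sum.elim x y) f ∈ locA x y d := by
  induction f using MvPolynomial.induction_on with
  | C a =>
    rw [aeval_C]
    exact (locA x y d).algebraMap_mem a
  | add p q hp hq =>
    rw [map_add]
    exact (locA x y d).add_mem hp hq
  | mul_X p i hp =>
    rw [map_mul, aeval_X]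
    refine (locA x y d).mul_mem hp ?_
    rcases i with i | i
    · exact x_mem_locA x y d i
    · exact y_mem_locA x y d i

/-- SC-28b: common denominators. Proof. Every element of `F` is a quotient of two polynomials in
`x, y` (`hgen`; `IntermediateField.mem_adjoin_range_iff` or the fraction field of the adjoined
algebra); take for `d` the product of the denominators of the elements of `S`. -/
theorem exists_denom {k F : Type} [Field k] [Field F] [Algebra k F] {n : ℕ} (x y : Fin n → F)
    (hgen : IntermediateField.adjoin k (Set.range x ∪ Set.range y) = ⊤) (S : Finset F) :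
    ∃ d : MvPolynomial (Fin n ⊕ Fin n) k, aeval (Sum.elim x y) d ≠ 0 ∧
      ∀ a ∈ S, a ∈ locA x y d := by
  classical
  have hq : ∀ a : F, ∃ r s : MvPolynomial (Fin n ⊕ Fin n) k,
      aeval (Sum.elim x y) s ≠ 0 ∧ a = aeval (Sum.elim x y) r / aeval (Sum.elim x y) s := by
    intro a
    have ha : a ∈ IntermediateField.adjoin k (Set.range (Sum.elim x y)) := by
      rw [Set.Sum.elim_range, hgen]
      exact IntermediateField.mem_top
    obtain ⟨r, s, hrs⟩ := (IntermediateField.mem_adjoin_range_iff _ _ _).1 ha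
    by_cases h0 : aeval (Sum.elim x y) s = 0
    · refine ⟨0, 1, by rw [map_one]; exact one_ne_zero, ?_⟩
      rw [hrs, h0, div_zero, map_zero, zero_div]
    · exact ⟨r, s, h0, hrs⟩
  choose r s hs hr using hq
  refine ⟨∏ a ∈ S, s a, ?_, fun a ha => ?_⟩
  · rw [map_prod]
    exact Finset.prod_ne_zero_iff.2 fun a _ => hs a
  · have h1 : a = aeval (Sum.elim x y) (r a * ∏ b ∈ S.erase a, s b) *
        (aeval (Sum.elim x y) (∏ a ∈ S, s a))⁻¹ := by
      rw [← Finset.mul_prod_erase S s ha, map_mul, map_mul, mul_inv, map_prod]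
      have h2 : (∏ b ∈ S.erase a, aeval (Sum.elim x y) (s b)) ≠ 0 :=
        Finset.prod_ne_zero_iff.2 fun b _ => hs b
      have h3 := hs a
      conv_lhs => rw [hr a]
      field_simp
    rw [h1]
    exact (locA x y _).mul_mem (aeval_mem_locA x y _ _) (inv_mem_locA x y _)

/-- SC-28d: stability under derivations compatible with `exp`. Proof: `Algebra.adjoin_induction`;
`D (d⁻¹) = - D(d) / d ^ 2` (`Derivation.leibniz_inv`), and `D (f(x, y))` is in the ring for polynomials
`f` (`= ∑ (eD i f)(x, y) * D (x i)`). -/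
theorem deriv_mem_locA {k F : Type} [Field k] [Field F] [Algebra k F] {n : ℕ} (x y : Fin n → F)
    (d : MvPolynomial (Fin n ⊕ Fin n) k) (D : Derivation k F F)
    (hxy : ∀ i, D (y i) = y i * D (x i)) (hx : ∀ i, D (x i) ∈ locA x y d) {a : F}
    (ha : a ∈ locA x y d) : D a ∈ locA x y d := by
  have hpol : ∀ f : MvPolynomial (Fin n ⊕ Fin n) k, D (aeval (Sum.elim x y) f) ∈ locA x y d := by
    intro f
    induction f using MvPolynomial.induction_on with
    | C a =>
      rw [aeval_C, Derivation.map_algebraMap]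
      exact (locA x y d).zero_mem
    | add p q hp hq =>
      rw [map_add, map_add]
      exact (locA x y d).add_mem hp hq
    | mul_X p i hp =>
      rw [map_mul, aeval_X, Derivation.leibniz, smul_eq_mul, smul_eq_mul]
      refine (locA x y d).add_mem ((locA x y d).mul_mem (aeval_mem_locA x y d p) ?_)
        ((locA x y d).mul_mem ?_ hp)
      · rcases i with i | i
        · exact hx i
        · show D (y i) ∈ _
          rw [hxy i]
          exact (locA x y d).mul_mem (y_mem_locA x y d i) (hx i)
      · rcases i with i | i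
        · exact x_mem_locA x y d i
        · exact y_mem_locA x y d i
  induction ha using Algebra.adjoin_induction with
  | mem a ha =>
    rcases ha with (⟨i, rfl⟩ | ⟨i, rfl⟩) | ha
    · exact hx i
    · rw [hxy i]
      exact (locA x y d).mul_mem (y_mem_locA x y d i) (hx i)
    · rw [Set.mem_singleton_iff] at ha
      rw [ha, Derivation.leibniz_inv, smul_eq_mul]
      refine (locA x y d).mul_mem ((locA x y d).neg_mem ?_) (hpol d)
      exact (locA x y d).pow_mem (inv_mem_locA x y d) 2
  | algebraMap r =>
    rw [Derivation.map_algebraMap]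
    exact (locA x y d).zero_mem
  | add p q _ _ hp hq =>
    rw [map_add]
    exact (locA x y d).add_mem hp hq
  | mul p q hp' hq' hp hq =>
    rw [Derivation.leibniz, smul_eq_mul, smul_eq_mul]
    exact (locA x y d).add_mem ((locA x y d).mul_mem hp' hq) ((locA x y d).mul_mem hq' hp)

end Pool.Agent.Lib.MP_209724_lc.SC
end

section

namespace Pool.Agent.Lib.MP_209724_lc.SC

/-- SC-6: a linear relation over `L` between the forms `dy_i / y_i - dx_i` can be replaced by one with
constant coefficients.

Proof. Write `ω_i(∂) = ∂ y_i / y_i - ∂ x_i` for `∂ : Derivation (consts D) L L`. With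
`D' = toConsts D l` and the bracket `⁅D', ∂⁆` (`Derivation.commutator_apply`), the identity
`D' (ω_i ∂) = ω_i ⁅D', ∂⁆` holds: indeed `D'(∂ y / y) - ⁅D', ∂⁆ y / y = ∂ (D' y / y)`,
`D' y / y = D' x` by `hxy`, and `D' ∂ x - ⁅D', ∂⁆ x = ∂ D' x`. Among all nonzero `g : ι → L` with
`∑ g_i ω_i(∂) = 0` for all `∂`, choose one with a support of minimal cardinality, and normalise
`g_{i₀} = 1` for one `i₀`. Apply `D'` to the relation for `∂` and subtract the relation for
`⁅D', ∂⁆`: `∑ D'(g_i) ω_i(∂) = 0` for all `∂`. The support of `(D' g_i)_i` is contained in that of `g`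
and does not contain `i₀`; by minimality `D' g_i = 0` for all `i`, for each `l`. So `g_i ∈ consts D`. -/
theorem ax_const {k L ι κ : Type} [Field k] [Field L] [Algebra k L] [Fintype ι]
    (D : κ → Derivation k L L) (x y : ι → L) (hy : ∀ i, y i ≠ 0)
    (hxy : ∀ l i, D l (y i) = y i * D l (x i)) (g : ι → L) (hg : g ≠ 0)
    (h : ∀ E : Derivation (consts D) L L, ∑ i, g i * (E (y i) / y i - E (x i)) = 0) :
    ∃ g' : ι → consts D, g' ≠ 0 ∧
      ∀ E : Derivation (consts D) L L, ∑ i, (g' i : L) * (E (y i) / y i - E (x i)) = 0 := by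
  classical
  -- the identity for the bracket
  have key : ∀ (l : κ) (E : Derivation (consts D) L L) (i : ι),
      toConsts D l (E (y i) / y i - E (x i)) =
        (⁅toConsts D l, E⁆ : Derivation (consts D) L L) (y i) / y i -
          (⁅toConsts D l, E⁆ : Derivation (consts D) L L) (x i) := by
    intro l E i
    have h1 : toConsts D l (y i) = y i * toConsts D l (x i) := hxy l i
    rw [map_sub, Derivation.leibniz_div, Derivation.commutator_apply, Derivation.commutator_apply, h1,
      Derivation.leibniz]
    simp only [smul_eq_mul]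
    have h2 := hy i
    field_simp
    ring
  -- minimal support
  let P : ℕ → Prop := fun n => ∃ g : ι → L, g ≠ 0 ∧
    (∀ E : Derivation (consts D) L L, ∑ i, g i * (E (y i) / y i - E (x i)) = 0) ∧
    (Finset.univ.filter fun i => g i ≠ 0).card = n
  have hP : ∃ n, P n := ⟨_, g, hg, h, rfl⟩
  obtain ⟨g₁, hg₁, h₁, hc⟩ := Nat.find_spec hP
  have hmin : ∀ g₂ : ι → L, (∀ E : Derivation (consts D) L L, ∑ i, g₂ i * (E (y i) / y i - E (x i)) = 0) →
      (Finset.univ.filter fun i => g₂ i ≠ 0).card < (Finset.univ.filter fun i => g₁ i ≠ 0).card → g₂ = 0 := by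
    intro g₂ h₂ hlt
    by_contra hne
    have h3 := Nat.find_min' hP (m := (Finset.univ.filter fun i => g₂ i ≠ 0).card) ⟨g₂, hne, h₂, rfl⟩
    rw [← hc] at h3
    exact absurd hlt (not_lt.2 h3)
  obtain ⟨i₀, hi₀⟩ := Function.ne_iff.1 hg₁
  have hi₀' : g₁ i₀ ≠ 0 := hi₀
  -- normalise
  set a : ι → L := fun i => g₁ i / g₁ i₀ with ha
  have ha0 : a i₀ = 1 := div_self hi₀'
  have hae : ∀ E : Derivation (consts D) L L, ∑ i, a i * (E (y i) / y i - E (x i)) = 0 := by
    intro E
    have e : ∀ i, a i * (E (y i) / y i - E (x i)) = (g₁ i₀)⁻¹ * (g₁ i * (E (y i) / y i - E (x i))) := fun i => by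
      rw [ha]; field_simp
    rw [Finset.sum_congr rfl fun i _ => e i, ← Finset.mul_sum, h₁ E, mul_zero]
  have hDa : ∀ l, (fun i => D l (a i)) = 0 := by
    intro l
    refine hmin _ (fun E => ?_) (Finset.card_lt_card ?_)
    · have e1 := congrArg (toConsts D l) (hae E)
      rw [map_sum, map_zero] at e1
      have e2 := hae (⁅toConsts D l, E⁆ : Derivation (consts D) L L)
      have e3 : ∀ i, toConsts D l (a i * (E (y i) / y i - E (x i))) =
          D l (a i) * (E (y i) / y i - E (x i)) + a i *
            ((⁅toConsts D l, E⁆ : Derivation (consts D) L L) (y i) / y i -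
              (⁅toConsts D l, E⁆ : Derivation (consts D) L L) (x i)) := by
        intro i
        rw [Derivation.leibniz, key l E i, smul_eq_mul, smul_eq_mul, toConsts_apply]
        ring
      rw [Finset.sum_congr rfl fun i _ => e3 i, Finset.sum_add_distrib, e2, add_zero] at e1
      exact e1
    · rw [Finset.ssubset_iff_of_subset]
      · refine ⟨i₀, ?_, ?_⟩
        · simpa using hi₀'
        · simp only [Finset.mem_filter, Finset.mem_univ, true_and, not_not]
          rw [ha0]
          exact (D l).map_one_eq_zero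
      · intro i hi
        simp only [Finset.mem_filter, Finset.mem_univ, true_and] at hi ⊢
        intro h0
        apply hi
        have : a i = 0 := by rw [ha]; simp [h0]
        rw [this, map_zero]
  refine ⟨fun i => ⟨a i, fun l => congrFun (hDa l) i⟩, fun h0 => ?_, hae⟩
  have h1 : a i₀ = 0 := congrArg Subtype.val (congrFun h0 i₀)
  rw [ha0] at h1
  exact one_ne_zero h1

end Pool.Agent.Lib.MP_209724_lc.SC
end
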