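import Mathlib
import Pool.Agent.Lib.MP_209724_lc.OV.Defs
import Pool.Agent.Lib.MP_e52354_nt.DerivExist

namespace Pool.Agent.Lib.MP_209724_lc.SC

private theorem ax3_sum {Λ L α : Type} [Field Λ] [Field L] [Algebra Λ L] [Fintype α]
    (F : α → Derivation Λ L L) (a : L) : (∑ i, F i) a = ∑ i, F i a := by
  have h := map_sum (Derivation.coeFnAddMonoidHom (R := Λ) (A := L) (M := L)) F Finset.univ
  have h2 := congrFun h a
  rw [Finset.sum_apply] at h2
  exact h2

/-- a derivation over `Λ` which vanishes on `B` vanishes on the elements algebraic over `Λ[B]` -/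
private theorem ax3_zero {Λ L : Type} [Field Λ] [CharZero Λ] [Field L] [Algebra Λ L]
    (E : Derivation Λ L L) {B : Set L} (hB : ∀ b ∈ B, E b = 0) {a : L}
    (ha : IsAlgebraic (Algebra.adjoin Λ B) a) : E a = 0 := by
  let C : IntermediateField Λ L := consts (fun _ : Unit => E)
  have hBC : ∀ r ∈ Algebra.adjoin Λ B, r ∈ C := fun r hr => by
    have h0 : Algebra.adjoin Λ B ≤ C.toSubalgebra :=
      Algebra.adjoin_le fun b hb => fun _ => hB b hb
    exact h0 hr
  let f : Algebra.adjoin Λ B →+* C :=
    { toFun := fun r => ⟨r.1, hBC r.1 r.2⟩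
      map_one' := rfl
      map_mul' := fun _ _ => rfl
      map_zero' := rfl
      map_add' := fun _ _ => rfl }
  have hf : Function.Injective f := fun r r' h => Subtype.ext (congrArg (fun c : C => (c : L)) h)
  have h1 : IsAlgebraic C a := by
    obtain ⟨p, hp0, hp⟩ := ha
    refine ⟨p.map f, (Polynomial.map_ne_zero_iff hf).2 hp0, ?_⟩
    rw [Polynomial.aeval_def, Polynomial.eval₂_map]
    exact hp
  have h2 := (toConsts (fun _ : Unit => E) ()).map_aeval (minpoly C a) a
  rw [minpoly.aeval, map_zero, toConsts_apply, smul_eq_mul] at h2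
  have h3 : (minpoly C a).Separable := (minpoly.irreducible h1.isIntegral).separable
  have h4 := h3.aeval_derivative_ne_zero (minpoly.aeval C a)
  rcases mul_eq_zero.1 h2.symm with h5 | h5
  · exact absurd h5 h4
  · exact h5

/-- SC-8: the dimension count.

Proof. Let `S = range x ∪ range y` (finite) and let `b : Fin N → L` be a maximal algebraically
independent (over `Λ`) subfamily of `S`: `b` is injective, has values in `S`, and all elements of `S`
are algebraic over `Λ(b)`. Extend `range b` to a transcendence basis of `L / Λ`; by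
`MP_e52354_nt.exists_derivation` there are `E_j : Derivation Λ L L` with `E_j (b j') = δ_{jj'}`. Every
`E : Derivation Λ L L` satisfies `E a = ∑_j E(b_j) E_j(a)` for `a ∈ S`: the difference
`E - ∑ E(b_j) • E_j` kills the `b_j`, hence everything algebraic over `Λ(b)` (compare
`OV.derAlg_zero_of_adjoin` in `Pool.Agent.Lib.MP_209724_lc.OV.DerAlg`). Let `I` be the `L`-span in
`(ι → L) × (ι → L)` of the vectors `Θ(E) = (E x_i, E y_i)`; it is spanned by the `N` vectors `Θ(E_j)`, so
`dim I ≤ N`. The linear map `ω : I → (ι → L)`, `(a, b) ↦ (b_i / y_i - a_i)_i` is surjective: otherwise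
there is `g ≠ 0` with `∑ g_i ω_i = 0` on `I`, against `hind`. Its kernel contains the vectors
`Θ(D l)`, which are linearly independent by `hlin`. So `N ≥ dim I ≥ |ι| + |κ|`, and we can choose an
injection `ι ⊕ κ → Fin N` and compose. -/
theorem ax_count {Λ L ι κ : Type} [Field Λ] [CharZero Λ] [Field L] [Algebra Λ L] [Fintype ι]
    [Fintype κ] (x y : ι → L) (hy : ∀ i, y i ≠ 0) (D : κ → Derivation Λ L L)
    (hxy : ∀ l i, D l (y i) = y i * D l (x i))
    (hlin : LinearIndependent L fun (l : κ) (i : ι) => D l (x i))
    (hind : ∀ g : ι → L, (∀ E : Derivation Λ L L, ∑ i, g i * (E (y i) / y i - E (x i)) = 0) →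
      g = 0) :
    ∃ s : ι ⊕ κ → L, AlgebraicIndependent Λ s ∧ ∀ a, s a ∈ Set.range x ∪ Set.range y := by
  classical
  obtain ⟨B, -, hmax⟩ := exists_maximal_algebraicIndependent (R := Λ) (∅ : Set L)
    (Set.range x ∪ Set.range y) (Set.empty_subset _) algebraicIndependent_empty
  obtain ⟨hBi, hBS⟩ := hmax.prop
  have hfin : B.Finite := ((Set.finite_range x).union (Set.finite_range y)).subset hBS
  have : Fintype B := hfin.fintype
  -- a derivation which kills `B` kills `x` and `y`
  have hkill : ∀ E : Derivation Λ L L, (∀ b ∈ B, E b = 0) →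
      ∀ a ∈ Set.range x ∪ Set.range y, E a = 0 := by
    intro E hE a ha
    by_cases haB : a ∈ B
    · exact hE a haB
    · refine ax3_zero E hE ?_
      by_contra hcon
      have h1 : Transcendental (Algebra.adjoin Λ (id '' B)) (id a) := by
        rw [Set.image_id]
        exact hcon
      have h2 : AlgebraicIndepOn Λ id (insert a B) := AlgebraicIndepOn.insert hBi h1
      have h3 := hmax.le_of_ge ⟨h2, Set.insert_subset ha hBS⟩ (Set.subset_insert a B)
      exact haB (h3 (Set.mem_insert a B))
  -- the forms `dy / y - dx`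
  let Ω : Derivation Λ L L →ₗ[L] (ι → L) :=
    { toFun := fun E i => E (y i) / y i - E (x i)
      map_add' := fun E E' => by
        funext i
        simp only [Derivation.add_apply, Pi.add_apply]
        ring
      map_smul' := fun c E => by
        funext i
        simp only [Derivation.smul_apply, smul_eq_mul, Pi.smul_apply, RingHom.id_apply]
        ring }
  have hΩ : LinearMap.range Ω = ⊤ := by
    by_contra hne
    obtain ⟨φ, hφ0, hφ⟩ := Submodule.exists_le_ker_of_lt_top _ (lt_top_iff_ne_top.2 hne)
    have h1 : ∀ v : ι → L, φ v = ∑ i, φ (Pi.single i 1) * v i := by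
      intro v
      have h2 : v = ∑ i, v i • (Pi.single i (1:L) : ι → L) := by
        funext j
        simp [Finset.sum_apply, Pi.single_apply]
      conv_lhs => rw [h2]
      rw [map_sum]
      refine Finset.sum_congr rfl fun i _ => ?_
      rw [map_smul, smul_eq_mul, mul_comm]
    have h3 := hind (fun i => φ (Pi.single i 1)) fun E => by
      have h4 : φ (Ω E) = 0 := hφ (LinearMap.mem_range_self Ω E)
      rw [h1] at h4
      exact h4
    apply hφ0
    refine LinearMap.ext fun v => ?_
    rw [h1, LinearMap.zero_apply]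
    refine Finset.sum_eq_zero fun i _ => ?_
    rw [show φ (Pi.single i 1) = 0 from congrFun h3 i, zero_mul]
  have hsurj : Function.Surjective Ω := LinearMap.range_eq_top.1 hΩ
  choose Ei hEi using fun i : ι => hsurj (Pi.single i 1)
  -- the family of derivations
  let T : ι ⊕ κ → Derivation Λ L L := Sum.elim Ei D
  have hT : LinearIndependent L fun (a : ι ⊕ κ) (b : B) => T a (b : L) := by
    rw [Fintype.linearIndependent_iff]
    intro c hc
    have hE : ∀ b ∈ B, (∑ a, c a • T a) b = 0 := by
      intro b hb
      have h1 := congrFun hc ⟨b, hb⟩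
      rw [Finset.sum_apply, Pi.zero_apply] at h1
      rw [ax3_sum]
      exact h1
    have h2 := hkill _ hE
    have h3 : ∀ i, (∑ a, c a • T a) (x i) = 0 := fun i => h2 _ (Or.inl ⟨i, rfl⟩)
    have h4 : ∀ i, (∑ a, c a • T a) (y i) = 0 := fun i => h2 _ (Or.inr ⟨i, rfl⟩)
    have hω : Ω (∑ a, c a • T a) = 0 := by
      funext i
      show (∑ a, c a • T a) (y i) / y i - (∑ a, c a • T a) (x i) = 0
      rw [h3, h4, zero_div, sub_zero]
    have hD : ∀ l, Ω (D l) = 0 := by
      intro l
      funext i
      show D l (y i) / y i - D l (x i) = 0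
      rw [hxy, mul_comm, mul_div_assoc, div_self (hy i), mul_one, sub_self]
    have hcl : ∀ i, c (Sum.inl i) = 0 := by
      intro i
      rw [map_sum] at hω
      simp only [map_smul, Fintype.sum_sum_type] at hω
      have h5 := congrFun hω i
      have h6 : ∑ l, c (Sum.inr l) • Ω (T (Sum.inr l)) = 0 :=
        Finset.sum_eq_zero fun l _ => by
          show c (Sum.inr l) • Ω (D l) = 0
          rw [hD, smul_zero]
      have h7 : ∑ j, c (Sum.inl j) • Ω (T (Sum.inl j)) = ∑ j, c (Sum.inl j) • Pi.single j 1 :=
        Finset.sum_congr rfl fun j _ => by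
          show c (Sum.inl j) • Ω (Ei j) = _
          rw [hEi]
      rw [h6, add_zero, h7, Finset.sum_apply] at h5
      simpa [Pi.single_apply] using h5
    have hcr : ∀ l, c (Sum.inr l) = 0 := by
      have h5 : ∑ l, c (Sum.inr l) • (fun i => D l (x i)) = 0 := by
        funext i
        have h6 := h3 i
        rw [ax3_sum, Fintype.sum_sum_type] at h6
        have h7 : ∑ j, (c (Sum.inl j) • T (Sum.inl j)) (x i) = 0 :=
          Finset.sum_eq_zero fun j _ => by rw [hcl, zero_smul, Derivation.zero_apply]
        rw [h7, zero_add] at h6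
        rw [Finset.sum_apply, Pi.zero_apply]
        exact h6
      exact Fintype.linearIndependent_iff.1 hlin _ h5
    rintro (i | l)
    · exact hcl i
    · exact hcr l
  have hcard : Fintype.card (ι ⊕ κ) ≤ Fintype.card B := by
    have h1 := hT.fintype_card_le_finrank
    rwa [Module.finrank_fintype_fun_eq_card] at h1
  obtain ⟨e⟩ := Function.Embedding.nonempty_of_card_le hcard
  refine ⟨fun a => (e a : L), ?_, fun a => hBS (e a).2⟩
  exact AlgebraicIndependent.comp (x := fun b : B => (b : L)) hBi e e.injective

end Pool.Agent.Lib.MP_209724_lc.SC
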