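import Mathlib
import Pool.Agent.Lib.MP_209724_lc.OV.Defs

namespace Pool.Agent.Lib.MP_209724_lc.SC

section
open Polynomial

/-- `x` is regular at `0` with the value `v` -/
private def KReg {B M : Type} [Field B] [Field M] [Algebra B M] (s : M) (x : M) (v : B) : Prop :=
  ∃ P Q : B[X], Q.eval 0 ≠ 0 ∧ x * aeval s Q = aeval s P ∧ v = P.eval 0 / Q.eval 0

variable {B M : Type} [Field B] [Field M] [Algebra B M] {s : M}

private theorem kinj (hs : Transcendental B s) {P Q : B[X]} (h : aeval s P = aeval s Q) : P = Q :=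
  (transcendental_iff_injective.1 hs) h

private theorem kne (hs : Transcendental B s) {P : B[X]} (h : P ≠ 0) : aeval s P ≠ 0 := fun h1 =>
  h (kinj hs (by rw [h1, map_zero]))

private theorem kQ {Q : B[X]} (h : Q.eval 0 ≠ 0) : Q ≠ 0 := by
  rintro rfl
  exact h (by simp)

private theorem KReg.add {x y : M} {v w : B} (hx : KReg s x v) (hy : KReg s y w) : KReg s (x + y) (v + w) := by
  obtain ⟨P, Q, h1, h2, rfl⟩ := hx
  obtain ⟨P', Q', h1', h2', rfl⟩ := hy
  refine ⟨P * Q' + P' * Q, Q * Q', ?_, ?_, ?_⟩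
  · rw [eval_mul]; exact mul_ne_zero h1 h1'
  · rw [map_mul, map_add, map_mul, map_mul, ← h2, ← h2']; ring
  · rw [eval_mul, eval_add, eval_mul, eval_mul]; field_simp

private theorem KReg.mul {x y : M} {v w : B} (hx : KReg s x v) (hy : KReg s y w) : KReg s (x * y) (v * w) := by
  obtain ⟨P, Q, h1, h2, rfl⟩ := hx
  obtain ⟨P', Q', h1', h2', rfl⟩ := hy
  refine ⟨P * P', Q * Q', ?_, ?_, ?_⟩
  · rw [eval_mul]; exact mul_ne_zero h1 h1'
  · rw [map_mul, map_mul, ← h2, ← h2']; ring
  · rw [eval_mul, eval_mul]; field_simp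

private theorem KReg.const (c : B) : KReg s (algebraMap B M c) c :=
  ⟨C c, 1, by simp, by simp, by simp⟩

private theorem KReg.X : KReg s s (0 : B) := ⟨Polynomial.X, 1, by simp, by simp, by simp⟩

private theorem KReg.one : KReg s (1 : M) (1 : B) := ⟨1, 1, by simp, by simp, by simp⟩

private theorem KReg.zero : KReg s (0 : M) (0 : B) := ⟨0, 1, by simp, by simp, by simp⟩

private theorem KReg.pow {x : M} {v : B} (hx : KReg s x v) (n : ℕ) : KReg s (x ^ n) (v ^ n) := by
  induction n with
  | zero => simpa using KReg.one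
  | succ n ih => rw [pow_succ, pow_succ]; exact ih.mul hx

private theorem KReg.sum {ι : Type} (t : Finset ι) {x : ι → M} {v : ι → B} (h : ∀ i ∈ t, KReg s (x i) (v i)) :
    KReg s (∑ i ∈ t, x i) (∑ i ∈ t, v i) := by
  classical
  induction t using Finset.induction_on with
  | empty => simpa using KReg.zero
  | insert a t ha ih =>
    rw [Finset.sum_insert ha, Finset.sum_insert ha]
    exact (h a (Finset.mem_insert_self a t)).add (ih fun i hi => h i (Finset.mem_insert_of_mem hi))

private theorem KReg.unique (hs : Transcendental B s) {x : M} {v w : B} (hx : KReg s x v) (hy : KReg s x w) :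
    v = w := by
  obtain ⟨P, Q, h1, h2, rfl⟩ := hx
  obtain ⟨P', Q', h1', h2', rfl⟩ := hy
  have h3 : P * Q' = P' * Q := by
    refine kinj hs ?_
    rw [map_mul, map_mul, ← h2, ← h2']; ring
  have h4 := congrArg (eval 0) h3
  rw [eval_mul, eval_mul] at h4
  field_simp
  linear_combination h4

private theorem KReg.inv (hs : Transcendental B s) {x : M} {v : B} (hx : KReg s x v) (hv : v ≠ 0) :
    KReg s x⁻¹ v⁻¹ := by
  obtain ⟨P, Q, h1, h2, rfl⟩ := hx
  have hP : P.eval 0 ≠ 0 := fun h => hv (by rw [h, zero_div])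
  have hx0 : x ≠ 0 := by
    rintro rfl
    rw [zero_mul] at h2
    exact kne hs (kQ hP) h2.symm
  refine ⟨Q, P, hP, ?_, ?_⟩
  · rw [← h2]; field_simp
  · rw [inv_div]

private theorem KReg.der (D : Derivation B M M) (h1 : D s = 1) {x : M} {v : B} (hx : KReg s x v) :
    ∃ w : B, KReg s (D x) w := by
  obtain ⟨P, Q, h2, h3, -⟩ := hx
  have hd : ∀ P : B[X], D (aeval s P) = aeval s (derivative P) := fun P => by
    rw [Derivation.map_aeval, h1, smul_eq_mul, mul_one]
  refine ⟨_, derivative P * Q - P * derivative Q, Q * Q, ?_, ?_, rfl⟩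
  · rw [eval_mul]; exact mul_ne_zero h2 h2
  · have h4 := congrArg D h3
    rw [Derivation.leibniz, hd, hd, smul_eq_mul, smul_eq_mul] at h4
    rw [map_mul, map_sub, map_mul, map_mul, ← h3, ← h4]
    ring

private theorem kdecomp (hs : Transcendental B s) (hM : IntermediateField.adjoin B {s} = ⊤) {x : M} (hx : x ≠ 0) :
    ∃ (a : ℤ) (e : M) (v : B), x = s ^ a * e ∧ KReg s e v ∧ v ≠ 0 := by
  have hx1 : x ∈ IntermediateField.adjoin B {s} := by rw [hM]; exact IntermediateField.mem_top
  obtain ⟨P, Q, rfl⟩ := (IntermediateField.mem_adjoin_simple_iff B x).1 hx1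
  have hP : P ≠ 0 := by
    rintro rfl
    exact hx (by simp)
  have hQ : Q ≠ 0 := by
    rintro rfl
    exact hx (by simp)
  obtain ⟨P1, hP1, hP2⟩ := exists_eq_pow_rootMultiplicity_mul_and_not_dvd P hP 0
  obtain ⟨Q1, hQ1, hQ2⟩ := exists_eq_pow_rootMultiplicity_mul_and_not_dvd Q hQ 0
  rw [dvd_iff_isRoot] at hP2 hQ2
  have hP3 : P1.eval 0 ≠ 0 := hP2
  have hQ3 : Q1.eval 0 ≠ 0 := hQ2
  have hs0 : s ≠ 0 := by
    rintro rfl
    exact hs isAlgebraic_zero
  refine ⟨(rootMultiplicity 0 P : ℤ) - (rootMultiplicity 0 Q : ℤ), aeval s P1 / aeval s Q1,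
    P1.eval 0 / Q1.eval 0, ?_, ⟨P1, Q1, hQ3, ?_, rfl⟩, div_ne_zero hP3 hQ3⟩
  · conv_lhs => rw [hP1, hQ1]
    rw [map_mul, map_mul, map_pow, map_pow, C_0, sub_zero, aeval_X, zpow_sub₀ hs0, zpow_natCast, zpow_natCast]
    field_simp
  · exact div_mul_cancel₀ _ (kne hs (kQ hQ3))

end

/-- SC-1 (residues at `s = 0` in a rational function field `M = B(s)`). If
`∑ c_k ∂f_k / f_k = ∂g` with `c_k ∈ B` linearly independent over `ℚ`, then no `f_k` is `s ^ d` with
`d ≠ 0`.

Proof. Every nonzero element of `M` is `s ^ a * (P / Q)` with `a ∈ ℤ` and `P, Q` values at `s` of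
polynomials over `B` with `P(0), Q(0) ≠ 0`. Call `M₀` the set of all `P / Q`, `P, Q` polynomials in `s`,
`Q(0) ≠ 0` (functions regular at `0`; a subring stable under `∂`; it has a ring homomorphism
`ev : M₀ → B` with `ev s = 0`; `s⁻¹ ∉ M₀`). Write `f_k = s ^ (a k) * e_k` with `e_k, e_k⁻¹ ∈ M₀`. Then
`s * ∂f_k / f_k = a_k + s * ∂e_k / e_k`, so `s * ∑ c_k ∂f_k / f_k` lies in `M₀` with value
`∑ c_k a_k` at `0`. On the other side: if `g ∈ M₀` then `s * ∂g` has the value `0`; if
`g = s ^ (-b) * e` with `b > 0`, `e, e⁻¹ ∈ M₀`, then `s ∂g = s ^ (-b) (-b e + s ∂e)` is not in `M₀`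
(multiply by `s ^ b`: the value at `0` is `-b ev(e) ≠ 0`). So `∑ a_k c_k = 0`, all `a_k = 0`. But
`f_k = s ^ d` gives `a_k = d` (`s ^ (d - a_k)` is a unit of `M₀`).

Any other proof is welcome (for example by transport to `RatFunc B` or to Laurent series, or with
`Polynomial.rootMultiplicity 0`). -/
theorem kl_rational {B M : Type} [Field B] [CharZero B] [Field M] [Algebra B M] (s : M)
    (hs : Transcendental B s) (hM : IntermediateField.adjoin B {s} = ⊤) (D : Derivation B M M)
    (h1 : D s = 1) {κ : Type} [Fintype κ] (c : κ → B) (hc : LinearIndependent ℚ c) (f : κ → M)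
    (hf : ∀ k, f k ≠ 0) (g : M) (h : ∑ k, algebraMap B M (c k) * (D (f k) / f k) = D g) (k : κ)
    (d : ℤ) (hd : f k = s ^ d) : d = 0 := by
  have hs0 : s ≠ 0 := by
    rintro rfl
    exact hs isAlgebraic_zero
  choose a e v hfe hev hv using fun k => kdecomp hs hM (hf k)
  have he0 : ∀ k, e k ≠ 0 := fun k h0 => hf k (by rw [hfe k, h0, mul_zero])
  have hDs : ∀ n : ℤ, D (s ^ n) = (n : M) * s ^ (n - 1) := fun n => by
    have h2 := Derivation.leibniz_zpow D s n
    rw [h1] at h2
    rw [h2, zsmul_eq_mul, smul_eq_mul, mul_one]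
  have hterm : ∀ k, s * (algebraMap B M (c k) * (D (f k) / f k)) =
      algebraMap B M (c k * (a k : B)) + s * (algebraMap B M (c k) * (D (e k) * (e k)⁻¹)) := by
    intro k
    rw [hfe k, Derivation.leibniz, hDs, smul_eq_mul, smul_eq_mul, map_mul, map_intCast]
    have h2 : s ^ (a k) = s ^ (a k - 1) * s := by
      rw [← zpow_add_one₀ hs0, sub_add_cancel]
    have h3 : s ^ (a k - 1) ≠ 0 := zpow_ne_zero _ hs0
    rw [h2]
    have h4 := he0 k
    field_simp
    ring
  have hL : KReg s (s * ∑ k, algebraMap B M (c k) * (D (f k) / f k)) (∑ k, c k * (a k : B)) := by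
    rw [Finset.mul_sum]
    refine KReg.sum _ fun k _ => ?_
    rw [hterm k]
    obtain ⟨w, hw⟩ := (hev k).der D h1
    have h2 := (KReg.X (B := B) (s := s)).mul ((KReg.const (s := s) (c k)).mul (hw.mul ((hev k).inv hs (hv k))))
    have h3 := (KReg.const (s := s) (c k * (a k : B))).add h2
    rw [zero_mul, add_zero] at h3
    exact h3
  rw [h] at hL
  have hS : ∑ k, c k * (a k : B) = 0 := by
    by_cases hg : g = 0
    · rw [hg, map_zero, mul_zero] at hL
      exact hL.unique hs KReg.zero
    · obtain ⟨b, u, w, hgu, hu, hw⟩ := kdecomp hs hM hg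
      obtain ⟨w', hw'⟩ := hu.der D h1
      rcases le_or_gt 0 b with hb | hb
      · obtain ⟨m, rfl⟩ := Int.eq_ofNat_of_zero_le hb
        have h2 : KReg s g ((0 : B) ^ m * w) := by
          rw [hgu, zpow_natCast]
          exact ((KReg.X (B := B) (s := s)).pow m).mul hu
        obtain ⟨w2, hw2⟩ := h2.der D h1
        have h3 := (KReg.X (B := B) (s := s)).mul hw2
        rw [zero_mul] at h3
        exact hL.unique hs h3
      · obtain ⟨m, hm⟩ := Int.eq_ofNat_of_zero_le (by omega : 0 ≤ -b)
        have hm' : b = -(m : ℤ) := by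
          omega
        have hm0 : m ≠ 0 := by
          rintro rfl
          simp at hm'
          omega
        have h2 : s ^ m * (s * D g) = algebraMap B M ((b : B)) * u + s * D u := by
          rw [hgu, Derivation.leibniz, hDs, smul_eq_mul, smul_eq_mul, map_intCast]
          have h3 : s ^ b = s ^ (b - 1) * s := by rw [← zpow_add_one₀ hs0, sub_add_cancel]
          have h4 : s ^ m * (s ^ (b - 1) * s) = 1 := by
            rw [← h3, hm', zpow_neg, zpow_natCast]
            exact mul_inv_cancel₀ (pow_ne_zero _ hs0)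
          rw [h3]
          linear_combination (s * D u + u * (b : M)) * h4
        have h3 := ((KReg.X (B := B) (s := s)).pow m).mul hL
        rw [h2, zero_pow hm0, zero_mul] at h3
        have h4 := ((KReg.const (s := s) (b : B)).mul hu).add ((KReg.X (B := B) (s := s)).mul hw')
        rw [zero_mul, add_zero] at h4
        have h5 := h3.unique hs h4
        exfalso
        rcases mul_eq_zero.1 h5.symm with h6 | h6
        · have : b = 0 := by exact_mod_cast h6
          omega
        · exact hw h6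
  have ha : a k = 0 := by
    have h2 := Fintype.linearIndependent_iff.1 hc (fun k => (a k : ℚ)) (by
      rw [← hS]
      refine Finset.sum_congr rfl fun k _ => ?_
      rw [Rat.smul_def, mul_comm]
      push_cast
      rfl) k
    exact_mod_cast h2
  have hk := hfe k
  rw [ha, zpow_zero, one_mul, hd] at hk
  have hek := hev k
  rw [← hk] at hek
  rcases lt_trichotomy d 0 with h2 | h2 | h2
  · obtain ⟨m, hm⟩ := Int.eq_ofNat_of_zero_le (by omega : 0 ≤ -d)
    have hm' : d = -(m : ℤ) := by
      omega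
    have hm0 : m ≠ 0 := by
      rintro rfl
      simp at hm'
      omega
    have h3 := ((KReg.X (B := B) (s := s)).pow m).mul hek
    rw [hm', zpow_neg, zpow_natCast, mul_inv_cancel₀ (pow_ne_zero _ hs0), zero_pow hm0, zero_mul] at h3
    exact absurd (h3.unique hs KReg.one) (by norm_num)
  · exact h2
  · obtain ⟨m, rfl⟩ := Int.eq_ofNat_of_zero_le h2.le
    have hm0 : m ≠ 0 := by
      rintro rfl
      simp at h2
    have h3 := (KReg.X (B := B) (s := s)).pow m
    rw [zpow_natCast] at hek
    rw [zero_pow hm0] at h3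
    exact absurd (hek.unique hs h3) (hv k)

end Pool.Agent.Lib.MP_209724_lc.SC
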