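import Mathlib
import Pool.Agent.Lib.MP_209724_lc.OV.Defs

namespace Pool.Agent.Lib.MP_209724_lc.SC

open Differential in
/-- The embeddings of a finite extension into an algebraic closure have values in a finite differential
extension. -/
private theorem kl2_emb {M L : Type} [Field M] [CharZero M] [Field L] [Algebra M L]
    [FiniteDimensional M L] (dM : Derivation ℤ M M) (dL : Derivation ℤ L L)
    (hd : ∀ a, dL (algebraMap M L a) = algebraMap M L (dM a)) :
    ∃ (F : IntermediateField M (AlgebraicClosure L)) (dF : Derivation ℤ F F)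
      (τ : (L →ₐ[M] AlgebraicClosure L) → (L →ₐ[M] F)),
      (∀ a, dF (algebraMap M F a) = algebraMap M F (dM a)) ∧
      (∀ σ x, ((τ σ x : F) : AlgebraicClosure L) = σ x) ∧ ∀ σ x, τ σ (dL x) = dF (τ σ x) := by
  let iM : Differential M := ⟨dM⟩
  let iL : Differential L := ⟨dL⟩
  have : DifferentialAlgebra M L := ⟨hd⟩
  let F : IntermediateField M (AlgebraicClosure L) := IntermediateField.normalClosure M L (AlgebraicClosure L)
  have : FiniteDimensional M F := inferInstance
  let iF : Differential F := differentialFiniteDimensional M F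
  have hF : DifferentialAlgebra M F := differentialAlgebraFiniteDimensional
  have hr : ∀ σ : L →ₐ[M] AlgebraicClosure L, ∀ x, σ x ∈ F := fun σ x =>
    (AlgHom.fieldRange_le_normalClosure σ) ⟨x, rfl⟩
  let τ : (L →ₐ[M] AlgebraicClosure L) → (L →ₐ[M] F) := fun σ => σ.codRestrict F.toSubalgebra (hr σ)
  refine ⟨F, iF.deriv, τ, fun a => hF.deriv_algebraMap a, fun σ x => rfl, fun σ x => ?_⟩
  exact algHom_deriv' (τ σ) (τ σ).injective x

/-- SC-2a: the trace commutes with derivations.

Proof. Let `N` be an algebraic closure of `L` (or a normal closure of `L / M`). The derivation `dM`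
extends to a derivation `dN` of `N` (uniquely on elements algebraic over `M`; e.g. `Differential`
API: `Mathlib.FieldTheory.Differential.Basic`, `differentialFiniteDimensional`,
`uniqueDifferentialAlgebraFiniteDimensional`, or use `KaehlerDifferential` and formally etale maps as
in `Pool.Agent.Lib.MP_e52354_nt.exists_derivation`). For each `M`-embedding `τ : L → N`:
`dN (τ a) = τ (dL a)` (both sides are derivations `L → N` along `τ` which agree on `M`, and
derivations are determined on algebraic elements by the minimal polynomial). Then use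
`trace_eq_sum_embeddings`.

Alternative: direct, without closure: choose a basis and use `Algebra.trace` as trace of the matrix;
`dL` in the basis `b_i` reads `dL b_i = ∑ c_ij b_j`; the matrix of multiplication by `dL v` is
`dM(A) + [A, C]` and the commutator has trace `0`. -/
theorem trace_deriv {M L : Type} [Field M] [CharZero M] [Field L] [Algebra M L]
    [FiniteDimensional M L] (dM : Derivation ℤ M M) (dL : Derivation ℤ L L)
    (hd : ∀ a, dL (algebraMap M L a) = algebraMap M L (dM a)) (v : L) :
    Algebra.trace M L (dL v) = dM (Algebra.trace M L v) := by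
  obtain ⟨F, dF, τ, h1, h2, h3⟩ := kl2_emb dM dL hd
  have e1 : ∀ x : L, (∑ σ : L →ₐ[M] AlgebraicClosure L, τ σ x : F) = algebraMap M F (Algebra.trace M L x) := by
    intro x
    apply Subtype.ext
    have h4 := trace_eq_sum_embeddings (K := M) (L := L) (AlgebraicClosure L) (x := x)
    have h5 : ((∑ σ : L →ₐ[M] AlgebraicClosure L, τ σ x : F) : AlgebraicClosure L) =
        ∑ σ : L →ₐ[M] AlgebraicClosure L, σ x := by
      rw [← IntermediateField.coe_val, map_sum]
      exact Finset.sum_congr rfl fun σ _ => h2 σ x
    rw [h5, ← h4]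
    rfl
  have e2 := e1 (dL v)
  have e3 : (∑ σ : L →ₐ[M] AlgebraicClosure L, τ σ (dL v) : F) = dF (∑ σ : L →ₐ[M] AlgebraicClosure L, τ σ v) := by
    rw [map_sum]
    exact Finset.sum_congr rfl fun σ _ => h3 σ v
  rw [e3, e1 v, h1] at e2
  exact (algebraMap M F).injective e2.symm

/-- SC-2b: the trace of a logarithmic derivative is the logarithmic derivative of the norm. Proof: as
`trace_deriv`, with `Algebra.norm_eq_prod_embeddings`: `dN (∏ τ u) / ∏ τ u = ∑ dN (τ u) / τ u =
∑ τ (dL u / u)`. -/
theorem norm_logDeriv {M L : Type} [Field M] [CharZero M] [Field L] [Algebra M L]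
    [FiniteDimensional M L] (dM : Derivation ℤ M M) (dL : Derivation ℤ L L)
    (hd : ∀ a, dL (algebraMap M L a) = algebraMap M L (dM a)) {u : L} (hu : u ≠ 0) :
    Algebra.trace M L (dL u / u) = dM (Algebra.norm M u) / Algebra.norm M u := by
  obtain ⟨F, dF, τ, h1, h2, h3⟩ := kl2_emb dM dL hd
  have e1 : ∀ x : L, (∑ σ : L →ₐ[M] AlgebraicClosure L, τ σ x : F) = algebraMap M F (Algebra.trace M L x) := by
    intro x
    apply Subtype.ext
    have h4 := trace_eq_sum_embeddings (K := M) (L := L) (AlgebraicClosure L) (x := x)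
    have h5 : ((∑ σ : L →ₐ[M] AlgebraicClosure L, τ σ x : F) : AlgebraicClosure L) =
        ∑ σ : L →ₐ[M] AlgebraicClosure L, σ x := by
      rw [← IntermediateField.coe_val, map_sum]
      exact Finset.sum_congr rfl fun σ _ => h2 σ x
    rw [h5, ← h4]
    rfl
  have e2 : (∏ σ : L →ₐ[M] AlgebraicClosure L, τ σ u : F) = algebraMap M F (Algebra.norm M u) := by
    apply Subtype.ext
    have h4 := Algebra.norm_eq_prod_embeddings M (AlgebraicClosure L) u
    have h5 : ((∏ σ : L →ₐ[M] AlgebraicClosure L, τ σ u : F) : AlgebraicClosure L) =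
        ∏ σ : L →ₐ[M] AlgebraicClosure L, σ u := by
      rw [← IntermediateField.coe_val, map_prod]
      exact Finset.prod_congr rfl fun σ _ => h2 σ u
    rw [h5, ← h4]
    rfl
  let iF : Differential F := ⟨dF⟩
  have e3 : Differential.logDeriv (∏ σ : L →ₐ[M] AlgebraicClosure L, τ σ u : F) =
      ∑ σ : L →ₐ[M] AlgebraicClosure L, Differential.logDeriv (τ σ u) :=
    Differential.logDeriv_prod _ _ _ fun σ _ => (map_ne_zero (τ σ)).2 hu
  have e4 : ∑ σ : L →ₐ[M] AlgebraicClosure L, Differential.logDeriv (τ σ u) =
      ∑ σ : L →ₐ[M] AlgebraicClosure L, τ σ (dL u / u) := by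
    refine Finset.sum_congr rfl fun σ _ => ?_
    rw [map_div₀, h3]
    rfl
  have e5 : Differential.logDeriv (algebraMap M F (Algebra.norm M u)) =
      algebraMap M F (dM (Algebra.norm M u) / Algebra.norm M u) := by
    rw [map_div₀, ← h1]
    rfl
  rw [e2, e5, e4, e1] at e3
  exact (algebraMap M F).injective e3.symm

end Pool.Agent.Lib.MP_209724_lc.SC
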