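import Mathlib
import Pool.Agent.Lib.MP_209724_lc.OV.Defs

namespace Pool.Agent.Lib.MP_209724_lc.SC

private theorem kl3_inv {B L : Type} [Field B] [Field L] [Algebra B L] (D : Derivation B L L)
    {K : Type*} [Field K] [Algebra K L] (E : IntermediateField K L) {x : L} (hx : x ∈ E) (hD : D x ∈ E) :
    D x⁻¹ ∈ E := by
  rw [Derivation.leibniz_inv]
  rw [smul_eq_mul]
  exact mul_mem (neg_mem (pow_mem (inv_mem hx) 2)) hD

private theorem kl3_mul {B L : Type} [Field B] [Field L] [Algebra B L] (D : Derivation B L L)
    {K : Type*} [Field K] [Algebra K L] (E : IntermediateField K L) {x y : L} (hx : x ∈ E) (hy : y ∈ E)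
    (hDx : D x ∈ E) (hDy : D y ∈ E) : D (x * y) ∈ E := by
  rw [Derivation.leibniz, smul_eq_mul, smul_eq_mul]
  exact add_mem (mul_mem hx hDy) (mul_mem hy hDx)

private theorem kl3_poly {B L : Type} [Field B] [Field L] [Algebra B L] (D : Derivation B L L)
    (M : IntermediateField B L) (hM : ∀ a ∈ M, D a ∈ M) (x : L) (p : Polynomial M) :
    ∃ r ∈ IntermediateField.adjoin M {x},
      D (Polynomial.aeval x p) = r + Polynomial.aeval x (Polynomial.derivative p) * D x := by
  induction p using Polynomial.induction_on' with
  | add p q hp hq =>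
    obtain ⟨r, hr, h1⟩ := hp
    obtain ⟨t, ht, h2⟩ := hq
    refine ⟨r + t, add_mem hr ht, ?_⟩
    rw [map_add, map_add, h1, h2, Polynomial.derivative_add, map_add]
    ring
  | monomial n c =>
    refine ⟨x ^ n * D (c : L), ?_, ?_⟩
    · refine mul_mem (pow_mem (IntermediateField.mem_adjoin_simple_self M x) n) ?_
      exact algebraMap_mem (IntermediateField.adjoin M {x}) (⟨D (c : L), hM _ c.2⟩ : M)
    · rw [Polynomial.aeval_monomial, Polynomial.derivative_monomial, Polynomial.aeval_monomial,
        Derivation.leibniz, Derivation.leibniz_pow, smul_eq_mul, smul_eq_mul, map_mul, map_natCast,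
        nsmul_eq_mul, smul_eq_mul]
      have h1 : (algebraMap M L) c = (c : L) := rfl
      rw [h1]
      ring

private theorem kl3_alg {B L : Type} [Field B] [CharZero B] [Field L] [Algebra B L] (D : Derivation B L L)
    (M : IntermediateField B L) (hM : ∀ a ∈ M, D a ∈ M) (x : L) (hx : IsAlgebraic M x) :
    D x ∈ IntermediateField.adjoin M {x} := by
  have hint : IsIntegral M x := hx.isIntegral
  have hsep : (minpoly M x).Separable := (minpoly.irreducible hint).separable
  have hne := hsep.aeval_derivative_ne_zero (minpoly.aeval M x)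
  obtain ⟨r, hr, h1⟩ := kl3_poly D M hM x (minpoly M x)
  rw [minpoly.aeval, map_zero] at h1
  have h2 : D x = -r / Polynomial.aeval x (Polynomial.derivative (minpoly M x)) := by
    rw [eq_div_iff hne]
    linear_combination -h1
  rw [h2]
  refine div_mem (neg_mem hr) ?_
  exact IntermediateField.algebra_adjoin_le_adjoin M {x} (Polynomial.aeval_mem_adjoin_singleton M x)

/-- SC-3: finite subextensions stable under a derivation. `M = B(s)`.

Proof. Let `L₀ = M(S)` (`IntermediateField.adjoin`), of finite degree since `S` is finite and all its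
elements are algebraic. First, `D` maps `M` to `M`: the set of `a ∈ M` with `D a ∈ M` is a field which
contains `B` and `s` (`D s = 1`), use `IntermediateField.adjoin_induction`. Then for `a ∈ L` algebraic
over `M`, `D a ∈ M(a)`: with the minimal polynomial `p` of `a`, `0 = D (p(a)) = p^D(a) + p'(a) D a`
where `p^D` (apply `D` to the coefficients) has coefficients in `M`, and `p'(a) ≠ 0` (characteristic
zero). So the set of `a ∈ L₀` with `D a ∈ L₀` is a field containing `M` and `S`. -/
theorem exists_stable {B L : Type} [Field B] [CharZero B] [Field L] [Algebra B L]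
    (D : Derivation B L L) (s : L) (h1 : D s = 1)
    (halg : ∀ a : L, IsAlgebraic (IntermediateField.adjoin B {s}) a) (S : Finset L) :
    (∀ a ∈ IntermediateField.adjoin B {s}, D a ∈ IntermediateField.adjoin B {s}) ∧
    ∃ L₀ : IntermediateField (IntermediateField.adjoin B {s}) L,
      FiniteDimensional (IntermediateField.adjoin B {s}) L₀ ∧ (∀ a ∈ S, a ∈ L₀) ∧
        ∀ a ∈ L₀, D a ∈ L₀ := by
  have hM : ∀ a ∈ IntermediateField.adjoin B {s}, D a ∈ IntermediateField.adjoin B {s} := by
    intro a ha
    induction ha using IntermediateField.adjoin_induction with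
    | mem x hx =>
      rw [Set.mem_singleton_iff] at hx
      rw [hx, h1]
      exact one_mem _
    | algebraMap x =>
      rw [Derivation.map_algebraMap]
      exact zero_mem _
    | add x y hx hy h2 h3 =>
      rw [map_add]
      exact add_mem h2 h3
    | inv x hx h2 => exact kl3_inv D _ hx h2
    | mul x y hx hy h2 h3 => exact kl3_mul D _ hx hy h2 h3
  refine ⟨hM, IntermediateField.adjoin (IntermediateField.adjoin B {s}) (S : Set L), ?_, ?_, ?_⟩
  · exact IntermediateField.finiteDimensional_adjoin fun x _ => (halg x).isIntegral
  · intro a ha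
    exact IntermediateField.subset_adjoin _ _ (by exact_mod_cast ha)
  · intro a ha
    induction ha using IntermediateField.adjoin_induction with
    | mem x hx =>
      have h2 := kl3_alg D _ hM x (halg x)
      have h3 : IntermediateField.adjoin (IntermediateField.adjoin B {s}) {x} ≤
          IntermediateField.adjoin (IntermediateField.adjoin B {s}) (S : Set L) :=
        IntermediateField.adjoin.mono _ _ _ (Set.singleton_subset_iff.2 hx)
      exact h3 h2
    | algebraMap x =>
      exact algebraMap_mem (IntermediateField.adjoin (IntermediateField.adjoin B {s}) (S : Set L))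
        (⟨D (x : L), hM _ x.2⟩ : IntermediateField.adjoin B {s})
    | add x y hx hy h2 h3 =>
      rw [map_add]
      exact add_mem h2 h3
    | inv x hx h2 => exact kl3_inv D _ hx h2
    | mul x y hx hy h2 h3 => exact kl3_mul D _ hx hy h2 h3

end Pool.Agent.Lib.MP_209724_lc.SC
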