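import Mathlib
import Pool.Agent.Lib.MP_209724_lc.SC.KL1
import Pool.Agent.Lib.MP_209724_lc.SC.KL2
import Pool.Agent.Lib.MP_209724_lc.SC.KL3
import Pool.Agent.Lib.MP_e52354_nt.DerivExist
import Pool.Agent.Lib.MP_209724_lc.SC.Ax1
import Pool.Agent.Lib.MP_209724_lc.SC.Ax3

section

namespace Pool.Agent.Lib.MP_209724_lc.SC

/-- SC-4: descent to the rational function field.

Proof. Suppose `u k₀ = s`. Let `M = B(s)` and `L₀ ∋ u k, v` be as in `exists_stable`. `D` restricts to
derivations of `M` and of `L₀` (as `ℤ`-derivations and, on `M`, as a `B`-derivation). Take the trace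
from `L₀` to `M` of the hypothesis (the `c k` are in `B`): with `trace_deriv` and `norm_logDeriv`,
`∑ c_k D(N(u_k)) / N(u_k) = D(Tr v)` in `M`, with `N (u k₀) = N(s) = s ^ [L₀ : M]`
(`Algebra.norm_algebraMap`). `kl_rational` for `M` (`s` as an element of `M` generates `M` over `B`)
gives `[L₀ : M] = 0`, a contradiction (`Module.finrank_pos`). -/
theorem kl_one {B L : Type} [Field B] [CharZero B] [Field L] [Algebra B L]
    (D : Derivation B L L) (s : L) (hs : Transcendental B s) (h1 : D s = 1)
    (halg : ∀ a : L, IsAlgebraic (IntermediateField.adjoin B {s}) a) {κ : Type} [Fintype κ]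
    (c : κ → B) (hc : LinearIndependent ℚ c) (u : κ → L) (hu : ∀ k, u k ≠ 0) (v : L)
    (h : ∑ k, algebraMap B L (c k) * (D (u k) / u k) = D v) (k : κ) : u k ≠ s := by
  classical
  intro hks
  obtain ⟨hM, L₀, hfin, hS, hL⟩ := exists_stable D s h1 halg (insert v (Finset.univ.image u))
  have := hfin
  have hsM : s ∈ IntermediateField.adjoin B {s} := IntermediateField.mem_adjoin_simple_self B s
  -- the derivation of `M`
  let DM : Derivation B (IntermediateField.adjoin B {s}) (IntermediateField.adjoin B {s}) :=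
    Derivation.mk'
      { toFun := fun a => ⟨D a, hM a a.2⟩
        map_add' := fun a b => Subtype.ext (by simp)
        map_smul' := fun b a => Subtype.ext (by simp) }
      fun a b => Subtype.ext (by simp [smul_eq_mul])
  let dM : Derivation ℤ (IntermediateField.adjoin B {s}) (IntermediateField.adjoin B {s}) :=
    DM.restrictScalars ℤ
  let dL : Derivation ℤ L₀ L₀ :=
    Derivation.mk'
      { toFun := fun a => ⟨D a, hL a a.2⟩
        map_add' := fun a b => Subtype.ext (by simp)
        map_smul' := fun b a => Subtype.ext (by simp) }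
      fun a b => Subtype.ext (by simp [smul_eq_mul])
  have hdL : ∀ a : L₀, ((dL a : L₀) : L) = D (a : L) := fun a => rfl
  have hdM : ∀ a : IntermediateField.adjoin B {s}, ((dM a : IntermediateField.adjoin B {s}) : L) = D (a : L) :=
    fun a => rfl
  have hd : ∀ a, dL (algebraMap (IntermediateField.adjoin B {s}) L₀ a) =
      algebraMap (IntermediateField.adjoin B {s}) L₀ (dM a) := fun a => Subtype.ext rfl
  have huL : ∀ k, u k ∈ L₀ := fun k =>
    hS _ (Finset.mem_insert_of_mem (Finset.mem_image_of_mem u (Finset.mem_univ k)))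
  have hvL : v ∈ L₀ := hS _ (Finset.mem_insert_self _ _)
  have hU : ∀ k, (⟨u k, huL k⟩ : L₀) ≠ 0 := fun k h0 => hu k (congrArg Subtype.val h0)
  have hE : ∑ k, algebraMap (IntermediateField.adjoin B {s}) L₀ (algebraMap B (IntermediateField.adjoin B {s}) (c k)) *
      (dL ⟨u k, huL k⟩ / ⟨u k, huL k⟩) = dL ⟨v, hvL⟩ := by
    refine Subtype.ext ?_
    rw [hdL, ← h]
    have e1 : ((∑ k, algebraMap (IntermediateField.adjoin B {s}) L₀
        (algebraMap B (IntermediateField.adjoin B {s}) (c k)) * (dL ⟨u k, huL k⟩ / ⟨u k, huL k⟩) : L₀) : L) =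
        ∑ k, ((algebraMap (IntermediateField.adjoin B {s}) L₀
        (algebraMap B (IntermediateField.adjoin B {s}) (c k)) * (dL ⟨u k, huL k⟩ / ⟨u k, huL k⟩) : L₀) : L) :=
      map_sum (algebraMap L₀ L) _ _
    rw [e1]
    rfl
  have hT := congrArg (Algebra.trace (IntermediateField.adjoin B {s}) L₀) hE
  rw [map_sum, trace_deriv dM dL hd] at hT
  have hT2 : ∑ k, algebraMap B (IntermediateField.adjoin B {s}) (c k) *
      (DM (Algebra.norm (IntermediateField.adjoin B {s}) (⟨u k, huL k⟩ : L₀)) /
        Algebra.norm (IntermediateField.adjoin B {s}) (⟨u k, huL k⟩ : L₀)) =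
      DM (Algebra.trace (IntermediateField.adjoin B {s}) L₀ ⟨v, hvL⟩) := by
    refine Eq.trans (Finset.sum_congr rfl fun k _ => ?_) hT
    have e1 : algebraMap (IntermediateField.adjoin B {s}) L₀ (algebraMap B (IntermediateField.adjoin B {s}) (c k)) *
        (dL ⟨u k, huL k⟩ / ⟨u k, huL k⟩) =
        (algebraMap B (IntermediateField.adjoin B {s}) (c k)) • (dL ⟨u k, huL k⟩ / ⟨u k, huL k⟩) :=
      (Algebra.smul_def _ _).symm
    rw [e1, map_smul, norm_logDeriv dM dL hd (hU k), smul_eq_mul]
    rfl
  have htop : IntermediateField.adjoin B {(⟨s, hsM⟩ : IntermediateField.adjoin B {s})} = ⊤ := by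
    refine IntermediateField.lift_injective _ ?_
    rw [IntermediateField.lift_adjoin_simple, IntermediateField.lift_top]
  have hs' : Transcendental B (⟨s, hsM⟩ : IntermediateField.adjoin B {s}) := by
    intro h2
    exact hs (h2.algebraMap (A := L))
  have hfs : Algebra.norm (IntermediateField.adjoin B {s}) (⟨u k, huL k⟩ : L₀) =
      (⟨s, hsM⟩ : IntermediateField.adjoin B {s}) ^
        ((Module.finrank (IntermediateField.adjoin B {s}) L₀ : ℕ) : ℤ) := by
    have e1 : (⟨u k, huL k⟩ : L₀) = algebraMap (IntermediateField.adjoin B {s}) L₀ ⟨s, hsM⟩ :=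
      Subtype.ext hks
    rw [e1, Algebra.norm_algebraMap, zpow_natCast]
  have h0 := kl_rational (⟨s, hsM⟩ : IntermediateField.adjoin B {s}) hs' htop DM (Subtype.ext h1) c hc
    (fun k => Algebra.norm (IntermediateField.adjoin B {s}) (⟨u k, huL k⟩ : L₀))
    (fun k => Algebra.norm_ne_zero_iff.2 (hU k)) _ hT2 k _ hfs
  have h3 : 0 < Module.finrank (IntermediateField.adjoin B {s}) L₀ := Module.finrank_pos
  omega

end Pool.Agent.Lib.MP_209724_lc.SC
end

section

namespace Pool.Agent.Lib.MP_209724_lc.SC

private theorem kl5_alg {Λ L : Type} [Field Λ] [CharZero Λ] [Field L] [Algebra Λ L]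
    (D : Derivation Λ L L) {s : L} (hs : IsAlgebraic Λ s) : D s = 0 := by
  have hi : IsIntegral Λ s := hs.isIntegral
  have h1 : D (Polynomial.aeval s (minpoly Λ s)) =
      Polynomial.aeval s (Polynomial.derivative (minpoly Λ s)) • D s := D.map_aeval _ _
  rw [minpoly.aeval, map_zero, smul_eq_mul] at h1
  have h2 : Polynomial.aeval s (Polynomial.derivative (minpoly Λ s)) ≠ 0 :=
    (minpoly.irreducible hi).separable.aeval_derivative_ne_zero (minpoly.aeval Λ s)
  exact (mul_eq_zero.mp h1.symm).resolve_left h2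

open IntermediateField in
private theorem kl5_trans {Λ L ι : Type} [Field Λ] [Field L] [Algebra Λ L] {z : ι → L}
    (hz : AlgebraicIndependent Λ z) (j : ι) :
    Transcendental (IntermediateField.adjoin Λ (z '' {j}ᶜ)) (z j) := by
  open IntermediateField.algebraAdjoinAdjoin in
  have h1 : Transcendental (Algebra.adjoin Λ (z '' {j}ᶜ)) (z j) :=
    hz.transcendental_adjoin (s := {j}ᶜ) (by simp)
  intro h2
  apply h1
  exact (IsFractionRing.isAlgebraic_iff (Algebra.adjoin Λ (z '' {j}ᶜ))
    (IntermediateField.adjoin Λ (z '' {j}ᶜ)) L).mpr h2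

/-- SC-5: if `∑ c_k du_k / u_k = dv` in `Ω_{L/Λ}` (here: for all derivations over `Λ`) and the `c_k`
are linearly independent over `ℚ`, then all `du_k = 0`.

Proof. Suppose `D' (u k₀) ≠ 0` for some `D'`. Then `s = u k₀` is transcendental over `Λ` (a derivation
over `Λ` vanishes on the elements algebraic over `Λ`: minimal polynomial, characteristic `0`). Let `T`
be a transcendence basis of `L / Λ` which contains `s` (extend the algebraically independent set
`{s}`), `B = IntermediateField.adjoin Λ (T \ {s})`. By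
`MP_e52354_nt.exists_derivation` there is `D : Derivation Λ L L` with `D s = 1` and `D = 0` on
`T \ {s}`, hence on `B`; so `D` is a derivation over `B`. `s` is transcendental over `B`, and `L` is
algebraic over `B(s)`. `kl_one` (with `algebraMap Λ B ∘ c`, which is still linearly independent over
`ℚ`) gives `u k₀ ≠ s`: contradiction. -/
theorem kl_gen {Λ L κ : Type} [Field Λ] [CharZero Λ] [Field L] [Algebra Λ L] [Fintype κ]
    (c : κ → Λ) (hc : LinearIndependent ℚ c) (u : κ → L) (hu : ∀ k, u k ≠ 0) (v : L)
    (h : ∀ D : Derivation Λ L L, ∑ k, algebraMap Λ L (c k) * (D (u k) / u k) = D v) (k : κ)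
    (D : Derivation Λ L L) : D (u k) = 0 := by
  classical
  by_contra hne
  have hst : Transcendental Λ (u k) := fun ha => hne (kl5_alg D ha)
  have hind : AlgebraicIndepOn Λ id ({u k} : Set L) := by
    have h2 : AlgebraicIndependent Λ (fun i : ({u k} : Set L) => (i : L)) := by
      rw [algebraicIndependent_unique_type_iff]
      exact hst
    exact h2
  obtain ⟨t, hut, ht⟩ := exists_isTranscendenceBasis_superset hind
  set z : t → L := fun i => (i : L) with hz
  have hzt : IsTranscendenceBasis Λ z := ht
  set j : t := ⟨u k, hut rfl⟩ with hj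
  have hzj : z j = u k := rfl
  have : Algebra.IsAlgebraic (Algebra.adjoin Λ (Set.range z)) L := hzt.isAlgebraic
  obtain ⟨D₁, hD₁⟩ := MP_e52354_nt.exists_derivation hzt.1 (fun i : t => if i = j then (1:L) else 0)
  have hB : ∀ b ∈ IntermediateField.adjoin Λ (z '' {j}ᶜ), D₁ b = 0 := by
    intro b hb
    induction hb using IntermediateField.adjoin_induction with
    | mem y hy =>
      obtain ⟨i, hi, rfl⟩ := hy
      have hij : i ≠ j := hi
      rw [hD₁, if_neg hij]
    | algebraMap c => exact D₁.map_algebraMap c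
    | add x y _ _ hx hy => rw [map_add, hx, hy, add_zero]
    | inv x hx hx' => rw [Derivation.leibniz_inv, hx', smul_zero]
    | mul x y hx hy hx' hy' => rw [Derivation.leibniz, hx', hy', smul_zero, smul_zero, add_zero]
  let D' : Derivation (IntermediateField.adjoin Λ (z '' {j}ᶜ)) L L := Derivation.mk'
    { toFun := D₁
      map_add' := D₁.map_add
      map_smul' := fun b a => by
        rw [Algebra.smul_def, RingHom.id_apply, Derivation.leibniz, Algebra.smul_def]
        change (b : L) • D₁ a + a • D₁ (b : L) = (b : L) * D₁ a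
        rw [hB b b.2, smul_zero, add_zero, smul_eq_mul] }
    (fun a b => D₁.leibniz a b)
  have hD' : ∀ a, D' a = D₁ a := fun a => rfl
  have h1 : D' (u k) = 1 := by
    rw [hD', ← hzj, hD₁, if_pos rfl]
  have hmem : ∀ x ∈ Algebra.adjoin Λ (Set.range z),
      x ∈ IntermediateField.adjoin (IntermediateField.adjoin Λ (z '' {j}ᶜ)) {u k} := by
    intro x hx
    induction hx using Algebra.adjoin_induction with
    | mem y hy =>
      obtain ⟨i, rfl⟩ := hy
      by_cases hi : i = j
      · rw [hi]
        exact IntermediateField.subset_adjoin _ _ rfl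
      · have h3 : z i ∈ IntermediateField.adjoin Λ (z '' {j}ᶜ) :=
          IntermediateField.subset_adjoin _ _ ⟨i, hi, rfl⟩
        exact IntermediateField.algebraMap_mem _
          (⟨z i, h3⟩ : IntermediateField.adjoin Λ (z '' {j}ᶜ))
    | algebraMap c =>
      have h3 : algebraMap Λ L c ∈ IntermediateField.adjoin Λ (z '' {j}ᶜ) :=
        IntermediateField.algebraMap_mem _ c
      exact IntermediateField.algebraMap_mem _
        (⟨algebraMap Λ L c, h3⟩ : IntermediateField.adjoin Λ (z '' {j}ᶜ))
    | add x y _ _ hx hy => exact add_mem hx hy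
    | mul x y _ _ hx hy => exact mul_mem hx hy
  have halg : ∀ a : L, IsAlgebraic
      (IntermediateField.adjoin (IntermediateField.adjoin Λ (z '' {j}ᶜ)) {u k}) a := by
    intro a
    obtain ⟨p, hp, hpa⟩ := (Algebra.IsAlgebraic.isAlgebraic (R := Algebra.adjoin Λ (Set.range z)) a)
    let f : Algebra.adjoin Λ (Set.range z) →+*
        IntermediateField.adjoin (IntermediateField.adjoin Λ (z '' {j}ᶜ)) {u k} :=
      { toFun := fun x => ⟨x, hmem x x.2⟩
        map_one' := rfl
        map_mul' := fun _ _ => rfl
        map_zero' := rfl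
        map_add' := fun _ _ => rfl }
    have hf : Function.Injective f := fun x y hxy => by
      have h6 : ((f x : IntermediateField.adjoin (IntermediateField.adjoin Λ (z '' {j}ᶜ)) {u k}) : L) =
        (f y : IntermediateField.adjoin (IntermediateField.adjoin Λ (z '' {j}ᶜ)) {u k}) := by rw [hxy]
      exact Subtype.ext h6
    refine ⟨p.map f, (Polynomial.map_ne_zero_iff hf).mpr hp, ?_⟩
    rw [Polynomial.aeval_def, Polynomial.eval₂_map]
    exact hpa
  have hc' : LinearIndependent ℚ
      (fun i => algebraMap Λ (IntermediateField.adjoin Λ (z '' {j}ᶜ)) (c i)) := by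
    have h5 := hc.map' ((algebraMap Λ (IntermediateField.adjoin Λ (z '' {j}ᶜ))).toRatAlgHom.toLinearMap)
      (LinearMap.ker_eq_bot.mpr (algebraMap Λ (IntermediateField.adjoin Λ (z '' {j}ᶜ))).injective)
    exact h5
  have : CharZero (IntermediateField.adjoin Λ (z '' {j}ᶜ)) :=
    charZero_of_injective_algebraMap (algebraMap Λ (IntermediateField.adjoin Λ (z '' {j}ᶜ))).injective
  exact kl_one D' (u k) (kl5_trans hzt.1 j) h1 halg _ hc' u hu v (h D₁) k rfl

end Pool.Agent.Lib.MP_209724_lc.SC
end

section

namespace Pool.Agent.Lib.MP_209724_lc.SC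

/-- logarithmic derivatives of products of powers -/
private theorem ax2_ld {Λ L ι : Type} [Field Λ] [Field L] [Algebra Λ L] (E : Derivation Λ L L)
    (y : ι → L) (hy : ∀ i, y i ≠ 0) (z : ι → ℤ) (s : Finset ι) :
    (∏ i ∈ s, y i ^ z i) ≠ 0 ∧
      E (∏ i ∈ s, y i ^ z i) / ∏ i ∈ s, y i ^ z i = ∑ i ∈ s, (z i : L) * (E (y i) / y i) := by
  classical
  induction s using Finset.induction_on with
  | empty => simp
  | insert a s ha ih =>
    have h0 : y a ^ z a ≠ 0 := zpow_ne_zero _ (hy a)
    rw [Finset.prod_insert ha, Finset.sum_insert ha]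
    refine ⟨mul_ne_zero h0 ih.1, ?_⟩
    rw [← ih.2, Derivation.leibniz, Derivation.leibniz_zpow]
    have h1 : y a ^ z a = y a ^ (z a - 1) * y a := by
      rw [zpow_sub_one₀ (hy a), mul_assoc, inv_mul_cancel₀ (hy a), mul_one]
    have h2 := hy a
    have h3 := ih.1
    have h4 : y a ^ (z a - 1) ≠ 0 := zpow_ne_zero _ (hy a)
    simp only [smul_eq_mul, zsmul_eq_mul]
    rw [h1]
    field_simp
    ring

/-- SC-7: from a relation with constant coefficients to an integral relation.

Proof. Let `Λ = consts D`. The `ℚ`-span of the `g i` in `Λ` is finite-dimensional and not zero; let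
`c_1, ..., c_r` (`r ≥ 1`) be a basis, `g i = ∑_k q_{ik} c_k` with `q_{ik} ∈ ℚ`; dividing the `c_k` by a
common denominator we may assume `q_{ik} ∈ ℤ`. Then for every `E`,
`∑_k c_k E(u_k) / u_k = E(v)` with `u_k = ∏ y_i ^ q_{ik}` and `v = ∑ g_i x_i` (`E` kills `g_i`;
the logarithmic derivative of a product of integral powers). By `kl_gen`, `E (u_k) = 0` for all `E` and
`k`. Some `q_{i₀k₀} ≠ 0` since `g ≠ 0`; put `m i = q_{i k₀}`. For `E = toConsts D l`:
`0 = D l (u_{k₀}) / u_{k₀} = ∑ m_i D l (y_i) / y_i = ∑ m_i D l (x_i)`. -/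
theorem ax_int {k L ι κ : Type} [Field k] [CharZero k] [Field L] [Algebra k L] [Fintype ι]
    (D : κ → Derivation k L L) (x y : ι → L) (hy : ∀ i, y i ≠ 0)
    (hxy : ∀ l i, D l (y i) = y i * D l (x i)) (g : ι → consts D) (hg : g ≠ 0)
    (h : ∀ E : Derivation (consts D) L L, ∑ i, (g i : L) * (E (y i) / y i - E (x i)) = 0) :
    ∃ m : ι → ℤ, m ≠ 0 ∧ ∀ l, D l (∑ i, (m i : L) * x i) = 0 := by
  classical
  have hcz : CharZero (consts D) :=
    charZero_of_injective_algebraMap (algebraMap k (consts D)).injective
  -- a basis of the `ℚ`-span of the `g i`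
  let W : Submodule ℚ (consts D) := Submodule.span ℚ (Set.range g)
  have hWf : FiniteDimensional ℚ W := FiniteDimensional.span_of_finite ℚ (Set.finite_range g)
  let b := Module.finBasis ℚ W
  let r := Module.finrank ℚ W
  let G : ι → W := fun i => ⟨g i, Submodule.subset_span ⟨i, rfl⟩⟩
  let q : ι × Fin r → ℚ := fun p => b.repr (G p.1) p.2
  obtain ⟨N, hN⟩ := IsLocalization.exist_integer_multiples_of_finite (nonZeroDivisors ℤ) q
  choose z' hz' using hN
  have hN0 : (N : ℤ) ≠ 0 := nonZeroDivisors.coe_ne_zero N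
  let z : ι → Fin r → ℤ := fun i j => z' (i, j)
  have hz : ∀ i j, ((z i j : ℤ) : ℚ) = (N : ℤ) * b.repr (G i) j := fun i j => by
    have := hz' (i, j)
    simpa [q, zsmul_eq_mul] using this
  let c : Fin r → consts D := fun j => (b j : consts D)
  have hc : LinearIndependent ℚ c :=
    b.linearIndependent.map' W.subtype (Submodule.ker_subtype W)
  have hg' : ∀ i, ((N : ℤ) : consts D) * g i = ∑ j, ((z i j : ℤ) : consts D) * c j := by
    intro i
    have h1 : g i = ∑ j, (b.repr (G i) j) • c j := by
      have h2 := congrArg (fun w : W => (w : consts D)) (b.sum_repr (G i))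
      simp only [Submodule.coe_sum, Submodule.coe_smul] at h2
      exact h2.symm
    conv_lhs => rw [h1]
    rw [Finset.mul_sum]
    refine Finset.sum_congr rfl fun j _ => ?_
    rw [Algebra.smul_def, ← mul_assoc]
    congr 1
    have h3 := congrArg (algebraMap ℚ (consts D)) (hz i j)
    rw [map_mul, map_intCast, map_intCast] at h3
    exact h3.symm
  -- the integral relation
  obtain ⟨i₀, hi₀⟩ := Function.ne_iff.1 hg
  obtain ⟨j₀, hj₀⟩ : ∃ j, b.repr (G i₀) j ≠ 0 := by
    by_contra hcon
    push Not at hcon
    apply hi₀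
    have h1 : b.repr (G i₀) = 0 := Finsupp.ext hcon
    have h2 : G i₀ = 0 := by
      rw [← b.repr.map_eq_zero_iff]
      exact h1
    exact congrArg (fun w : W => (w : consts D)) h2
  have hzj : z i₀ j₀ ≠ 0 := by
    intro h0
    have h1 := hz i₀ j₀
    rw [h0, Int.cast_zero] at h1
    rcases mul_eq_zero.1 h1.symm with h2 | h2
    · exact hN0 (by exact_mod_cast h2)
    · exact hj₀ h2
  let u : Fin r → L := fun j => ∏ i, y i ^ z i j
  have hu : ∀ j, u j ≠ 0 := fun j =>
    (ax2_ld (0 : Derivation (consts D) L L) y hy (fun i => z i j) Finset.univ).1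
  have hlog : ∀ (E : Derivation (consts D) L L) (j : Fin r),
      E (u j) / u j = ∑ i, ((z i j : ℤ) : L) * (E (y i) / y i) := fun E j =>
    (ax2_ld E y hy (fun i => z i j) Finset.univ).2
  have key := kl_gen c hc u hu (∑ i, ((((N : ℤ) : consts D) * g i : consts D) : L) * x i)
    (fun E => by
      rw [map_sum]
      have e1 : ∀ i, E (((((N : ℤ) : consts D) * g i : consts D) : L) * x i) =
          ((((N : ℤ) : consts D) * g i : consts D) : L) * E (x i) := fun i => by
        have h1 := E.map_smul (((N : ℤ) : consts D) * g i) (x i)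
        rw [Algebra.smul_def, Algebra.smul_def] at h1
        exact h1
      rw [Finset.sum_congr rfl fun i _ => e1 i]
      have e2 : ∀ j, algebraMap (consts D) L (c j) * (E (u j) / u j) =
          ∑ i, (algebraMap (consts D) L (((z i j : ℤ) : consts D) * c j)) * (E (y i) / y i) := by
        intro j
        rw [hlog, Finset.mul_sum]
        refine Finset.sum_congr rfl fun i _ => ?_
        rw [map_mul, map_intCast]
        ring
      rw [Finset.sum_congr rfl fun j _ => e2 j, Finset.sum_comm]
      have e3 : ∀ i, ∑ j, (algebraMap (consts D) L (((z i j : ℤ) : consts D) * c j)) *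
          (E (y i) / y i) = algebraMap (consts D) L (((N : ℤ) : consts D) * g i) *
          (E (y i) / y i) := by
        intro i
        rw [hg', map_sum, Finset.sum_mul]
      rw [Finset.sum_congr rfl fun i _ => e3 i]
      have h2 := h E
      have e4 : ∑ i, algebraMap (consts D) L (((N : ℤ) : consts D) * g i) * (E (y i) / y i) -
          ∑ i, ((((N : ℤ) : consts D) * g i : consts D) : L) * E (x i) =
          ((N : ℤ) : L) * ∑ i, (g i : L) * (E (y i) / y i - E (x i)) := by
        rw [← Finset.sum_sub_distrib, Finset.mul_sum]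
        refine Finset.sum_congr rfl fun i _ => ?_
        have e5 : algebraMap (consts D) L (((N : ℤ) : consts D) * g i) = ((N : ℤ) : L) * (g i : L) := by
          rw [map_mul, map_intCast]
          rfl
        have e6 : ((((N : ℤ) : consts D) * g i : consts D) : L) = ((N : ℤ) : L) * (g i : L) := e5
        rw [e5, e6]
        ring
      rw [h2, mul_zero] at e4
      exact sub_eq_zero.1 e4)
  refine ⟨fun i => z i j₀, fun h0 => hzj (congrFun h0 i₀), fun l => ?_⟩
  have h1 := key j₀ (toConsts D l)
  have h2 := hlog (toConsts D l) j₀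
  rw [h1, zero_div] at h2
  rw [map_sum]
  rw [eq_comm] at h2
  rw [← h2]
  refine Finset.sum_congr rfl fun i _ => ?_
  rw [toConsts_apply, hxy, mul_comm (y i), mul_div_assoc, div_self (hy i), mul_one,
    Derivation.leibniz, Derivation.map_intCast, smul_zero, add_zero, smul_eq_mul]

end Pool.Agent.Lib.MP_209724_lc.SC
end

section

namespace Pool.Agent.Lib.MP_209724_lc.SC

/-- SC-9: AX'S THEOREM. If `D l (y i) = y i * D l (x i)`, the `x i` are linearly independent over `ℚ`
modulo constants, and the vectors `(D l (x i))_i` are linearly independent, then the transcendence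
degree of the `x i, y i` over the field of constants is at least `|ι| + |κ|`.

Proof: `ax_count` for `toConsts D`; its last hypothesis by `ax_const` and `ax_int`. -/
theorem ax {k L ι κ : Type} [Field k] [CharZero k] [Field L] [Algebra k L] [Fintype ι] [Fintype κ]
    (D : κ → Derivation k L L) (x y : ι → L) (hy : ∀ i, y i ≠ 0)
    (hxy : ∀ l i, D l (y i) = y i * D l (x i))
    (hind : ∀ m : ι → ℤ, (∀ l, D l (∑ i, (m i : L) * x i) = 0) → m = 0)
    (hlin : LinearIndependent L fun (l : κ) (i : ι) => D l (x i)) :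
    ∃ s : ι ⊕ κ → L, AlgebraicIndependent (consts D) s ∧
      ∀ a, s a ∈ Set.range x ∪ Set.range y := by
  have : CharZero (consts D) := charZero_of_injective_algebraMap (algebraMap k (consts D)).injective
  refine ax_count x y hy (toConsts D) hxy hlin ?_
  intro g h
  by_contra hg
  obtain ⟨g', hg', h'⟩ := ax_const D x y hy hxy g hg h
  obtain ⟨m, hm, hm'⟩ := ax_int D x y hy hxy g' hg' h'
  exact hm (hind m hm')

end Pool.Agent.Lib.MP_209724_lc.SC
end
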