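import Mathlib
import Pool.Agent.Lib.MP_209724_lc.OV.Defs
import Pool.Agent.Lib.MP_209724_lc.MV.Defs
import Pool.Agent.Lib.MP_209724_lc.MV.Sheets
import Pool.Agent.Lib.MP_209724_lc.SC.Ed3
import Pool.Agent.Lib.MP_209724_lc.MV.GenericPoint
import Pool.Agent.Lib.MP_209724_lc.SC.Ax4

section

namespace Pool.Agent.Lib.MP_209724_lc.SC

/-- SC-21: a maximal set of indices such that the `x j` are linearly independent over `ℚ` modulo `Λ`.

Proof. Take `C` of maximal cardinality with the first property (`∅` has it). For `j ∉ C`, `C ∪ {j}` does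
not have it: there is `m ≠ 0`, supported in `C ∪ {j}`, with `∑ m_i x_i ∈ Λ`; `m j ≠ 0` because of the
property for `C`; put `N = m j` and take `- m` outside `j`. -/
theorem exists_max {k F : Type} [Field k] [Field F] [Algebra k F] {n : ℕ}
    (Λ : IntermediateField k F) (x : Fin n → F) :
    ∃ C : Finset (Fin n),
      (∀ m : Fin n → ℤ, (∀ j, j ∉ C → m j = 0) → ∑ j, (m j : F) * x j ∈ Λ → m = 0) ∧
      ∀ j, j ∉ C → ∃ (N : ℤ) (m : Fin n → ℤ), N ≠ 0 ∧ (∀ i, i ∉ C → m i = 0) ∧
        (N : F) * x j - ∑ i, (m i : F) * x i ∈ Λ := by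
  classical
  obtain ⟨C, hC, hmax⟩ := Set.exists_max_image
    {C : Finset (Fin n) | ∀ m : Fin n → ℤ, (∀ j, j ∉ C → m j = 0) → ∑ j, (m j : F) * x j ∈ Λ → m = 0}
    Finset.card (Set.toFinite _)
    ⟨∅, fun m h _ => funext fun j => h j (Finset.notMem_empty j)⟩
  refine ⟨C, hC, fun j hj => ?_⟩
  by_contra hcon
  have h1 : insert j C ∈ {C : Finset (Fin n) | ∀ m : Fin n → ℤ, (∀ j, j ∉ C → m j = 0) →
      ∑ j, (m j : F) * x j ∈ Λ → m = 0} := by
    intro m hm hs
    by_cases hmj : m j = 0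
    · refine hC m (fun i hi => ?_) hs
      by_cases hij : i = j
      · rw [hij]
        exact hmj
      · exact hm i (fun h => (Finset.mem_insert.1 h).elim hij hi)
    · exfalso
      refine hcon ⟨m j, fun i => if i = j then 0 else -m i, hmj, fun i hi => ?_, ?_⟩
      · by_cases hij : i = j
        · exact if_pos hij
        · show (if i = j then 0 else -m i) = 0
          rw [if_neg hij, hm i (fun h => (Finset.mem_insert.1 h).elim hij hi), neg_zero]
      · have e : ∑ i, (((if i = j then 0 else -m i : ℤ) : ℤ) : F) * x i =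
            (m j : F) * x j - ∑ i, (m i : F) * x i := by
          have e1 : ∀ i, (((if i = j then 0 else -m i : ℤ) : ℤ) : F) * x i =
              (if i = j then (m j : F) * x j else 0) - (m i : F) * x i := by
            intro i
            by_cases hij : i = j
            · rw [if_pos hij, if_pos hij, hij]
              simp
            · rw [if_neg hij, if_neg hij]
              push_cast
              ring
          rw [Finset.sum_congr rfl fun i _ => e1 i, Finset.sum_sub_distrib, Finset.sum_ite_eq']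
          simp
        rw [e, sub_sub_cancel]
        exact hs
  have h2 := hmax _ h1
  rw [Finset.card_insert_of_notMem hj] at h2
  omega

end Pool.Agent.Lib.MP_209724_lc.SC
end

section

/-!
Analytic families of simple roots over a convex domain.
-/

namespace Pool.Agent.Lib.MP_209724_lc.HS

open Filter Topology Metric Set

set_option linter.unusedSectionVars false

section RootFamily

variable {E : Type} [NormedAddCommGroup E] [NormedSpace ℂ E] [FiniteDimensional ℂ E]

/-- The evaluation map as a function of both variables. -/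
private noncomputable def rfF (G : E → Polynomial ℂ) (m : ℕ) (z : E × ℂ) : ℂ :=
  ∑ k ∈ Finset.range (m + 1), (G z.1).coeff k * z.2 ^ k

private lemma rfF_eq {D : Set E} {G : E → Polynomial ℂ} {m : ℕ}
    (hG : ∀ p ∈ D, (G p).Monic ∧ (G p).natDegree = m) {p : E} (hp : p ∈ D) (θ : ℂ) :
    rfF G m (p, θ) = (G p).eval θ := by
  rw [rfF, Polynomial.eval_eq_sum_range, (hG p hp).2]

private lemma rfF_analyticAt {D : Set E} {G : E → Polynomial ℂ} {m : ℕ}
    (hcoeff : ∀ k, AnalyticOnNhd ℂ (fun p => (G p).coeff k) D) {p : E} (hp : p ∈ D) (θ : ℂ) :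
    AnalyticAt ℂ (rfF G m) (p, θ) := by
  unfold rfF
  apply Finset.analyticAt_fun_sum
  intro k _
  have h1 : AnalyticAt ℂ (fun z : E × ℂ => (G z.1).coeff k) (p, θ) :=
    AnalyticAt.comp (g := fun p => (G p).coeff k) (f := Prod.fst) (x := (p, θ))
      (hcoeff k p hp) analyticAt_fst
  exact h1.mul (analyticAt_snd.pow k)

private lemma rfF_deriv {D : Set E} {G : E → Polynomial ℂ} {m : ℕ}
    (hG : ∀ p ∈ D, (G p).Monic ∧ (G p).natDegree = m)
    (hcoeff : ∀ k, AnalyticOnNhd ℂ (fun p => (G p).coeff k) D) {p : E} (hp : p ∈ D) (θ : ℂ) :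
    fderiv ℂ (rfF G m) (p, θ) (0, 1) = (Polynomial.derivative (G p)).eval θ := by
  have h1 : HasFDerivAt (rfF G m) (fderiv ℂ (rfF G m) (p, θ)) (p, θ) :=
    (rfF_analyticAt hcoeff hp θ).differentiableAt.hasFDerivAt
  have h2 : HasDerivAt (fun t : ℂ => (p, t)) ((0 : E), (1 : ℂ)) θ :=
    (hasDerivAt_const θ p).prodMk (hasDerivAt_id θ)
  have h3 : HasDerivAt (fun t : ℂ => rfF G m (p, t)) (fderiv ℂ (rfF G m) (p, θ) (0, 1)) θ :=
    h1.comp_hasDerivAt θ h2
  have h4 : (fun t : ℂ => rfF G m (p, t)) = fun t => (G p).eval t := by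
    ext t
    exact rfF_eq hG hp t
  rw [h4] at h3
  exact h3.unique ((G p).hasDerivAt θ)

/-- The local inverse data at a simple root. -/
private lemma rf_local {D : Set E} {G : E → Polynomial ℂ} {m : ℕ}
    (hG : ∀ p ∈ D, (G p).Monic ∧ (G p).natDegree = m)
    (hcoeff : ∀ k, AnalyticOnNhd ℂ (fun p => (G p).coeff k) D)
    (hsep : ∀ p ∈ D, (G p).Separable) {p₁ : E} (hp₁ : p₁ ∈ D) {θ₁ : ℂ}
    (hθ₁ : (G p₁).eval θ₁ = 0) :
    ∃ Φ : OpenPartialHomeomorph (E × ℂ) (E × ℂ), (p₁, θ₁) ∈ Φ.source ∧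
      (∀ z, Φ z = (z.1, rfF G m z)) ∧ AnalyticAt ℂ Φ.symm (p₁, 0) := by
  have hder : (Polynomial.derivative (G p₁)).eval θ₁ ≠ 0 := by
    intro h
    obtain ⟨a, b, hab⟩ := hsep p₁ hp₁
    have := congrArg (Polynomial.eval θ₁) hab
    rw [Polynomial.eval_add, Polynomial.eval_mul, Polynomial.eval_mul, hθ₁, h] at this
    simp at this
  set F' : E × ℂ →L[ℂ] ℂ := fderiv ℂ (rfF G m) (p₁, θ₁) with hF'
  have hF1 : F' (0, 1) ≠ 0 := by
    rw [hF', rfF_deriv hG hcoeff hp₁]
    exact hder
  have hFs : HasStrictFDerivAt (rfF G m) F' (p₁, θ₁) :=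
    (rfF_analyticAt hcoeff hp₁ θ₁).hasStrictFDerivAt
  have hΨs : HasStrictFDerivAt (fun z : E × ℂ => (z.1, rfF G m z))
      ((ContinuousLinearMap.fst ℂ E ℂ).prod F') (p₁, θ₁) :=
    hasStrictFDerivAt_fst.prodMk hFs
  have hF'eq : ∀ z : E × ℂ, F' z = F' (z.1, 0) + z.2 * F' (0, 1) := by
    intro z
    have : z = (z.1, 0) + z.2 • ((0 : E), (1 : ℂ)) := by
      ext <;> simp
    conv_lhs => rw [this]
    rw [map_add, map_smul, smul_eq_mul]
  have hinj : ((ContinuousLinearMap.fst ℂ E ℂ).prod F').ker = ⊥ := by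
    rw [LinearMap.ker_eq_bot']
    intro z hz
    have hz' : (z.1, F' z) = ((0 : E), (0 : ℂ)) := hz
    have h1 : z.1 = 0 := congrArg Prod.fst hz'
    have h2 : F' z = 0 := congrArg Prod.snd hz'
    rw [hF'eq, h1] at h2
    have h3 : ((0 : E), (0 : ℂ)) = 0 := rfl
    rw [h3, map_zero, zero_add] at h2
    have h4 : z.2 = 0 := (mul_eq_zero.1 h2).resolve_right hF1
    exact Prod.ext h1 h4
  have hsurj : ((ContinuousLinearMap.fst ℂ E ℂ).prod F').range = ⊤ := by
    rw [LinearMap.range_eq_top]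
    intro y
    refine ⟨(y.1, (y.2 - F' (y.1, 0)) / F' (0, 1)), ?_⟩
    change (y.1, F' (y.1, (y.2 - F' (y.1, 0)) / F' (0, 1))) = y
    rw [hF'eq]
    ext
    · rfl
    · simp only
      field_simp
      ring
  let e : (E × ℂ) ≃L[ℂ] (E × ℂ) := ContinuousLinearEquiv.ofBijective _ hinj hsurj
  have he : (e : E × ℂ →L[ℂ] E × ℂ) = (ContinuousLinearMap.fst ℂ E ℂ).prod F' :=
    ContinuousLinearEquiv.coe_ofBijective _ hinj hsurj
  have hΨe : HasStrictFDerivAt (fun z : E × ℂ => (z.1, rfF G m z)) (e : E × ℂ →L[ℂ] E × ℂ)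
      (p₁, θ₁) := by
    rw [he]
    exact hΨs
  refine ⟨hΨe.toOpenPartialHomeomorph _, hΨe.mem_toOpenPartialHomeomorph_source,
    fun z => rfl, ?_⟩
  have hΨan : AnalyticAt ℂ (fun z : E × ℂ => (z.1, rfF G m z)) (p₁, θ₁) :=
    analyticAt_fst.prod (rfF_analyticAt hcoeff hp₁ θ₁)
  have h5 := (hΨe.toOpenPartialHomeomorph _).analyticAt_symm' (i := e)
    hΨe.mem_toOpenPartialHomeomorph_source hΨan hΨe.hasFDerivAt.fderiv
  have h6 : (hΨe.toOpenPartialHomeomorph _) (p₁, θ₁) = (p₁, 0) := by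
    change ((p₁, θ₁).1, rfF G m (p₁, θ₁)) = (p₁, 0)
    rw [rfF_eq hG hp₁, hθ₁]
  rw [h6] at h5
  exact h5

/-- The space of roots over `D`. -/
private def RX (D : Set E) (G : E → Polynomial ℂ) : Type :=
  {z : D × ℂ // (G z.1).eval z.2 = 0}

private instance (D : Set E) (G : E → Polynomial ℂ) : TopologicalSpace (RX D G) :=
  inferInstanceAs (TopologicalSpace {z : D × ℂ // (G z.1).eval z.2 = 0})

private instance (D : Set E) (G : E → Polynomial ℂ) : T2Space (RX D G) :=
  inferInstanceAs (T2Space {z : D × ℂ // (G z.1).eval z.2 = 0})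

private def RXp (D : Set E) (G : E → Polynomial ℂ) (x : RX D G) : D := x.1.1

private lemma RXp_continuous (D : Set E) (G : E → Polynomial ℂ) : Continuous (RXp D G) :=
  continuous_fst.comp continuous_subtype_val

private lemma rf_cont_eval {D : Set E} {G : E → Polynomial ℂ} {m : ℕ}
    (hG : ∀ p ∈ D, (G p).Monic ∧ (G p).natDegree = m)
    (hcoeff : ∀ k, AnalyticOnNhd ℂ (fun p => (G p).coeff k) D) :
    Continuous fun z : D × ℂ => (G z.1).eval z.2 := by
  have h1 : (fun z : D × ℂ => (G z.1).eval z.2) = fun z : D × ℂ => rfF G m (z.1.1, z.2) := by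
    ext z
    exact (rfF_eq hG z.1.2 z.2).symm
  rw [h1, continuous_iff_continuousAt]
  intro z
  have h2 : ContinuousAt (rfF G m) (z.1.1, z.2) :=
    (rfF_analyticAt hcoeff z.1.2 z.2).continuousAt
  have h3 : ContinuousAt (fun z : D × ℂ => ((z.1 : E), z.2)) z := by fun_prop
  exact ContinuousAt.comp (f := fun z : D × ℂ => ((z.1 : E), z.2)) h2 h3

private lemma rf_closedMap {D : Set E} (hDo : IsOpen D) {G : E → Polynomial ℂ} {m : ℕ}
    (hG : ∀ p ∈ D, (G p).Monic ∧ (G p).natDegree = m)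
    (hcoeff : ∀ k, AnalyticOnNhd ℂ (fun p => (G p).coeff k) D) :
    IsClosedMap (RXp D G) := by
  have : ProperSpace E := FiniteDimensional.proper ℂ E
  have : LocallyCompactSpace D := hDo.locallyCompactSpace
  apply IsProperMap.isClosedMap
  rw [isProperMap_iff_isCompact_preimage]
  refine ⟨RXp_continuous D G, ?_⟩
  intro K hK
  -- the roots are bounded over `K`
  have hbd : ∃ R : ℝ, ∀ x : RX D G, RXp D G x ∈ K → ‖x.1.2‖ ≤ R := by
    have hc : Continuous fun p : D => ∑ k ∈ Finset.range m, ‖(G p.1).coeff k‖ + 1 := by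
      apply Continuous.add _ continuous_const
      apply continuous_finsetSum
      intro k _
      apply Continuous.norm
      rw [continuous_iff_continuousAt]
      intro p
      exact ContinuousAt.comp (f := fun p : D => (p : E)) (hcoeff k p.1 p.2).continuousAt
        continuous_subtype_val.continuousAt
    obtain ⟨R, hR⟩ := (hK.image hc).bddAbove
    refine ⟨R, fun x hx => ?_⟩
    refine le_trans ?_ (hR (Set.mem_image_of_mem _ hx))
    have hmon := (hG x.1.1 x.1.1.2).1
    have hroot : (G x.1.1).IsRoot x.1.2 := x.2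
    have h1 := hroot.norm_lt_cauchyBound hmon.ne_zero
    have h2 : ((Polynomial.cauchyBound (G x.1.1) : NNReal) : ℝ) ≤
        ∑ k ∈ Finset.range m, ‖(G x.1.1).coeff k‖ + 1 := by
      rw [Polynomial.cauchyBound, (hG x.1.1 x.1.1.2).2, hmon.leadingCoeff, nnnorm_one, div_one]
      push_cast
      have h3 : (Finset.range m).sup (fun k => ‖(G x.1.1).coeff k‖₊) ≤
          ∑ k ∈ Finset.range m, ‖(G x.1.1).coeff k‖₊ := by
        apply Finset.sup_le
        intro k hk
        exact Finset.single_le_sum (f := fun k => ‖(G x.1.1).coeff k‖₊) (fun _ _ => zero_le) hk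
      have h4 : (((Finset.range m).sup (fun k => ‖(G x.1.1).coeff k‖₊) : NNReal) : ℝ) ≤
          ((∑ k ∈ Finset.range m, ‖(G x.1.1).coeff k‖₊ : NNReal) : ℝ) := by exact_mod_cast h3
      push_cast at h4
      linarith
    have h5 : ‖x.1.2‖ < ((Polynomial.cauchyBound (G x.1.1) : NNReal) : ℝ) := by
      exact_mod_cast h1
    exact (h5.trans_le h2).le
  obtain ⟨R, hR⟩ := hbd
  have hclosed : IsClosed {z : D × ℂ | (G z.1).eval z.2 = 0} :=
    isClosed_eq (rf_cont_eval hG hcoeff) continuous_const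
  have hemb : Topology.IsClosedEmbedding (fun x : RX D G => x.1) :=
    hclosed.isClosedEmbedding_subtypeVal
  have hcomp : IsCompact (K ×ˢ closedBall (0 : ℂ) R) := hK.prod (isCompact_closedBall _ _)
  have h6 := hemb.isCompact_preimage hcomp
  have h7 : RXp D G ⁻¹' K = (fun x : RX D G => x.1) ⁻¹' (K ×ˢ closedBall (0 : ℂ) R) := by
    ext x
    constructor
    · intro hx
      exact ⟨hx, by simpa using hR x hx⟩
    · intro hx
      exact hx.1
  rw [h7]
  exact h6

private lemma rf_covering {D : Set E} (hDo : IsOpen D) {G : E → Polynomial ℂ} {m : ℕ}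
    (hG : ∀ p ∈ D, (G p).Monic ∧ (G p).natDegree = m)
    (hcoeff : ∀ k, AnalyticOnNhd ℂ (fun p => (G p).coeff k) D)
    (hsep : ∀ p ∈ D, (G p).Separable) : IsCoveringMap (RXp D G) := by
  classical
  rw [isCoveringMap_iff_isCoveringMapOn_univ]
  apply (rf_closedMap hDo hG hcoeff).isCoveringMapOn_of_isLocalHomeomorphOn
  · intro p _
    have h1 : Set.Finite {θ : ℂ | (G p.1).IsRoot θ} :=
      Polynomial.finite_setOfPred_isRoot (hG p.1 p.2).1.ne_zero
    apply Set.Finite.of_finite_image (f := fun x : RX D G => x.1.2)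
    · apply h1.subset
      rintro _ ⟨x, hx, rfl⟩
      have hx' : x.1.1 = p := hx
      change (G p.1).eval x.1.2 = 0
      rw [← hx']
      exact x.2
    · intro x hx y hy hxy
      have hx' : x.1.1 = p := hx
      have hy' : y.1.1 = p := hy
      apply Subtype.ext
      exact Prod.ext (hx'.trans hy'.symm) hxy
  · apply IsLocalHomeomorphOn.mk
    intro x _
    obtain ⟨Φ, hΦs, hΦ, -⟩ := rf_local hG hcoeff hsep x.1.1.2 x.2
    have hkey : ∀ p : D, ((p : E), (0 : ℂ)) ∈ Φ.target →
        (Φ.symm (p, 0)).1 = p ∧ (G p).eval (Φ.symm (p, 0)).2 = 0 := by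
      intro p hp
      have h1 := Φ.right_inv hp
      rw [hΦ] at h1
      have h2 : (Φ.symm ((p : E), (0 : ℂ))).1 = p := (Prod.ext_iff.1 h1).1
      have h3 : rfF G m (Φ.symm ((p : E), (0 : ℂ))) = 0 := (Prod.ext_iff.1 h1).2
      refine ⟨h2, ?_⟩
      have h4 : ((p : E), (Φ.symm ((p : E), (0 : ℂ))).2) = Φ.symm ((p : E), (0 : ℂ)) :=
        Prod.ext h2.symm rfl
      rw [← rfF_eq hG p.2, h4, h3]
    let inv : D → RX D G := fun p =>
      if h : ((p : E), (0 : ℂ)) ∈ Φ.target then ⟨(p, (Φ.symm (p, 0)).2), (hkey p h).2⟩ else x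
    have hinv : ∀ p : D, ((p : E), (0 : ℂ)) ∈ Φ.target →
        (inv p).1 = (p, (Φ.symm (p, 0)).2) := by
      intro p hp
      simp only [inv]
      rw [dif_pos hp]
    have hcoe : Continuous fun y : RX D G => ((y.1.1 : E), y.1.2) := by
      have h1 : Continuous fun y : RX D G => y.1 := continuous_subtype_val
      exact (continuous_subtype_val.comp (continuous_fst.comp h1)).prodMk
        (continuous_snd.comp h1)
    have hcoe2 : Continuous fun p : D => ((p : E), (0 : ℂ)) :=
      continuous_subtype_val.prodMk continuous_const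
    have hmap : ∀ y : RX D G, Φ ((y.1.1 : E), y.1.2) = ((y.1.1 : E), (0 : ℂ)) := by
      intro y
      rw [hΦ, rfF_eq hG y.1.1.2, y.2]
    let e : OpenPartialHomeomorph (RX D G) D :=
      { toFun := RXp D G
        invFun := inv
        source := {y | ((y.1.1 : E), y.1.2) ∈ Φ.source}
        target := {p | ((p : E), (0 : ℂ)) ∈ Φ.target}
        map_source' := by
          intro y hy
          have h1 := Φ.map_source hy
          rw [hmap] at h1
          exact h1
        map_target' := by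
          intro p hp
          have h1 := Φ.map_target hp
          have h2 : ((inv p).1.1 : E) = (Φ.symm ((p : E), (0 : ℂ))).1 := by
            rw [hinv p hp]
            exact (hkey p hp).1.symm
          have h3 : (inv p).1.2 = (Φ.symm ((p : E), (0 : ℂ))).2 := by
            rw [hinv p hp]
          change (((inv p).1.1 : E), (inv p).1.2) ∈ Φ.source
          rw [h2, h3]
          exact h1
        left_inv' := by
          intro y hy
          have h1 := Φ.left_inv hy
          rw [hmap] at h1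
          have h2 : ((RXp D G y : E), (0 : ℂ)) ∈ Φ.target := by
            have := Φ.map_source hy
            rw [hmap] at this
            exact this
          apply Subtype.ext
          rw [hinv _ h2]
          apply Prod.ext
          · rfl
          · exact (Prod.ext_iff.1 h1).2
        right_inv' := by
          intro p hp
          change (inv p).1.1 = p
          rw [hinv p hp]
        open_source := Φ.open_source.preimage hcoe
        open_target := Φ.open_target.preimage hcoe2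
        continuousOn_toFun := (RXp_continuous D G).continuousOn
        continuousOn_invFun := by
          have hind : Topology.IsInducing (fun y : RX D G => y.1) := Topology.IsInducing.subtypeVal
          rw [hind.continuousOn_iff]
          have h1 : ContinuousOn (fun p : D => (p, (Φ.symm ((p : E), (0 : ℂ))).2))
              {p | ((p : E), (0 : ℂ)) ∈ Φ.target} := by
            apply ContinuousOn.prodMk continuousOn_id
            apply continuous_snd.comp_continuousOn
            exact Φ.continuousOn_symm.comp hcoe2.continuousOn (fun p hp => hp)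
          apply h1.congr
          intro p hp
          exact hinv p hp }
    exact ⟨e, hΦs, fun _ _ => rfl⟩

/-- Analytic families of simple roots over a convex domain. -/
theorem exists_root_family {E : Type} [NormedAddCommGroup E] [NormedSpace ℂ E]
    [FiniteDimensional ℂ E] {D : Set E} (hDo : IsOpen D) (hDc : Convex ℝ D)
    (G : E → Polynomial ℂ) (m : ℕ) (hG : ∀ p ∈ D, (G p).Monic ∧ (G p).natDegree = m)
    (hcoeff : ∀ k, AnalyticOnNhd ℂ (fun p => (G p).coeff k) D)
    (hsep : ∀ p ∈ D, (G p).Separable) (p₀ : E) (hp₀ : p₀ ∈ D) (θ₀ : ℂ)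
    (hθ₀ : (G p₀).eval θ₀ = 0) :
    ∃ θ : E → ℂ, AnalyticOnNhd ℂ θ D ∧ θ p₀ = θ₀ ∧ ∀ p ∈ D, (G p).eval (θ p) = 0 := by
  classical
  have hcov := rf_covering hDo hG hcoeff hsep
  have : ContractibleSpace D := hDc.contractibleSpace ⟨p₀, hp₀⟩
  have : LocallyPathConnectedSpace D := hDo.locallyPathConnectedSpace
  obtain ⟨F, ⟨hF0, hF⟩, -⟩ := hcov.existsUnique_continuousMap_lifts (ContinuousMap.id D)
    (⟨p₀, hp₀⟩ : D) (⟨(⟨p₀, hp₀⟩, θ₀), hθ₀⟩ : RX D G) rfl
  have hF' : ∀ p : D, (F p).1.1 = p := fun p => congrFun hF p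
  let θ : E → ℂ := fun p => if h : p ∈ D then (F ⟨p, h⟩).1.2 else 0
  have hθ : ∀ p : D, θ p = (F p).1.2 := by
    intro p
    simp only [θ]
    rw [dif_pos p.2]
  have hroot : ∀ p ∈ D, (G p).eval (θ p) = 0 := by
    intro p hp
    have h1 := (F ⟨p, hp⟩).2
    rw [hF'] at h1
    rw [hθ ⟨p, hp⟩]
    exact h1
  have hcont : ContinuousOn θ D := by
    rw [continuousOn_iff_continuous_domRestrict]
    have h1 : D.domRestrict θ = fun p : D => (F p).1.2 := by
      ext p
      exact hθ p
    rw [h1]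
    have h2 : Continuous fun y : RX D G => y.1 := continuous_subtype_val
    exact continuous_snd.comp (h2.comp F.continuous)
  refine ⟨θ, ?_, ?_, hroot⟩
  · intro p hp
    obtain ⟨Φ, hΦs, hΦ, hdiff⟩ := rf_local hG hcoeff hsep hp (hroot p hp)
    have h1 : ∀ᶠ q in 𝓝 p, (q, θ q) ∈ Φ.source := by
      have h2 : ContinuousAt (fun q => (q, θ q)) p :=
        continuousAt_id.prodMk (hcont.continuousAt (hDo.mem_nhds hp))
      exact h2.preimage_mem_nhds (Φ.open_source.mem_nhds hΦs)
    have h3 : θ =ᶠ[𝓝 p] fun q => (Φ.symm (q, 0)).2 := by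
      filter_upwards [h1, hDo.mem_nhds hp] with q hq hqD
      have h4 := Φ.left_inv hq
      rw [hΦ, rfF_eq hG hqD, hroot q hqD] at h4
      exact (Prod.ext_iff.1 h4).2.symm
    have h5 : AnalyticAt ℂ (fun q : E => (Φ.symm (q, 0)).2) p := by
      have h6 : AnalyticAt ℂ (fun q : E => (q, (0 : ℂ))) p :=
        analyticAt_id.prod analyticAt_const
      have h7 : AnalyticAt ℂ (fun q : E => Φ.symm (q, (0 : ℂ))) p :=
        AnalyticAt.comp (f := fun q : E => (q, (0 : ℂ))) (x := p) hdiff h6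
      exact AnalyticAt.comp (g := Prod.snd) (f := fun q : E => Φ.symm (q, (0 : ℂ))) (x := p)
        analyticAt_snd h7
    exact h5.congr h3.symm
  · have h1 := hθ ⟨p₀, hp₀⟩
    rw [hF0] at h1
    exact h1

end RootFamily

end Pool.Agent.Lib.MP_209724_lc.HS
end

section

/-!
The families of homomorphisms of `MV.exists_sheets`, with analytic dependence on the parameter.
-/

namespace Pool.Agent.Lib.MP_209724_lc.HS

open Polynomial
open MV (sheets_alg sheets_lift)

theorem exists_sheets {ι L : Type} [Finite ι] [Field L] [Algebra ℂ L] (z : ι → L)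
    (hz : AlgebraicIndependent ℂ z) (A : Subalgebra ℂ L) (hA : A.FG) (hzA : ∀ i, z i ∈ A)
    (halg : ∀ x ∈ A, IsAlgebraic (Algebra.adjoin ℂ (Set.range z)) x) :
    ∃ b : MvPolynomial ι ℂ, b ≠ 0 ∧
      ∀ (E : Type) [NormedAddCommGroup E] [NormedSpace ℂ E] [FiniteDimensional ℂ E] (D : Set E),
        IsOpen D → Convex ℝ D → ∀ Z : E → ι → ℂ, (∀ i, AnalyticOnNhd ℂ (fun p => Z p i) D) →
        (∀ p ∈ D, MvPolynomial.eval (Z p) b ≠ 0) → ∀ p₀ ∈ D, ∀ φ₀ : A →ₐ[ℂ] ℂ,
        (∀ i, φ₀ ⟨z i, hzA i⟩ = Z p₀ i) →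
        ∃ Φ : E → (A →ₐ[ℂ] ℂ), Φ p₀ = φ₀ ∧ (∀ p ∈ D, ∀ i, Φ p ⟨z i, hzA i⟩ = Z p i) ∧
          ∀ x : A, AnalyticOnNhd ℂ (fun p => Φ p x) D := by
  classical
  let : Algebra (MvPolynomial ι ℂ) L :=
    (MvPolynomial.aeval z : MvPolynomial ι ℂ →ₐ[ℂ] L).toRingHom.toAlgebra
  have hmap : ∀ r, algebraMap (MvPolynomial ι ℂ) L r = MvPolynomial.aeval z r := fun r => rfl
  have : IsScalarTower ℂ (MvPolynomial ι ℂ) L := IsScalarTower.of_algebraMap_eq (fun c => by
    rw [hmap, MvPolynomial.algebraMap_eq, MvPolynomial.aeval_C])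
  have : FaithfulSMul (MvPolynomial ι ℂ) L := (faithfulSMul_iff_algebraMap_injective _ _).2 hz
  have hmem : ∀ r : MvPolynomial ι ℂ, MvPolynomial.aeval z r ∈ A := by
    intro r
    have h1 : MvPolynomial.aeval z r ∈ Algebra.adjoin ℂ (Set.range z) := by
      rw [Algebra.adjoin_range_eq_range_aeval]
      exact ⟨r, rfl⟩
    refine Algebra.adjoin_le ?_ h1
    rintro _ ⟨i, rfl⟩
    exact hzA i
  let A' : Subalgebra (MvPolynomial ι ℂ) L :=
    { A.toSubsemiring with algebraMap_mem' := hmem }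
  have hA'mem : ∀ x, x ∈ A' ↔ x ∈ A := fun x => Iff.rfl
  have hA' : A'.FG := by
    obtain ⟨s, hs⟩ := hA
    refine ⟨s, le_antisymm (Algebra.adjoin_le fun x hx => ?_) fun x hx => ?_⟩
    · change x ∈ A
      rw [← hs]
      exact Algebra.subset_adjoin hx
    · have hx' : x ∈ A := hx
      rw [← hs] at hx'
      have h2 : Algebra.adjoin ℂ (s : Set L) ≤
          (Algebra.adjoin (MvPolynomial ι ℂ) (s : Set L)).restrictScalars ℂ :=
        Algebra.adjoin_le Algebra.subset_adjoin
      exact h2 hx'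
  have halg' : ∀ x ∈ A', IsAlgebraic (MvPolynomial ι ℂ) x := by
    intro x hx
    refine IsAlgebraic.of_ringHom_of_comp_eq (S := Algebra.adjoin ℂ (Set.range z))
      (B := L) (hz.aevalEquiv : MvPolynomial ι ℂ →+* Algebra.adjoin ℂ (Set.range z))
      (RingHom.id L) (halg x hx) hz.aevalEquiv.surjective Function.injective_id ?_
    ext r
    · simp [hmap]
    · simp [hmap]
  obtain ⟨θ, G, U, V, d₀, d, hθA, hGm, hGθ, hGdvd, hd₀, hUV, hd, hrep⟩ := sheets_alg A' hA' halg'
  refine ⟨d₀ * d, mul_ne_zero hd₀ hd, ?_⟩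
  intro E _ _ _ D hDo hDc Z hZ hb p₀ hp₀ φ₀ hφ₀
  have hb₀ : ∀ p ∈ D, MvPolynomial.eval (Z p) d₀ ≠ 0 := fun p hp h => hb p hp (by simp [h])
  have hbd : ∀ p ∈ D, MvPolynomial.eval (Z p) d ≠ 0 := fun p hp h => hb p hp (by simp [h])
  -- the homomorphisms
  let f : (MvPolynomial ι ℂ)[X] →ₐ[ℂ] L := (Polynomial.aeval θ).restrictScalars ℂ
  have hf : ∀ s, f s = Polynomial.aeval θ s := fun s => rfl
  let g : E → ℂ → (MvPolynomial ι ℂ)[X] →ₐ[ℂ] ℂ := fun p y =>
    Polynomial.eval₂AlgHom (MvPolynomial.aeval (Z p)) y (fun _ => Commute.all _ _)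
  have hg : ∀ p y s, g p y s = (s.map (MvPolynomial.eval (Z p))).eval y := by
    intro p y s
    change Polynomial.eval₂ (MvPolynomial.aeval (Z p) : MvPolynomial ι ℂ →ₐ[ℂ] ℂ).toRingHom y s = _
    rw [Polynomial.eval_map]
    rfl
  have hgC : ∀ p y r, g p y (C r) = MvPolynomial.eval (Z p) r := by
    intro p y r
    rw [hg, Polynomial.map_C, Polynomial.eval_C]
  have hgX : ∀ p y, g p y X = y := by
    intro p y
    rw [hg, Polynomial.map_X, Polynomial.eval_X]
  have hfA : ∀ s, f s ∈ A := by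
    intro s
    have : Polynomial.aeval θ s ∈ A' := by
      rw [Polynomial.aeval_eq_sum_range]
      exact A'.sum_mem fun i _ => A'.smul_mem (A'.pow_mem hθA i) _
    exact this
  let fA : (MvPolynomial ι ℂ)[X] →ₐ[ℂ] A := f.codRestrict A hfA
  have hfAval : ∀ s, (fA s : L) = f s := fun s => rfl
  have hφg : ∀ s, φ₀ (fA s) = g p₀ (φ₀ ⟨θ, hθA⟩) s := by
    have hR : ∀ r : MvPolynomial ι ℂ, φ₀ (fA (C r)) = MvPolynomial.eval (Z p₀) r := by
      intro r
      induction r using MvPolynomial.induction_on with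
      | C c =>
        have : fA (C (MvPolynomial.C c)) = algebraMap ℂ A c := by
          have h1 : (C (MvPolynomial.C c) : (MvPolynomial ι ℂ)[X]) =
            algebraMap ℂ (MvPolynomial ι ℂ)[X] c := rfl
          rw [h1, AlgHom.commutes]
        rw [this, AlgHom.commutes, MvPolynomial.eval_C]
        rfl
      | add a b ha hb => rw [C_add, map_add, map_add, ha, hb, map_add]
      | mul_X a i ha =>
        rw [C_mul, map_mul, map_mul, ha, map_mul, MvPolynomial.eval_X]
        congr 1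
        have : fA (C (MvPolynomial.X i)) = ⟨z i, hzA i⟩ := by
          apply Subtype.ext
          rw [hfAval, hf, Polynomial.aeval_C, hmap, MvPolynomial.aeval_X]
        rw [this, hφ₀]
    intro s
    induction s using Polynomial.induction_on' with
    | add a b ha hb => rw [map_add, map_add, ha, hb, map_add]
    | monomial k r =>
      rw [← C_mul_X_pow_eq_monomial, map_mul, map_mul, map_mul, hR, hgC, map_pow, map_pow,
        map_pow, hgX]
      congr 3
      apply Subtype.ext
      rw [hfAval, hf, Polynomial.aeval_X]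
  obtain ⟨Θ, hΘd, hΘ₀, hΘ⟩ := exists_root_family hDo hDc
    (fun p => G.map (MvPolynomial.eval (Z p))) G.natDegree
    (fun p _ => ⟨hGm.map _, hGm.natDegree_map _⟩)
    (fun k p hp => by
      simp only [Polynomial.coeff_map]
      exact AnalyticAt.aeval_mvPolynomial (fun i => hZ i p hp) (G.coeff k))
    (fun p hp => by
      have h1 := congrArg (Polynomial.map (MvPolynomial.eval (Z p))) hUV
      rw [Polynomial.map_add, Polynomial.map_mul, Polynomial.map_mul, Polynomial.map_C,
        ← derivative_map] at h1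
      refine ⟨C ((MvPolynomial.eval (Z p) d₀)⁻¹) * U.map (MvPolynomial.eval (Z p)),
        C ((MvPolynomial.eval (Z p) d₀)⁻¹) * V.map (MvPolynomial.eval (Z p)), ?_⟩
      rw [mul_assoc, mul_assoc, ← mul_add, h1, ← C_mul, inv_mul_cancel₀ (hb₀ p hp), C_1])
    p₀ hp₀ (φ₀ ⟨θ, hθA⟩) (by
      rw [← hg, ← hφg]
      have : fA G = 0 := by
        apply Subtype.ext
        rw [hfAval, hf, hGθ]
        rfl
      rw [this, map_zero])
  have hker : ∀ p ∈ D, ∀ s, f s = 0 → g p (Θ p) s = 0 := by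
    intro p hp s hs
    obtain ⟨q, rfl⟩ := hGdvd s hs
    rw [map_mul, hg p (Θ p) G, hΘ p hp, zero_mul]
  have hex : ∀ p ∈ D, ∃ Φ : A →ₐ[ℂ] ℂ, ∀ (x : A) (k : ℕ) (s : (MvPolynomial ι ℂ)[X]),
      f (C d) ^ k * x = f s → Φ x = g p (Θ p) s / g p (Θ p) (C d) ^ k := by
    intro p hp
    refine sheets_lift A f (g p (Θ p)) (hker p hp) (C d) (by rw [hgC]; exact hbd p hp) ?_
    intro x hx
    obtain ⟨k, q, h⟩ := hrep x hx
    exact ⟨k, q, by rw [hf, hf, Polynomial.aeval_C, h]⟩
  have : Nonempty (A →ₐ[ℂ] ℂ) := ⟨φ₀⟩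
  choose! Φ hΦ using hex
  refine ⟨fun p => if p ∈ D then Φ p else φ₀, ?_, ?_, ?_⟩
  · simp only [hp₀, if_true]
    ext x
    obtain ⟨k, s, h⟩ := hrep x x.2
    have h' : f (C d) ^ k * x = f s := by rw [hf, hf, Polynomial.aeval_C, h]
    rw [hΦ p₀ hp₀ x k s h', div_eq_iff (pow_ne_zero _ (by rw [hgC]; exact hbd p₀ hp₀)), hΘ₀,
      ← hφg, ← hφg, ← map_pow, ← map_mul]
    congr 1
    apply Subtype.ext
    rw [hfAval, ← h']
    change _ = (x : L) * (fA (C d) : L) ^ k
    rw [hfAval, mul_comm]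
  · intro p hp i
    simp only [hp, if_true]
    rw [hΦ p hp _ 0 (C (MvPolynomial.X i)) (by
      rw [hf, hf, Polynomial.aeval_C, Polynomial.aeval_C, hmap, hmap, MvPolynomial.aeval_X]; simp)]
    rw [hgC, MvPolynomial.eval_X]
    simp
  · intro x
    obtain ⟨k, s, h⟩ := hrep x x.2
    have h' : f (C d) ^ k * x = f s := by rw [hf, hf, Polynomial.aeval_C, h]
    have hdR : ∀ r : MvPolynomial ι ℂ,
        AnalyticOnNhd ℂ (fun p => MvPolynomial.eval (Z p) r) D := by
      intro r p hp
      exact AnalyticAt.aeval_mvPolynomial (fun i => hZ i p hp) r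
    have hds : AnalyticOnNhd ℂ (fun p => g p (Θ p) s) D := by
      have : (fun p => g p (Θ p) s) = fun p => ∑ i ∈ Finset.range (s.natDegree + 1),
          MvPolynomial.eval (Z p) (s.coeff i) * Θ p ^ i := by
        funext p
        rw [hg, Polynomial.eval_map, Polynomial.eval₂_eq_sum_range]
      rw [this]
      exact Finset.analyticOnNhd_fun_sum _ fun i _ => (hdR _).mul (hΘd.pow i)
    have hdq : AnalyticOnNhd ℂ (fun p => g p (Θ p) s * (MvPolynomial.eval (Z p) d ^ k)⁻¹) D :=
      hds.mul (((hdR d).pow k).inv (fun p hp => pow_ne_zero _ (hbd p hp)))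
    refine hdq.congr hDo fun p hp => ?_
    simp only [hp, if_true]
    rw [hΦ p hp x k s h', hgC, div_eq_mul_inv]

end Pool.Agent.Lib.MP_209724_lc.HS
end

section

namespace Pool.Agent.Lib.MP_209724_lc.HS

open MvPolynomial Filter Topology Metric
open MV (lead evT glue)
open GC (evM)

/-- HS-21a: homomorphisms with given values of a transcendence basis. -/
theorem exists_hom {ι M : Type} [Finite ι] [Field M] [Algebra ℂ M] (z : ι → M)
    (hz : AlgebraicIndependent ℂ z) (A : Subalgebra ℂ M) (hA : A.FG) (hzA : ∀ i, z i ∈ A)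
    (halg : ∀ x ∈ A, IsAlgebraic (Algebra.adjoin ℂ (Set.range z)) x) :
    ∃ c : MvPolynomial ι ℂ, c ≠ 0 ∧ ∀ v : ι → ℂ, eval v c ≠ 0 →
      ∃ ψ : A →ₐ[ℂ] ℂ, ∀ i, ψ ⟨z i, hzA i⟩ = v i := by
  have hBA : Algebra.adjoin ℂ (Set.range z) ≤ A := by
    rw [Algebra.adjoin_le_iff]
    rintro _ ⟨i, rfl⟩
    exact hzA i
  obtain ⟨b, hb, H⟩ := MV.exists_ext (Algebra.adjoin ℂ (Set.range z)) A hBA hA halg 0
    (zero_mem A)
  refine ⟨hz.aevalEquiv.symm b, ?_, ?_⟩
  · intro h
    apply hb
    rwa [map_eq_zero_iff _ hz.aevalEquiv.symm.injective] at h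
  · intro v hv
    let φ : Algebra.adjoin ℂ (Set.range z) →ₐ[ℂ] ℂ :=
      (aeval v : MvPolynomial ι ℂ →ₐ[ℂ] ℂ).comp hz.aevalEquiv.symm.toAlgHom
    have hφ : ∀ x, φ x = aeval v (hz.aevalEquiv.symm x) := fun x => rfl
    have hφb : φ b ≠ 0 := by
      rw [hφ]
      exact hv
    obtain ⟨ψ, hψ, _⟩ := H φ hφb 0 (by
      intro h hh
      rw [← Polynomial.coeff_zero_eq_eval_zero, Polynomial.coeff_map]
      have h1 : h.coeff 0 = 0 := by
        have h2 : algebraMap (Algebra.adjoin ℂ (Set.range z)) M (h.coeff 0) = 0 := by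
          rw [Polynomial.aeval_def, Polynomial.eval₂_at_zero] at hh
          exact hh
        exact Subtype.ext h2
      rw [h1, map_zero])
    refine ⟨ψ, fun i => ?_⟩
    have hzi : z i ∈ Algebra.adjoin ℂ (Set.range z) := Algebra.subset_adjoin ⟨i, rfl⟩
    have h1 := hψ ⟨z i, hzi⟩
    have h2 : hz.aevalEquiv.symm ⟨z i, hzi⟩ = X i := by
      rw [AlgEquiv.symm_apply_eq]
      apply Subtype.ext
      simp
    rw [hφ, h2, aeval_X] at h1
    exact h1

end Pool.Agent.Lib.MP_209724_lc.HS
end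

section

namespace Pool.Agent.Lib.MP_209724_lc.SC

/-- SC-22: Ax's theorem when the `x j` may be dependent modulo constants.

Proof. `ax` for `ι = C` (the subtype), `κ = Fin e`. `hlin` for the restricted vectors: if
`∑_l c_l D l (x i) = 0` for all `i ∈ C`, then for `j ∉ C`, `N * D l (x j) = ∑ m_i D l (x i)` (sum over
`i ∈ C`; the difference is a constant), so `N ∑_l c_l D l (x j) = 0`; hence `c = 0` by `hlin`. -/
theorem ax_sub {k F : Type} [Field k] [CharZero k] [Field F] [Algebra k F] {n e : ℕ}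
    (D : Fin e → Derivation k F F) (x y : Fin n → F) (hy : ∀ i, y i ≠ 0)
    (hxy : ∀ l i, D l (y i) = y i * D l (x i))
    (hlin : LinearIndependent F fun (l : Fin e) (i : Fin n) => D l (x i)) (C : Finset (Fin n))
    (hC1 : ∀ m : Fin n → ℤ, (∀ j, j ∉ C → m j = 0) → ∑ j, (m j : F) * x j ∈ consts D → m = 0)
    (hC2 : ∀ j, j ∉ C → ∃ (N : ℤ) (m : Fin n → ℤ), N ≠ 0 ∧ (∀ i, i ∉ C → m i = 0) ∧
      (N : F) * x j - ∑ i, (m i : F) * x i ∈ consts D) :
    ∃ s : C ⊕ Fin e → F, AlgebraicIndependent (consts D) s ∧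
      ∀ a, s a ∈ Set.range x ∪ Set.range y := by
  classical
  have hD : ∀ (l : Fin e) (N : ℤ) (a : F), D l ((N : F) * a) = (N : F) * D l a := by
    intro l N a
    rw [← zsmul_eq_mul, map_zsmul, zsmul_eq_mul]
  have hind : ∀ m : C → ℤ, (∀ l, D l (∑ i : C, (m i : F) * x i) = 0) → m = 0 := by
    intro m hm
    let m' : Fin n → ℤ := fun j => if h : j ∈ C then m ⟨j, h⟩ else 0
    have h1 : ∀ j, j ∉ C → m' j = 0 := fun j hj => dif_neg hj
    have h1' : ∀ i : C, m' i = m i := fun i => dif_pos i.2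
    have h2 : ∑ j, (m' j : F) * x j = ∑ i : C, (m i : F) * x i := by
      rw [← Finset.sum_subset (Finset.subset_univ C) fun j _ hj => by rw [h1 j hj, Int.cast_zero, zero_mul],
        ← Finset.sum_coe_sort C]
      exact Finset.sum_congr rfl fun i _ => by rw [h1' i]
    have h3 := hC1 m' h1 (by rw [h2]; exact mem_consts.2 hm)
    funext i
    rw [← h1' i, h3]
    rfl
  have hlin' : LinearIndependent F fun (l : Fin e) (i : C) => D l (x i) := by
    rw [Fintype.linearIndependent_iff] at hlin ⊢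
    intro c hc
    apply hlin c
    have h1 : ∀ i ∈ C, ∑ l, c l * D l (x i) = 0 := by
      intro i hi
      have h2 := congrFun hc ⟨i, hi⟩
      rw [Finset.sum_apply] at h2
      exact h2
    funext j
    rw [Finset.sum_apply]
    show ∑ l, c l * D l (x j) = 0
    by_cases hj : j ∈ C
    · exact h1 j hj
    · obtain ⟨N, m, hN, hm, hc'⟩ := hC2 j hj
      have hN' : (N : F) ≠ 0 := by
        have : CharZero F := charZero_of_injective_algebraMap (algebraMap k F).injective
        exact_mod_cast hN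
      have h2 : ∀ l, (N : F) * D l (x j) = ∑ i, (m i : F) * D l (x i) := by
        intro l
        have h3 := mem_consts.1 hc' l
        rw [map_sub, sub_eq_zero, hD, map_sum] at h3
        rw [h3]
        exact Finset.sum_congr rfl fun i _ => hD l (m i) (x i)
      have h4 : (N : F) * ∑ l, c l * D l (x j) = 0 := by
        have h5 : (N : F) * ∑ l, c l * D l (x j) = ∑ i, (m i : F) * ∑ l, c l * D l (x i) := by
          simp only [Finset.mul_sum]
          rw [Finset.sum_comm]
          refine Finset.sum_congr rfl fun l _ => ?_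
          rw [mul_left_comm, h2 l, Finset.mul_sum]
          refine Finset.sum_congr rfl fun i _ => ?_
          ring
        rw [h5]
        refine Finset.sum_eq_zero fun i _ => ?_
        by_cases hi : i ∈ C
        · rw [h1 i hi, mul_zero]
        · rw [hm i hi, Int.cast_zero, zero_mul]
      exact (mul_eq_zero.1 h4).resolve_left hN'
  obtain ⟨s, hs, hs'⟩ := ax (ι := C) (κ := Fin e) D (fun i => x i) (fun i => y i) (fun i => hy i)
    (fun l i => hxy l i) hind hlin'
  refine ⟨s, hs, fun a => ?_⟩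
  rcases hs' a with ⟨i, hi⟩ | ⟨i, hi⟩
  · exact Or.inl ⟨i, hi⟩
  · exact Or.inr ⟨i, hi⟩

end Pool.Agent.Lib.MP_209724_lc.SC
end
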