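import Mathlib
import Pool.Agent.Lib.MP_209724_lc.OV.Defs

section

namespace Pool.Agent.Lib.MP_209724_lc.OV

open MvPolynomial

variable {Ω : Type} [Field Ω] [Algebra ℂ Ω] {n : ℕ}

/-- the evaluation of `ℂ[x][y]` at `(ξ, η)` -/
noncomputable def nestEv (ξ η : Fin n → Ω) : MvPolynomial (Fin n) (MvPolynomial (Fin n) ℂ) →+* Ω :=
  eval₂Hom (aeval ξ : MvPolynomial (Fin n) ℂ →ₐ[ℂ] Ω).toRingHom η

private theorem nestEv_C (ξ η : Fin n → Ω) (a : MvPolynomial (Fin n) ℂ) :
    nestEv ξ η (C a) = aeval ξ a := by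
  simp [nestEv]

private theorem nestEv_X (ξ η : Fin n → Ω) (i : Fin n) : nestEv ξ η (X i) = η i := by
  simp [nestEv]

/-- OV-29a: from polynomials in `2n` variables to nested polynomials.

Proof: `f' = aeval (Sum.elim (fun i => C (X i)) X) f`; both identities by induction on `f`
(`MvPolynomial.induction_on`), or by comparison of algebra homomorphisms. -/
theorem exists_nest (f : MvPolynomial (Fin n ⊕ Fin n) ℂ) :
    ∃ f' : MvPolynomial (Fin n) (MvPolynomial (Fin n) ℂ),
      (∀ (Ω : Type) [Field Ω] [Algebra ℂ Ω] (ξ η : Fin n → Ω),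
        nestEv ξ η f' = aeval (Sum.elim ξ η) f) ∧
      ∀ x y : Fin n → ℂ, eval y (map (eval x) f') = eval (Sum.elim x y) f := by
  induction f using MvPolynomial.induction_on with
  | C a =>
    refine ⟨C (C a), fun Ω _ _ ξ η => ?_, fun x y => ?_⟩
    · rw [nestEv_C]
      simp
    · simp
  | add f g hf hg =>
    obtain ⟨f', h1, h2⟩ := hf
    obtain ⟨g', h3, h4⟩ := hg
    refine ⟨f' + g', fun Ω _ _ ξ η => ?_, fun x y => ?_⟩
    · rw [map_add, map_add, h1, h3]
    · rw [map_add, map_add, map_add, h2, h4]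
  | mul_X f i hf =>
    obtain ⟨f', h1, h2⟩ := hf
    rcases i with i | i
    · refine ⟨f' * C (X i), fun Ω _ _ ξ η => ?_, fun x y => ?_⟩
      · rw [map_mul, map_mul, h1, nestEv_C]
        simp
      · rw [map_mul, map_mul, map_mul, h2]
        simp
    · refine ⟨f' * X i, fun Ω _ _ ξ η => ?_, fun x y => ?_⟩
      · rw [map_mul, map_mul, h1, nestEv_X]
        simp
      · rw [map_mul, map_mul, map_mul, h2]
        simp

/-- OV-29b: and back: `f = eval₂ (rename Sum.inl) (fun i => X (Sum.inr i)) f'`. -/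
theorem exists_flat (f' : MvPolynomial (Fin n) (MvPolynomial (Fin n) ℂ)) :
    ∃ f : MvPolynomial (Fin n ⊕ Fin n) ℂ,
      (∀ (Ω : Type) [Field Ω] [Algebra ℂ Ω] (ξ η : Fin n → Ω),
        nestEv ξ η f' = aeval (Sum.elim ξ η) f) ∧
      ∀ x y : Fin n → ℂ, eval y (map (eval x) f') = eval (Sum.elim x y) f := by
  induction f' using MvPolynomial.induction_on with
  | C a =>
    refine ⟨rename Sum.inl a, fun Ω _ _ ξ η => ?_, fun x y => ?_⟩
    · rw [nestEv_C, aeval_rename]
      rfl
    · rw [map_C, eval_C, eval_rename]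
      rfl
  | add f g hf hg =>
    obtain ⟨f', h1, h2⟩ := hf
    obtain ⟨g', h3, h4⟩ := hg
    refine ⟨f' + g', fun Ω _ _ ξ η => ?_, fun x y => ?_⟩
    · rw [map_add, map_add, h1, h3]
    · rw [map_add, map_add, map_add, h2, h4]
  | mul_X f i hf =>
    obtain ⟨f', h1, h2⟩ := hf
    refine ⟨f' * X (Sum.inr i), fun Ω _ _ ξ η => ?_, fun x y => ?_⟩
    · rw [map_mul, map_mul, h1, nestEv_X]
      simp
    · rw [map_mul, map_mul, map_mul, h2]
      simp

private theorem nestEv_range (ξ η : Fin n → Ω) :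
    (nestEv ξ η).range = (Algebra.adjoin ℂ (Set.range ξ ∪ Set.range η)).toSubring := by
  apply le_antisymm
  · rintro _ ⟨f, rfl⟩
    obtain ⟨g, hg, -⟩ := exists_flat f
    rw [hg]
    have h1 : aeval (Sum.elim ξ η) g ∈ Algebra.adjoin ℂ (Set.range (Sum.elim ξ η)) := by
      rw [Algebra.adjoin_range_eq_range_aeval]
      exact ⟨g, rfl⟩
    rw [Set.Sum.elim_range] at h1
    exact h1
  · intro x hx
    have hx' : x ∈ Algebra.adjoin ℂ (Set.range ξ ∪ Set.range η) := hx
    rw [← Set.Sum.elim_range, Algebra.adjoin_range_eq_range_aeval] at hx'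
    obtain ⟨g, hg⟩ := hx'
    obtain ⟨f, hf, -⟩ := exists_nest g
    refine ⟨f, ?_⟩
    rw [hf]
    exact hg

/-- OV-29c: the quotient by the kernel is the algebra generated by `(ξ, η)`.

Proof: `RingHom.quotientKerEquivRange`; the range of `nestEv ξ η` is `Algebra.adjoin ℂ (range ξ ∪
range η)`. The equivalence is `ℂ`-linear (the `ℂ`-algebra structure of the quotient is induced by
`c ↦ C (C c)`). -/
theorem exists_quot_equiv (ξ η : Fin n → Ω) :
    Nonempty ((MvPolynomial (Fin n) (MvPolynomial (Fin n) ℂ) ⧸ RingHom.ker (nestEv ξ η)) ≃ₐ[ℂ]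
      Algebra.adjoin ℂ (Set.range ξ ∪ Set.range η)) := by
  have h := nestEv_range ξ η
  let e1 := RingHom.quotientKerEquivRange (nestEv ξ η)
  let e2 := RingEquiv.subringCongr h
  let e : (MvPolynomial (Fin n) (MvPolynomial (Fin n) ℂ) ⧸ RingHom.ker (nestEv ξ η)) ≃+*
      Algebra.adjoin ℂ (Set.range ξ ∪ Set.range η) := e1.trans e2
  refine ⟨AlgEquiv.ofRingEquiv (f := e) fun c => ?_⟩
  apply Subtype.ext
  have h1 : (algebraMap ℂ (MvPolynomial (Fin n) (MvPolynomial (Fin n) ℂ) ⧸
      RingHom.ker (nestEv ξ η)) c) = Ideal.Quotient.mk _ (C (C c)) := rfl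
  rw [h1]
  have h2 : ((e (Ideal.Quotient.mk _ (C (C c))) : Algebra.adjoin ℂ (Set.range ξ ∪ Set.range η)) : Ω)
      = nestEv ξ η (C (C c)) := rfl
  rw [h2, nestEv_C]
  simp

end Pool.Agent.Lib.MP_209724_lc.OV
end

section

/-!
The function field of a variety over a subfield `K` of `ℂ`.
-/

namespace Pool.Agent.Lib.MP_209724_lc.SC

open MvPolynomial

variable {n : ℕ} (K : Type) [Field K] [Algebra K ℂ]

/-- The polynomials over `K` in the ideal `Q`. -/
noncomputable def desc (Q : Ideal (MvPolynomial (Fin n ⊕ Fin n) ℂ)) : Ideal (MvPolynomial (Fin n ⊕ Fin n) K) :=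
  Q.comap (map (algebraMap K ℂ))

instance desc_prime (Q : Ideal (MvPolynomial (Fin n ⊕ Fin n) ℂ)) [Q.IsPrime] :
    (desc K Q).IsPrime := by
  unfold desc
  infer_instance

/-- The function field over `K`. -/
abbrev FK (Q : Ideal (MvPolynomial (Fin n ⊕ Fin n) ℂ)) [Q.IsPrime] : Type :=
  FractionRing (MvPolynomial (Fin n ⊕ Fin n) K ⧸ desc K Q)

/-- The function given by a polynomial over `K`. -/
noncomputable def fnK (Q : Ideal (MvPolynomial (Fin n ⊕ Fin n) ℂ)) [Q.IsPrime]
    (f : MvPolynomial (Fin n ⊕ Fin n) K) : FK K Q :=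
  algebraMap (MvPolynomial (Fin n ⊕ Fin n) K ⧸ desc K Q) (FK K Q) (Ideal.Quotient.mk _ f)

/-- The coordinates `x`. -/
noncomputable def xK (Q : Ideal (MvPolynomial (Fin n ⊕ Fin n) ℂ)) [Q.IsPrime] (i : Fin n) :
    FK K Q := fnK K Q (X (Sum.inl i))

/-- The coordinates `y`. -/
noncomputable def yK (Q : Ideal (MvPolynomial (Fin n ⊕ Fin n) ℂ)) [Q.IsPrime] (i : Fin n) :
    FK K Q := fnK K Q (X (Sum.inr i))

variable (Q : Ideal (MvPolynomial (Fin n ⊕ Fin n) ℂ)) [Q.IsPrime]

theorem fnK_eq_zero (f : MvPolynomial (Fin n ⊕ Fin n) K) :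
    fnK K Q f = 0 ↔ map (algebraMap K ℂ) f ∈ Q := by
  have hinj : Function.Injective
      (algebraMap (MvPolynomial (Fin n ⊕ Fin n) K ⧸ desc K Q) (FK K Q)) :=
    IsFractionRing.injective _ _
  rw [fnK, map_eq_zero_iff _ hinj, Ideal.Quotient.eq_zero_iff_mem]
  exact Iff.rfl

theorem aeval_fnK (f : MvPolynomial (Fin n ⊕ Fin n) K) :
    aeval (Sum.elim (xK K Q) (yK K Q)) f = fnK K Q f := by
  induction f using MvPolynomial.induction_on with
  | C a =>
    rw [aeval_C]
    rfl
  | add p q hp hq =>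
    rw [map_add, hp, hq]
    simp only [fnK, map_add]
  | mul_X p i hp =>
    rw [map_mul, hp, aeval_X]
    rcases i with i | i
    · simp only [fnK, xK, Sum.elim_inl, map_mul]
    · simp only [fnK, yK, Sum.elim_inr, map_mul]

theorem aeval_eq_zero_iff (f : MvPolynomial (Fin n ⊕ Fin n) K) :
    aeval (Sum.elim (xK K Q) (yK K Q)) f = 0 ↔ map (algebraMap K ℂ) f ∈ Q := by
  rw [aeval_fnK, fnK_eq_zero]

theorem gen_FK :
    IntermediateField.adjoin K (Set.range (xK K Q) ∪ Set.range (yK K Q)) = ⊤ := by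
  rw [eq_top_iff]
  intro a _
  obtain ⟨b, c, hc, rfl⟩ := IsFractionRing.div_surjective
    (A := MvPolynomial (Fin n ⊕ Fin n) K ⧸ desc K Q) a
  obtain ⟨f, rfl⟩ := Ideal.Quotient.mk_surjective b
  obtain ⟨g, rfl⟩ := Ideal.Quotient.mk_surjective c
  have key : ∀ f : MvPolynomial (Fin n ⊕ Fin n) K, fnK K Q f ∈
      IntermediateField.adjoin K (Set.range (xK K Q) ∪ Set.range (yK K Q)) := by
    intro f
    induction f using MvPolynomial.induction_on with
    | C a =>
      exact IntermediateField.algebraMap_mem _ a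
    | add p q hp hq =>
      have h1 : fnK K Q (p + q) = fnK K Q p + fnK K Q q := by simp only [fnK, map_add]
      rw [h1]
      exact add_mem hp hq
    | mul_X p i hp =>
      have h1 : fnK K Q (p * X i) = fnK K Q p * fnK K Q (X i) := by simp only [fnK, map_mul]
      rw [h1]
      refine mul_mem hp (IntermediateField.subset_adjoin _ _ ?_)
      rcases i with i | i
      · exact Or.inl ⟨i, rfl⟩
      · exact Or.inr ⟨i, rfl⟩
  exact div_mem (key f) (key g)

end Pool.Agent.Lib.MP_209724_lc.SC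
end

section

namespace Pool.Agent.Lib.MP_209724_lc.SC

/-- SC-39: a transcendence basis consisting of generators. Proof: a maximal `T` such that
`(u i)_{i ∈ T}` is algebraically independent (`exists_maximal_algebraicIndependent`,
`exists_isTranscendenceBasis_subset` or similar for the algebra generated by `range u`, choosing one
index for each element of the basis); it is a transcendence basis of
`Algebra.adjoin k (Set.range u)`; `IsTranscendenceBasis.cardinalMk_eq_trdeg`. -/
theorem exists_coord_basis {k L ι : Type} [Field k] [Field L] [Algebra k L] (u : ι → L) :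
    ∃ T : Set ι, AlgebraicIndependent k (fun i : T => u i) ∧
      Cardinal.mk T = Algebra.trdeg k (Algebra.adjoin k (Set.range u)) := by
  classical
  set A := Algebra.adjoin k (Set.range u) with hA
  set v : ι → A := fun i => ⟨u i, Algebra.subset_adjoin (Set.mem_range_self i)⟩ with hv
  have htop : Algebra.adjoin k (Set.range v) = ⊤ := by
    have h1 : Set.range v = ((↑) : A → L) ⁻¹' (Set.range u) := by
      ext a
      constructor
      · rintro ⟨i, rfl⟩
        exact ⟨i, rfl⟩
      · rintro ⟨i, hi⟩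
        exact ⟨i, Subtype.ext hi⟩
    rw [h1]
    exact Algebra.adjoin_adjoin_coe_preimage
  have halg : Algebra.IsAlgebraic (Algebra.adjoin k (Set.range v)) A := by
    constructor
    intro a
    have ha : a ∈ Algebra.adjoin k (Set.range v) := by rw [htop]; exact Algebra.mem_top
    exact isAlgebraic_algebraMap (⟨a, ha⟩ : Algebra.adjoin k (Set.range v))
  obtain ⟨B, hB, hbas⟩ := exists_isTranscendenceBasis_subset (R := k) (A := A) (Set.range v)
  obtain ⟨T, hTinj, hTim⟩ : ∃ T : Set ι, Set.InjOn v T ∧ v '' T = B := by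
    obtain ⟨T, -, h1, h2⟩ := Set.SurjOn.exists_subset_injOn_image_eq
      (f := v) (s := Set.univ) (t := B) (by
        intro b hb
        obtain ⟨i, hi⟩ := hB hb
        exact ⟨i, Set.mem_univ _, hi⟩)
    exact ⟨T, h1, h2⟩
  have hbij : Set.BijOn v T B := ⟨fun i hi => hTim ▸ Set.mem_image_of_mem v hi, hTinj,
    fun b hb => by rw [← hTim] at hb; exact hb⟩
  let e : T ≃ B := hbij.equiv v
  refine ⟨T, ?_, ?_⟩
  · have h1 : AlgebraicIndependent k (fun i : T => v i) := by
      have h2 := hbas.1.comp e e.injective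
      exact h2
    have h3 := h1.map' (f := A.val) Subtype.val_injective
    exact h3
  · rw [← hbas.cardinalMk_eq_trdeg]
    exact Cardinal.mk_congr e

end Pool.Agent.Lib.MP_209724_lc.SC
end
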