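import Mathlib
import Pool.Agent.Lib.MP_209724_lc.OV.Defs

namespace Pool.Agent.Lib.MP_209724_lc.SC

open MvPolynomial

private theorem ed11_chain {k L : Type} [Field k] [Field L] [Algebra k L] {e : ℕ}
    (t : Fin e → L) (D : Derivation k L L) (F : MvPolynomial (Fin e) k) :
    D (aeval t F) = ∑ j, aeval t (pderiv j F) * D (t j) := by
  induction F using MvPolynomial.induction_on with
  | C a =>
    simp [MvPolynomial.algHom_C]
  | add p q hp hq =>
    simp only [map_add, hp, hq, add_mul, Finset.sum_add_distrib]
  | mul_X p i hp =>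
    have h1 : ∀ j, aeval t (pderiv j (p * X i)) * D (t j) =
        aeval t p * (if j = i then D (t i) else 0) + t i * (aeval t (pderiv j p) * D (t j)) := by
      intro j
      rw [pderiv_mul, map_add, map_mul, map_mul, aeval_X, pderiv_X]
      by_cases hj : j = i
      · subst hj
        simp
        ring
      · rw [if_neg hj, Pi.single_apply, if_neg (Ne.symm hj)]
        simp
        ring
    rw [map_mul, aeval_X, Derivation.leibniz, hp, Finset.sum_congr rfl fun j _ => h1 j,
      Finset.sum_add_distrib, ← Finset.mul_sum, ← Finset.mul_sum, Finset.sum_ite_eq' Finset.univ i]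
    simp

private theorem ed11_not_mem_vars {k σ : Type} [Field k] [CharZero k] (i : σ)
    (H : MvPolynomial σ k) (h : pderiv i H = 0) : i ∉ H.vars := by
  classical
  intro hi
  obtain ⟨d, hd, hid⟩ := (MvPolynomial.mem_vars_iff_mem_support i).1 hi
  have h1 := coeff_pderiv (i := i) H (d - Finsupp.single i 1)
  rw [h, coeff_zero] at h1
  have hdi : d i ≠ 0 := Finsupp.mem_support_iff.1 hid
  have h2 : d - Finsupp.single i 1 + Finsupp.single i 1 = d := by
    apply tsub_add_cancel_of_le
    rw [Finsupp.single_le_iff]
    omega
  rw [h2] at h1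
  rcases mul_eq_zero.1 h1.symm with h3 | h3
  · exact (MvPolynomial.mem_support_iff.1 hd) h3
  · exact Nat.cast_add_one_ne_zero _ h3

private theorem ed11_degree_lt {k σ : Type} [Field k] (i : σ) (H : MvPolynomial σ k)
    (h : pderiv i H ≠ 0) : (pderiv i H).totalDegree < H.totalDegree := by
  classical
  have key : ∀ m ∈ (pderiv i H).support, (m.sum fun _ e => e) + 1 ≤ H.totalDegree := by
    intro m hm
    have h1 : coeff m (pderiv i H) ≠ 0 := MvPolynomial.mem_support_iff.1 hm
    rw [coeff_pderiv] at h1
    have h2 : m + Finsupp.single i 1 ∈ H.support :=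
      MvPolynomial.mem_support_iff.2 (left_ne_zero_of_mul h1)
    have h3 := MvPolynomial.le_totalDegree h2
    rw [Finsupp.sum_add_index' (fun _ => rfl) (fun _ _ _ => rfl), Finsupp.sum_single_index rfl]
      at h3
    exact h3
  obtain ⟨m, hm⟩ := MvPolynomial.ne_zero_iff.1 h
  have hm' := MvPolynomial.mem_support_iff.2 hm
  have h0 := key m hm'
  rw [MvPolynomial.totalDegree, Finset.sup_lt_iff (by rw [bot_eq_zero]; omega)]
  intro m hm
  have := key m hm
  omega

/-- SC-20a: a criterion for algebraic independence.

Proof. Suppose not; take a nonzero `F : MvPolynomial (Fin e) k` with `F(t) = 0` of minimal total degree.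
Then `0 = D l (F(t)) = ∑_j (∂F/∂X_j)(t) D l (t j)` for all `l`, so `(∂F/∂X_j)(t) = 0` for all `j` (the
matrix is invertible). By minimality `∂F/∂X_j = 0` for all `j`, so `F` is a constant (characteristic
zero), and `F(t) = 0` gives `F = 0`. -/
theorem algInd_of_det {k L : Type} [Field k] [CharZero k] [Field L] [Algebra k L] {e : ℕ}
    (t : Fin e → L) (D : Fin e → Derivation k L L)
    (h : Matrix.det (fun l j => D l (t j)) ≠ 0) : AlgebraicIndependent k t := by
  rw [algebraicIndependent_iff]
  intro F hF
  induction hn : F.totalDegree using Nat.strong_induction_on generalizing F with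
  | _ n ih =>
    have h1 : ∀ l, ∑ j, D l (t j) * aeval t (pderiv j F) = 0 := by
      intro l
      have := ed11_chain t (D l) F
      rw [hF, map_zero] at this
      rw [this]
      exact Finset.sum_congr rfl fun j _ => mul_comm _ _
    have h2 : (fun j => aeval t (pderiv j F)) = (0 : Fin e → L) := by
      refine Matrix.eq_zero_of_mulVec_eq_zero (M := Matrix.of (fun l j => D l (t j))) h ?_
      funext l
      exact h1 l
    have h3 : ∀ j, pderiv j F = 0 := by
      intro j
      by_contra hj
      have hlt : (pderiv j F).totalDegree < n := by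
        rw [← hn]
        exact ed11_degree_lt j F hj
      exact hj (ih _ hlt _ (congrFun h2 j) rfl)
    have h4 : F.vars = ∅ := by
      rw [Finset.eq_empty_iff_forall_notMem]
      intro j
      exact ed11_not_mem_vars j F (h3 j)
    rw [MvPolynomial.vars_eq_empty_iff_eq_C] at h4
    rw [h4] at hF ⊢
    rw [MvPolynomial.aeval_C] at hF
    rw [(map_eq_zero_iff _ (algebraMap k L).injective).1 hF, map_zero]

end Pool.Agent.Lib.MP_209724_lc.SC
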