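import Mathlib
import Pool.Agent.Lib.MP_209724_lc.OV.Defs
import Pool.Agent.Lib.MP_209724_lc.SC.Ax1

section

namespace Pool.Agent.Lib.MP_209724_lc.SC

open MvPolynomial

/-- SC-32: strictness implies freeness (additive part). Proof: the matrix `B` with first row `m` and the
other rows zero has rank one; if `∑ m_j x_j = c`, the two algebraically independent elements of
`Strict` are among `c`, `0`, `y ^ m`, `1`; two different ones (`AlgebraicIndependent.injective`) of
these cannot both be transcendental. -/
theorem free_of_strict {k F : Type} [Field k] [CharZero k] [Field F] [Algebra k F] {n : ℕ}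
    (x y : Fin n → F) (hs : Strict k x y) (m : Fin n → ℤ) (c : k)
    (h : ∑ j, (m j : F) * x j = algebraMap k F c) : m = 0 := by
  classical
  by_contra hm
  obtain ⟨i₀, hi₀⟩ : ∃ i, m i ≠ 0 := by
    by_contra hc
    push Not at hc
    exact hm (funext hc)
  let B : Matrix (Fin n) (Fin n) ℤ := fun i j => if i = i₀ then m j else 0
  have hB : B ≠ 0 := by
    intro h0
    have h1 := congrFun (congrFun h0 i₀) i₀
    simp only [B, if_true, Matrix.zero_apply] at h1
    exact hi₀ h1
  obtain ⟨s, hs1, hs2⟩ := hs B hB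
  have hr : (B.map (Int.cast : ℤ → ℚ)).rank ≠ 0 := by
    intro h0
    rw [Matrix.rank, Submodule.finrank_eq_zero, LinearMap.range_eq_bot] at h0
    have h1 := congrFun (LinearMap.congr_fun h0 (Pi.single i₀ 1)) i₀
    simp only [Matrix.mulVecLin_apply, Matrix.mulVec_single_one, Matrix.col_apply,
      Matrix.map_apply, B, if_true, LinearMap.zero_apply, Pi.zero_apply] at h1
    exact hi₀ (by exact_mod_cast h1)
  have hkey : ∀ a, s a = ∏ j, y j ^ m j := by
    intro a
    have ht := hs1.transcendental a
    have hnot : ∀ d : k, s a ≠ algebraMap k F d := fun d hd =>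
      ht (by rw [hd]; exact isAlgebraic_algebraMap d)
    rcases hs2 a with ⟨i, hi⟩ | ⟨i, hi⟩
    · exfalso
      by_cases hii : i = i₀
      · subst hii
        simp only [B, if_true] at hi
        rw [h] at hi
        exact hnot c hi.symm
      · simp only [B, if_neg hii, Int.cast_zero, zero_mul, Finset.sum_const_zero] at hi
        exact hnot 0 (by rw [map_zero]; exact hi.symm)
    · by_cases hii : i = i₀
      · subst hii
        simp only [B, if_true] at hi
        exact hi.symm
      · exfalso
        simp only [B, if_neg hii, zpow_zero, Finset.prod_const_one] at hi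
        exact hnot 1 (by rw [map_one]; exact hi.symm)
  have hinj := hs1.injective
  have h01 : (0 : Fin ((B.map (Int.cast : ℤ → ℚ)).rank + 1))
      = Fin.last (B.map (Int.cast : ℤ → ℚ)).rank :=
    hinj ((hkey _).trans (hkey _).symm)
  have h2 := congrArg Fin.val h01
  simp only [Fin.val_zero, Fin.val_last] at h2
  exact hr h2.symm

end Pool.Agent.Lib.MP_209724_lc.SC
end

section

namespace Pool.Agent.Lib.MP_209724_lc.SC

open MvPolynomial

/-- SC-29: an `E`-derivation of `ℂ` is, at the point `p`, a combination of the derivations `D l` of the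
function field.

Proof. Regard `ℂ` as a module over `A = locA x y d` via `φ`. Both sides are derivations `A → ℂ` over `k`
(that is: additive, `k`-linear, and `δ (a b) = φ a * δ b + φ b * δ a`); let `δ` be their difference.
Then `δ (y i) = φ (y i) * δ (x i)` (`φ (y i) = exp (p i)`, `φ (x i) = p i`, `hE`, `hxy`) and
`δ (G l (x, y)) = 0` (`hdual`). For a polynomial `f`,
`δ (f(x, y)) = ∑_j φ ((eD j f)(x, y)) * δ (x j)` (induction on `f`). For `f = f i` the left side is `0` in
both cases (`f(x,y) = 0` or `f = G l`). So the vector `(δ (x j))_j` is in the kernel of the matrix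
`(φ ((eD j (f i))(x, y)))`, whose determinant is `φ (det) ≠ 0` (because `det` is a unit of `A`, `hdet'`);
so `δ (x j) = 0`, `δ (y j) = 0`, `δ (d⁻¹) = 0` (`0 = δ (d * d⁻¹)`), and `δ = 0` on `A`
(`Algebra.adjoin_induction`). -/
theorem chain {k F : Type} [Field k] [Algebra k ℂ] [Field F] [Algebra k F] {n e : ℕ}
    (x y : Fin n → F) (d : MvPolynomial (Fin n ⊕ Fin n) k) (hd : aeval (Sum.elim x y) d ≠ 0)
    (D : Fin e → Derivation k F F)
    (hxy : ∀ l i, D l (y i) = y i * D l (x i)) (hmem : ∀ l, ∀ a ∈ locA x y d, D l a ∈ locA x y d)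
    (G : Fin e → MvPolynomial (Fin n ⊕ Fin n) k)
    (hdual : ∀ l l', D l (aeval (Sum.elim x y) (G l')) = if l = l' then 1 else 0)
    (f : Fin n → MvPolynomial (Fin n ⊕ Fin n) k)
    (hf : ∀ i, aeval (Sum.elim x y) (f i) = 0 ∨ ∃ l, f i = G l)
    (hdet : Matrix.det (fun i j => aeval (Sum.elim x y) (eD j (f i))) ≠ 0)
    (hdet' : (Matrix.det (fun i j => aeval (Sum.elim x y) (eD j (f i))))⁻¹ ∈ locA x y d)
    (p : Fin n → ℂ) (φ : locA x y d →ₐ[k] ℂ)
    (hφ : ∀ f : MvPolynomial (Fin n ⊕ Fin n) k,
      φ ⟨aeval (Sum.elim x y) f, aeval_mem_locA x y d f⟩ = expG f p)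
    (E : Derivation k ℂ ℂ) (hE : ∀ z, E (Complex.exp z) = Complex.exp z * E z)
    (a : locA x y d) :
    E (φ a) = ∑ l, E (expG (G l) p) * φ ⟨D l a, hmem l a a.2⟩ := by
  classical
  -- polynomials as elements of the ring
  let P : MvPolynomial (Fin n ⊕ Fin n) k →ₐ[k] locA x y d :=
    (aeval (Sum.elim x y)).codRestrict (locA x y d) (aeval_mem_locA x y d)
  have hPv : ∀ f, ((P f : locA x y d) : F) = aeval (Sum.elim x y) f := fun _ => rfl
  have hφP : ∀ f, φ (P f) = expG f p := fun f => hφ f
  -- the difference of the two sides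
  obtain ⟨δ, hδ⟩ : ∃ δ : locA x y d → ℂ, ∀ a : locA x y d,
      δ a = E (φ a) - ∑ l, E (expG (G l) p) * φ ⟨D l a, hmem l a a.2⟩ := ⟨_, fun _ => rfl⟩
  have hadd : ∀ a b, δ (a + b) = δ a + δ b := by
    intro a b
    have h1 : ∀ l, φ ⟨D l ((a + b : locA x y d) : F), hmem l _ (a + b).2⟩ =
        φ ⟨D l a, hmem l a a.2⟩ + φ ⟨D l b, hmem l b b.2⟩ := by
      intro l
      rw [← map_add]
      congr 1
      apply Subtype.ext
      show D l ((a : F) + (b : F)) = D l a + D l b
      rw [map_add]
    rw [hδ, hδ, hδ, map_add, map_add]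
    simp only [h1, mul_add, Finset.sum_add_distrib]
    ring
  have hmul : ∀ a b, δ (a * b) = φ a * δ b + φ b * δ a := by
    intro a b
    have h1 : ∀ l, φ ⟨D l ((a * b : locA x y d) : F), hmem l _ (a * b).2⟩ =
        φ a * φ ⟨D l b, hmem l b b.2⟩ + φ b * φ ⟨D l a, hmem l a a.2⟩ := by
      intro l
      rw [← map_mul, ← map_mul, ← map_add]
      congr 1
      apply Subtype.ext
      show D l ((a : F) * (b : F)) = (a : F) * D l b + (b : F) * D l a
      rw [Derivation.leibniz, smul_eq_mul, smul_eq_mul]
    rw [hδ, hδ, hδ, map_mul, Derivation.leibniz, smul_eq_mul, smul_eq_mul]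
    simp only [h1, mul_add, Finset.sum_add_distrib, mul_sub, Finset.mul_sum]
    have h2 : ∀ c : locA x y d, ∀ b : locA x y d,
        ∑ l, E (expG (G l) p) * (φ c * φ ⟨D l b, hmem l b b.2⟩) =
        ∑ l, φ c * (E (expG (G l) p) * φ ⟨D l b, hmem l b b.2⟩) := fun c b =>
      Finset.sum_congr rfl fun l _ => by ring
    rw [h2, h2]
    ring
  have halg : ∀ c : k, δ (algebraMap k (locA x y d) c) = 0 := by
    intro c
    have h1 : ∀ l, φ ⟨D l ((algebraMap k (locA x y d) c : locA x y d) : F),
        hmem l _ (algebraMap k (locA x y d) c).2⟩ = 0 := by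
      intro l
      have : (⟨D l ((algebraMap k (locA x y d) c : locA x y d) : F),
          hmem l _ (algebraMap k (locA x y d) c).2⟩ : locA x y d) = 0 := by
        apply Subtype.ext
        show D l (algebraMap k F c) = 0
        exact Derivation.map_algebraMap _ _
      rw [this, map_zero]
    rw [hδ, AlgHom.commutes, Derivation.map_algebraMap]
    simp only [h1, mul_zero, Finset.sum_const_zero, sub_zero]
  have h0 : δ 0 = 0 := by
    have := halg 0
    rwa [map_zero] at this
  have h1' : δ 1 = 0 := by
    have := halg 1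
    rwa [map_one] at this
  have hx : ∀ i, φ (P (X (Sum.inl i))) = p i := fun i => by
    rw [hφP]; unfold expG; rw [aeval_X]; rfl
  have hyE : ∀ i, φ (P (X (Sum.inr i))) = Complex.exp (p i) := fun i => by
    rw [hφP]; unfold expG; rw [aeval_X]; rfl
  have hδy : ∀ i, δ (P (X (Sum.inr i))) = φ (P (X (Sum.inr i))) * δ (P (X (Sum.inl i))) := by
    intro i
    have h1 : ∀ l, φ ⟨D l ((P (X (Sum.inr i)) : locA x y d) : F), hmem l _ (P (X (Sum.inr i))).2⟩ =
        φ (P (X (Sum.inr i))) * φ ⟨D l ((P (X (Sum.inl i)) : locA x y d) : F),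
          hmem l _ (P (X (Sum.inl i))).2⟩ := by
      intro l
      rw [← map_mul]
      congr 1
      apply Subtype.ext
      show D l (aeval (Sum.elim x y) (X (Sum.inr i))) = (aeval (Sum.elim x y) (X (Sum.inr i)) : F) *
        D l (aeval (Sum.elim x y) (X (Sum.inl i)))
      rw [aeval_X, aeval_X]
      exact hxy l i
    rw [hδ, hδ]
    simp only [h1]
    rw [hyE, hx, hE, mul_sub, Finset.mul_sum]
    congr 1
    exact Finset.sum_congr rfl fun l _ => by ring
  have heC : ∀ (j : Fin n) (c : k), eD j (C c : MvPolynomial (Fin n ⊕ Fin n) k) = 0 := fun j c => by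
    unfold eD; rw [pderiv_C, pderiv_C, mul_zero, add_zero]
  have headd : ∀ (j : Fin n) (f g : MvPolynomial (Fin n ⊕ Fin n) k), eD j (f + g) = eD j f + eD j g :=
    fun j f g => by unfold eD; rw [map_add, map_add]; ring
  have hemul : ∀ (j : Fin n) (f g : MvPolynomial (Fin n ⊕ Fin n) k),
      eD j (f * g) = f * eD j g + g * eD j f := fun j f g => by
    unfold eD
    rw [Derivation.leibniz, Derivation.leibniz]
    simp only [smul_eq_mul]
    ring
  have hel : ∀ i j : Fin n, eD j (X (Sum.inl i) : MvPolynomial (Fin n ⊕ Fin n) k) =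
      if i = j then 1 else 0 := fun i j => by
    unfold eD
    rw [pderiv_X, pderiv_X]
    by_cases h : i = j
    · subst h
      simp
    · have h2 : (Sum.inl i : Fin n ⊕ Fin n) ≠ Sum.inl j := fun h3 => h (Sum.inl.inj h3)
      simp [h, h2]
  have her : ∀ i j : Fin n, eD j (X (Sum.inr i) : MvPolynomial (Fin n ⊕ Fin n) k) =
      if i = j then X (Sum.inr i) else 0 := fun i j => by
    unfold eD
    rw [pderiv_X, pderiv_X]
    by_cases h : i = j
    · subst h
      simp
    · have h2 : (Sum.inr i : Fin n ⊕ Fin n) ≠ Sum.inr j := fun h3 => h (Sum.inr.inj h3)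
      simp [h, h2]
  have hpoly : ∀ f, δ (P f) = ∑ j, φ (P (eD j f)) * δ (P (X (Sum.inl j))) := by
    intro f
    induction f using MvPolynomial.induction_on with
    | C c =>
      have e1 : P (C c) = algebraMap k (locA x y d) c := P.commutes c
      rw [e1, halg]
      simp only [heC, map_zero, zero_mul, Finset.sum_const_zero]
    | add f g hf hg =>
      rw [map_add, hadd, hf, hg, ← Finset.sum_add_distrib]
      refine Finset.sum_congr rfl fun j _ => ?_
      rw [headd, map_add, map_add]
      ring
    | mul_X f i hf =>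
      have e1 : ∀ j, φ (P (eD j (f * X i))) = φ (P f) * φ (P (eD j (X i))) + φ (P (X i)) * φ (P (eD j f)) :=
        fun j => by rw [hemul, map_add, map_add, map_mul, map_mul, map_mul, map_mul]
      rw [map_mul, hmul, hf]
      have e2 : ∑ j, φ (P (eD j (f * X i))) * δ (P (X (Sum.inl j))) =
          φ (P f) * (∑ j, φ (P (eD j (X i))) * δ (P (X (Sum.inl j)))) +
          φ (P (X i)) * ∑ j, φ (P (eD j f)) * δ (P (X (Sum.inl j))) := by
        rw [Finset.mul_sum, Finset.mul_sum, ← Finset.sum_add_distrib]
        refine Finset.sum_congr rfl fun j _ => ?_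
        rw [e1]; ring
      rw [e2]
      congr 2
      rcases i with i | i
      · have e3 : ∀ j, φ (P (eD j (X (Sum.inl i)))) * δ (P (X (Sum.inl j))) =
            if i = j then δ (P (X (Sum.inl j))) else 0 := fun j => by
          rw [hel]
          split_ifs
          · rw [map_one, map_one, one_mul]
          · rw [map_zero, map_zero, zero_mul]
        simp only [e3, Finset.sum_ite_eq, Finset.mem_univ, if_true]
      · have e3 : ∀ j, φ (P (eD j (X (Sum.inr i)))) * δ (P (X (Sum.inl j))) =
            if i = j then φ (P (X (Sum.inr i))) * δ (P (X (Sum.inl j))) else 0 := fun j => by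
          rw [her]
          split_ifs
          · rfl
          · rw [map_zero, map_zero, zero_mul]
        simp only [e3, Finset.sum_ite_eq, Finset.mem_univ, if_true]
        exact hδy i
  have hG : ∀ l', δ (P (G l')) = 0 := by
    intro l'
    have h1 : ∀ l, φ ⟨D l ((P (G l') : locA x y d) : F), hmem l _ (P (G l')).2⟩ =
        if l = l' then 1 else 0 := by
      intro l
      have : (⟨D l ((P (G l') : locA x y d) : F), hmem l _ (P (G l')).2⟩ : locA x y d) =
          if l = l' then 1 else 0 := by
        apply Subtype.ext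
        show D l (aeval (Sum.elim x y) (G l')) = _
        rw [hdual]
        split_ifs <;> rfl
      rw [this]
      split_ifs
      · exact map_one φ
      · exact map_zero φ
    rw [hδ, hφP]
    simp only [h1, mul_ite, mul_one, mul_zero, Finset.sum_ite_eq', Finset.mem_univ, if_true, sub_self]
  have hf0 : ∀ i, δ (P (f i)) = 0 := by
    intro i
    rcases hf i with h | ⟨l, h⟩
    · have : P (f i) = 0 := Subtype.ext h
      rw [this, h0]
    · rw [h, hG]
  -- the linear system
  have hdetA : Matrix.det (fun i j => φ (P (eD j (f i)))) ≠ 0 := by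
    have e1 : Matrix.det (fun i j => φ (P (eD j (f i)))) =
        φ (Matrix.det (fun i j => P (eD j (f i)))) :=
      (AlgHom.map_det φ (Matrix.of fun i j => P (eD j (f i)))).symm
    have e2 : ((Matrix.det (fun i j => P (eD j (f i))) : locA x y d) : F) =
        Matrix.det (fun i j => aeval (Sum.elim x y) (eD j (f i))) := by
      have := AlgHom.map_det (locA x y d).val (Matrix.of fun i j => P (eD j (f i)))
      exact this
    have e3 : Matrix.det (fun i j => P (eD j (f i))) *
        (⟨(Matrix.det (fun i j => aeval (Sum.elim x y) (eD j (f i))))⁻¹, hdet'⟩ : locA x y d) = 1 := by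
      apply Subtype.ext
      show ((Matrix.det (fun i j => P (eD j (f i))) : locA x y d) : F) *
        (Matrix.det (fun i j => aeval (Sum.elim x y) (eD j (f i))))⁻¹ = 1
      rw [e2, mul_inv_cancel₀ hdet]
    rw [e1]
    intro h
    have e4 := congrArg φ e3
    rw [map_mul, h, zero_mul, map_one] at e4
    exact zero_ne_one e4
  have hsys : Matrix.mulVec (fun i j => φ (P (eD j (f i)))) (fun j => δ (P (X (Sum.inl j)))) = 0 := by
    funext i
    show ∑ j, φ (P (eD j (f i))) * δ (P (X (Sum.inl j))) = 0
    rw [← hpoly, hf0]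
  have hx0 := Matrix.eq_zero_of_mulVec_eq_zero hdetA hsys
  have hP0 : ∀ f, δ (P f) = 0 := by
    intro f
    rw [hpoly]
    refine Finset.sum_eq_zero fun j _ => ?_
    have : δ (P (X (Sum.inl j))) = 0 := congrFun hx0 j
    rw [this, mul_zero]
  have hinv : δ ⟨(aeval (Sum.elim x y) d)⁻¹, inv_mem_locA x y d⟩ = 0 := by
    have e1 : P d * ⟨(aeval (Sum.elim x y) d)⁻¹, inv_mem_locA x y d⟩ = 1 := by
      apply Subtype.ext
      show aeval (Sum.elim x y) d * (aeval (Sum.elim x y) d)⁻¹ = 1
      exact mul_inv_cancel₀ hd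
    have e2 := hmul (P d) ⟨(aeval (Sum.elim x y) d)⁻¹, inv_mem_locA x y d⟩
    rw [e1, h1', hP0, mul_zero, add_zero] at e2
    rcases mul_eq_zero.1 e2.symm with h | h
    · exfalso
      have e3 := congrArg φ e1
      rw [map_mul, h, zero_mul, map_one] at e3
      exact zero_ne_one e3
    · exact h
  have hall : ∀ (a : F) (ha : a ∈ locA x y d), δ ⟨a, ha⟩ = 0 := by
    intro a ha
    induction ha using Algebra.adjoin_induction with
    | mem a ha =>
      rcases ha with (⟨i, rfl⟩ | ⟨i, rfl⟩) | ha
      · have e : (⟨x i, x_mem_locA x y d i⟩ : locA x y d) = P (X (Sum.inl i)) := by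
          apply Subtype.ext
          show x i = aeval (Sum.elim x y) (X (Sum.inl i))
          rw [aeval_X]; rfl
        show δ ⟨x i, x_mem_locA x y d i⟩ = 0
        rw [e, hP0]
      · have e : (⟨y i, y_mem_locA x y d i⟩ : locA x y d) = P (X (Sum.inr i)) := by
          apply Subtype.ext
          show y i = aeval (Sum.elim x y) (X (Sum.inr i))
          rw [aeval_X]; rfl
        show δ ⟨y i, y_mem_locA x y d i⟩ = 0
        rw [e, hP0]
      · rw [Set.mem_singleton_iff] at ha
        subst ha
        exact hinv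
    | algebraMap r => exact halg r
    | add u w hu hw hpu hpw =>
      have e : (⟨u + w, (locA x y d).add_mem hu hw⟩ : locA x y d) = ⟨u, hu⟩ + ⟨w, hw⟩ := rfl
      show δ ⟨u + w, (locA x y d).add_mem hu hw⟩ = 0
      rw [e, hadd, hpu, hpw, add_zero]
    | mul u w hu hw hpu hpw =>
      have e : (⟨u * w, (locA x y d).mul_mem hu hw⟩ : locA x y d) = ⟨u, hu⟩ * ⟨w, hw⟩ := rfl
      show δ ⟨u * w, (locA x y d).mul_mem hu hw⟩ = 0
      rw [e, hmul, hpu, hpw, mul_zero, mul_zero, add_zero]
  have hfin := hall a a.2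
  rw [hδ] at hfin
  exact sub_eq_zero.1 hfin

end Pool.Agent.Lib.MP_209724_lc.SC
end
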