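import Mathlib
import Pool.Agent.Lib.MP_209724_lc.OV.Defs

namespace Pool.Agent.Lib.MP_209724_lc.SC

/-- SC-24c: the values on `x` of such a family are linearly independent.

Proof. If `∑_l c_l D l (x i) = 0` for all `i` then `E = ∑ c_l • D l` kills `x i` and `y i`
(`E (y i) = y i * E (x i)`), hence everything (`Derivation.eqOn_adjoin`-like argument for the
field generated by `x, y`; the set of zeros of a derivation is a subfield), so
`0 = E (g l') = c_{l'}`. -/
theorem nabla_lin {k F : Type} [Field k] [Field F] [Algebra k F] {n e : ℕ}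
    (x y : Fin n → F) (hgen : IntermediateField.adjoin k (Set.range x ∪ Set.range y) = ⊤)
    (g : Fin e → F) (D : Fin e → Derivation k F F) (hxy : ∀ l i, D l (y i) = y i * D l (x i))
    (hg : ∀ l l', D l (g l') = if l = l' then 1 else 0) :
    LinearIndependent F fun (l : Fin e) (i : Fin n) => D l (x i) := by
  classical
  rw [Fintype.linearIndependent_iff]
  intro c hc
  set E : Derivation k F F := ∑ l, c l • D l with hE
  have hEa : ∀ a, E a = ∑ l, c l * D l a := by
    intro a
    have h1 : (E : F → F) = ∑ l, ⇑(c l • D l) := by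
      rw [hE]
      exact map_sum (Derivation.coeFnAddMonoidHom (R := k) (A := F) (M := F)) _ _
    rw [h1, Finset.sum_apply]
    rfl
  have hx : ∀ i, E (x i) = 0 := by
    intro i
    have h1 := congrFun hc i
    rw [Finset.sum_apply] at h1
    rw [hEa]
    exact h1
  have hy : ∀ i, E (y i) = 0 := by
    intro i
    have h1 : E (y i) = y i * E (x i) := by
      rw [hEa, hEa, Finset.mul_sum]
      refine Finset.sum_congr rfl fun l _ => ?_
      rw [hxy]
      ring
    rw [h1, hx, mul_zero]
  have hle : IntermediateField.adjoin k (Set.range x ∪ Set.range y) ≤ consts fun _ : Unit => E := by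
    rw [IntermediateField.adjoin_le_iff]
    rintro a (⟨i, rfl⟩ | ⟨i, rfl⟩)
    · exact fun _ => hx i
    · exact fun _ => hy i
  intro l'
  have h1 : g l' ∈ consts fun _ : Unit => E := by
    refine hle ?_
    rw [hgen]
    exact IntermediateField.mem_top
  have h2 := mem_consts.1 h1 ()
  rw [hEa] at h2
  simpa [hg] using h2

end Pool.Agent.Lib.MP_209724_lc.SC
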