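import Mathlib
import Pool.Agent.Lib.MP_209724_lc.OV.Defs

section

namespace Pool.Agent.Lib.MP_209724_lc.SC

open Classical in
private theorem ff5a_aux {k F : Type} [Field k] [Field F] [Algebra k F] {r e : ℕ} (z : Fin r → F)
    (D : Fin e → Derivation k F F)
    (hc : ∀ a : F, (∀ l, D l a = 0) → ∃ c : k, a = algebraMap k F c)
    (hz : ∀ u : Fin r → k, (∃ c : k, ∑ j, algebraMap k F (u j) * z j = algebraMap k F c) → u = 0)
    (n : ℕ) : ∀ u : Fin r → F, (Finset.univ.filter fun j => u j ≠ 0).card = n → u ≠ 0 →
      (∀ α : List (Fin e), α ≠ [] → ∑ j, u j * word D α (z j) = 0) → False := by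
  induction n using Nat.strong_induction_on with
  | _ n ih =>
    intro u hn hu hw
    obtain ⟨j₀, hj₀⟩ := Function.ne_iff.1 hu
    have hj₀' : u j₀ ≠ 0 := hj₀
    -- normalise
    set u' : Fin r → F := fun j => (u j₀)⁻¹ * u j with hu'
    have h1 : u' j₀ = 1 := inv_mul_cancel₀ hj₀'
    have hw' : ∀ α : List (Fin e), α ≠ [] → ∑ j, u' j * word D α (z j) = 0 := by
      intro α hα
      have h2 := hw α hα
      calc ∑ j, u' j * word D α (z j) = (u j₀)⁻¹ * ∑ j, u j * word D α (z j) := by
            rw [Finset.mul_sum]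
            exact Finset.sum_congr rfl fun j _ => by rw [hu']; ring
        _ = 0 := by rw [h2, mul_zero]
    have hD : ∀ l j, D l (u' j) = 0 := by
      intro l
      by_contra hne
      rw [not_forall] at hne
      obtain ⟨j₁, hj₁⟩ := hne
      have h3 : (fun j => D l (u' j)) ≠ (0 : Fin r → F) := fun h4 => hj₁ (congrFun h4 j₁)
      refine ih _ ?_ (fun j => D l (u' j)) rfl h3 fun α hα => ?_
      · rw [← hn]
        refine Finset.card_lt_card ⟨fun j hj => ?_, fun hsub => ?_⟩
        · rw [Finset.mem_filter] at hj ⊢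
          refine ⟨hj.1, fun h5 => hj.2 ?_⟩
          rw [hu']
          show D l ((u j₀)⁻¹ * u j) = 0
          rw [h5, mul_zero, map_zero]
        · have h6 : j₀ ∈ Finset.univ.filter fun j => D l (u' j) ≠ 0 :=
            hsub (Finset.mem_filter.2 ⟨Finset.mem_univ _, hj₀'⟩)
          rw [Finset.mem_filter] at h6
          apply h6.2
          rw [h1, Derivation.map_one_eq_zero]
      · have h7 := congrArg (D l) (hw' α hα)
        rw [map_zero, map_sum] at h7
        have h8 : ∀ j, D l (u' j * word D α (z j)) = D l (u' j) * word D α (z j) + u' j * word D (l :: α) (z j) := by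
          intro j
          rw [Derivation.leibniz, smul_eq_mul, smul_eq_mul]
          show u' j * D l (word D α (z j)) + word D α (z j) * D l (u' j) = D l (u' j) * word D α (z j) + u' j * D l (word D α (z j))
          ring
        rw [Finset.sum_congr rfl fun j _ => h8 j, Finset.sum_add_distrib, hw' (l :: α) (List.cons_ne_nil _ _),
          add_zero] at h7
        exact h7
    choose c hc' using fun j => hc (u' j) fun l => hD l j
    have h9 : c = 0 := by
      refine hz c ?_
      obtain ⟨b, hb⟩ := hc (∑ j, u' j * z j) fun l => by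
        rw [map_sum]
        have h10 : ∀ j, D l (u' j * z j) = u' j * word D [l] (z j) := by
          intro j
          rw [Derivation.leibniz, hD l j, smul_zero, add_zero, smul_eq_mul]
          rfl
        rw [Finset.sum_congr rfl fun j _ => h10 j]
        exact hw' [l] (List.cons_ne_nil _ _)
      refine ⟨b, ?_⟩
      rw [← hb]
      exact Finset.sum_congr rfl fun j _ => by rw [hc' j]
    have h11 := hc' j₀
    rw [h1, h9, Pi.zero_apply, map_zero] at h11
    exact one_ne_zero h11

/-- SC-26a: the usual Wronskian argument, in words of derivations. If `z_1, ..., z_r` are such that no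
nontrivial `k`-linear combination is in `k`, then the vectors `(D^α z_j)_j`, `α ≠ []`, span `F^r`, so
`r` of them have a nonzero determinant.

Proof. Let `S ⊆ (Fin r → F)` be the span of the vectors `v_α = (word D α (z j))_j`, `α ≠ []`. It is stable
under the `D l` (coordinatewise): `D l (a v_α) = D l (a) v_α + a v_{l :: α}`. Suppose `S ≠ ⊤`. Then the
annihilator `S' = {u | ∀ v ∈ S, ∑ u_j v_j = 0}` is not `0`, and it is stable under the `D l`
(`0 = D l (∑ u_j v_j)`). Take `0 ≠ u ∈ S'` with support of minimal cardinality and some `u_{j₀} = 1`.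
Then `D l u ∈ S'` has smaller support, so it is `0`: all `u_j` are in `k` by `hc`. Since
`∑ u_j D l (z_j) = 0` for all `l`, `∑ u_j z_j` is in `k` (by `hc`): contradiction. So `S = ⊤` and there are
`r` words with linearly independent vectors. -/
theorem wronski {k F : Type} [Field k] [Field F] [Algebra k F] {r e : ℕ} (z : Fin r → F)
    (D : Fin e → Derivation k F F)
    (hc : ∀ a : F, (∀ l, D l a = 0) → ∃ c : k, a = algebraMap k F c)
    (hz : ∀ u : Fin r → k, (∃ c : k, ∑ j, algebraMap k F (u j) * z j = algebraMap k F c) → u = 0) :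
    ∃ α : Fin r → List (Fin e), (∀ i, α i ≠ []) ∧
      Matrix.det (fun i j => word D (α i) (z j)) ≠ 0 := by
  set s : Set (Fin r → F) := {v | ∃ α : List (Fin e), α ≠ [] ∧ v = fun j => word D α (z j)} with hs
  have htop : Submodule.span F s = ⊤ := by
    by_contra hne
    obtain ⟨f, hf, hle⟩ := Submodule.exists_le_ker_of_lt_top (Submodule.span F s) (lt_top_iff_ne_top.2 hne)
    have hfu : ∀ v : Fin r → F, f v = ∑ j, f (Pi.single j 1) * v j := by
      intro v
      rw [LinearMap.pi_apply_eq_sum_univ f v]
      refine Finset.sum_congr rfl fun j _ => ?_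
      rw [smul_eq_mul, mul_comm]
      congr 2
      ext i
      rw [Pi.single_apply]
      simp only [eq_comm]
    refine ff5a_aux z D hc hz _ (fun j => f (Pi.single j 1)) rfl ?_ ?_
    · intro h0
      apply hf
      refine LinearMap.ext fun v => ?_
      rw [hfu, LinearMap.zero_apply]
      refine Finset.sum_eq_zero fun j _ => ?_
      rw [show f (Pi.single j 1) = 0 from congrFun h0 j, zero_mul]
    · intro α hα
      rw [← hfu]
      exact hle (Submodule.subset_span ⟨α, hα, rfl⟩)
  obtain ⟨f, hfs, -, hli⟩ := Submodule.exists_fun_fin_finrank_span_eq F s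
  have hr : Module.finrank F (Submodule.span F s) = r := by
    rw [htop, finrank_top, Module.finrank_fin_fun]
  let g : Fin r → (Fin r → F) := fun i => f (Fin.cast hr.symm i)
  have hg : LinearIndependent F g := hli.comp _ (Fin.cast_injective hr.symm)
  choose α hα hαf using fun i : Fin r => hfs (Fin.cast hr.symm i)
  refine ⟨α, hα, ?_⟩
  have h1 : (fun i j => word D (α i) (z j)) = g := funext fun i => (hαf i).symm
  rw [h1]
  have h2 : IsUnit (Matrix.of g) := (Matrix.linearIndependent_rows_iff_isUnit (A := Matrix.of g)).1 hg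
  have h3 := (Matrix.isUnit_iff_isUnit_det (Matrix.of g)).1 h2
  exact h3.ne_zero

end Pool.Agent.Lib.MP_209724_lc.SC
end

section

namespace Pool.Agent.Lib.MP_209724_lc.SC

/-- SC-26b: Proof. Choose `C : Fin r → Fin n` such that `1` and the `x (C i)` form a `k`-basis of the
`k`-span of `1, x_1, ..., x_n` in `F` (a maximal family of indices such that `wronski`'s hypothesis `hz`
holds), and apply `wronski` to `x ∘ C`. -/
theorem exists_words {k F : Type} [Field k] [Field F] [Algebra k F] {n e : ℕ} (x : Fin n → F)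
    (D : Fin e → Derivation k F F)
    (hc : ∀ a : F, (∀ l, D l a = 0) → ∃ c : k, a = algebraMap k F c) :
    ∃ (r : ℕ) (α : Fin r → List (Fin e)) (C : Fin r → Fin n), (∀ i, α i ≠ []) ∧
      Matrix.det (fun i j => word D (α i) (x (C j))) ≠ 0 ∧
      ∀ j, ∃ (b : Fin r → k) (b₀ : k),
        x j = ∑ i, algebraMap k F (b i) * x (C i) + algebraMap k F b₀ := by
  classical
  set W : Submodule k F := LinearMap.range (Algebra.linearMap k F) with hW
  obtain ⟨κ, a, ha, hspan, hli⟩ := exists_linearIndependent' k (fun i => W.mkQ (x i))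
  have : Finite κ := Finite.of_injective a ha
  obtain ⟨r, ⟨e₀⟩⟩ := Finite.exists_equiv_fin κ
  have hli' : LinearIndependent k fun i : Fin r => W.mkQ (x (a (e₀.symm i))) :=
    hli.comp e₀.symm e₀.symm.injective
  have hmem : ∀ (c : k), algebraMap k F c ∈ W := fun c => ⟨c, rfl⟩
  have hz : ∀ u : Fin r → k,
      (∃ c : k, ∑ j, algebraMap k F (u j) * x (a (e₀.symm j)) = algebraMap k F c) → u = 0 := by
    rintro u ⟨c, hc'⟩
    have h1 : ∑ j, u j • W.mkQ (x (a (e₀.symm j))) = 0 := by
      have h2 : ∑ j, u j • W.mkQ (x (a (e₀.symm j))) = W.mkQ (algebraMap k F c) := by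
        rw [← hc', map_sum]
        refine Finset.sum_congr rfl fun j _ => ?_
        rw [← Algebra.smul_def, map_smul]
      rw [h2, Submodule.mkQ_apply, Submodule.Quotient.mk_eq_zero]
      exact hmem c
    exact funext fun j => Fintype.linearIndependent_iff.mp hli' u h1 j
  obtain ⟨α, hα, hdet⟩ := wronski (fun j => x (a (e₀.symm j))) D hc hz
  refine ⟨r, α, fun i => a (e₀.symm i), hα, hdet, fun j => ?_⟩
  have h1 : W.mkQ (x j) ∈ Submodule.span k (Set.range fun i : Fin r => W.mkQ (x (a (e₀.symm i)))) := by
    have h2 : (Set.range fun i : Fin r => W.mkQ (x (a (e₀.symm i)))) =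
        Set.range ((fun i => W.mkQ (x i)) ∘ a) := by
      ext z
      constructor
      · rintro ⟨i, rfl⟩
        exact ⟨e₀.symm i, rfl⟩
      · rintro ⟨i, rfl⟩
        exact ⟨e₀ i, by simp⟩
    rw [h2, hspan]
    exact Submodule.subset_span ⟨j, rfl⟩
  obtain ⟨b, hb⟩ := (Submodule.mem_span_range_iff_exists_fun k).mp h1
  have h3 : x j - ∑ i, b i • x (a (e₀.symm i)) ∈ W := by
    rw [← Submodule.Quotient.mk_eq_zero, ← Submodule.mkQ_apply, map_sub, map_sum, sub_eq_zero, ← hb]
    exact Finset.sum_congr rfl fun i _ => by rw [map_smul]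
  obtain ⟨b₀, hb₀⟩ := h3
  refine ⟨b, b₀, ?_⟩
  have h4 : algebraMap k F b₀ = x j - ∑ i, b i • x (a (e₀.symm i)) := hb₀
  rw [h4]
  simp only [Algebra.smul_def]
  ring

end Pool.Agent.Lib.MP_209724_lc.SC
end
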