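import Mathlib
import Pool.Agent.Lib.MP_209724_lc.SC.Ax1
import Pool.Agent.Lib.MP_209724_lc.SC.Ev2
import Pool.Agent.Lib.MP_209724_lc.SC.Ed2
import Pool.Agent.Lib.MP_209724_lc.SC.Ax4
import Pool.Agent.Lib.MP_209724_lc.SC.FF1
import Pool.Agent.Lib.MP_209724_lc.SC.Ed10
import Pool.Agent.Lib.MP_209724_lc.SC.Ed11
import Pool.Agent.Lib.MP_209724_lc.SC.FF3
import Pool.Agent.Lib.MP_209724_lc.SC.FF3b
import Pool.Agent.Lib.MP_209724_lc.SC.FF5

section

namespace Pool.Agent.Lib.MP_209724_lc.SC

open MvPolynomial

/-- Numerators of the values of a polynomial in `x, y, 1 / d(x, y)`. -/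
private theorem exists_numer {k F : Type} [Field k] [Algebra k ℂ] [Field F] [Algebra k F] {n : ℕ}
    (x y : Fin n → F) (d : MvPolynomial (Fin n ⊕ Fin n) k) (hd : aeval (Sum.elim x y) d ≠ 0)
    (p q : Fin n → ℂ) (hpd : aeval (Sum.elim p q) d ≠ 0)
    (H : MvPolynomial (Option (Fin n ⊕ Fin n)) k) :
    ∃ (N : ℕ) (f : MvPolynomial (Fin n ⊕ Fin n) k),
      aeval (fun o => o.elim (aeval (Sum.elim x y) d)⁻¹ (Sum.elim x y)) H *
        aeval (Sum.elim x y) d ^ N = aeval (Sum.elim x y) f ∧
      aeval (fun o => o.elim (aeval (Sum.elim p q) d)⁻¹ (Sum.elim p q)) H *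
        aeval (Sum.elim p q) d ^ N = aeval (Sum.elim p q) f := by
  induction H using MvPolynomial.induction_on with
  | C a =>
    refine ⟨0, C a, ?_, ?_⟩
    · simp
    · simp
  | add H₁ H₂ h₁ h₂ =>
    obtain ⟨N₁, f₁, h1, h1'⟩ := h₁
    obtain ⟨N₂, f₂, h2, h2'⟩ := h₂
    refine ⟨N₁ + N₂, f₁ * d ^ N₂ + f₂ * d ^ N₁, ?_, ?_⟩
    · rw [map_add, map_add, map_mul, map_mul, map_pow, map_pow, ← h1, ← h2, pow_add]
      ring
    · rw [map_add, map_add, map_mul, map_mul, map_pow, map_pow, ← h1', ← h2', pow_add]
      ring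
  | mul_X H i h =>
    obtain ⟨N, f, h1, h1'⟩ := h
    cases i with
    | none =>
      refine ⟨N + 1, f, ?_, ?_⟩
      · rw [map_mul, aeval_X, ← h1, pow_succ]
        simp only [Option.elim_none]
        field_simp
      · rw [map_mul, aeval_X, ← h1', pow_succ]
        simp only [Option.elim_none]
        field_simp
    | some s =>
      refine ⟨N, f * X s, ?_, ?_⟩
      · rw [map_mul, map_mul, aeval_X, aeval_X, ← h1]
        simp only [Option.elim_some]
        ring
      · rw [map_mul, map_mul, aeval_X, aeval_X, ← h1']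
        simp only [Option.elim_some]
        ring

/-- SC-28c: the evaluation homomorphism.

Proof. `k[x, y] := (aeval (Sum.elim x y)).range ≅ MvPolynomial / ker`, the evaluation at `(p, q)` factors
through it by `hp`; `locA` is its localisation at (the powers of) `d(x, y)`; or: every element of
`locA x y d` is `f(x, y) / d(x, y) ^ N`, define `φ` of it as `f(p, q) / d(p, q) ^ N`
(well defined by `hp`). `Algebra.adjoin_singleton`-style: `locA` is the range of
`MvPolynomial (Option (Fin n ⊕ Fin n)) k → F`, and its kernel is mapped to zero by the evaluation at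
`(p, q, 1 / d(p, q))`: if `H(x, y, 1/d(x, y)) = 0`, multiply by `d ^ N`. -/
theorem exists_evalHom {k F : Type} [Field k] [Algebra k ℂ] [Field F] [Algebra k F] {n : ℕ}
    (x y : Fin n → F) (d : MvPolynomial (Fin n ⊕ Fin n) k) (hd : aeval (Sum.elim x y) d ≠ 0)
    (p q : Fin n → ℂ)
    (hp : ∀ f : MvPolynomial (Fin n ⊕ Fin n) k, aeval (Sum.elim x y) f = 0 →
      aeval (Sum.elim p q) f = 0)
    (hpd : aeval (Sum.elim p q) d ≠ 0) :
    ∃ φ : locA x y d →ₐ[k] ℂ, ∀ f : MvPolynomial (Fin n ⊕ Fin n) k,
      φ ⟨aeval (Sum.elim x y) f, aeval_mem_locA x y d f⟩ = aeval (Sum.elim p q) f := by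
  classical
  let gF : Option (Fin n ⊕ Fin n) → F :=
    fun o => o.elim (aeval (Sum.elim x y) d)⁻¹ (Sum.elim x y)
  let gC : Option (Fin n ⊕ Fin n) → ℂ :=
    fun o => o.elim (aeval (Sum.elim p q) d)⁻¹ (Sum.elim p q)
  have hker : ∀ H : MvPolynomial (Option (Fin n ⊕ Fin n)) k, aeval gF H = 0 → aeval gC H = 0 := by
    intro H hH
    obtain ⟨N, f, h1, h2⟩ := exists_numer x y d hd p q hpd H
    have h3 : aeval (Sum.elim x y) f = 0 := by
      rw [← h1]
      change aeval gF H * _ = 0
      rw [hH, zero_mul]
    have h4 := hp f h3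
    rw [h4] at h2
    exact (mul_eq_zero.mp h2).resolve_right (pow_ne_zero _ hpd)
  have hrange : Set.range gF =
      Set.range x ∪ Set.range y ∪ {(aeval (Sum.elim x y) d)⁻¹} := by
    ext z
    constructor
    · rintro ⟨o, rfl⟩
      cases o with
      | none => exact Or.inr rfl
      | some s =>
        cases s with
        | inl i => exact Or.inl (Or.inl ⟨i, rfl⟩)
        | inr i => exact Or.inl (Or.inr ⟨i, rfl⟩)
    · rintro ((⟨i, rfl⟩ | ⟨i, rfl⟩) | h)
      · exact ⟨some (Sum.inl i), rfl⟩
      · exact ⟨some (Sum.inr i), rfl⟩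
      · exact ⟨none, h.symm⟩
  have hloc : locA x y d = (aeval gF : MvPolynomial (Option (Fin n ⊕ Fin n)) k →ₐ[k] F).range := by
    rw [locA, ← hrange, Algebra.adjoin_range_eq_range_aeval]
  -- the surjection onto `locA`
  have hmem : ∀ H : MvPolynomial (Option (Fin n ⊕ Fin n)) k, aeval gF H ∈ locA x y d := by
    intro H
    rw [hloc]
    exact ⟨H, rfl⟩
  let π : MvPolynomial (Option (Fin n ⊕ Fin n)) k →ₐ[k] locA x y d :=
    (aeval gF : MvPolynomial (Option (Fin n ⊕ Fin n)) k →ₐ[k] F).codRestrict (locA x y d) hmem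
  have hπ : Function.Surjective π := by
    rintro ⟨a, ha⟩
    have ha' := ha
    rw [hloc] at ha'
    obtain ⟨H, hH⟩ := ha'
    exact ⟨H, Subtype.ext hH⟩
  have hk : ∀ H : MvPolynomial (Option (Fin n ⊕ Fin n)) k, H ∈ RingHom.ker π → aeval gC H = 0 := by
    intro H hH
    apply hker
    have := congrArg Subtype.val (RingHom.mem_ker.mp hH)
    exact this
  let φ₀ : (MvPolynomial (Option (Fin n ⊕ Fin n)) k ⧸ RingHom.ker π) →ₐ[k] ℂ :=
    Ideal.Quotient.liftₐ (RingHom.ker π) (aeval gC) hk
  let e : (MvPolynomial (Option (Fin n ⊕ Fin n)) k ⧸ RingHom.ker π) ≃ₐ[k] locA x y d :=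
    Ideal.quotientKerAlgEquivOfSurjective hπ
  refine ⟨φ₀.comp e.symm.toAlgHom, fun f => ?_⟩
  have h5 : e (Ideal.Quotient.mk _ (rename some f)) =
      ⟨aeval (Sum.elim x y) f, aeval_mem_locA x y d f⟩ := by
    apply Subtype.ext
    change aeval gF (rename some f) = _
    rw [aeval_rename]
    rfl
  rw [← h5]
  change φ₀ (e.symm (e _)) = _
  rw [AlgEquiv.symm_apply_apply]
  change aeval gC (rename some f) = _
  rw [aeval_rename]
  rfl

end Pool.Agent.Lib.MP_209724_lc.SC
end

section

namespace Pool.Agent.Lib.MP_209724_lc.SC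

open MvPolynomial

/-- Words map a subalgebra stable under the derivations to itself. -/
private theorem word_mem {k F : Type} [Field k] [Field F] [Algebra k F] {e : ℕ}
    (D : Fin e → Derivation k F F) (A : Subalgebra k F) (hmem : ∀ l, ∀ a ∈ A, D l a ∈ A)
    (β : List (Fin e)) {a : F} (ha : a ∈ A) : word D β a ∈ A := by
  induction β with
  | nil => exact ha
  | cons l β ih => exact hmem l _ ih

/-- Words are additive. -/
private theorem word_add' {k F : Type} [Field k] [Field F] [Algebra k F] {e : ℕ}
    (D : Fin e → Derivation k F F) (β : List (Fin e)) (a b : F) :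
    word D β (a + b) = word D β a + word D β b := by
  induction β with
  | nil => rfl
  | cons l β ih =>
    change D l (word D β (a + b)) = D l (word D β a) + D l (word D β b)
    rw [ih, map_add]

/-- Words are additive. -/
private theorem word_sum' {k F : Type} [Field k] [Field F] [Algebra k F] {e : ℕ}
    (D : Fin e → Derivation k F F) (β : List (Fin e)) {ι : Type} (s : Finset ι) (a : ι → F) :
    word D β (∑ i ∈ s, a i) = ∑ i ∈ s, word D β (a i) := by
  induction β with
  | nil => rfl
  | cons l β ih =>
    change D l (word D β (∑ i ∈ s, a i)) = ∑ i ∈ s, D l (word D β (a i))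
    rw [ih, map_sum]

/-- Words are `k`-linear. -/
private theorem word_mul' {k F : Type} [Field k] [Field F] [Algebra k F] {e : ℕ}
    (D : Fin e → Derivation k F F) (β : List (Fin e)) (c : k) (a : F) :
    word D β (algebraMap k F c * a) = algebraMap k F c * word D β a := by
  induction β with
  | nil => rfl
  | cons l β ih =>
    change D l (word D β (algebraMap k F c * a)) = algebraMap k F c * D l (word D β a)
    rw [ih, ← Algebra.smul_def, (D l).map_smul, Algebra.smul_def]

/-- Nonempty words kill the constants. -/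
private theorem word_const {k F : Type} [Field k] [Field F] [Algebra k F] {e : ℕ}
    (D : Fin e → Derivation k F F) (β : List (Fin e)) (hβ : β ≠ []) (c : k) :
    word D β (algebraMap k F c) = 0 := by
  induction β with
  | nil => exact absurd rfl hβ
  | cons l β ih =>
    change D l (word D β (algebraMap k F c)) = 0
    by_cases h : β = []
    · subst h
      exact (D l).map_algebraMap c
    · rw [ih h, map_zero]

/-- SC-30: integral relations between the coordinates of `p` modulo constants come from relations on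
the variety. (`hchain` is the conclusion of `chain`.)

Proof. Let `b = ∑ m_j x_j ∈ A`, so `φ b = ∑ m_j p_j`. Claim: `φ (word D β b) = 0` for all `β ≠ []`. The matrix
`(E l' (expG (G l) p))_{l', l}` is invertible (`hE2`), so it is enough to see
`∑_l E l' (expG (G l) p) * φ (D l c) = 0` for all `l'`, where `c = word D β' b`, `β = l :: β'`; this is
`E l' (φ c)` by `hchain`, which is `0`: if `β' = []` by `hm`, otherwise because `φ c = 0` by induction.
Now with the `b`'s of `hC`, `∑ m_j x_j = ∑_i c_i x_{C i} + const` with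
`c_i = ∑_j m_j b_{ji} ∈ k`, so `word D (α i') (∑ m_j x_j) = ∑_i c_i word D (α i') (x (C i))` (the words
are `k`-linear and kill constants since `α i' ≠ []`). Applying `φ`: the vector `(c_i)` is in the kernel of
the matrix `φ (word D (α i') (x (C i)))`, whose determinant is not zero (`hdet'`: the determinant is a
unit of `A`). So the `c_i` are zero in `ℂ`, hence in `k`, and `∑ m_j x_j` is a constant. -/
theorem rel_of_rel {k F : Type} [Field k] [Algebra k ℂ] [Field F] [Algebra k F] {n e r : ℕ}
    (x y : Fin n → F) (d : MvPolynomial (Fin n ⊕ Fin n) k) (D : Fin e → Derivation k F F)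
    (hmem : ∀ l, ∀ a ∈ locA x y d, D l a ∈ locA x y d)
    (G : Fin e → MvPolynomial (Fin n ⊕ Fin n) k)
    (p : Fin n → ℂ) (φ : locA x y d →ₐ[k] ℂ) (hφ : ∀ i, φ ⟨x i, x_mem_locA x y d i⟩ = p i)
    (E : Fin e → Derivation k ℂ ℂ)
    (hchain : ∀ l' (a : locA x y d),
      E l' (φ a) = ∑ l, E l' (expG (G l) p) * φ ⟨D l a, hmem l a a.2⟩)
    (hE2 : Matrix.det (fun l' l => E l' (expG (G l) p)) ≠ 0)
    (α : Fin r → List (Fin e)) (C : Fin r → Fin n) (hα : ∀ i, α i ≠ [])
    (hdet : Matrix.det (fun i j => word D (α i) (x (C j))) ≠ 0)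
    (hdet' : (Matrix.det (fun i j => word D (α i) (x (C j))))⁻¹ ∈ locA x y d)
    (hC : ∀ j, ∃ (b : Fin r → k) (b₀ : k),
      x j = ∑ i, algebraMap k F (b i) * x (C i) + algebraMap k F b₀)
    (m : Fin n → ℤ) (hm : ∀ l', E l' (∑ j, (m j : ℂ) * p j) = 0) :
    ∃ c : k, ∑ j, (m j : F) * x j = algebraMap k F c := by
  classical
  have hwm : ∀ (β : List (Fin e)) {a : F}, a ∈ locA x y d → word D β a ∈ locA x y d :=
    fun β {a} ha => word_mem D (locA x y d) hmem β ha
  have hintm : ∀ z : ℤ, (z : F) ∈ locA x y d := fun z => intCast_mem _ z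
  -- the element `b`
  have hbm : ∑ j, (m j : F) * x j ∈ locA x y d :=
    sum_mem fun j _ => mul_mem (hintm (m j)) (x_mem_locA x y d j)
  have hφb : φ ⟨∑ j, (m j : F) * x j, hbm⟩ = ∑ j, (m j : ℂ) * p j := by
    have h1 : (⟨∑ j, (m j : F) * x j, hbm⟩ : locA x y d) =
        ∑ j, (m j : locA x y d) * ⟨x j, x_mem_locA x y d j⟩ := by
      apply Subtype.ext
      simp
    rw [h1, map_sum]
    refine Finset.sum_congr rfl fun j _ => ?_
    rw [map_mul, hφ, map_intCast]
  -- words of `b` are killed by `φ`
  have hword : ∀ β : List (Fin e),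
      (β ≠ [] → φ ⟨word D β (∑ j, (m j : F) * x j), hwm β hbm⟩ = 0) ∧
      ∀ l', E l' (φ ⟨word D β (∑ j, (m j : F) * x j), hwm β hbm⟩) = 0 := by
    intro β
    induction β with
    | nil =>
      refine ⟨fun h => absurd rfl h, fun l' => ?_⟩
      have h2 : (⟨word D [] (∑ j, (m j : F) * x j), hwm [] hbm⟩ : locA x y d) =
          ⟨∑ j, (m j : F) * x j, hbm⟩ := rfl
      rw [h2, hφb]
      exact hm l'
    | cons l β ih =>
      have hz : φ ⟨word D (l :: β) (∑ j, (m j : F) * x j), hwm (l :: β) hbm⟩ = 0 := by
        have hv : (fun l => φ ⟨D l (word D β (∑ j, (m j : F) * x j)),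
            hmem l _ (hwm β hbm)⟩) = 0 := by
          apply Matrix.eq_zero_of_mulVec_eq_zero hE2
          funext l'
          have h3 := hchain l' ⟨word D β (∑ j, (m j : F) * x j), hwm β hbm⟩
          rw [ih.2 l'] at h3
          exact h3.symm
        exact congrFun hv l
      exact ⟨fun _ => hz, fun l' => by rw [hz, map_zero]⟩
  -- expand `b` in the basis
  choose b b₀ hb using hC
  have hexp : ∑ j, (m j : F) * x j =
      ∑ i, algebraMap k F (∑ j, (m j : k) * b j i) * x (C i) +
        algebraMap k F (∑ j, (m j : k) * b₀ j) := by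
    calc ∑ j, (m j : F) * x j
        = ∑ j, (m j : F) * (∑ i, algebraMap k F (b j i) * x (C i) + algebraMap k F (b₀ j)) :=
          Finset.sum_congr rfl fun j _ => by rw [← hb j]
      _ = ∑ j, (∑ i, (m j : F) * algebraMap k F (b j i) * x (C i) +
            (m j : F) * algebraMap k F (b₀ j)) := by
          refine Finset.sum_congr rfl fun j _ => ?_
          rw [mul_add, Finset.mul_sum]
          congr 1
          exact Finset.sum_congr rfl fun i _ => by ring
      _ = _ := by
          rw [Finset.sum_add_distrib, Finset.sum_comm]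
          congr 1
          · refine Finset.sum_congr rfl fun i _ => ?_
            rw [map_sum, Finset.sum_mul]
            refine Finset.sum_congr rfl fun j _ => ?_
            rw [map_mul, map_intCast]
          · rw [map_sum]
            refine Finset.sum_congr rfl fun j _ => ?_
            rw [map_mul, map_intCast]
  -- the coefficients vanish
  have hMdet : (Matrix.det fun i j => φ ⟨word D (α i) (x (C j)),
      hwm (α i) (x_mem_locA x y d (C j))⟩) ≠ 0 := by
    let MA : Matrix (Fin r) (Fin r) (locA x y d) :=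
      fun i j => ⟨word D (α i) (x (C j)), hwm (α i) (x_mem_locA x y d (C j))⟩
    have h4 : ((MA.det : locA x y d) : F) = Matrix.det (fun i j => word D (α i) (x (C j))) := by
      change (locA x y d).val (Matrix.det MA) = _
      rw [AlgHom.map_det]
      rfl
    have h5 : MA.det * ⟨(Matrix.det (fun i j => word D (α i) (x (C j))))⁻¹, hdet'⟩ = 1 := by
      apply Subtype.ext
      change (MA.det : F) * (Matrix.det (fun i j => word D (α i) (x (C j))))⁻¹ = 1
      rw [h4]
      exact mul_inv_cancel₀ hdet
    have h6 : φ MA.det ≠ 0 := by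
      intro h0
      have h7 := congrArg φ h5
      rw [map_mul, h0, zero_mul, map_one] at h7
      exact zero_ne_one h7
    rw [AlgHom.map_det] at h6
    exact h6
  have hcoef : (fun i => algebraMap k ℂ (∑ j, (m j : k) * b j i)) = 0 := by
    apply Matrix.eq_zero_of_mulVec_eq_zero hMdet
    funext i'
    have h8 := (hword (α i')).1 (hα i')
    have h9 : (⟨word D (α i') (∑ j, (m j : F) * x j), hwm (α i') hbm⟩ : locA x y d) =
        ∑ i, algebraMap k (locA x y d) (∑ j, (m j : k) * b j i) *
          ⟨word D (α i') (x (C i)), hwm (α i') (x_mem_locA x y d (C i))⟩ := by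
      apply Subtype.ext
      change word D (α i') (∑ j, (m j : F) * x j) = (locA x y d).val _
      rw [map_sum, hexp, word_add', word_const D (α i') (hα i'), add_zero, word_sum']
      refine Finset.sum_congr rfl fun i _ => ?_
      rw [word_mul', map_mul]
      rfl
    rw [h9, map_sum] at h8
    refine Eq.trans ?_ h8
    change (∑ i, φ ⟨word D (α i') (x (C i)), hwm (α i') (x_mem_locA x y d (C i))⟩ *
      algebraMap k ℂ (∑ j, (m j : k) * b j i)) = _
    refine Finset.sum_congr rfl fun i _ => ?_
    rw [map_mul, AlgHom.commutes, mul_comm]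
  have hc0 : ∀ i, ∑ j, (m j : k) * b j i = 0 := by
    intro i
    have h10 := congrFun hcoef i
    exact (map_eq_zero (algebraMap k ℂ)).mp h10
  refine ⟨∑ j, (m j : k) * b₀ j, ?_⟩
  rw [hexp]
  simp only [hc0, map_zero, zero_mul, Finset.sum_const_zero, zero_add]

end Pool.Agent.Lib.MP_209724_lc.SC
end

section

namespace Pool.Agent.Lib.MP_209724_lc.SC

open MvPolynomial

private theorem ff6_sum {k F : Type} [Field k] [Field F] [Algebra k F] {n : ℕ} (x y a : Fin n → F)
    (H : MvPolynomial (Fin n ⊕ Fin n) k) :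
    ∑ i, aeval (Sum.elim x y) (pderiv i H) * Sum.elim a (fun j => y j * a j) i =
      ∑ j, aeval (Sum.elim x y) (eD j H) * a j := by
  rw [Fintype.sum_sum_type, ← Finset.sum_add_distrib]
  refine Finset.sum_congr rfl fun j _ => ?_
  simp only [eD, map_add, map_mul, aeval_X, Sum.elim_inl, Sum.elim_inr]
  ring

private theorem ff6_deriv {k F σ : Type} [Field k] [Field F] [Algebra k F] [Fintype σ] (u : σ → F)
    (D : Derivation k F F) (H : MvPolynomial σ k) :
    D (aeval u H) = ∑ i, aeval u (pderiv i H) * D (u i) := by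
  classical
  induction H using MvPolynomial.induction_on with
  | C a =>
    simp only [aeval_C, Derivation.map_algebraMap, pderiv_C, map_zero, zero_mul, Finset.sum_const_zero]
  | add p q hp hq =>
    simp only [map_add, hp, hq, add_mul, Finset.sum_add_distrib]
  | mul_X p i hp =>
    simp only [map_mul, aeval_X, Derivation.leibniz, hp, smul_eq_mul, pderiv_X, map_add, add_mul,
      Finset.sum_add_distrib]
    congr 1
    · rw [Finset.sum_eq_single i]
      · rw [Pi.single_eq_same, map_one, mul_one]
      · intro j _ hj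
        rw [Pi.single_eq_of_ne (Ne.symm hj), map_zero, mul_zero, zero_mul]
      · intro h
        exact absurd (Finset.mem_univ i) h
    · rw [Finset.mul_sum]
      refine Finset.sum_congr rfl fun j _ => ?_
      ring

/-- SC-27: enough equations.

Proof. For a polynomial `f` let `ν_f = (aeval (x, y) (eD j f))_j ∈ F^n`. Claim: the vectors `ν_f` for
`f` with `f(x, y) = 0` and for `f = G l` span `F^n`. Otherwise there is `a ∈ F^n`, `a ≠ 0`, with
`∑_j a_j ν_{f, j} = 0` for all these `f`. By `exists_tangent` for `L = F`, `u = (x, y)`,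
`w = (a, (y_i a_i)_i)` there is a derivation `D` with `D (x i) = a i`, `D (y i) = y i * a i`; and
`D (G l (x, y)) = ∑_j a_j ν_{G l, j} = 0`. By `hG`, `D = 0`, so `a = 0`. Choose a basis of `F^n` among these
vectors. -/
theorem exists_delta {k F : Type} [Field k] [CharZero k] [Field F] [Algebra k F] {n e : ℕ}
    (x y : Fin n → F) (G : Fin e → MvPolynomial (Fin n ⊕ Fin n) k)
    (hG : ∀ D : Derivation k F F, (∀ i, D (y i) = y i * D (x i)) →
      (∀ l, D (aeval (Sum.elim x y) (G l)) = 0) → D = 0) :
    ∃ f : Fin n → MvPolynomial (Fin n ⊕ Fin n) k,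
      (∀ i, aeval (Sum.elim x y) (f i) = 0 ∨ ∃ l, f i = G l) ∧
      Matrix.det (fun i j => aeval (Sum.elim x y) (eD j (f i))) ≠ 0 := by
  classical
  have hspan : Submodule.span F ((fun (f : MvPolynomial (Fin n ⊕ Fin n) k) (j : Fin n) =>
      aeval (Sum.elim x y) (eD j f)) '' {f | aeval (Sum.elim x y) f = 0 ∨ ∃ l, f = G l}) = ⊤ := by
    by_contra hne
    obtain ⟨g, hg0, hg⟩ := Submodule.exists_le_ker_of_lt_top _ (lt_top_iff_ne_top.2 hne)
    have hgS : ∀ f : MvPolynomial (Fin n ⊕ Fin n) k, (aeval (Sum.elim x y) f = 0 ∨ ∃ l, f = G l) →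
        ∑ j, aeval (Sum.elim x y) (eD j f) * g (fun i => if j = i then 1 else 0) = 0 := by
      intro f hf
      have h1 : (fun j : Fin n => aeval (Sum.elim x y) (eD j f)) ∈ LinearMap.ker g :=
        hg (Submodule.subset_span ⟨f, hf, rfl⟩)
      have h2 := LinearMap.pi_apply_eq_sum_univ g (fun j : Fin n => aeval (Sum.elim x y) (eD j f))
      rw [LinearMap.mem_ker.1 h1] at h2
      simpa only [smul_eq_mul] using h2.symm
    have hw := exists_tangent (k := k) (Sum.elim x y) (Sum.elim (fun j => g (fun i => if j = i then 1 else 0))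
      (fun j => y j * g (fun i => if j = i then 1 else 0))) (fun H hH => by
        rw [ff6_sum]
        exact hgS H (Or.inl hH))
    obtain ⟨D, hD⟩ := hw
    have hDx : ∀ i, D (x i) = g (fun j => if i = j then 1 else 0) := fun i => hD (Sum.inl i)
    have hDy : ∀ i, D (y i) = y i * g (fun j => if i = j then 1 else 0) := fun i => hD (Sum.inr i)
    have h0 : D = 0 := by
      refine hG D (fun i => by rw [hDx, hDy]) fun l => ?_
      rw [ff6_deriv]
      have h1 : ∀ i, D (Sum.elim x y i) = Sum.elim (fun j => g (fun i => if j = i then 1 else 0))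
          (fun j => y j * g (fun i => if j = i then 1 else 0)) i := hD
      simp only [h1]
      rw [ff6_sum]
      exact hgS (G l) (Or.inr ⟨l, rfl⟩)
    apply hg0
    apply LinearMap.ext
    intro v
    rw [LinearMap.pi_apply_eq_sum_univ g v, LinearMap.zero_apply]
    refine Finset.sum_eq_zero fun i _ => ?_
    rw [← hDx i, h0, Derivation.zero_apply, smul_zero]
  obtain ⟨b, hbS, hbs, hbl⟩ := exists_linearIndependent F
    ((fun (f : MvPolynomial (Fin n ⊕ Fin n) k) (j : Fin n) =>
      aeval (Sum.elim x y) (eD j f)) '' {f | aeval (Sum.elim x y) f = 0 ∨ ∃ l, f = G l})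
  rw [hspan] at hbs
  have hfin : Finite b := hbl.finite
  have hft : Fintype b := Fintype.ofFinite b
  let B := Module.Basis.mk hbl (by rw [Subtype.range_coe, hbs])
  have hcard : Fintype.card b = n := by
    rw [← Module.finrank_eq_card_basis B, Module.finrank_fin_fun]
  let e := Fintype.equivFinOfCardEq hcard
  have hch : ∀ i : Fin n, ∃ f : MvPolynomial (Fin n ⊕ Fin n) k,
      (aeval (Sum.elim x y) f = 0 ∨ ∃ l, f = G l) ∧
      (fun j : Fin n => aeval (Sum.elim x y) (eD j f)) = ((e.symm i : b) : Fin n → F) := by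
    intro i
    obtain ⟨f, hf, hf2⟩ := hbS (e.symm i).2
    exact ⟨f, hf, hf2⟩
  choose f hf1 hf2 using hch
  refine ⟨f, hf1, ?_⟩
  have hli : LinearIndependent F (fun i : Fin n => ((e.symm i : b) : Fin n → F)) :=
    hbl.comp e.symm e.symm.injective
  have hli2 : LinearIndependent F (fun (i : Fin n) (j : Fin n) => aeval (Sum.elim x y) (eD j (f i))) := by
    have : (fun (i : Fin n) (j : Fin n) => aeval (Sum.elim x y) (eD j (f i))) =
        (fun i : Fin n => ((e.symm i : b) : Fin n → F)) := by
      funext i
      exact hf2 i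
    rw [this]
    exact hli
  have hu := Matrix.linearIndependent_rows_iff_isUnit.1
    (show LinearIndependent F (Matrix.row (Matrix.of fun (i : Fin n) (j : Fin n) =>
      aeval (Sum.elim x y) (eD j (f i)))) from hli2)
  exact ((Matrix.isUnit_iff_isUnit_det _).1 hu).ne_zero

end Pool.Agent.Lib.MP_209724_lc.SC
end

section

namespace Pool.Agent.Lib.MP_209724_lc.SC

open MvPolynomial

/-- SC-31: Ax's theorem at the point `p`.

Proof. `ax` for `ℂ`, `E`, `x = p`, `y = exp ∘ p`, `ι = Fin n`, `κ = Fin e`. `hlin`: if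
`∑_l c_l E l (p i) = 0` for all `i`, then `∑_l c_l E l (expG H p) = 0` for every polynomial `H`
(`E l (expG H p) = ∑_i expG (eD i H) p * E l (p i)`: `E l` is a derivation over `k`, induction on `H`),
in particular for `H = G l'`; so `c = 0` by `hE2`. The family is algebraically independent over
`consts E`, hence over `k` (`AlgebraicIndependent.restrictScalars`). -/
theorem ax_point {k : Type} [Field k] [Algebra k ℂ] {n e : ℕ} (p : Fin n → ℂ)
    (E : Fin e → Derivation k ℂ ℂ)
    (hE : ∀ l z, E l (Complex.exp z) = Complex.exp z * E l z)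
    (G : Fin e → MvPolynomial (Fin n ⊕ Fin n) k)
    (hE2 : Matrix.det (fun l' l => E l' (expG (G l) p)) ≠ 0)
    (hind : ∀ m : Fin n → ℤ, (∀ l, E l (∑ j, (m j : ℂ) * p j) = 0) → m = 0) :
    ∃ s : Fin n ⊕ Fin e → ℂ, AlgebraicIndependent k s ∧
      ∀ a, s a ∈ Set.range p ∪ Set.range fun i => Complex.exp (p i) := by
  have : CharZero k := (algebraMap k ℂ).charZero
  have hlin : LinearIndependent ℂ fun (l : Fin e) (i : Fin n) => E l (p i) := by
    rw [Fintype.linearIndependent_iff]
    intro c hc
    have h1 : ∀ i, ∑ l, c l * E l (p i) = 0 := fun i => by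
      have h := congrFun hc i
      simpa only [Finset.sum_apply, Pi.smul_apply, smul_eq_mul, Pi.zero_apply] using h
    have h2 : ∀ H : MvPolynomial (Fin n ⊕ Fin n) k, ∑ l, c l * E l (expG H p) = 0 := by
      intro H
      unfold expG
      induction H using MvPolynomial.induction_on with
      | C a =>
        refine Finset.sum_eq_zero fun l _ => ?_
        rw [MvPolynomial.aeval_C, Derivation.map_algebraMap, mul_zero]
      | add f g hf hg =>
        simp only [map_add, mul_add, Finset.sum_add_distrib]
        rw [hf, hg, add_zero]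
      | mul_X f j hf =>
        have h3 : ∑ l, c l * E l (Sum.elim p (fun i => Complex.exp (p i)) j) = 0 := by
          rcases j with i | i
          · exact h1 i
          · show ∑ l, c l * E l (Complex.exp (p i)) = 0
            have h4 : ∀ l, c l * E l (Complex.exp (p i)) = Complex.exp (p i) * (c l * E l (p i)) :=
              fun l => by rw [hE]; ring
            rw [Finset.sum_congr rfl fun l _ => h4 l, ← Finset.mul_sum, h1 i, mul_zero]
        have h5 : ∀ l, c l * E l (aeval (Sum.elim p fun i => Complex.exp (p i)) (f * X j)) =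
            aeval (Sum.elim p fun i => Complex.exp (p i)) f *
              (c l * E l (Sum.elim p (fun i => Complex.exp (p i)) j)) +
            Sum.elim p (fun i => Complex.exp (p i)) j *
              (c l * E l (aeval (Sum.elim p fun i => Complex.exp (p i)) f)) := fun l => by
          rw [map_mul, aeval_X, Derivation.leibniz, smul_eq_mul, smul_eq_mul]
          ring
        rw [Finset.sum_congr rfl fun l _ => h5 l, Finset.sum_add_distrib, ← Finset.mul_sum,
          ← Finset.mul_sum, h3, hf, mul_zero, mul_zero, add_zero]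
    have h6 : c = 0 := by
      refine Matrix.eq_zero_of_vecMul_eq_zero hE2 ?_
      funext l
      exact h2 (G l)
    intro l
    rw [h6]
    rfl
  obtain ⟨s, hs, hs'⟩ := ax E p (fun i => Complex.exp (p i)) (fun i => Complex.exp_ne_zero _)
    (fun l i => hE l (p i)) hind hlin
  exact ⟨s, hs.restrictScalars (algebraMap k (consts E)).injective, hs'⟩

end Pool.Agent.Lib.MP_209724_lc.SC
end

section

namespace Pool.Agent.Lib.MP_209724_lc.SC

private theorem ff2_zpow {k F : Type} [Field k] [Field F] [Algebra k F] (D : Derivation k F F) {x y : F}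
    (hy : y ≠ 0) (h : D y = y * D x) (b : ℤ) : D (y ^ b) = y ^ b * ((b : F) * D x) := by
  rw [Derivation.leibniz_zpow, h, zsmul_eq_mul, smul_eq_mul]
  have h1 : y ^ b = y ^ (b - 1) * y := by
    rw [← zpow_add_one₀ hy, sub_add_cancel]
  rw [h1]
  ring

private theorem ff2_prod {k F : Type} [Field k] [Field F] [Algebra k F] (D : Derivation k F F) {n : ℕ}
    {x y : Fin n → F} (hy : ∀ i, y i ≠ 0) (h : ∀ i, D (y i) = y i * D (x i)) (b : Fin n → ℤ)
    (S : Finset (Fin n)) :
    D (∏ j ∈ S, y j ^ b j) = (∏ j ∈ S, y j ^ b j) * ∑ j ∈ S, (b j : F) * D (x j) := by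
  classical
  induction S using Finset.induction_on with
  | empty => simp
  | insert i S hi ih =>
    rw [Finset.prod_insert hi, Finset.sum_insert hi, Derivation.leibniz, ih, ff2_zpow D (hy i) (h i),
      smul_eq_mul, smul_eq_mul]
    ring

/-- transcendence degree count -/
private theorem ff2_count {k F : Type} [Field k] [Field F] [Algebra k F] {n e r : ℕ}
    (Λ : IntermediateField k F) (htd : Algebra.trdeg k F = ((n + e : ℕ) : Cardinal)) {κ : Type}
    [Fintype κ] {s : κ → F} (hs : AlgebraicIndependent Λ s) (hκ : Fintype.card κ + r = n + e)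
    (t : Fin (r + 1) → F) (ht : AlgebraicIndependent k t) (htΛ : ∀ i, t i ∈ Λ) : False := by
  have h1 : AlgebraicIndependent k (Sum.elim s t) := by
    refine ht.sumElim_of_tower (S := Λ) ?_ hs
    rintro _ ⟨i, rfl⟩
    exact ⟨⟨t i, htΛ i⟩, rfl⟩
  have h2 := h1.cardinalMk_le_trdeg
  rw [htd, Cardinal.mk_sum, Cardinal.mk_fin, Cardinal.mk_fintype, Cardinal.lift_natCast,
    Cardinal.lift_natCast, ← Nat.cast_add, Nat.cast_le] at h2
  omega

/-- SC-23: strictness implies that the derivations have no nontrivial common constants.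

Proof. Let `Λ = consts D`, `C` from `exists_max Λ x`, `r = n - |C|`, and `s : C ⊕ Fin e → F`
algebraically independent over `Λ` from `ax_sub`; `|C| + e = n - r + e`. Suppose there is
`a ∈ Λ` which is not in the image of `k`; then `a` is transcendental over `k` (`k` is algebraically
closed).
If `r = 0`: the family `s` together with `a` (`Sum.elim`) is algebraically independent over `k`, of
cardinality `n + e + 1`, contradiction with `htd`.
If `r > 0`: let `B` be the matrix with the rows `N e_j - m` (`N, m` from `exists_max`) for `j ∉ C` and the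
rows `0` for `j ∈ C`. It has rank `r` (look at the columns `j ∉ C`: a diagonal matrix with nonzero
entries; so rank `≥ r`; that is all we need) and `B ≠ 0`. By `hs` there are `r + 1` algebraically
independent (over `k`) elements among the `(B x)_i`, `(y ^ B)_i`, which all lie in `Λ`:
`D l (y ^ B_i) = y ^ B_i * D l ((B x)_i) = 0`. Together with `s` this gives `r + 1 + n - r + e` elements
algebraically independent over `k`, contradiction. (A family independent over `k` in `Λ` and one
independent over `Λ` are together independent over `k`: `AlgebraicIndependent.sumElim` or via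
`Algebra.trdeg_add_eq`.) -/
theorem consts_eq {k F : Type} [Field k] [IsAlgClosed k] [CharZero k] [Field F] [Algebra k F]
    {n e : ℕ} (D : Fin e → Derivation k F F) (x y : Fin n → F) (hy : ∀ i, y i ≠ 0)
    (hxy : ∀ l i, D l (y i) = y i * D l (x i))
    (hlin : LinearIndependent F fun (l : Fin e) (i : Fin n) => D l (x i))
    (htd : Algebra.trdeg k F = ((n + e : ℕ) : Cardinal)) (hs : Strict k x y) (a : F)
    (ha : ∀ l, D l a = 0) : ∃ c : k, a = algebraMap k F c := by
  classical
  by_contra hcon
  have haT : Transcendental k a := by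
    intro halg
    apply hcon
    have h1 := IsAlgClosed.degree_eq_one_of_irreducible k (minpoly.irreducible halg.isIntegral)
    obtain ⟨c, hc⟩ := minpoly.mem_range_of_degree_eq_one k a h1
    exact ⟨c, hc.symm⟩
  obtain ⟨C, hC1, hC2⟩ := exists_max (consts D) x
  obtain ⟨s, hsI, -⟩ := ax_sub D x y hy hxy hlin C hC1 hC2
  have hCn : C.card ≤ n := by
    simpa using Finset.card_le_univ C
  by_cases hr : C.card = n
  · refine ff2_count (r := 0) (consts D) htd hsI ?_ (fun _ => a) ?_ fun _ => ha
    · rw [Fintype.card_sum, Fintype.card_coe, Fintype.card_fin, hr, add_zero]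
    · have hu : Unique (Fin (0 + 1)) := inferInstanceAs (Unique (Fin 1))
      exact (algebraicIndependent_unique_type_iff (x := fun _ : Fin (0 + 1) => a)).2 haT
  · have hex : ∀ j : Fin n, ∃ (N : ℤ) (m : Fin n → ℤ), j ∉ C → N ≠ 0 ∧ (∀ i, i ∉ C → m i = 0) ∧
        (N : F) * x j - ∑ i, (m i : F) * x i ∈ consts D := by
      intro j
      by_cases hj : j ∈ C
      · exact ⟨0, 0, fun h => absurd hj h⟩
      · obtain ⟨N, m, h⟩ := hC2 j hj
        exact ⟨N, m, fun _ => h⟩
    choose N m hNm using hex
    obtain ⟨B, hB⟩ : ∃ B : Matrix (Fin n) (Fin n) ℤ, B = fun i j =>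
        if i ∈ C then 0 else (if j = i then N i else 0) - m i j := ⟨_, rfl⟩
    have hBC : ∀ i ∈ C, ∀ j, B i j = 0 := fun i hi j => by rw [hB]; simp [hi]
    have hBN : ∀ i, i ∉ C → ∀ j, B i j = (if j = i then N i else 0) - m i j := fun i hi j => by
      rw [hB]; simp [hi]
    have hsum : ∀ i, ∑ j, (B i j : F) * x j ∈ consts D := by
      intro i
      by_cases hi : i ∈ C
      · have h0 : ∑ j, (B i j : F) * x j = 0 := by
          apply Finset.sum_eq_zero
          intro j _
          rw [hBC i hi j]
          simp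
        rw [h0]
        exact zero_mem _
      · have h0 : ∑ j, (B i j : F) * x j = (N i : F) * x i - ∑ j, (m i j : F) * x j := by
          have h1 : ∀ j, (B i j : F) * x j =
              (if j = i then (N i : F) * x i else 0) - (m i j : F) * x j := by
            intro j
            rw [hBN i hi j]
            by_cases hji : j = i
            · rw [hji]
              push_cast
              simp
              ring
            · simp [hji]
          rw [Finset.sum_congr rfl fun j _ => h1 j, Finset.sum_sub_distrib]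
          simp
        rw [h0]
        exact (hNm i hi).2.2
    have hprod : ∀ i, ∏ j, y j ^ B i j ∈ consts D := by
      intro i l
      rw [ff2_prod (D l) hy (hxy l) (B i) Finset.univ]
      have h1 : D l (∑ j, (B i j : F) * x j) = ∑ j, (B i j : F) * D l (x j) := by
        rw [map_sum]
        apply Finset.sum_congr rfl
        intro j _
        rw [Derivation.leibniz, smul_eq_mul, smul_eq_mul]
        have h2 : D l ((B i j : ℤ) : F) = 0 := by
          exact Derivation.map_intCast (D l) (B i j)
        rw [h2, mul_zero, add_zero]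
      rw [← h1, hsum i l, mul_zero]
    -- the rank
    have hrank : n - C.card ≤ (B.map (Int.cast : ℤ → ℚ)).rank := by
      have h1 := Matrix.rank_submatrix_le (B.map (Int.cast : ℤ → ℚ))
        (Subtype.val : {i // i ∉ C} → Fin n) (Subtype.val : {i // i ∉ C} → Fin n)
      have h2 : (B.map (Int.cast : ℤ → ℚ)).submatrix (Subtype.val : {i // i ∉ C} → Fin n)
          (Subtype.val : {i // i ∉ C} → Fin n) = Matrix.diagonal fun i : {i // i ∉ C} => (N i : ℚ) := by
        ext i j
        rw [Matrix.submatrix_apply, Matrix.map_apply, hBN i i.2 j, (hNm i i.2).2.1 j j.2,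
          Matrix.diagonal_apply]
        by_cases hij : i = j
        · rw [hij]; simp
        · have : (j : Fin n) ≠ i := fun h => hij (Subtype.ext h.symm)
          simp [hij, this]
      rw [h2, Matrix.rank_of_det_ne_zero] at h1
      · rw [Fintype.card_subtype_compl, Fintype.card_fin, Fintype.card_coe] at h1
        exact h1
      · rw [Matrix.det_diagonal, Finset.prod_ne_zero_iff]
        intro i _
        exact_mod_cast (hNm i i.2).1
    have hB0 : B ≠ 0 := by
      intro h0
      rw [h0] at hrank
      have h1 : ((0 : Matrix (Fin n) (Fin n) ℤ).map (Int.cast : ℤ → ℚ)) = 0 := by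
        ext i j
        simp
      rw [h1, Matrix.rank_zero] at hrank
      omega
    obtain ⟨t, ht, htr⟩ := hs B hB0
    have htΛ : ∀ i, t i ∈ consts D := by
      intro i
      rcases htr i with ⟨j, hj⟩ | ⟨j, hj⟩
      · rw [← hj]
        exact hsum j
      · rw [← hj]
        exact hprod j
    have hle : n - C.card + 1 ≤ (B.map (Int.cast : ℤ → ℚ)).rank + 1 := by omega
    refine ff2_count (r := n - C.card) (consts D) htd hsI ?_ (fun i => t (Fin.castLE hle i)) ?_
      fun i => htΛ _
    · rw [Fintype.card_sum, Fintype.card_coe, Fintype.card_fin]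
      omega
    · exact ht.comp _ (Fin.castLE_injective hle)

end Pool.Agent.Lib.MP_209724_lc.SC
end

section

namespace Pool.Agent.Lib.MP_209724_lc.SC

open MvPolynomial

/-- THE CORE: generic exponential points from Zariski dense ones.

`F / k` is the function field of the variety, `k` a countable algebraically closed subfield of `ℂ`;
`G` are `e = dim V - n` polynomials; `hG`: the only derivation compatible with `exp` which kills the
`G l` is `0`; `hpt`: for independent `t` there are exponential points with `G = t` outside a given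
proper subvariety. Then there is an exponential point generic over `k`. -/
theorem core {k F : Type} [Field k] [IsAlgClosed k] [Countable k] [Algebra k ℂ] [Field F]
    [Algebra k F] {n e : ℕ} (x y : Fin n → F) (hy : ∀ i, y i ≠ 0)
    (hgen : IntermediateField.adjoin k (Set.range x ∪ Set.range y) = ⊤)
    (htd : Algebra.trdeg k F = ((n + e : ℕ) : Cardinal)) (hs : Strict k x y)
    (G : Fin e → MvPolynomial (Fin n ⊕ Fin n) k)
    (hG : ∀ D : Derivation k F F, (∀ i, D (y i) = y i * D (x i)) →
      (∀ l, D (aeval (Sum.elim x y) (G l)) = 0) → D = 0)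
    (hpt : ∀ t : Fin e → ℂ, AlgebraicIndependent k t →
      ∀ d : MvPolynomial (Fin n ⊕ Fin n) k, aeval (Sum.elim x y) d ≠ 0 →
        ∃ p : Fin n → ℂ, (∀ f : MvPolynomial (Fin n ⊕ Fin n) k, aeval (Sum.elim x y) f = 0 →
          expG f p = 0) ∧ expG d p ≠ 0 ∧ ∀ l, expG (G l) p = t l) :
    ∃ p : Fin n → ℂ, (∀ f : MvPolynomial (Fin n ⊕ Fin n) k, aeval (Sum.elim x y) f = 0 →
        expG f p = 0) ∧
      ∃ s : Fin n ⊕ Fin e → ℂ, AlgebraicIndependent k s ∧
        ∀ a, s a ∈ Set.range p ∪ Set.range fun i => Complex.exp (p i) := by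
  classical
  have hk0 : CharZero k := by
    have := (algebraMap k ℂ).charZero_iff (algebraMap k ℂ).injective
    exact this.2 inferInstance
  obtain ⟨t, E, hE, hdetE⟩ := exists_eders k e
  have ht : AlgebraicIndependent k t := algInd_of_det t E hdetE
  obtain ⟨D, hxy, hdual⟩ := exists_nabla x y htd (fun l => aeval (Sum.elim x y) (G l)) hG
  have hlin := nabla_lin x y hgen _ D hxy hdual
  have hc : ∀ a : F, (∀ l, D l a = 0) → ∃ c : k, a = algebraMap k F c := fun a ha =>
    consts_eq D x y hy hxy hlin htd hs a ha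
  obtain ⟨r, α, C, hα, hdetα, hC⟩ := exists_words x D hc
  obtain ⟨f, hf, hdetf⟩ := exists_delta x y G hG
  let S : Finset F := (Finset.univ.image fun li : Fin e × Fin n => D li.1 (x li.2)) ∪
    {(Matrix.det (fun i j => aeval (Sum.elim x y) (eD j (f i))))⁻¹,
      (Matrix.det (fun i j => word D (α i) (x (C j))))⁻¹}
  obtain ⟨d, hd, hS⟩ := exists_denom x y hgen S
  have hmem : ∀ l, ∀ a ∈ locA x y d, D l a ∈ locA x y d := by
    intro l a ha
    refine deriv_mem_locA x y d (D l) (hxy l) (fun i => hS _ ?_) ha
    exact Finset.mem_union_left _ (Finset.mem_image.2 ⟨(l, i), Finset.mem_univ _, rfl⟩)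
  obtain ⟨p, hp1, hp2, hp3⟩ := hpt t ht d hd
  obtain ⟨φ, hφ⟩ := exists_evalHom x y d hd p (fun i => Complex.exp (p i)) hp1 hp2
  have hφ' : ∀ f : MvPolynomial (Fin n ⊕ Fin n) k,
      φ ⟨aeval (Sum.elim x y) f, aeval_mem_locA x y d f⟩ = expG f p := hφ
  have hchain : ∀ l' (a : locA x y d),
      E l' (φ a) = ∑ l, E l' (expG (G l) p) * φ ⟨D l a, hmem l a a.2⟩ := fun l' a =>
    chain x y d hd D hxy hmem G hdual f hf hdetf
      (hS _ (Finset.mem_union_right _ (by simp))) p φ hφ' (E l') (hE l') a
  have hE2 : Matrix.det (fun l' l => E l' (expG (G l) p)) ≠ 0 := by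
    simp only [hp3]
    exact hdetE
  have hφx : ∀ i, φ ⟨x i, x_mem_locA x y d i⟩ = p i := by
    intro i
    have h := hφ' (X (Sum.inl i))
    have h1 : aeval (Sum.elim x y) (X (Sum.inl i) : MvPolynomial (Fin n ⊕ Fin n) k) = x i := by
      simp
    have h2 : expG (X (Sum.inl i) : MvPolynomial (Fin n ⊕ Fin n) k) p = p i := by
      simp [expG]
    rw [← h2, ← h]
    congr 1
    exact Subtype.ext h1.symm
  refine ⟨p, hp1, ax_point p E hE G hE2 ?_⟩
  intro m hm
  obtain ⟨c, hc'⟩ := rel_of_rel x y d D hmem G p φ hφx E hchain hE2 α C hα hdetα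
    (hS _ (Finset.mem_union_right _ (by simp))) hC m hm
  exact free_of_strict x y hs m c hc'

end Pool.Agent.Lib.MP_209724_lc.SC
end
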