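import Mathlib
import Pool.Agent.Lib.MP_209724_lc.OV.Defs
import Pool.Agent.Lib.MP_209724_lc.SC.Fin2
import Pool.Agent.Lib.MP_209724_lc.HS.Sector
import Pool.Agent.Lib.MP_209724_lc.OV.LemmaAFin

section

namespace Pool.Agent.Lib.MP_209724_lc.SC

private theorem gn5_mem {k F : Type} [Field k] [Field F] [Algebra k F] (s : Set F) (a : F) :
    a ∈ (AlgebraicIndependent.matroid k F).closure s ↔ IsAlgebraic (Algebra.adjoin k s) a := by
  rw [AlgebraicIndependent.matroid_closure_eq]
  rfl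

private theorem gn5_trans {k F : Type} [Field k] [Field F] [Algebra k F] {s t : Set F}
    (h : ∀ a ∈ s, IsAlgebraic (Algebra.adjoin k t) a) {b : F} (hb : IsAlgebraic (Algebra.adjoin k s) b) :
    IsAlgebraic (Algebra.adjoin k t) b := by
  rw [← gn5_mem] at hb ⊢
  exact (AlgebraicIndependent.matroid k F).closure_subset_closure_of_subset_closure
    (fun a ha => (gn5_mem t a).2 (h a ha)) hb

/-- a coordinate transcendence basis of `k(x)` -/
private theorem gn5_basis {k F : Type} [Field k] [Field F] [Algebra k F] {n n' : ℕ} (x : Fin n → F)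
    (hx : Algebra.trdeg k (Algebra.adjoin k (Set.range x)) = n') :
    ∃ I : Fin n' → Fin n, ∀ i, IsAlgebraic (Algebra.adjoin k (Set.range (x ∘ I))) (x i) := by
  obtain ⟨T, hT, hcard⟩ := exists_coord_basis (k := k) x
  rw [hx] at hcard
  have e : Nonempty (Fin n' ≃ T) := by
    rw [← Cardinal.eq, Cardinal.mk_fin, hcard]
  obtain ⟨e⟩ := e
  let I : Fin n' → Fin n := fun a => (e a : Fin n)
  refine ⟨I, fun i => ?_⟩
  have hxI : AlgebraicIndependent k (x ∘ I) := hT.comp e e.injective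
  set A := Algebra.adjoin k (Set.range x) with hA
  let v : Fin n → A := fun i => ⟨x i, Algebra.subset_adjoin (Set.mem_range_self i)⟩
  have hinj : Function.Injective A.val := Subtype.val_injective
  have hvI : AlgebraicIndependent k (v ∘ I) := by
    have h1 : x ∘ I = A.val ∘ (v ∘ I) := rfl
    rw [h1] at hxI
    exact (A.val.algebraicIndependent_iff hinj).1 hxI
  have hbas : IsTranscendenceBasis k (v ∘ I) :=
    hvI.isTranscendenceBasis_of_trdeg_le_of_finite (by rw [hx, Cardinal.mk_fin])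
  have halg := hbas.isAlgebraic
  have h2 : IsAlgebraic (Algebra.adjoin k (Set.range (v ∘ I))) (v i) := halg.isAlgebraic (v i)
  have hmap : ∀ a : Algebra.adjoin k (Set.range (v ∘ I)), A.val a.1 ∈ Algebra.adjoin k (Set.range (x ∘ I)) := by
    intro a
    have h3 : (Algebra.adjoin k (Set.range (v ∘ I))).map A.val = Algebra.adjoin k (Set.range (x ∘ I)) := by
      rw [AlgHom.map_adjoin, ← Set.range_comp]
      rfl
    rw [← h3]
    exact ⟨a.1, a.2, rfl⟩
  let f : Algebra.adjoin k (Set.range (v ∘ I)) →ₐ[k] Algebra.adjoin k (Set.range (x ∘ I)) :=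
    (A.val.comp (Algebra.adjoin k (Set.range (v ∘ I))).val).codRestrict _ hmap
  have hf : Function.Injective f.toRingHom := by
    intro a b hab
    have h4 : A.val a.1 = A.val b.1 :=
      congrArg (fun c : Algebra.adjoin k (Set.range (x ∘ I)) => (c : F)) hab
    exact Subtype.ext (hinj h4)
  exact h2.ringHom_of_comp_eq f.toRingHom A.val.toRingHom hf rfl

/-- GN-5: a transcendence basis made of `n'` of the `x i`, one `y j` and the `g l` (`n = n' + 1`).

Proof. Choose `I` with `x ∘ I` a transcendence basis of `k(x)` (`hx`; `exists_coord_basis`-like). All of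
`F` is algebraic over `k(x, g, y ^ m)` for one `m ≠ 0` (e.g. `m = Pi.single 0 1`), so over
`k(x ∘ I, g, y j)` with `j = 0` if `m = Pi.single 0 1` (`y ^ m = y 0`); these are `n' + e + 1` elements,
the transcendence degree, so they are algebraically independent
(`IsTranscendenceBasis.of_...le_trdeg_of_finite`: a family of `trdeg` elements over which everything is
algebraic is a transcendence basis, see `isTranscendenceBasis_of_le_trdeg_of_finite`). -/
theorem exists_z {k F : Type} [Field k] [Field F] [Algebra k F] {n' e : ℕ}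
    (x y : Fin (n' + 1) → F) (htd : Algebra.trdeg k F = ((n' + 1 + e : ℕ) : Cardinal))
    (hx : Algebra.trdeg k (Algebra.adjoin k (Set.range x)) = n') (g : Fin e → F)
    (h : ∀ m : Fin (n' + 1) → ℤ, m ≠ 0 → ∀ b : F, IsAlgebraic (Algebra.adjoin k
      (Set.range x ∪ Set.range g ∪ {∏ i, y i ^ m i})) b) :
    ∃ (I : Fin n' → Fin (n' + 1)) (j₀ : Fin (n' + 1)),
      AlgebraicIndependent k (Sum.elim (Fin.snoc (x ∘ I) (y j₀) : Fin (n' + 1) → F) g) ∧
      ∀ i, IsAlgebraic (Algebra.adjoin k (Set.range (x ∘ I))) (x i) := by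
  obtain ⟨I, hI⟩ := gn5_basis x hx
  refine ⟨I, 0, ?_, hI⟩
  set z : Fin (n' + 1) ⊕ Fin e → F := Sum.elim (Fin.snoc (x ∘ I) (y 0) : Fin (n' + 1) → F) g with hz
  have h1 : Set.range (x ∘ I) ⊆ Set.range z := by
    rintro _ ⟨i, rfl⟩
    refine ⟨Sum.inl i.castSucc, ?_⟩
    rw [hz]
    simp
  have h2 : y 0 ∈ Set.range z := by
    refine ⟨Sum.inl (Fin.last n'), ?_⟩
    rw [hz]
    simp
  have h3 : Set.range g ⊆ Set.range z := by
    rintro _ ⟨i, rfl⟩
    exact ⟨Sum.inr i, rfl⟩
  have hself : ∀ a ∈ Set.range z, IsAlgebraic (Algebra.adjoin k (Set.range z)) a := by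
    intro a ha
    exact isAlgebraic_algebraMap (⟨a, Algebra.subset_adjoin ha⟩ : Algebra.adjoin k (Set.range z))
  have hm : (Pi.single 0 1 : Fin (n' + 1) → ℤ) ≠ 0 := by
    intro h0
    have := congrFun h0 0
    rw [Pi.single_eq_same] at this
    exact one_ne_zero this
  have hprod : ∏ i, y i ^ (Pi.single 0 1 : Fin (n' + 1) → ℤ) i = y 0 := by
    rw [Finset.prod_eq_single 0]
    · rw [Pi.single_eq_same, zpow_one]
    · intro i _ hi
      rw [Pi.single_eq_of_ne hi, zpow_zero]
    · intro h0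
      exact absurd (Finset.mem_univ _) h0
  have halg : Algebra.IsAlgebraic (Algebra.adjoin k (Set.range z)) F := by
    constructor
    intro b
    have h4 := h _ hm b
    rw [hprod] at h4
    refine gn5_trans ?_ h4
    rintro a ((⟨i, rfl⟩ | ha) | ha)
    · exact gn5_trans (fun c hc => hself c (h1 hc)) (hI i)
    · exact hself a (h3 ha)
    · rw [Set.mem_singleton_iff] at ha
      rw [ha]
      exact hself _ h2
  have hb : IsTranscendenceBasis k z :=
    Algebra.IsAlgebraic.isTranscendenceBasis_of_le_trdeg_of_finite k z (by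
      rw [htd, Cardinal.mk_sum, Cardinal.mk_fin, Cardinal.mk_fin]
      simp)
  exact hb.1

end Pool.Agent.Lib.MP_209724_lc.SC
end

section

namespace Pool.Agent.Lib.MP_209724_lc.SC

open MvPolynomial

private theorem gn6_tr {R S F Ω : Type} [Field R] [Field S] [Field F] [Field Ω] [Algebra R F] [Algebra S Ω]
    (σ : F →+* Ω) {A : Subalgebra R F} {B : Subalgebra S Ω} (h : ∀ a ∈ A, σ a ∈ B) {b : F}
    (hb : IsAlgebraic A b) : IsAlgebraic B (σ b) := by
  let f : A →+* B := RingHom.codRestrict (σ.comp (A.val : A →+* F)) B fun a => h a a.2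
  refine hb.ringHom_of_comp_eq f σ (fun p q hpq => ?_) ?_
  · have h1 : σ (p : F) = σ (q : F) := congrArg Subtype.val hpq
    exact Subtype.ext (σ.injective h1)
  · ext
    rfl

private theorem gn6_adj {R S F Ω : Type} [Field R] [Field S] [Field F] [Field Ω] [Algebra R F] [Algebra S Ω]
    (σ : F →+* Ω) {T : Set F} {B : Subalgebra S Ω} (h0 : ∀ c : R, σ (algebraMap R F c) ∈ B)
    (hT : ∀ a ∈ T, σ a ∈ B) : ∀ a ∈ Algebra.adjoin R T, σ a ∈ B := by
  intro a ha
  induction ha using Algebra.adjoin_induction with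
  | mem x hx => exact hT x hx
  | algebraMap r => exact h0 r
  | add x y _ _ hx hy =>
    rw [map_add]
    exact B.add_mem hx hy
  | mul x y _ _ hx hy =>
    rw [map_mul]
    exact B.mul_mem hx hy

private theorem gn6_td {n r : ℕ} (f : Fin r → Fin n) (hf : Function.Injective f) :
    OV.td (Set.range fun i => (omX (f i) : Om n)) = r := by
  have h : AlgebraicIndependent ℂ fun i => (omX (f i) : Om n) := (algInd_omX n).comp f hf
  have h1 : (AlgebraicIndependent.matroid ℂ (Om n)).Indep (Set.range fun i => (omX (f i) : Om n)) :=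
    AlgebraicIndependent.matroid_indep_iff.2 h.coe_range
  have h2 : OV.td (Set.range fun i => (omX (f i) : Om n)) = (Set.range fun i => (omX (f i) : Om n)).encard :=
    h1.eRk_eq_encard
  rw [h2, ← Set.image_univ, h.injective.encard_image, Set.encard_univ]
  simp

private theorem gn6_const {k : Type} [Field k] [IsAlgClosed k] [Algebra k ℂ] {c : ℂ} (hc : IsAlgebraic k c) :
    ∃ c₀ : k, algebraMap k ℂ c₀ = c := by
  have h1 := IsAlgClosed.degree_eq_one_of_irreducible k (minpoly.irreducible hc.isIntegral)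
  exact minpoly.mem_range_of_degree_eq_one k c h1

/-- GN-6: properties of the specialised point in the case of codimension one. `n = n' + 1`,
`z = Fin.snoc (x ∘ I) (y j₀)`.

Proof. `σ (x (I i)) = omX i.castSucc`, `σ (y j₀) = omX (last)`. The `omX i` are algebraically independent
over `ℂ` (`algInd_omX`).
(a) `td (range (σ ∘ x)) = n'`: the `σ (x i)` are algebraic over `ℂ(σ (x (I i)))` (apply `σ` to `hI`), and
the latter are `n'` independent elements.
(b) `td (range (σ ∘ x) ∪ range (σ ∘ y)) = n' + 1`: it contains all `omX`, and `td_le_Om`.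
(c) `lin m (σ ∘ x)` is not a constant for `m ≠ 0`: suppose it is `c ∈ ℂ`. `u = ∑ m_i x_i` is algebraic
over `k(x ∘ I)`, so `c = σ u` is algebraic over `k(σ (x (I i)))`. If `c` were transcendental over `k`,
then `(c, (omX i))` would be algebraically independent over `k` (`omX` over `ℂ ∋ c`), contradiction; so
`c` is algebraic over `k`, `c ∈ k` (`k` algebraically closed, inside `ℂ`), and `σ u = σ (c)` gives
`u = c`, against `hfree`.
(d) `mon m (σ ∘ y) ∉ cl (range (σ ∘ x))` for `m ≠ 0`: by `h`, `y j₀` is algebraic over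
`k(x, g, y ^ m)`; apply `σ`: `omX (last)` is algebraic over `ℂ(σ x, σ (y ^ m))` (`σ (g l) ∈ ℂ`), so if
`σ (y ^ m)` were algebraic over `ℂ(σ x)`, then `omX (last)` would be algebraic over
`ℂ(omX i, i < n')`: contradiction. -/
theorem spec_props {k F : Type} [Field k] [IsAlgClosed k] [Algebra k ℂ] [Field F] [Algebra k F]
    {n' e : ℕ} (x y : Fin (n' + 1) → F) (g : Fin e → F) (I : Fin n' → Fin (n' + 1))
    (j₀ : Fin (n' + 1))
    (hI : ∀ i, IsAlgebraic (Algebra.adjoin k (Set.range (x ∘ I))) (x i))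
    (h : ∀ m : Fin (n' + 1) → ℤ, m ≠ 0 → ∀ b : F, IsAlgebraic (Algebra.adjoin k
      (Set.range x ∪ Set.range g ∪ {∏ i, y i ^ m i})) b)
    (hfree : ∀ (m : Fin (n' + 1) → ℤ) (c : k), ∑ j, (m j : F) * x j = algebraMap k F c → m = 0)
    (t : Fin e → ℂ) (σ : F →+* Om (n' + 1))
    (hσ : ∀ c : k, σ (algebraMap k F c) = algebraMap ℂ (Om (n' + 1)) (algebraMap k ℂ c))
    (hσz : ∀ i, σ ((Fin.snoc (x ∘ I) (y j₀) : Fin (n' + 1) → F) i) = omX i)
    (hσg : ∀ l, σ (g l) = algebraMap ℂ (Om (n' + 1)) (t l)) :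
    OV.td (Set.range fun i => σ (x i)) + 1 = ((n' + 1 : ℕ) : ℕ∞) ∧
    OV.td ((Set.range fun i => σ (x i)) ∪ Set.range fun i => σ (y i)) = ((n' + 1 : ℕ) : ℕ∞) ∧
    (∀ m : Fin (n' + 1) → ℤ, m ≠ 0 → ¬ OV.IsConst (OV.lin m fun i => σ (x i))) ∧
    ∀ m : Fin (n' + 1) → ℤ, m ≠ 0 →
      OV.mon m (fun i => σ (y i)) ∉ OV.cl (Set.range fun i => σ (x i)) := by
  classical
  have hx0 : ∀ i, σ (x (I i)) = omX i.castSucc := fun i => by
    have h1 := hσz i.castSucc
    rwa [Fin.snoc_castSucc] at h1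
  have hy0 : σ (y j₀) = omX (Fin.last n') := by
    have h1 := hσz (Fin.last n')
    rwa [Fin.snoc_last] at h1
  -- transfer of algebraic elements
  have htr : ∀ (T : Set F) (b : F), IsAlgebraic (Algebra.adjoin k T) b → σ b ∈ OV.cl (σ '' T) := by
    intro T b hb
    refine gn6_tr σ (gn6_adj σ (fun c => ?_) fun a ha => Algebra.subset_adjoin (Set.mem_image_of_mem σ ha)) hb
    rw [hσ]
    exact Subalgebra.algebraMap_mem _ _
  obtain ⟨X', hX'⟩ : ∃ X' : Set (Om (n' + 1)), X' = Set.range fun i => σ (x i) := ⟨_, rfl⟩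
  obtain ⟨Z, hZ⟩ : ∃ Z : Set (Om (n' + 1)), Z = Set.range fun i : Fin n' => (omX i.castSucc : Om (n' + 1)) := ⟨_, rfl⟩
  have hIZ : σ '' Set.range (x ∘ I) = Z := by
    rw [hZ, ← Set.range_comp]
    congr 1
    funext i
    exact hx0 i
  have hXZ : X' ⊆ OV.cl Z := by
    rw [hX']
    rintro _ ⟨i, rfl⟩
    have h1 := htr _ _ (hI i)
    rwa [hIZ] at h1
  have hZX : Z ⊆ X' := by
    rw [hZ, hX']
    rintro _ ⟨i, rfl⟩
    exact ⟨I i, hx0 i⟩
  have hcl : OV.cl X' = OV.cl Z := OV.cl_eq_of hXZ (hZX.trans (OV.subset_cl _))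
  have htdZ : OV.td Z = (n' : ℕ∞) := by
    rw [hZ]
    exact gn6_td (fun i : Fin n' => i.castSucc) (Fin.castSucc_injective n')
  have htdX : OV.td X' = (n' : ℕ∞) := by rw [OV.td_eq_of_cl hcl, htdZ]
  have hall : OV.td (Set.range (omX : Fin (n' + 1) → Om (n' + 1))) = ((n' + 1 : ℕ) : ℕ∞) :=
    gn6_td (fun i : Fin (n' + 1) => i) Function.injective_id
  have hlast : (omX (Fin.last n') : Om (n' + 1)) ∉ OV.cl Z := by
    intro h1
    have h2 : Set.range (omX : Fin (n' + 1) → Om (n' + 1)) ⊆ insert (omX (Fin.last n')) Z := by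
      rintro _ ⟨i, rfl⟩
      rcases Fin.eq_castSucc_or_eq_last i with ⟨j, rfl⟩ | rfl
      · refine Set.mem_insert_of_mem _ ?_
        rw [hZ]
        exact ⟨j, rfl⟩
      · exact Set.mem_insert _ _
    have h3 := OV.td_mono h2
    rw [OV.td_insert_of_mem h1, hall, htdZ] at h3
    have h4 : n' + 1 ≤ n' := by exact_mod_cast h3
    omega
  have hgc : ∀ (T : Set (Om (n' + 1))) (c : ℂ), algebraMap ℂ (Om (n' + 1)) c ∈ OV.cl T := by
    intro T c
    exact isAlgebraic_algebraMap (algebraMap ℂ (Algebra.adjoin ℂ T) c)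
  rw [← hX']
  refine ⟨?_, ?_, ?_, ?_⟩
  · rw [htdX]
    push_cast
    rfl
  · refine le_antisymm (td_le_Om _) ?_
    rw [← hall]
    refine OV.td_mono ?_
    rintro _ ⟨i, rfl⟩
    rcases Fin.eq_castSucc_or_eq_last i with ⟨j, rfl⟩ | rfl
    · refine Or.inl (hZX ?_)
      rw [hZ]
      exact ⟨j, rfl⟩
    · exact Or.inr ⟨j₀, hy0⟩
  · rintro m hm ⟨c, hc⟩
    obtain ⟨u, hu⟩ : ∃ u : F, u = ∑ j, (m j : F) * x j := ⟨_, rfl⟩
    have hσu : σ u = algebraMap ℂ (Om (n' + 1)) c := by
      rw [← hc, hu, map_sum]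
      unfold OV.lin
      refine Finset.sum_congr rfl fun j _ => ?_
      rw [map_mul, map_intCast, map_intCast]
    have hualg : IsAlgebraic (Algebra.adjoin k (Set.range (x ∘ I))) u := by
      rw [hu]
      refine Finset.sum_induction _ (fun a => IsAlgebraic (Algebra.adjoin k (Set.range (x ∘ I))) a)
        (fun a b ha hb => ha.add hb) isAlgebraic_zero fun j _ => IsAlgebraic.mul ?_ (hI j)
      have e1 : ((m j : ℤ) : F) = algebraMap (Algebra.adjoin k (Set.range (x ∘ I))) F (m j : ℤ) :=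
        (map_intCast _ _).symm
      rw [e1]
      exact isAlgebraic_algebraMap _
    have hck : IsAlgebraic k c := by
      by_contra htc
      have hone : AlgebraicIndependent k fun _ : Fin 1 => c := by
        rw [algebraicIndependent_unique_type_iff]
        exact htc
      have h1 := hone.sumElim_comp ((algInd_omX (n' + 1)).comp (fun i : Fin n' => i.castSucc)
        (Fin.castSucc_injective n'))
      have h2 := h1.transcendental_adjoin (s := Set.range Sum.inl) (i := Sum.inr 0) (by simp)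
      have h3 : (Sum.elim ((omX : Fin (n' + 1) → Om (n' + 1)) ∘ fun i : Fin n' => i.castSucc)
          (algebraMap ℂ (Om (n' + 1)) ∘ fun _ : Fin 1 => c)) '' Set.range Sum.inl = Z := by
        rw [hZ, ← Set.range_comp]
        rfl
      rw [h3] at h2
      refine h2 ?_
      show IsAlgebraic (Algebra.adjoin k Z) (algebraMap ℂ (Om (n' + 1)) c)
      rw [← hσu, ← hIZ]
      refine gn6_tr σ (gn6_adj σ (fun c => ?_) fun a ha => Algebra.subset_adjoin (Set.mem_image_of_mem σ ha)) hualg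
      rw [hσ, ← IsScalarTower.algebraMap_apply k ℂ (Om (n' + 1))]
      exact Subalgebra.algebraMap_mem _ _
    obtain ⟨c₀, hc₀⟩ := gn6_const hck
    have h5 : σ u = σ (algebraMap k F c₀) := by rw [hσu, hσ, hc₀]
    have h6 := σ.injective h5
    rw [hu] at h6
    exact hm (hfree m c₀ h6)
  · intro m hm hmem
    have h1 := htr _ _ (h m hm (y j₀))
    rw [hy0] at h1
    refine hlast ?_
    rw [← hcl]
    refine OV.cl_subset ?_ h1
    rintro _ ⟨a, ha, rfl⟩
    rcases ha with (⟨i, rfl⟩ | ⟨l, rfl⟩) | ha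
    · refine OV.subset_cl _ ?_
      rw [hX']
      exact ⟨i, rfl⟩
    · rw [hσg]
      exact hgc _ _
    · rw [Set.mem_singleton_iff] at ha
      rw [ha, map_prod]
      have e1 : ∏ i, σ (y i ^ m i) = OV.mon m fun i => σ (y i) := by
        unfold OV.mon
        exact Finset.prod_congr rfl fun i _ => map_zpow₀ σ _ _
      rw [e1]
      exact hmem

end Pool.Agent.Lib.MP_209724_lc.SC
end

section

namespace Pool.Agent.Lib.MP_209724_lc.SC

open MvPolynomial

/-- GN-7: the exponential points in the case of codimension one (`HypersurfaceProjection (ii)`).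

Proof. `I, j₀` from `exists_z`, `σ` from `exists_spec` with `z = Fin.snoc (x ∘ I) (y j₀)`, then
`spec_props` and `OV.hs_final` for `ξ = σ ∘ x`, `η = σ ∘ y`, applied to `D = map (algebraMap k ℂ) d`
(`aeval_spec`, injectivity of `σ`). The point `p` satisfies the equations over `k` (take `map f`,
`aeval_spec`, `eval_map_expG`) and `expG (G l) p = t l` (take the polynomial `map (G l) - C (t l)`, which
vanishes at `(ξ, η)` by `aeval_spec` and `hσg`). -/
theorem exists_point_codimOne {k F : Type} [Field k] [IsAlgClosed k] [Algebra k ℂ] [Field F]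
    [Algebra k F] {n' e : ℕ} (x y : Fin (n' + 1) → F) (hy : ∀ i, y i ≠ 0)
    (htd : Algebra.trdeg k F = ((n' + 1 + e : ℕ) : Cardinal))
    (hx : Algebra.trdeg k (Algebra.adjoin k (Set.range x)) = n')
    (G : Fin e → MvPolynomial (Fin (n' + 1) ⊕ Fin (n' + 1)) k)
    (h : ∀ m : Fin (n' + 1) → ℤ, m ≠ 0 → ∀ b : F, IsAlgebraic (Algebra.adjoin k
      (Set.range x ∪ (Set.range fun l => aeval (Sum.elim x y) (G l)) ∪ {∏ i, y i ^ m i})) b)
    (hfree : ∀ (m : Fin (n' + 1) → ℤ) (c : k), ∑ j, (m j : F) * x j = algebraMap k F c → m = 0)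
    (t : Fin e → ℂ) (ht : AlgebraicIndependent k t)
    (d : MvPolynomial (Fin (n' + 1) ⊕ Fin (n' + 1)) k) (hd : aeval (Sum.elim x y) d ≠ 0) :
    ∃ p : Fin (n' + 1) → ℂ,
      (∀ f : MvPolynomial (Fin (n' + 1) ⊕ Fin (n' + 1)) k, aeval (Sum.elim x y) f = 0 →
        expG f p = 0) ∧ expG d p ≠ 0 ∧ ∀ l, expG (G l) p = t l := by
  obtain ⟨I, j₀, hind, hI⟩ := exists_z x y htd hx (fun l => aeval (Sum.elim x y) (G l)) h
  obtain ⟨σ, hσ, hσz, hσg⟩ := exists_spec htd (Fin.snoc (x ∘ I) (y j₀) : Fin (n' + 1) → F)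
    (fun l => aeval (Sum.elim x y) (G l)) hind t ht
  obtain ⟨h1, h2, h3, h4⟩ := spec_props x y (fun l => aeval (Sum.elim x y) (G l)) I j₀ hI h hfree
    t σ hσ hσz hσg
  have h5 := OV.hs_final (Nat.succ_pos n') (fun i => σ (x i)) (fun i => σ (y i))
    (fun i hi => hy i ((map_eq_zero σ).1 hi)) h1 h2 h3 h4
  have hD : aeval (Sum.elim (fun i => σ (x i)) fun i => σ (y i)) (map (algebraMap k ℂ) d) ≠ 0 := by
    rw [aeval_spec x y σ hσ]
    exact fun h0 => hd ((map_eq_zero σ).1 h0)
  obtain ⟨p, -, hp1, hp2⟩ := h5 _ hD 0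
  refine ⟨p, fun f hf => ?_, ?_, fun l => ?_⟩
  · rw [← eval_map_expG]
    apply hp2
    rw [aeval_spec x y σ hσ, hf, map_zero]
  · rw [← eval_map_expG]
    exact hp1
  · have h6 := hp2 (map (algebraMap k ℂ) (G l) - C (t l)) (by
      rw [map_sub, aeval_spec x y σ hσ, hσg, aeval_C, sub_self])
    rw [map_sub, eval_C, sub_eq_zero, eval_map_expG] at h6
    exact h6

end Pool.Agent.Lib.MP_209724_lc.SC
end

section

namespace Pool.Agent.Lib.MP_209724_lc.SC

open MvPolynomial

variable {n : ℕ} (K : Type) [Field K] [Algebra K ℂ]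

/-- SC-43: the function field over `K` embeds in every field generated by a generic point over `ℂ`.
Proof: lift `f ↦ aeval (Sum.elim x y) (map f)` to the quotient by `desc K Q` and to the fraction field
(`IsFractionRing.lift`; injective by `hxy`). -/
theorem exists_theta (Q : Ideal (MvPolynomial (Fin n ⊕ Fin n) ℂ)) [Q.IsPrime] {L : Type} [Field L]
    [Algebra ℂ L] (x y : Fin n → L)
    (hxy : ∀ f : MvPolynomial (Fin n ⊕ Fin n) ℂ, aeval (Sum.elim x y) f = 0 ↔ f ∈ Q) :
    ∃ θ : FK K Q →+* L, (∀ f : MvPolynomial (Fin n ⊕ Fin n) K,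
      θ (fnK K Q f) = aeval (Sum.elim x y) (map (algebraMap K ℂ) f)) ∧
      (∀ c : K, θ (algebraMap K (FK K Q) c) = algebraMap ℂ L (algebraMap K ℂ c)) ∧
      (∀ i, θ (xK K Q i) = x i) ∧ ∀ i, θ (yK K Q i) = y i := by
  let φ : MvPolynomial (Fin n ⊕ Fin n) K →+* L :=
    (aeval (Sum.elim x y) : MvPolynomial (Fin n ⊕ Fin n) ℂ →ₐ[ℂ] L).toRingHom.comp
      (map (algebraMap K ℂ))
  have hφ : ∀ f, φ f = aeval (Sum.elim x y) (map (algebraMap K ℂ) f) := fun _ => rfl
  have h0 : ∀ f : MvPolynomial (Fin n ⊕ Fin n) K, f ∈ desc K Q → φ f = 0 := by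
    intro f hf
    rw [hφ]
    exact (hxy _).2 hf
  let ψ : (MvPolynomial (Fin n ⊕ Fin n) K ⧸ desc K Q) →+* L := Ideal.Quotient.lift (desc K Q) φ h0
  have hψ : ∀ f, ψ (Ideal.Quotient.mk _ f) = φ f := fun f => Ideal.Quotient.lift_mk _ _ _
  have hinj : Function.Injective ψ := by
    rw [injective_iff_map_eq_zero]
    intro a ha
    obtain ⟨f, rfl⟩ := Ideal.Quotient.mk_surjective a
    rw [hψ, hφ] at ha
    exact Ideal.Quotient.eq_zero_iff_mem.2 ((hxy _).1 ha)
  let θ : FK K Q →+* L := IsFractionRing.lift hinj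
  have hθ : ∀ f : MvPolynomial (Fin n ⊕ Fin n) K,
      θ (fnK K Q f) = aeval (Sum.elim x y) (map (algebraMap K ℂ) f) := by
    intro f
    have h1 : θ (fnK K Q f) = ψ (Ideal.Quotient.mk _ f) := IsFractionRing.lift_algebraMap hinj _
    rw [h1, hψ, hφ]
  refine ⟨θ, hθ, ?_, ?_, ?_⟩
  · intro c
    have h1 : algebraMap K (FK K Q) c = fnK K Q (C c) := rfl
    rw [h1, hθ, map_C, aeval_C]
  · intro i
    rw [xK, hθ, map_X, aeval_X, Sum.elim_inl]
  · intro i
    rw [yK, hθ, map_X, aeval_X, Sum.elim_inr]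

end Pool.Agent.Lib.MP_209724_lc.SC
end
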