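import Mathlib
import Pool.Agent.Lib.MP_209724_lc.OV.Defs

section

namespace Pool.Agent.Lib.MP_209724_lc.SC

/-- SC-37: completion of `x` to a transcendence basis by coordinates `y_j`. Proof:
`exists_isTranscendenceBasis_subset` between `range x` and `range x ∪ range y` (everything is algebraic
over `k(x, y)` by `hgen`), its cardinality is `n + e`; the elements outside `range x` are `e` of the
`y j`. -/
theorem exists_J {k F : Type} [Field k] [Field F] [Algebra k F] {n e : ℕ} (x y : Fin n → F)
    (hgen : IntermediateField.adjoin k (Set.range x ∪ Set.range y) = ⊤)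
    (htd : Algebra.trdeg k F = ((n + e : ℕ) : Cardinal)) (hx : AlgebraicIndependent k x) :
    ∃ J : Fin e → Fin n, AlgebraicIndependent k (Sum.elim x (y ∘ J)) := by
  classical
  have hxs : AlgebraicIndepOn k id (Set.range x) := by
    have := hx.to_subtype_range
    exact this
  have halg : Algebra.IsAlgebraic (Algebra.adjoin k (Set.range x ∪ Set.range y)) F := by
    refine ⟨fun a => ?_⟩
    have ha : a ∈ IntermediateField.adjoin k (Set.range x ∪ Set.range y) := by
      rw [hgen]
      trivial
    rw [IntermediateField.mem_adjoin_iff_div] at ha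
    obtain ⟨r, hr, s, hs, rfl⟩ := ha
    rw [div_eq_mul_inv]
    have h1 : IsAlgebraic (Algebra.adjoin k (Set.range x ∪ Set.range y)) r :=
      isAlgebraic_algebraMap (⟨r, hr⟩ : Algebra.adjoin k (Set.range x ∪ Set.range y))
    have h2 : IsAlgebraic (Algebra.adjoin k (Set.range x ∪ Set.range y)) s :=
      isAlgebraic_algebraMap (⟨s, hs⟩ : Algebra.adjoin k (Set.range x ∪ Set.range y))
    exact h1.mul h2.inv
  obtain ⟨u, hu1, hu2, hu3⟩ := exists_isTranscendenceBasis_between (Set.range x)
    (Set.range x ∪ Set.range y) Set.subset_union_left hxs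
  have hcard : Cardinal.mk u = ((n + e : ℕ) : Cardinal) := by
    rw [← htd]
    exact hu3.cardinalMk_eq_trdeg
  have hfin : u.Finite := by
    rw [← Cardinal.lt_aleph0_iff_set_finite, hcard]
    exact Cardinal.natCast_lt_aleph0
  -- the part outside the range of x
  have hd : (u \ Set.range x).ncard = e := by
    have h1 : (Set.range x).ncard = n := by
      rw [← Set.image_univ, Set.ncard_image_of_injective _ hx.injective, Set.ncard_univ]
      simp
    have h2 : u.ncard = n + e := by
      have : ((Nat.card u : ℕ) : Cardinal) = ((n + e : ℕ) : Cardinal) := by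
        rw [← hcard]
        have := hfin.to_subtype
        exact Nat.cast_card
      exact_mod_cast this
    rw [Set.ncard_sdiff hu1 (Set.finite_range x), h1, h2]
    omega
  have hdfin : (u \ Set.range x).Finite := hfin.subset Set.sdiff_subset
  have := hdfin.fintype
  have hd' : Fintype.card (u \ Set.range x : Set F) = e := by
    rw [← Nat.card_eq_fintype_card]
    exact hd
  let ε : Fin e ≃ (u \ Set.range x : Set F) := (Fintype.equivFinOfCardEq hd').symm
  have hJ : ∀ l : Fin e, ∃ j : Fin n, y j = ((ε l : (u \ Set.range x : Set F)) : F) := by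
    intro l
    rcases hu2 (ε l).2.1 with h | h
    · exact absurd h (ε l).2.2
    · exact h
  choose J hJ using hJ
  refine ⟨J, ?_⟩
  have hrange : ∀ i, Sum.elim x (y ∘ J) i ∈ u := by
    rintro (i | l)
    · exact hu1 ⟨i, rfl⟩
    · change y (J l) ∈ u
      rw [hJ l]
      exact (ε l).2.1
  have hinj : Function.Injective (fun i => (⟨Sum.elim x (y ∘ J) i, hrange i⟩ : u)) := by
    intro a b hab
    have hab' : Sum.elim x (y ∘ J) a = Sum.elim x (y ∘ J) b := congrArg Subtype.val hab
    rcases a with i | l <;> rcases b with i' | l'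
    · exact congrArg Sum.inl (hx.injective hab')
    · exfalso
      change x i = y (J l') at hab'
      rw [hJ l'] at hab'
      exact (ε l').2.2 ⟨i, hab'⟩
    · exfalso
      change y (J l) = x i' at hab'
      rw [hJ l] at hab'
      exact (ε l).2.2 ⟨i', hab'.symm⟩
    · change y (J l) = y (J l') at hab'
      rw [hJ l, hJ l'] at hab'
      exact congrArg Sum.inr (ε.injective (Subtype.ext hab'))
  have h3 : AlgebraicIndependent k (fun i : u => (i : F)) := hu3.1
  have h4 := h3.comp _ hinj
  have h5 : (fun i : u => (i : F)) ∘ (fun i => (⟨Sum.elim x (y ∘ J) i, hrange i⟩ : u)) =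
      Sum.elim x (y ∘ J) := rfl
  rw [h5] at h4
  exact h4

end Pool.Agent.Lib.MP_209724_lc.SC
end

section

namespace Pool.Agent.Lib.MP_209724_lc.SC

/-- SC-42: the algebraic closure of a countable field in `ℂ` is countable (every element is a root of
one of countably many nonzero polynomials; or `Algebra.IsAlgebraic.cardinalMk_le_max`). -/
theorem countable_algClosure (K : Type) [Field K] [Algebra K ℂ] [Countable K] :
    Countable (algebraicClosure K ℂ) := by
  have h := Algebra.IsAlgebraic.cardinalMk_le_max K (algebraicClosure K ℂ)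
  rw [← Cardinal.mk_le_aleph0_iff]
  exact h.trans (max_le (Cardinal.mk_le_aleph0_iff.2 inferInstance) le_rfl)

/-- SC-42b. -/
theorem isAlgClosed_algClosure (K : Type) [Field K] [Algebra K ℂ] :
    IsAlgClosed (algebraicClosure K ℂ) := by
  exact IsAlgClosure.isAlgClosed K

end Pool.Agent.Lib.MP_209724_lc.SC
end
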