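import Mathlib
import Pool.Agent.Lib.MP_209724_lc.SC.Fin2
import Pool.Agent.Lib.MP_209724_lc.SC.Ed2

section

namespace Pool.Agent.Lib.MP_209724_lc.SC

open MvPolynomial

variable {n : ℕ} (K : Type) [Field K] [Algebra K ℂ]

/-- SC-40a: if `Q` is defined over `K`, coordinates which are algebraically independent over `K` modulo
`Q` are so over `ℂ`; in particular their number is at most `dim V`. Stated for a family `w` of points of
any kind: a family `w : Fin n ⊕ Fin n → M`, `M` a field over `K`, satisfying the equations of `V` over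
`K`.

Proof. Take `T` from `exists_coord_basis` (over `K`, for `w`). For `f : MvPolynomial T K` with
`rename (↑) f ∈ I`: `map (rename (↑) f) ∈ Q` by `hQ`, so `aeval w (rename (↑) f) = 0` by `hw`, so
`f = 0`. By `coord_indep`, the classes of `X i`, `i ∈ T`, in `MvPolynomial ℂ ⧸ Q` are algebraically
independent over `ℂ`, so `#T ≤ trdeg` (`AlgebraicIndependent.cardinalMk_le_trdeg`). -/
theorem trdeg_le_of_point (Q : Ideal (MvPolynomial (Fin n ⊕ Fin n) ℂ)) [Q.IsPrime]
    (I : Ideal (MvPolynomial (Fin n ⊕ Fin n) K)) (hQ : Q = I.map (map (algebraMap K ℂ)))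
    {M : Type} [Field M] [Algebra K M] (w : Fin n ⊕ Fin n → M)
    (hw : ∀ f : MvPolynomial (Fin n ⊕ Fin n) K, map (algebraMap K ℂ) f ∈ Q → aeval w f = 0) :
    Algebra.trdeg K (Algebra.adjoin K (Set.range w)) ≤
      Algebra.trdeg ℂ (MvPolynomial (Fin n ⊕ Fin n) ℂ ⧸ Q) := by
  obtain ⟨T, hT, hcard⟩ := exists_coord_basis (k := K) w
  rw [← hcard]
  have hI : ∀ f : MvPolynomial T K, rename (fun i : T => (i : Fin n ⊕ Fin n)) f ∈ I → f = 0 := by
    intro f hf
    have h1 : map (algebraMap K ℂ) (rename (fun i : T => (i : Fin n ⊕ Fin n)) f) ∈ Q := by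
      rw [hQ]
      exact Ideal.mem_map_of_mem _ hf
    have h2 := hw _ h1
    rw [aeval_rename] at h2
    exact (algebraicIndependent_iff.1 hT) f h2
  have hind : AlgebraicIndependent ℂ
      (fun i : T => (Ideal.Quotient.mk Q (X (i : Fin n ⊕ Fin n)) : MvPolynomial (Fin n ⊕ Fin n) ℂ ⧸ Q)) := by
    rw [algebraicIndependent_iff]
    intro p hp
    refine coord_indep I (fun i : T => (i : Fin n ⊕ Fin n)) hI p ?_
    rw [← hQ, ← Ideal.Quotient.eq_zero_iff_mem, ← hp]
    have h3 : ((Ideal.Quotient.mkₐ ℂ Q).comp (rename (fun i : T => (i : Fin n ⊕ Fin n)))) =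
        aeval (fun i : T => (Ideal.Quotient.mk Q (X (i : Fin n ⊕ Fin n)) : MvPolynomial (Fin n ⊕ Fin n) ℂ ⧸ Q)) := by
      refine MvPolynomial.algHom_ext fun i => ?_
      simp
    exact DFunLike.congr_fun h3 p
  exact hind.cardinalMk_le_trdeg

/-- SC-40b: the transcendence degree of the function field over `K` is at least the dimension of `V`.

Proof. `L = FractionRing (MvPolynomial ℂ ⧸ Q)`, `u` the family of the classes of the coordinates.
`exists_coord_basis` over `ℂ` gives `T` with `#T = trdeg ℂ (adjoin ...)`, which is the transcendence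
degree of `MvPolynomial ℂ ⧸ Q` (`adjoin` is the image of this ring in `L`). The corresponding
coordinates of `FK K Q` are algebraically independent over `K`: if `f : MvPolynomial T K` vanishes at
them, then `map (rename (↑) f) ∈ Q` (`aeval_eq_zero_iff`), so `map f` vanishes at `u` restricted to `T`,
`map f = 0`, `f = 0` (`map` is injective). -/
theorem le_trdeg_FK (Q : Ideal (MvPolynomial (Fin n ⊕ Fin n) ℂ)) [Q.IsPrime] :
    Algebra.trdeg ℂ (MvPolynomial (Fin n ⊕ Fin n) ℂ ⧸ Q) ≤ Algebra.trdeg K (FK K Q) := by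
  let A := MvPolynomial (Fin n ⊕ Fin n) ℂ ⧸ Q
  let L := FractionRing A
  let u : Fin n ⊕ Fin n → L := fun i => algebraMap A L (Ideal.Quotient.mk Q (X i))
  have hinj : Function.Injective (algebraMap A L) := IsFractionRing.injective _ _
  have hu : ∀ f : MvPolynomial (Fin n ⊕ Fin n) ℂ, aeval u f = algebraMap A L (Ideal.Quotient.mk Q f) := by
    intro f
    have h3 : aeval u = (IsScalarTower.toAlgHom ℂ A L).comp (Ideal.Quotient.mkₐ ℂ Q) := by
      refine MvPolynomial.algHom_ext fun i => ?_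
      rw [aeval_X]
      rfl
    exact DFunLike.congr_fun h3 f
  have hu0 : ∀ f : MvPolynomial (Fin n ⊕ Fin n) ℂ, aeval u f = 0 ↔ f ∈ Q := by
    intro f
    rw [hu, map_eq_zero_iff _ hinj, Ideal.Quotient.eq_zero_iff_mem]
  obtain ⟨T, hT, hcard⟩ := exists_coord_basis (k := ℂ) u
  have h1 : Algebra.trdeg ℂ A ≤ Algebra.trdeg ℂ (Algebra.adjoin ℂ (Set.range u)) := by
    have hmem : ∀ a : A, IsScalarTower.toAlgHom ℂ A L a ∈ Algebra.adjoin ℂ (Set.range u) := by
      intro a
      obtain ⟨f, rfl⟩ := Ideal.Quotient.mk_surjective a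
      rw [Algebra.adjoin_range_eq_range_aeval]
      exact ⟨f, hu f⟩
    refine trdeg_le_of_injective ((IsScalarTower.toAlgHom ℂ A L).codRestrict _ hmem) fun a b hab => ?_
    exact hinj (congrArg Subtype.val hab)
  refine h1.trans ?_
  rw [← hcard]
  have hind : AlgebraicIndependent K (fun i : T => Sum.elim (xK K Q) (yK K Q) (i : Fin n ⊕ Fin n)) := by
    rw [algebraicIndependent_iff]
    intro p hp
    have h2 : aeval (Sum.elim (xK K Q) (yK K Q)) (rename (fun i : T => (i : Fin n ⊕ Fin n)) p) = 0 := by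
      rw [aeval_rename]
      exact hp
    rw [aeval_eq_zero_iff, map_rename, ← hu0, aeval_rename] at h2
    have h3 : map (algebraMap K ℂ) p = 0 := (algebraicIndependent_iff.1 hT) _ h2
    exact (map_eq_zero_iff _ (MvPolynomial.map_injective _ (algebraMap K ℂ).injective)).1 h3
  exact hind.cardinalMk_le_trdeg

/-- SC-40c: the transcendence degree of the function field over `K` is the dimension of `V`. Proof: `≥`
is `le_trdeg_FK`. `≤`: `trdeg_le_of_point` for `M = FK K Q`, `w = Sum.elim xK yK` (`aeval_eq_zero_iff`),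
and `Algebra.adjoin K (range w)` has the transcendence degree of `FK K Q`, because `FK K Q` is
algebraic over it (`gen_FK`). -/
theorem trdeg_FK (Q : Ideal (MvPolynomial (Fin n ⊕ Fin n) ℂ)) [Q.IsPrime]
    (I : Ideal (MvPolynomial (Fin n ⊕ Fin n) K)) (hQ : Q = I.map (map (algebraMap K ℂ))) :
    Algebra.trdeg K (FK K Q) = Algebra.trdeg ℂ (MvPolynomial (Fin n ⊕ Fin n) ℂ ⧸ Q) := by
  refine le_antisymm ?_ (le_trdeg_FK K Q)
  have h1 := trdeg_le_of_point K Q I hQ (Sum.elim (xK K Q) (yK K Q)) fun f hf => (aeval_eq_zero_iff K Q f).2 hf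
  refine le_trans (le_of_eq ?_) h1
  have hmem : ∀ f : MvPolynomial (Fin n ⊕ Fin n) K,
      fnK K Q f ∈ Algebra.adjoin K (Set.range (Sum.elim (xK K Q) (yK K Q))) := by
    intro f
    rw [Algebra.adjoin_range_eq_range_aeval]
    exact ⟨f, aeval_fnK K Q f⟩
  have halg : Algebra.IsAlgebraic (Algebra.adjoin K (Set.range (Sum.elim (xK K Q) (yK K Q)))) (FK K Q) := by
    refine ⟨fun a => ?_⟩
    obtain ⟨b, c, hc, rfl⟩ := IsFractionRing.div_surjective (A := MvPolynomial (Fin n ⊕ Fin n) K ⧸ desc K Q) a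
    obtain ⟨f, rfl⟩ := Ideal.Quotient.mk_surjective b
    obtain ⟨g, rfl⟩ := Ideal.Quotient.mk_surjective c
    have hf : IsAlgebraic (Algebra.adjoin K (Set.range (Sum.elim (xK K Q) (yK K Q)))) (fnK K Q f) :=
      isAlgebraic_algebraMap (⟨fnK K Q f, hmem f⟩ : Algebra.adjoin K (Set.range (Sum.elim (xK K Q) (yK K Q))))
    have hg : IsAlgebraic (Algebra.adjoin K (Set.range (Sum.elim (xK K Q) (yK K Q)))) (fnK K Q g) :=
      isAlgebraic_algebraMap (⟨fnK K Q g, hmem g⟩ : Algebra.adjoin K (Set.range (Sum.elim (xK K Q) (yK K Q))))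
    rw [div_eq_mul_inv]
    exact hf.mul hg.inv
  have h2 := trdeg_add_eq K (Algebra.adjoin K (Set.range (Sum.elim (xK K Q) (yK K Q)))) (A := FK K Q)
  have h3 : Algebra.trdeg (Algebra.adjoin K (Set.range (Sum.elim (xK K Q) (yK K Q)))) (FK K Q) = 0 := trdeg_eq_zero
  rw [h3, add_zero] at h2
  exact h2.symm

end Pool.Agent.Lib.MP_209724_lc.SC
end

section

namespace Pool.Agent.Lib.MP_209724_lc.SC

/-- GN-9: descent of `everything is algebraic over w`.

Proof. `exists_coord_basis` over `ℂ` for `θ ∘ w` gives `T ⊆ ι` with `(θ (w i))_{i ∈ T}` algebraically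
independent and `#T = trdeg ℂ (adjoin ℂ (range (θ ∘ w))) = trdeg ℂ L = N` (everything is algebraic over
this subalgebra). So `(w i)_{i ∈ T}` is algebraically independent over `k` (apply `θ` and `map` to a
relation) and has `N = trdeg k F` elements, so it is a transcendence basis
(`AlgebraicIndependent.isTranscendenceBasis_of_trdeg_le_of_finite` or similar). -/
theorem descend_span {k F L ι : Type} [Field k] [Algebra k ℂ] [Field F] [Algebra k F] [Field L]
    [Algebra ℂ L] (θ : F →+* L)
    (hθ : ∀ c : k, θ (algebraMap k F c) = algebraMap ℂ L (algebraMap k ℂ c)) {N : ℕ}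
    (hF : Algebra.trdeg k F = N) (hL : Algebra.trdeg ℂ L = N) (w : ι → F)
    (hspan : ∀ b : L, IsAlgebraic (Algebra.adjoin ℂ (Set.range fun i => θ (w i))) b) (b : F) :
    IsAlgebraic (Algebra.adjoin k (Set.range w)) b := by
  classical
  obtain ⟨T, hT, hcard⟩ := exists_coord_basis (k := ℂ) (fun i => θ (w i))
  -- the cardinality of `T`
  have halgL : Algebra.IsAlgebraic (Algebra.adjoin ℂ (Set.range fun i => θ (w i))) L := ⟨hspan⟩
  have hTN : Cardinal.mk T = N := by
    have h1 := trdeg_add_eq ℂ (Algebra.adjoin ℂ (Set.range fun i => θ (w i))) (A := L)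
    rw [trdeg_eq_zero (R := Algebra.adjoin ℂ (Set.range fun i => θ (w i))) (A := L), add_zero, hL] at h1
    rw [hcard, h1]
  have : Finite T := by
    rw [← Cardinal.mk_lt_aleph0_iff, hTN]
    exact Cardinal.natCast_lt_aleph0
  -- descent of algebraic independence
  have hind : AlgebraicIndependent k (fun i : T => w i) := by
    refine AlgebraicIndependent.of_ringHom_of_comp_eq (algebraMap k ℂ) θ ?_
      (algebraMap k ℂ).injective ?_
    · exact hT
    · exact RingHom.ext fun c => (hθ c).symm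
  have hbas : IsTranscendenceBasis k (fun i : T => w i) :=
    hind.isTranscendenceBasis_of_trdeg_le_of_finite (by rw [hF, hTN])
  have hle : Algebra.adjoin k (Set.range fun i : T => w i) ≤ Algebra.adjoin k (Set.range w) := by
    refine Algebra.adjoin_mono ?_
    rintro _ ⟨i, rfl⟩
    exact ⟨i, rfl⟩
  have h2 : IsAlgebraic (Algebra.adjoin k (Set.range fun i : T => w i)) b :=
    hbas.isAlgebraic.isAlgebraic b
  obtain ⟨P, hP0, hP⟩ := h2
  refine ⟨P.map (Subalgebra.inclusion hle).toRingHom, ?_, ?_⟩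
  · rw [Ne, Polynomial.map_eq_zero_iff (Subalgebra.inclusion_injective hle)]
    exact hP0
  · rw [Polynomial.aeval_def, Polynomial.eval₂_map]
    exact hP

end Pool.Agent.Lib.MP_209724_lc.SC
end
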