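import Mathlib
import Pool.Agent.Lib.MP_209724_lc.SC.Fin2
import Pool.Agent.Lib.MP_209724_lc.SC.Ed2
import Pool.Agent.Lib.MP_209724_lc.SC.Fin7
import Pool.Agent.Lib.MP_209724_lc.OV.Defs
import Pool.Agent.Lib.MP_209724_lc.SC.Ed3
import Pool.Agent.Lib.MP_209724_lc.SC.FF3
import Pool.Agent.Lib.MP_209724_lc.SC.FF1
import Pool.Agent.Lib.MP_209724_lc.SC.Ed10
import Pool.Agent.Lib.MP_209724_lc.SC.Ed11
import Pool.Agent.Lib.MP_209724_lc.HS.Sector
import Pool.Agent.Lib.MP_209724_lc.OV.LemmaAFin
import Pool.Agent.Lib.MP_209724_lc.SC.Core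
import Pool.Agent.Lib.MP_209724_lc.SC.Fin5
import Pool.Agent.Lib.MP_209724_lc.SC.Gn9

section

namespace Pool.Agent.Lib.MP_209724_lc.SC

open MvPolynomial

variable {n : ℕ} (K : Type) [Field K] [Algebra K ℂ]

/-- the homomorphism from the function field over `K` to `L` -/
private theorem sc_fin4_hom (Q : Ideal (MvPolynomial (Fin n ⊕ Fin n) ℂ)) [Q.IsPrime] {L : Type} [Field L]
    [Algebra ℂ L] (x y : Fin n → L)
    (hxy : ∀ f : MvPolynomial (Fin n ⊕ Fin n) ℂ, aeval (Sum.elim x y) f = 0 ↔ f ∈ Q) :
    ∃ θ : FK K Q →+* L, (∀ i, θ (xK K Q i) = x i) ∧ (∀ i, θ (yK K Q i) = y i) ∧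
      θ.comp (algebraMap K (FK K Q)) = (algebraMap ℂ L).comp (algebraMap K ℂ) := by
  let Θ₀ : MvPolynomial (Fin n ⊕ Fin n) K →+* L :=
    ((aeval (Sum.elim x y) : MvPolynomial (Fin n ⊕ Fin n) ℂ →ₐ[ℂ] L) : _ →+* L).comp (map (algebraMap K ℂ))
  have h0 : ∀ f, Θ₀ f = 0 ↔ f ∈ desc K Q := fun f => hxy (map (algebraMap K ℂ) f)
  let Θ₁ : MvPolynomial (Fin n ⊕ Fin n) K ⧸ desc K Q →+* L :=
    Ideal.Quotient.lift (desc K Q) Θ₀ (fun f hf => (h0 f).2 hf)
  have h1 : ∀ f, Θ₁ (Ideal.Quotient.mk _ f) = Θ₀ f := fun f => Ideal.Quotient.lift_mk _ _ _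
  have hinj : Function.Injective Θ₁ := by
    rw [injective_iff_map_eq_zero]
    intro a ha
    obtain ⟨f, rfl⟩ := Ideal.Quotient.mk_surjective a
    rw [h1, h0] at ha
    exact Ideal.Quotient.eq_zero_iff_mem.2 ha
  have h2 : ∀ f, (IsFractionRing.lift hinj : FK K Q →+* L) (fnK K Q f) = Θ₀ f := by
    intro f
    unfold fnK
    rw [IsFractionRing.lift_algebraMap, h1]
  refine ⟨IsFractionRing.lift hinj, fun i => ?_, fun i => ?_, ?_⟩
  · unfold xK
    rw [h2]
    show aeval (Sum.elim x y) (map (algebraMap K ℂ) (X (Sum.inl i))) = x i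
    rw [map_X, aeval_X, Sum.elim_inl]
  · unfold yK
    rw [h2]
    show aeval (Sum.elim x y) (map (algebraMap K ℂ) (X (Sum.inr i))) = y i
    rw [map_X, aeval_X, Sum.elim_inr]
  · ext c
    have e : algebraMap K (FK K Q) c = fnK K Q (C c) := rfl
    rw [RingHom.comp_apply, e, h2]
    show aeval (Sum.elim x y) (map (algebraMap K ℂ) (C c)) = _
    rw [map_C, aeval_C]
    rfl

/-- SC-41: strictness descends.

Proof. There is a homomorphism `θ : FK K Q → L` with `θ (fnK f) = aeval (Sum.elim x y) (map f)` (lift to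
the fraction field; injective on `MvPolynomial K ⧸ desc K Q` by `hxy`), so `θ (xK i) = x i`,
`θ (yK i) = y i`, and `θ` is compatible with `K → ℂ`. Given `B ≠ 0`, apply `exists_coord_basis` over `ℂ`
to the family `Sum.elim (B x) (y ^ B)` in `L`: `T` with `#T = trdeg > rank`, so there is an injection
`Fin (rank + 1) → T`. The corresponding elements `s` of `FK K Q` (`∑ B i j * xK j`, `∏ yK j ^ B i j`) are
mapped by `θ` to the algebraically independent ones, and are algebraically independent over `K`: a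
relation `f` over `K` gives the relation `map f` over `ℂ`, and `map` is injective. -/
theorem strict_FK (Q : Ideal (MvPolynomial (Fin n ⊕ Fin n) ℂ)) [Q.IsPrime] {L : Type} [Field L]
    [Algebra ℂ L] (x y : Fin n → L)
    (hxy : ∀ f : MvPolynomial (Fin n ⊕ Fin n) ℂ, aeval (Sum.elim x y) f = 0 ↔ f ∈ Q)
    (hstr : ∀ B : Matrix (Fin n) (Fin n) ℤ, B ≠ 0 →
      ((B.map (Int.cast : ℤ → ℚ)).rank : Cardinal) <
        Algebra.trdeg ℂ (Algebra.adjoin ℂ (Set.range (fun i => ∑ j, (B i j : L) * x j) ∪
          Set.range fun i => ∏ j, y j ^ B i j))) :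
    Strict K (xK K Q) (yK K Q) := by
  obtain ⟨θ, hx, hy, hc⟩ := sc_fin4_hom K Q x y hxy
  intro B hB
  let u : Fin n ⊕ Fin n → L := Sum.elim (fun i => ∑ j, (B i j : L) * x j) (fun i => ∏ j, y j ^ B i j)
  let u' : Fin n ⊕ Fin n → FK K Q :=
    Sum.elim (fun i => ∑ j, (B i j : FK K Q) * xK K Q j) (fun i => ∏ j, yK K Q j ^ B i j)
  have hu : ∀ i, θ (u' i) = u i := by
    rintro (i | i)
    · show θ (∑ j, (B i j : FK K Q) * xK K Q j) = ∑ j, (B i j : L) * x j
      rw [map_sum]
      exact Finset.sum_congr rfl fun j _ => by rw [map_mul, map_intCast, hx]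
    · show θ (∏ j, yK K Q j ^ B i j) = ∏ j, y j ^ B i j
      rw [map_prod]
      exact Finset.prod_congr rfl fun j _ => by rw [map_zpow₀, hy]
  obtain ⟨T, hT, hcard⟩ := exists_coord_basis (k := ℂ) u
  have h1 := hstr B hB
  have hr : Set.range u = Set.range (fun i => ∑ j, (B i j : L) * x j) ∪ Set.range fun i => ∏ j, y j ^ B i j :=
    Set.Sum.elim_range _ _
  rw [hr] at hcard
  rw [← hcard] at h1
  classical
  have : Fintype T := Fintype.ofFinite T
  rw [Cardinal.mk_fintype, Nat.cast_lt] at h1
  obtain ⟨e⟩ : Nonempty (Fin ((B.map (Int.cast : ℤ → ℚ)).rank + 1) ↪ T) :=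
    Function.Embedding.nonempty_of_card_le (by rw [Fintype.card_fin]; exact h1)
  refine ⟨fun a => u' (e a), ?_, fun a => ?_⟩
  · rw [algebraicIndependent_iff]
    intro p hp
    have h2 : aeval (fun a => u (e a)) (map (algebraMap K ℂ) p) = 0 := by
      have h3 := congrArg θ hp
      rw [map_zero, aeval_def, hom_eval₂, hc] at h3
      rw [aeval_def, eval₂_map]
      rw [← h3]
      congr 1
      funext a
      exact (hu _).symm
    have h4 := (algebraicIndependent_iff.1 (hT.comp e e.injective)) _ h2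
    exact (map_injective _ (algebraMap K ℂ).injective) (by rw [h4, map_zero])
  · show u' (e a) ∈ _
    rcases (e a : Fin n ⊕ Fin n) with i | i
    · exact Or.inl ⟨i, rfl⟩
    · exact Or.inr ⟨i, rfl⟩

end Pool.Agent.Lib.MP_209724_lc.SC
end

section

namespace Pool.Agent.Lib.MP_209724_lc.SC

open MvPolynomial

variable {n : ℕ} (K : Type) [Field K] [Algebra K ℂ]

private theorem gn10_le {k L ι : Type} [Field k] [Field L] [Algebra k L] (u : ι → L) (T : Set ι)
    (h : AlgebraicIndependent k (fun i : T => u i)) :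
    Cardinal.mk T ≤ Algebra.trdeg k (Algebra.adjoin k (Set.range u)) := by
  have h1 : AlgebraicIndependent k (fun i : T =>
      (⟨u i, Algebra.subset_adjoin (Set.mem_range_self (i : ι))⟩ :
        Algebra.adjoin k (Set.range u))) :=
    AlgebraicIndependent.of_comp (Algebra.adjoin k (Set.range u)).val h
  exact h1.cardinalMk_le_trdeg

/-- GN-10: the transcendence degree of `x` does not depend on the field of constants.

Proof. `≤`: `exists_coord_basis` over `K` for `xK`: `T` with `(xK i)_{i ∈ T}` algebraically independent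
over `K`: for `f : MvPolynomial T K`, `rename (fun i => inl i) f ∈ I` implies
`map (rename ..) ∈ Q`, `aeval xK|T f = 0`, `f = 0`. By `coord_indep`, the same over `ℂ` (with `hxy`), so
`#T ≤ trdeg ℂ (adjoin ℂ (range x))`. `≥`: `exists_coord_basis` over `ℂ` for `x`, descend by
`exists_theta` (a relation over `K` gives one over `ℂ`). -/
theorem trdeg_x (Q : Ideal (MvPolynomial (Fin n ⊕ Fin n) ℂ)) [Q.IsPrime] {L : Type} [Field L]
    [Algebra ℂ L] (x y : Fin n → L)
    (hxy : ∀ f : MvPolynomial (Fin n ⊕ Fin n) ℂ, aeval (Sum.elim x y) f = 0 ↔ f ∈ Q)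
    (I : Ideal (MvPolynomial (Fin n ⊕ Fin n) K)) (hQ : Q = I.map (map (algebraMap K ℂ))) :
    Algebra.trdeg K (Algebra.adjoin K (Set.range (xK K Q))) =
      Algebra.trdeg ℂ (Algebra.adjoin ℂ (Set.range x)) := by
  classical
  have e1 : ∀ (T : Set (Fin n)) (g : MvPolynomial T K),
      aeval (fun i : T => xK K Q i) g = fnK K Q (rename (fun i : T => Sum.inl (i : Fin n)) g) := by
    intro T g
    rw [← aeval_fnK, aeval_rename]
    rfl
  have e2 : ∀ (T : Set (Fin n)) (f : MvPolynomial T ℂ),
      aeval (fun i : T => x i) f =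
        aeval (Sum.elim x y) (rename (fun i : T => (Sum.inl (i : Fin n) : Fin n ⊕ Fin n)) f) := by
    intro T f
    rw [aeval_rename]
    rfl
  apply le_antisymm
  · obtain ⟨T, hT, hcard⟩ := exists_coord_basis (k := K) (xK K Q)
    rw [← hcard]
    apply gn10_le
    rw [algebraicIndependent_iff]
    intro f hf
    rw [e2, hxy, hQ] at hf
    refine coord_indep I _ ?_ f hf
    intro g hg
    have h1 : map (algebraMap K ℂ) (rename (fun i : T => (Sum.inl (i : Fin n) : Fin n ⊕ Fin n)) g) ∈ Q := by
      rw [hQ]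
      exact Ideal.mem_map_of_mem _ hg
    rw [← fnK_eq_zero K Q, ← e1] at h1
    exact (algebraicIndependent_iff.1 hT) g h1
  · obtain ⟨T, hT, hcard⟩ := exists_coord_basis (k := ℂ) x
    rw [← hcard]
    apply gn10_le
    rw [algebraicIndependent_iff]
    intro g hg
    rw [e1, fnK_eq_zero, ← hxy, map_rename, ← e2] at hg
    have h1 := (algebraicIndependent_iff.1 hT) _ hg
    exact (map_injective (algebraMap K ℂ) (algebraMap K ℂ).injective) (by rw [h1, map_zero])

end Pool.Agent.Lib.MP_209724_lc.SC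
end

section

namespace Pool.Agent.Lib.MP_209724_lc.SC

open MvPolynomial AlgebraicIndependent

/-- The linear form `∑_j a_{lj} y_j`. -/
noncomputable def gform {L : Type} [Field L] [Algebra ℂ L] {n e : ℕ} (y : Fin n → L)
    (a : Fin e × Fin n → ℂ) (l : Fin e) : L :=
  ∑ j, algebraMap ℂ L (a (l, j)) * y j

/-- An element which is not algebraic over `ℂ(T)` is moved by a derivation which kills `T`. -/
private theorem gn2_der {L : Type} [Field L] [Algebra ℂ L] {T : Set L} {z : L}
    (hz : z ∉ OV.cl T) : ∃ D : Derivation ℂ L L, (∀ t ∈ T, D t = 0) ∧ D z ≠ 0 := by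
  obtain ⟨B', hB'⟩ := (matroid ℂ L).exists_isBasis T
  have h1 : OV.cl B' = OV.cl T := by
    rw [← OV.closure_eq, ← OV.closure_eq, hB'.closure_eq_closure]
  have h2 : z ∉ (matroid ℂ L).closure B' := by
    rw [OV.closure_eq, h1]
    exact hz
  have h3 := (hB'.indep.notMem_closure_iff (by simp)).1 h2
  obtain ⟨B, hB, hBB⟩ := h3.1.exists_isBase_superset
  have h4 : IsTranscendenceBasis ℂ ((↑) : B → L) := matroid_isBase_iff.1 hB
  have h5 := h4.1
  have h6 : Algebra.IsAlgebraic (Algebra.adjoin ℂ (Set.range ((↑) : B → L))) L := h4.isAlgebraic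
  classical
  obtain ⟨D, hD⟩ := MP_e52354_nt.exists_derivation h5
    (fun i : B => if (i : L) = z then (1 : L) else 0)
  refine ⟨D, fun t ht => ?_, ?_⟩
  · refine OV.derAlg_zero_of_adjoin B' D (fun b hb => ?_) (?_ : t ∈ OV.cl B')
    · have h7 := hD ⟨b, hBB (Set.mem_insert_of_mem _ hb)⟩
      rw [if_neg] at h7
      · exact h7
      · intro h8
        exact h3.2 (h8 ▸ hb)
    · rw [h1]
      exact OV.subset_cl T ht
  · have h7 := hD ⟨z, hBB (Set.mem_insert _ _)⟩
    rw [if_pos rfl] at h7
    change D z = 1 at h7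
    rw [h7]
    exact one_ne_zero

/-- The derivations dual to a part of a base. -/
private theorem gn2_dual {L : Type} [Field L] [Algebra ℂ L] {B c : Set L} {e : ℕ}
    (u : Fin e → L) (hu : Function.Injective u) (hB : (matroid ℂ L).IsBase B)
    (hc : c ⊆ B) (huB : ∀ l, u l ∈ B) (huc : ∀ l, u l ∉ c) :
    ∃ E : Fin e → Derivation ℂ L L, (∀ l, ∀ t ∈ c, E l t = 0) ∧
      ∀ l l', E l (u l') = if l = l' then 1 else 0 := by
  have h4 : IsTranscendenceBasis ℂ ((↑) : B → L) := matroid_isBase_iff.1 hB
  have h5 := h4.1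
  have h6 : Algebra.IsAlgebraic (Algebra.adjoin ℂ (Set.range ((↑) : B → L))) L := h4.isAlgebraic
  classical
  choose E hE using fun l : Fin e => MP_e52354_nt.exists_derivation h5
    (fun i : B => if (i : L) = u l then (1 : L) else 0)
  refine ⟨E, fun l t ht => ?_, fun l l' => ?_⟩
  · have h7 := hE l ⟨t, hc ht⟩
    rw [if_neg] at h7
    · exact h7
    · rintro h8
      change t = u l at h8
      rw [h8] at ht
      exact huc l ht
  · have h7 := hE l ⟨u l', huB l'⟩
    change E l (u l') = if u l' = u l then (1 : L) else 0 at h7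
    rw [h7]
    by_cases h8 : l = l'
    · rw [if_pos h8, if_pos (by rw [h8])]
    · rw [if_neg h8, if_neg (fun h9 => h8 (hu h9).symm)]

/-- Derivations are combinations of the dual ones. -/
private theorem gn2_eq {L : Type} [Field L] [Algebra ℂ L] {c : Set L} {e : ℕ} {u : Fin e → L}
    {E : Fin e → Derivation ℂ L L} (hEc : ∀ l, ∀ t ∈ c, E l t = 0)
    (hEu : ∀ l l', E l (u l') = if l = l' then 1 else 0)
    (hall : ∀ z : L, z ∈ OV.cl (c ∪ Set.range u)) (D : Derivation ℂ L L)
    (hD : ∀ t ∈ c, D t = 0) (z : L) : D z = ∑ l, D (u l) * E l z := by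
  have h1 : (D - ∑ l, D (u l) • E l) z = 0 := by
    refine OV.derAlg_zero_of_adjoin (c ∪ Set.range u) _ (fun t ht => ?_) (hall z)
    have h2 : ∀ t, (D - ∑ l, D (u l) • E l) t = D t - ∑ l, D (u l) * E l t := fun t => by
      rw [Derivation.sub_apply]
      congr 1
      have h3 : (∑ l, D (u l) • E l : Derivation ℂ L L) t = ∑ l, (D (u l) • E l) t := by
        have h4 := map_sum (Derivation.coeFnAddMonoidHom (R := ℂ) (A := L) (M := L))
          (fun l => D (u l) • E l) Finset.univ
        have h5 := congrFun h4 t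
        rw [Finset.sum_apply] at h5
        exact h5
      rw [h3]
      rfl
    rw [h2]
    rcases ht with ht | ⟨l', rfl⟩
    · rw [hD t ht, Finset.sum_eq_zero fun l _ => by rw [hEc l t ht, mul_zero], sub_zero]
    · rw [Finset.sum_eq_single l' (fun l _ hl => by rw [hEu, if_neg hl, mul_zero])
        (fun h => absurd (Finset.mem_univ _) h), hEu, if_pos rfl, mul_one, sub_self]
  have h2 : (D - ∑ l, D (u l) • E l) z = D z - ∑ l, D (u l) * E l z := by
    rw [Derivation.sub_apply]
    congr 1
    have h3 : (∑ l, D (u l) • E l : Derivation ℂ L L) z = ∑ l, (D (u l) • E l) z := by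
      have h4 := map_sum (Derivation.coeFnAddMonoidHom (R := ℂ) (A := L) (M := L))
        (fun l => D (u l) • E l) Finset.univ
      have h5 := congrFun h4 z
      rw [Finset.sum_apply] at h5
      exact h5
    rw [h3]
    rfl
  rw [h2] at h1
  exact sub_eq_zero.1 h1

/-- Nondegenerate combinations generate. -/
private theorem gn2_gen {L : Type} [Field L] [Algebra ℂ L] {c : Set L} {e : ℕ} {u g : Fin e → L}
    {E : Fin e → Derivation ℂ L L} (hEc : ∀ l, ∀ t ∈ c, E l t = 0)
    (hEu : ∀ l l', E l (u l') = if l = l' then 1 else 0)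
    (hall : ∀ z : L, z ∈ OV.cl (c ∪ Set.range u))
    (hdet : Matrix.det (Matrix.of fun l l' => E l (g l')) ≠ 0) (z : L) :
    z ∈ OV.cl (c ∪ Set.range g) := by
  by_contra hcon
  obtain ⟨D, hD, hDz⟩ := gn2_der hcon
  have h1 := gn2_eq hEc hEu hall D (fun t ht => hD t (Or.inl ht))
  have h2 : Matrix.vecMul (fun l => D (u l)) (Matrix.of fun l l' => E l (g l')) = 0 := by
    funext l'
    rw [Matrix.vecMul, Pi.zero_apply]
    have h3 := h1 (g l')
    rw [hD (g l') (Or.inr ⟨l', rfl⟩)] at h3
    exact h3.symm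
  have h3 := Matrix.eq_zero_of_vecMul_eq_zero hdet h2
  apply hDz
  rw [h1 z]
  exact Finset.sum_eq_zero fun l _ => by rw [show D (u l) = 0 from congrFun h3 l, zero_mul]

/-- Applying a linear map to the coefficients of a polynomial. -/
private theorem gn2_lam {L σ : Type} [Field L] [Algebra ℂ L] [Fintype σ] (lam : L →ₗ[ℂ] ℂ)
    (P : MvPolynomial σ L) : ∃ H : MvPolynomial σ ℂ, ∀ a : σ → ℂ,
      eval a H = lam (eval (fun i => algebraMap ℂ L (a i)) P) := by
  refine ⟨∑ m ∈ P.support, monomial m (lam (P.coeff m)), fun a => ?_⟩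
  rw [eval_eq (fun i => algebraMap ℂ L (a i)) P, map_sum, map_sum]
  refine Finset.sum_congr rfl fun m _ => ?_
  rw [eval_monomial, Finsupp.prod]
  have h1 : P.coeff m * ∏ i ∈ m.support, algebraMap ℂ L (a i) ^ m i =
      (∏ i ∈ m.support, a i ^ m i) • P.coeff m := by
    rw [Algebra.smul_def, map_prod, mul_comm]
    congr 1
    exact Finset.prod_congr rfl fun i _ => (map_pow _ _ _).symm
  rw [h1, map_smul, smul_eq_mul, mul_comm]

/-- GN-2: for a generic choice of `e` linear forms in `y`, everything is algebraic over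
`ℂ(x, g, y ^ m)`.

Proof. Take `b ⊆ range x` a basis of `range x` in the matroid (`Matroid.exists_isBasis`); it has
`td (range x)` elements, and `range x ⊆ cl b`. As `y ^ m ∉ cl (range x)`, `b ∪ {y ^ m}` is independent;
it extends to a base of the matroid contained in `b ∪ {y ^ m} ∪ range y` (everything is in
`cl (range x ∪ range y)`, `hgen`), by exactly `e` elements `y (J 1), ..., y (J e)` because
`td (range x ∪ range y) = td (range x) + e + 1`. By `MP_e52354_nt.exists_derivation` there are
derivations `E_0, ..., E_e` of `L / ℂ` which kill `b`, dual to `(y ^ m, y (J 1), ..., y (J e))`. For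
`a : Fin e × Fin n → ℂ` let `h(a) = det (E_l (g_{l'}))_{l, l' = 1..e}` with `g = gform y a`: a polynomial in
`a` with coefficients in `L`, equal to `1` for the `a⁰` with `g_l = y (J l)`. Choose a `ℂ`-linear
`λ : L → ℂ` with `λ (1) ≠ 0`, and let `H` be the polynomial over `ℂ` with `eval a H = λ (h(a))` (apply `λ`
to the coefficients); `H ≠ 0`. If `eval a H ≠ 0` then `h(a) ≠ 0`, and
`det (E_i (u_j))_{i, j = 0..e} = h(a) ≠ 0` for `u = (y ^ m, g_1, ..., g_e)` (first column `(1, 0, ..., 0)`).
So no nontrivial combination of the `E_i` kills `b`, `y ^ m` and `g`; if the base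
`b ∪ {y ^ m, y (J l)}` were not in `cl (b ∪ {y ^ m} ∪ range g)`, there would be a nonzero derivation
killing `b`, `y ^ m`, `g`, and it is a combination of the `E_i` (a derivation is determined by its values
on a base: `OV.derAlg_zero_of_adjoin`). -/
theorem exists_poly {L : Type} [Field L] [Algebra ℂ L] {n e : ℕ} (x y : Fin n → L)
    (hgen : ∀ b : L, b ∈ OV.cl (Set.range x ∪ Set.range y))
    (htd : OV.td (Set.range x ∪ Set.range y) = OV.td (Set.range x) + (e + 1))
    (m : Fin n → ℤ) (hm : OV.mon m y ∉ OV.cl (Set.range x)) :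
    ∃ H : MvPolynomial (Fin e × Fin n) ℂ, H ≠ 0 ∧ ∀ a : Fin e × Fin n → ℂ, eval a H ≠ 0 →
      ∀ b : L, b ∈ OV.cl (Set.range x ∪ Set.range (gform y a) ∪ {OV.mon m y}) := by
  obtain ⟨b, hb⟩ := (matroid ℂ L).exists_isBasis (Set.range x)
  have hbcl : OV.cl b = OV.cl (Set.range x) := by
    rw [← OV.closure_eq, ← OV.closure_eq, hb.closure_eq_closure]
  have hwb : OV.mon m y ∉ (matroid ℂ L).closure b := by
    rw [OV.closure_eq, hbcl]
    exact hm
  have hins := (hb.indep.notMem_closure_iff (by simp)).1 hwb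
  obtain ⟨B, hB, hBB⟩ := hins.1.subset_isBasis_of_subset
    (X := insert (OV.mon m y) b ∪ Set.range y) Set.subset_union_left (by simp)
  have hBcl : OV.cl B = OV.cl (insert (OV.mon m y) b ∪ Set.range y) := by
    rw [← OV.closure_eq, ← OV.closure_eq, hB.closure_eq_closure]
  have hBall : ∀ z : L, z ∈ OV.cl B := by
    intro z
    rw [hBcl]
    refine OV.cl_subset ?_ (hgen z)
    refine Set.union_subset ?_ (Set.subset_union_right.trans (OV.subset_cl _))
    refine (OV.subset_cl _).trans ?_
    rw [← hbcl]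
    refine OV.cl_mono ?_
    exact (Set.subset_insert _ _).trans Set.subset_union_left
  have hBbase : (matroid ℂ L).IsBase B :=
    hB.indep.isBase_of_ground_subset_closure fun z _ => by
      rw [OV.closure_eq]
      exact hBall z
  have hBcard : B.encard = b.encard + (e + 1) := by
    have h1 : OV.td (Set.range x ∪ Set.range y) = B.encard := by
      rw [← hB.indep.eRk_eq_encard]
      refine OV.td_eq_of_cl ?_
      rw [Set.eq_univ_of_forall hgen, Set.eq_univ_of_forall hBall]
    have h2 : OV.td (Set.range x) = b.encard := hb.encard_eq_eRk.symm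
    rw [← h1, ← h2]
    exact htd
  have hbfin : b.Finite := (Set.finite_range x).subset hb.subset
  have hdiff : (B \ insert (OV.mon m y) b).encard = e := by
    have h1 := Set.encard_sdiff_add_encard_of_subset hBB
    rw [Set.encard_insert_of_notMem hins.2, hBcard, ← hbfin.cast_ncard_eq] at h1
    have h2 : (B \ insert (OV.mon m y) b).encard ≠ ⊤ := by
      intro h3
      rw [h3, top_add] at h1
      exact absurd h1 (by
        rw [← ne_eq]
        exact_mod_cast (ENat.natCast_ne_top (b.ncard + (e + 1))).symm)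
    obtain ⟨k, hk⟩ := ENat.ne_top_iff_exists.1 h2
    rw [← hk] at h1 ⊢
    have h3 : k + (b.ncard + 1) = b.ncard + (e + 1) := by exact_mod_cast h1
    have h4 : k = e := by omega
    rw [h4]
  have hdfin : (B \ insert (OV.mon m y) b).Finite := Set.finite_of_encard_eq_coe hdiff
  have hdcard : hdfin.toFinset.card = e := by
    rw [← Set.ncard_eq_toFinset_card _ hdfin]
    have h1 := hdfin.cast_ncard_eq
    rw [hdiff] at h1
    exact_mod_cast h1
  obtain ⟨u, huinj, hur⟩ : ∃ u : Fin e → L, Function.Injective u ∧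
      Set.range u = B \ insert (OV.mon m y) b := by
    refine ⟨fun l => ((hdfin.toFinset.equivFinOfCardEq hdcard).symm l : L), ?_, ?_⟩
    · intro l l' hll
      exact (hdfin.toFinset.equivFinOfCardEq hdcard).symm.injective (Subtype.ext hll)
    · ext t
      constructor
      · rintro ⟨l, rfl⟩
        exact hdfin.mem_toFinset.1 ((hdfin.toFinset.equivFinOfCardEq hdcard).symm l).2
      · intro ht
        refine ⟨hdfin.toFinset.equivFinOfCardEq hdcard ⟨t, hdfin.mem_toFinset.2 ht⟩, ?_⟩
        simp
  have hu : ∀ l, u l ∈ B \ insert (OV.mon m y) b := fun l => by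
    rw [← hur]
    exact ⟨l, rfl⟩
  have huy : ∀ l, ∃ j, y j = u l := fun l => by
    rcases hB.subset (hu l).1 with h | h
    · exact absurd h (hu l).2
    · exact h
  choose J hJ using huy
  obtain ⟨E, hEc, hEu⟩ := gn2_dual (c := insert (OV.mon m y) b) u huinj hBbase hBB
    (fun l => (hu l).1) (fun l => (hu l).2)
  have hall : ∀ z : L, z ∈ OV.cl (insert (OV.mon m y) b ∪ Set.range u) := by
    intro z
    rw [hur, Set.union_sdiff_cancel hBB]
    exact hBall z
  have hPev : ∀ a : Fin e × Fin n → ℂ, eval (fun i => algebraMap ℂ L (a i))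
      (Matrix.det (Matrix.of fun l l' : Fin e =>
        ∑ j, C (E l (y j)) * (X (l', j) : MvPolynomial (Fin e × Fin n) L))) =
      Matrix.det (Matrix.of fun l l' => E l (gform y a l')) := by
    intro a
    rw [RingHom.map_det]
    congr 1
    ext l l'
    rw [RingHom.mapMatrix_apply, Matrix.map_apply, Matrix.of_apply, Matrix.of_apply, map_sum,
      gform, map_sum]
    refine Finset.sum_congr rfl fun j _ => ?_
    rw [map_mul, eval_C, eval_X, Derivation.leibniz, Derivation.map_algebraMap, smul_zero,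
      add_zero, smul_eq_mul, mul_comm]
  obtain ⟨lam, hlam⟩ := (Algebra.linearMap ℂ L).exists_leftInverse_of_injective
    (LinearMap.ker_eq_bot.2 (algebraMap ℂ L).injective)
  have hlam1 : lam 1 = 1 := by
    have h1 := LinearMap.congr_fun hlam 1
    rw [LinearMap.comp_apply, Algebra.linearMap_apply, map_one] at h1
    exact h1
  obtain ⟨H, hH⟩ := gn2_lam lam (Matrix.det (Matrix.of fun l l' : Fin e =>
        ∑ j, C (E l (y j)) * (X (l', j) : MvPolynomial (Fin e × Fin n) L)))
  refine ⟨H, fun h0 => ?_, fun a ha z => ?_⟩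
  · have h1 := hH fun p => if p.2 = J p.1 then 1 else 0
    rw [h0, map_zero, hPev] at h1
    have h2 : (Matrix.of fun l l' => E l (gform y (fun p => if p.2 = J p.1 then 1 else 0) l')) =
        (1 : Matrix (Fin e) (Fin e) L) := by
      ext l l'
      rw [Matrix.of_apply, Matrix.one_apply, ← hEu, ← hJ]
      congr 1
      rw [gform, Finset.sum_eq_single (J l')]
      · rw [if_pos rfl, map_one, one_mul]
      · intro j _ hj
        rw [if_neg hj, map_zero, zero_mul]
      · intro h
        exact absurd (Finset.mem_univ _) h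
    rw [h2, Matrix.det_one, hlam1] at h1
    exact zero_ne_one h1
  · have h1 : Matrix.det (Matrix.of fun l l' => E l (gform y a l')) ≠ 0 := by
      intro h2
      apply ha
      rw [hH, hPev, h2, map_zero]
    refine OV.cl_mono ?_ (gn2_gen hEc hEu hall h1 z)
    rintro t (ht | ht)
    · rcases ht with rfl | ht
      · exact Or.inr rfl
      · exact Or.inl (Or.inl (hb.subset ht))
    · exact Or.inl (Or.inr ht)

end Pool.Agent.Lib.MP_209724_lc.SC
end

section

namespace Pool.Agent.Lib.MP_209724_lc.SC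

/-- SC-25: if `x_1, ..., x_n, y_{J 1}, ..., y_{J e}` is a transcendence basis, there is no nonzero
derivation compatible with `exp` which kills the `y (J l)`.

Proof. Suppose `D ≠ 0`. `D` does not kill all `x i` (otherwise it kills `y i`, hence everything, by
`hgen`). Let `Λ` be its field of constants (`consts (fun _ : Fin 1 => D)`), `C` from
`exists_max Λ x`. By `ax_sub` (with one derivation; `hlin`: one nonzero vector) there is
`s : C ⊕ Fin 1 → F` algebraically independent over `Λ`. The elements `y (J l)` (`l < e`) and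
`w_j = N_j x_j - ∑ m_{ji} x_i` (`j ∉ C`) are in `Λ` and algebraically independent over `k`, because
`(x_i)_{i ∈ C}, (w_j)_{j ∉ C}, (y (J l))_l` arises from `(x, y ∘ J)` by an invertible linear
substitution over `ℚ` (or: `x, y ∘ J` are algebraic over `k(x_C, w, y ∘ J)`, which has `n + e`
generators; use `trdeg`/`matroid` arguments). Altogether
`(n - |C|) + e + |C| + 1 = n + e + 1` elements of `F` are algebraically independent over `k`:
contradiction with `htd`. -/
theorem nabla_unique {k F : Type} [Field k] [CharZero k] [Field F] [Algebra k F] {n e : ℕ}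
    (x y : Fin n → F) (hy : ∀ i, y i ≠ 0)
    (hgen : IntermediateField.adjoin k (Set.range x ∪ Set.range y) = ⊤)
    (htd : Algebra.trdeg k F = ((n + e : ℕ) : Cardinal)) (J : Fin e → Fin n)
    (hJ : AlgebraicIndependent k (Sum.elim x (y ∘ J))) (D : Derivation k F F)
    (hxy : ∀ i, D (y i) = y i * D (x i)) (h0 : ∀ l, D (y (J l)) = 0) : D = 0 := by
  classical
  by_contra hD
  have : CharZero F := charZero_of_injective_algebraMap (algebraMap k F).injective
  obtain ⟨Dv, hDv⟩ : ∃ Dv : Fin 1 → Derivation k F F, Dv = fun _ => D := ⟨_, rfl⟩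
  -- `D` does not kill all `x i`
  have hx : ∃ i, D (x i) ≠ 0 := by
    by_contra hall
    push Not at hall
    apply hD
    have h1 : IntermediateField.adjoin k (Set.range x ∪ Set.range y) ≤ consts Dv := by
      rw [IntermediateField.adjoin_le_iff]
      rintro a (⟨i, rfl⟩ | ⟨i, rfl⟩)
      · intro l
        rw [hDv]
        exact hall i
      · intro l
        rw [hDv]
        show D (y i) = 0
        rw [hxy, hall, mul_zero]
    rw [hgen] at h1
    ext a
    have h2 := h1 (IntermediateField.mem_top (x := a)) 0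
    rw [hDv] at h2
    exact h2
  obtain ⟨C, hC1, hC2⟩ := exists_max (consts Dv) x
  have hlin : LinearIndependent F fun (l : Fin 1) (i : Fin n) => Dv l (x i) := by
    rw [linearIndependent_unique_iff]
    obtain ⟨i, hi⟩ := hx
    intro h
    have h2 := congrFun h i
    rw [hDv] at h2
    exact hi h2
  obtain ⟨s, hs, -⟩ := ax_sub Dv x y hy (fun l i => by rw [hDv]; exact hxy i) hlin C hC1 hC2
  choose! N m hN hm hw using hC2
  obtain ⟨z, hz0⟩ : ∃ z : Fin n ⊕ Fin e → F, z = Sum.elim
      (fun j => if j ∈ C then x j else (N j : F) * x j - ∑ i, (m j i : F) * x i) (y ∘ J) := ⟨_, rfl⟩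
  have hbase : IsTranscendenceBasis k (Sum.elim x (y ∘ J)) :=
    hJ.isTranscendenceBasis_of_trdeg_le_of_finite (by rw [htd]; simp)
  have hle : Algebra.adjoin k (Set.range (Sum.elim x (y ∘ J))) ≤ Algebra.adjoin k (Set.range z) := by
    have hin : ∀ a, z a ∈ Algebra.adjoin k (Set.range z) := fun a => Algebra.subset_adjoin ⟨a, rfl⟩
    have hxC : ∀ i ∈ C, x i ∈ Algebra.adjoin k (Set.range z) := fun i hi => by
      have h1 := hin (Sum.inl i)
      have e1 : z (Sum.inl i) = x i := by
        rw [hz0]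
        simp [hi]
      rw [e1] at h1
      exact h1
    rw [Algebra.adjoin_le_iff]
    rintro a ⟨j | l, rfl⟩
    · show x j ∈ Algebra.adjoin k (Set.range z)
      by_cases hj : j ∈ C
      · exact hxC j hj
      · have h1 := hin (Sum.inl j)
        have e1 : z (Sum.inl j) = (N j : F) * x j - ∑ i, (m j i : F) * x i := by
          rw [hz0]
          simp [hj]
        have h2 : ∑ i, (m j i : F) * x i ∈ Algebra.adjoin k (Set.range z) := by
          refine Subalgebra.sum_mem _ fun i _ => ?_
          by_cases hi : i ∈ C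
          · refine Subalgebra.mul_mem _ ?_ (hxC i hi)
            have : ((m j i : ℤ) : F) = algebraMap k F ((m j i : ℤ) : k) := (map_intCast (algebraMap k F) _).symm
            rw [this]
            exact Subalgebra.algebraMap_mem _ _
          · rw [hm j hj i hi, Int.cast_zero, zero_mul]
            exact Subalgebra.zero_mem _
        have h3 : (N j : F) * x j ∈ Algebra.adjoin k (Set.range z) := by
          have := Subalgebra.add_mem _ h1 h2
          rwa [e1, sub_add_cancel] at this
        have hNk : ((N j : ℤ) : k) ≠ 0 := Int.cast_ne_zero.2 (hN j hj)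
        have h4 : x j = algebraMap k F (((N j : ℤ) : k)⁻¹) * ((N j : F) * x j) := by
          rw [← map_intCast (algebraMap k F) (N j), ← mul_assoc, ← map_mul, inv_mul_cancel₀ hNk, map_one, one_mul]
        rw [h4]
        exact Subalgebra.mul_mem _ (Subalgebra.algebraMap_mem _ _) h3
    · have h1 := hin (Sum.inr l)
      have e1 : z (Sum.inr l) = y (J l) := by rw [hz0]; rfl
      rw [e1] at h1
      exact h1
  have halg : Algebra.IsAlgebraic (Algebra.adjoin k (Set.range z)) F := by
    have := hbase.isAlgebraic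
    let _ := (Subalgebra.inclusion hle).toRingHom.toAlgebra
    have : IsScalarTower (Algebra.adjoin k (Set.range (Sum.elim x (y ∘ J)))) (Algebra.adjoin k (Set.range z)) F :=
      IsScalarTower.of_algebraMap_eq fun _ => rfl
    exact Algebra.IsAlgebraic.extendScalars (R := Algebra.adjoin k (Set.range (Sum.elim x (y ∘ J))))
      (Subalgebra.inclusion_injective hle)
  have hz : AlgebraicIndependent k z :=
    (Algebra.IsAlgebraic.isTranscendenceBasis_of_le_trdeg_of_finite k z (by rw [htd]; simp)).1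
  -- the elements of the field of constants
  have hmem1 : ∀ j : {j // j ∉ C}, z (Sum.inl j.1) ∈ consts Dv := fun j => by
    have : z (Sum.inl j.1) = (N j.1 : F) * x j.1 - ∑ i, (m j.1 i : F) * x i := by
      rw [hz0]
      simp [j.2]
    rw [this]
    exact hw j.1 j.2
  have hmem2 : ∀ l : Fin e, z (Sum.inr l) ∈ consts Dv := fun l => by
    intro _
    rw [hDv, hz0]
    exact h0 l
  obtain ⟨u, hu0⟩ : ∃ u : {j // j ∉ C} ⊕ Fin e → consts Dv, ∀ a, (u a : F) =
      z (Sum.map Subtype.val id a) := by
    refine ⟨fun a => ⟨z (Sum.map Subtype.val id a), ?_⟩, fun _ => rfl⟩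
    rcases a with j | l
    · exact hmem1 j
    · exact hmem2 l
  have hu : AlgebraicIndependent k u := by
    rw [← AlgHom.algebraicIndependent_iff (consts Dv).val (consts Dv).val.injective]
    have e1 : (consts Dv).val ∘ u = z ∘ Sum.map Subtype.val id := funext hu0
    rw [e1]
    exact hz.comp _ (Sum.map_injective.2 ⟨Subtype.val_injective, Function.injective_id⟩)
  have key := (hu.sumElim_comp hs).cardinalMk_le_trdeg
  rw [htd, Cardinal.mk_fintype, Nat.cast_le] at key
  simp only [Fintype.card_sum, Fintype.card_coe, Fintype.card_fin] at key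
  have h5 : Fintype.card {j // j ∉ C} = n - C.card := by
    rw [Fintype.card_subtype_compl, Fintype.card_fin, Fintype.card_coe]
  have h6 : C.card ≤ n := by
    have := C.card_le_univ
    rwa [Fintype.card_fin] at this
  rw [h5] at key
  omega

end Pool.Agent.Lib.MP_209724_lc.SC
end

section

namespace Pool.Agent.Lib.MP_209724_lc.SC

private theorem gn4_prod {k F : Type} [Field k] [Field F] [Algebra k F] {n : ℕ} (D : Derivation k F F)
    (x y : Fin n → F) (hy : ∀ i, y i ≠ 0) (hxy : ∀ i, D (y i) = y i * D (x i)) (m : Fin n → ℤ) :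
    D (∏ i, y i ^ m i) = (∏ i, y i ^ m i) * ∑ i, (m i : F) * D (x i) := by
  classical
  have h : ∀ S : Finset (Fin n), D (∏ i ∈ S, y i ^ m i) = (∏ i ∈ S, y i ^ m i) * ∑ i ∈ S, (m i : F) * D (x i) := by
    intro S
    induction S using Finset.induction_on with
    | empty => simp
    | insert a S ha ih =>
      rw [Finset.prod_insert ha, Finset.sum_insert ha, Derivation.leibniz, ih, Derivation.leibniz_zpow, hxy]
      have h1 : y a ^ m a = y a ^ (m a - 1) * y a := by
        rw [← zpow_add_one₀ (hy a), sub_add_cancel]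
      simp only [smul_eq_mul, zsmul_eq_mul]
      rw [h1]
      ring
  exact h Finset.univ

/-- GN-4: uniqueness of compatible derivations in the case of codimension one.

Proof. Suppose `D ≠ 0`; it does not kill all `x i` (`hgen`). Let `Λ` be its field of constants
(`consts (fun _ : Fin 1 => D)`), `C` from `exists_max Λ x`, and `s : C ⊕ Fin 1 → F` algebraically
independent over `Λ` from `ax_sub`. Let `r = n - |C|`.
Case `r = 0`: the `g l` are in `Λ`, algebraically independent over `k` (`hg`): together with `s` this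
gives `n + 1 + e` algebraically independent elements, contradiction with `htd`.
Case `r > 0`: let `w_j = N_j x_j - ∑ m_{ji} x_i ∈ Λ`, `j ∉ C`, fix one `j₀ ∉ C` and `m = N e_{j₀} - m_{j₀} ≠ 0`;
`y ^ m ∈ Λ` since `D (y ^ m) = y ^ m * D (∑ m_i x_i) = 0`. All of `F` is algebraic over
`k(x, g, y ^ m)` (`h`), hence over `k(x_C, w, g, y ^ m)`; so the transcendence degree of
`k(w, g, y ^ m)` is at least `n + e - |C| = r + e`, and it is contained in `Λ`. Together with `s`
(`|C| + 1` elements independent over `Λ`): `n + e + 1` algebraically independent elements,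
contradiction. -/
theorem nabla_unique' {k F : Type} [Field k] [CharZero k] [Field F] [Algebra k F] {n e : ℕ}
    (x y : Fin n → F) (hy : ∀ i, y i ≠ 0)
    (hgen : IntermediateField.adjoin k (Set.range x ∪ Set.range y) = ⊤)
    (htd : Algebra.trdeg k F = ((n + e : ℕ) : Cardinal)) (g : Fin e → F)
    (hg : AlgebraicIndependent k g)
    (h : ∀ m : Fin n → ℤ, m ≠ 0 → ∀ b : F, IsAlgebraic (Algebra.adjoin k
      (Set.range x ∪ Set.range g ∪ {∏ i, y i ^ m i})) b)
    (D : Derivation k F F) (hxy : ∀ i, D (y i) = y i * D (x i)) (h0 : ∀ l, D (g l) = 0) :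
    D = 0 := by
  classical
  by_contra hD
  have : CharZero F := charZero_of_injective_algebraMap (algebraMap k F).injective
  obtain ⟨Dv, hDv⟩ : ∃ Dv : Fin 1 → Derivation k F F, Dv = fun _ => D := ⟨_, rfl⟩
  -- `D` does not kill all `x i`
  have hx : ∃ i, D (x i) ≠ 0 := by
    by_contra hall
    push Not at hall
    apply hD
    have h1 : IntermediateField.adjoin k (Set.range x ∪ Set.range y) ≤ consts Dv := by
      rw [IntermediateField.adjoin_le_iff]
      rintro a (⟨i, rfl⟩ | ⟨i, rfl⟩)
      · intro l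
        rw [hDv]
        exact hall i
      · intro l
        rw [hDv]
        show D (y i) = 0
        rw [hxy, hall, mul_zero]
    rw [hgen] at h1
    ext a
    have h2 := h1 (IntermediateField.mem_top (x := a)) 0
    rw [hDv] at h2
    exact h2
  obtain ⟨C, hC1, hC2⟩ := exists_max (consts Dv) x
  have hlin : LinearIndependent F fun (l : Fin 1) (i : Fin n) => Dv l (x i) := by
    rw [linearIndependent_unique_iff]
    obtain ⟨i, hi⟩ := hx
    intro h
    have h2 := congrFun h i
    rw [hDv] at h2
    exact hi h2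
  obtain ⟨s, hs, -⟩ := ax_sub Dv x y hy (fun l i => by rw [hDv]; exact hxy i) hlin C hC1 hC2
  have hgc : ∀ l, g l ∈ consts Dv := fun l _ => by
    rw [hDv]
    exact h0 l
  by_cases hall : ∀ j, j ∈ C
  · -- all the `x j` are independent modulo constants
    have hu : AlgebraicIndependent k fun l => (⟨g l, hgc l⟩ : consts Dv) := by
      rw [← AlgHom.algebraicIndependent_iff (consts Dv).val (consts Dv).val.injective]
      exact hg
    have key := (hu.sumElim_comp hs).cardinalMk_le_trdeg
    rw [htd, Cardinal.mk_fintype, Nat.cast_le] at key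
    simp only [Fintype.card_sum, Fintype.card_coe, Fintype.card_fin] at key
    have h6 : C.card = n := by
      rw [Finset.eq_univ_of_forall hall, Finset.card_univ, Fintype.card_fin]
    omega
  · push Not at hall
    obtain ⟨j₀, hj₀⟩ := hall
    obtain ⟨N, m, hN, hm, hw⟩ := hC2 j₀ hj₀
    obtain ⟨M, hM⟩ : ∃ M : Fin n → ℤ, M = fun i => if i = j₀ then N else -m i := ⟨_, rfl⟩
    have hM0 : M ≠ 0 := by
      intro h1
      have h2 := congrFun h1 j₀
      rw [hM] at h2
      exact hN (by simpa using h2)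
    have hsum : ∑ i, (M i : F) * x i = (N : F) * x j₀ - ∑ i, (m i : F) * x i := by
      have e1 : ∀ i, (M i : F) * x i = (if i = j₀ then (N : F) * x j₀ else 0) - (m i : F) * x i := by
        intro i
        rw [hM]
        by_cases hij : i = j₀
        · simp only [if_pos hij]
          rw [hij, hm j₀ hj₀]
          simp
        · simp only [if_neg hij]
          push_cast
          ring
      rw [Finset.sum_congr rfl fun i _ => e1 i, Finset.sum_sub_distrib, Finset.sum_ite_eq']
      simp
    have hyM : (∏ i, y i ^ M i) ∈ consts Dv := by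
      intro l
      rw [hDv]
      show D (∏ i, y i ^ M i) = 0
      rw [gn4_prod D x y hy hxy]
      have h1 : ∑ i, (M i : F) * D (x i) = D (∑ i, (M i : F) * x i) := by
        rw [map_sum]
        refine Finset.sum_congr rfl fun i _ => ?_
        rw [← zsmul_eq_mul, ← zsmul_eq_mul, map_zsmul]
      have h2 := mem_consts.1 hw 0
      rw [hDv] at h2
      rw [h1, hsum, h2, mul_zero]
    -- everything is algebraic over the field of constants and the `x i`, `i ∈ C`
    obtain ⟨A', hA'⟩ : ∃ A' : Subalgebra (consts Dv) F, A' = Algebra.adjoin (consts Dv) (Set.range fun i : C => x i) :=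
      ⟨_, rfl⟩
    have hc : ∀ a ∈ consts Dv, a ∈ A' := fun a ha => A'.algebraMap_mem (⟨a, ha⟩ : consts Dv)
    have hxC : ∀ i ∈ C, x i ∈ A' := fun i hi => by
      rw [hA']
      exact Algebra.subset_adjoin ⟨⟨i, hi⟩, rfl⟩
    have hx' : ∀ j, x j ∈ A' := by
      intro j
      by_cases hj : j ∈ C
      · exact hxC j hj
      · obtain ⟨N', m', hN', hm', hw'⟩ := hC2 j hj
        have hN0 : (N' : F) ≠ 0 := Int.cast_ne_zero.2 hN'
        have h2 : ∑ i, (m' i : F) * x i ∈ A' := by
          refine Subalgebra.sum_mem _ fun i _ => ?_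
          by_cases hi : i ∈ C
          · exact Subalgebra.mul_mem _ (hc _ (intCast_mem (consts Dv) (m' i))) (hxC i hi)
          · rw [hm' i hi, Int.cast_zero, zero_mul]
            exact Subalgebra.zero_mem _
        have h3 : (N' : F) * x j ∈ A' := by
          have := Subalgebra.add_mem _ (hc _ hw') h2
          rwa [sub_add_cancel] at this
        have h4 : x j = (N' : F)⁻¹ * ((N' : F) * x j) := by
          rw [← mul_assoc, inv_mul_cancel₀ hN0, one_mul]
        rw [h4]
        exact Subalgebra.mul_mem _ (hc _ (inv_mem (intCast_mem (consts Dv) N'))) h3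
    have hle : Algebra.adjoin k (Set.range x ∪ Set.range g ∪ {∏ i, y i ^ M i}) ≤ A'.restrictScalars k := by
      rw [Algebra.adjoin_le_iff]
      rintro a ((⟨j, rfl⟩ | ⟨l, rfl⟩) | ha)
      · exact hx' j
      · exact hc _ (hgc l)
      · rw [Set.mem_singleton_iff] at ha
        rw [ha]
        exact hc _ hyM
    have halg : Algebra.IsAlgebraic A' F := by
      constructor
      intro b
      have h1 := h M hM0 b
      let f : Algebra.adjoin k (Set.range x ∪ Set.range g ∪ {∏ i, y i ^ M i}) →+* A' :=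
        (Subalgebra.inclusion hle).toRingHom
      let _ := f.toAlgebra
      have : IsScalarTower (Algebra.adjoin k (Set.range x ∪ Set.range g ∪ {∏ i, y i ^ M i})) A' F :=
        IsScalarTower.of_algebraMap_eq fun _ => rfl
      exact h1.extendScalars (Subalgebra.inclusion_injective hle)
    rw [hA'] at halg
    have h1 := Algebra.IsAlgebraic.trdeg_le_cardinalMk (consts Dv) (Set.range fun i : C => x i)
    have h2 := hs.cardinalMk_le_trdeg.trans (h1.trans Cardinal.mk_range_le)
    rw [Cardinal.mk_fintype, Cardinal.mk_fintype, Nat.cast_le] at h2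
    simp only [Fintype.card_sum, Fintype.card_coe, Fintype.card_fin] at h2
    omega

end Pool.Agent.Lib.MP_209724_lc.SC
end

section

namespace Pool.Agent.Lib.MP_209724_lc.SC

open MvPolynomial

/-- GN-1: countably many nonzero polynomials have a common non-zero.

Proof. Let `k` be the subfield of `ℂ` generated by the (countably many) coefficients of the `H i`; it is
countable. By `exists_eders` and `algInd_of_det` there is `a : Fin N → ℂ` algebraically independent over
`k`; `H i` comes from a nonzero polynomial over `k`, so `eval a (H i) ≠ 0`. -/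
theorem exists_avoid {ι : Type} [Countable ι] {N : ℕ} (H : ι → MvPolynomial (Fin N) ℂ)
    (hH : ∀ i, H i ≠ 0) : ∃ a : Fin N → ℂ, ∀ i, eval a (H i) ≠ 0 := by
  have hS : (Set.range fun p : ι × (Fin N →₀ ℕ) => (H p.1).coeff p.2).Countable :=
    Set.countable_range _
  have hc : Countable (IntermediateField.adjoin ℚ
      (Set.range fun p : ι × (Fin N →₀ ℕ) => (H p.1).coeff p.2)) := by
    rw [← Cardinal.mk_le_aleph0_iff]
    refine (IntermediateField.cardinalMk_adjoin_le ℚ _).trans ?_
    refine max_le (max_le ?_ ?_) le_rfl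
    · exact Cardinal.mk_le_aleph0_iff.2 inferInstance
    · exact Cardinal.mk_le_aleph0_iff.2 hS
  obtain ⟨t, D, -, hdet⟩ := exists_eders (IntermediateField.adjoin ℚ
      (Set.range fun p : ι × (Fin N →₀ ℕ) => (H p.1).coeff p.2)) N
  have ht := algInd_of_det t D hdet
  refine ⟨t, fun i h0 => ?_⟩
  obtain ⟨H', hH'⟩ : ∃ H' : MvPolynomial (Fin N) (IntermediateField.adjoin ℚ
      (Set.range fun p : ι × (Fin N →₀ ℕ) => (H p.1).coeff p.2)),
      MvPolynomial.map (algebraMap _ ℂ) H' = H i := by
    have h1 : H i ∈ Set.range (MvPolynomial.map (algebraMap (IntermediateField.adjoin ℚ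
      (Set.range fun p : ι × (Fin N →₀ ℕ) => (H p.1).coeff p.2)) ℂ)) := by
      rw [MvPolynomial.mem_range_map_iff_coeffs_subset]
      intro c hc'
      rw [Finset.mem_coe, MvPolynomial.mem_coeffs_iff] at hc'
      obtain ⟨m, -, hm⟩ := hc'
      refine ⟨⟨c, IntermediateField.subset_adjoin _ _ ⟨(i, m), hm.symm⟩⟩, rfl⟩
    exact h1
  have h2 : aeval t H' = 0 := by
    rw [← hH', MvPolynomial.eval_map] at h0
    exact h0
  have h3 : H' = 0 := ht.eq_zero_of_aeval_eq_zero _ h2
  exact hH i (by rw [← hH', h3, map_zero])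

end Pool.Agent.Lib.MP_209724_lc.SC
end

section

namespace Pool.Agent.Lib.MP_209724_lc.SC

open MvPolynomial AlgebraicIndependent

/-- GN-3: one choice for all `m`. Proof: `exists_poly` for every `m ≠ 0` (countably many), renamed to
`Fin (e * n)` variables (`finProdFinEquiv`), and `exists_avoid`. -/
theorem exists_forms {L : Type} [Field L] [Algebra ℂ L] {n e : ℕ} (x y : Fin n → L)
    (hgen : ∀ b : L, b ∈ OV.cl (Set.range x ∪ Set.range y))
    (htd : OV.td (Set.range x ∪ Set.range y) = OV.td (Set.range x) + (e + 1))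
    (hmon : ∀ m : Fin n → ℤ, m ≠ 0 → OV.mon m y ∉ OV.cl (Set.range x)) :
    ∃ a : Fin e × Fin n → ℂ, ∀ m : Fin n → ℤ, m ≠ 0 →
      ∀ b : L, b ∈ OV.cl (Set.range x ∪ Set.range (gform y a) ∪ {OV.mon m y}) := by
  choose H hH0 hH using fun m : {m : Fin n → ℤ // m ≠ 0} =>
    exists_poly x y hgen htd m.1 (hmon m.1 m.2)
  obtain ⟨a, ha⟩ := exists_avoid
    (fun m : {m : Fin n → ℤ // m ≠ 0} => rename finProdFinEquiv (H m)) (fun m h0 => by
      apply hH0 m
      apply rename_injective _ finProdFinEquiv.injective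
      rw [h0, map_zero])
  refine ⟨a ∘ finProdFinEquiv, fun m hm => hH ⟨m, hm⟩ _ ?_⟩
  have h1 := ha ⟨m, hm⟩
  rw [eval_rename] at h1
  exact h1

end Pool.Agent.Lib.MP_209724_lc.SC
end

section

namespace Pool.Agent.Lib.MP_209724_lc.SC

open MvPolynomial

private theorem sp2_td_range {n : ℕ} : OV.td (Set.range (omX : Fin n → Om n)) = n := by
  have h := algInd_omX n
  have h1 : (AlgebraicIndependent.matroid ℂ (Om n)).Indep (Set.range (omX : Fin n → Om n)) := by
    rw [AlgebraicIndependent.matroid_indep_iff]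
    exact h.to_subtype_range
  rw [OV.td, h1.eRk_eq_encard, ← Set.image_univ, h.injective.encard_image]
  simp

/-- SC-36: the exponential points in the case of a dominant projection (`HypersurfaceProjection (i)`).

Proof. `σ` from `exists_spec` with `z = x`, `g = y ∘ J`. Apply `OV.hs_dominant` to `ξ = σ ∘ x`,
`η = σ ∘ y`: `td (range ξ) = n` (`algInd_omX`, `ξ = omX`), and `td (range ξ ∪ range η) = n`
(`td_le_Om`). For `D = map d` (nonzero at `(ξ, η)` by `aeval_spec` and injectivity of `σ`) we get `p`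
with `eval (p, exp p) D ≠ 0` and `eval (p, exp p) f' = 0` for all `f'` over `ℂ` which vanish at
`(ξ, η)`: in particular for `f' = map f` with `f(x, y) = 0`, and for `f' = Y_{J l} - t_l`. Use
`eval_map_expG`. -/
theorem exists_point_dominant {k F : Type} [Field k] [Algebra k ℂ] [Field F] [Algebra k F]
    {n e : ℕ} (hn : 0 < n) (x y : Fin n → F) (hy : ∀ i, y i ≠ 0)
    (htd : Algebra.trdeg k F = ((n + e : ℕ) : Cardinal)) (J : Fin e → Fin n)
    (hJ : AlgebraicIndependent k (Sum.elim x (y ∘ J))) (t : Fin e → ℂ)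
    (ht : AlgebraicIndependent k t) (d : MvPolynomial (Fin n ⊕ Fin n) k)
    (hd : aeval (Sum.elim x y) d ≠ 0) :
    ∃ p : Fin n → ℂ, (∀ f : MvPolynomial (Fin n ⊕ Fin n) k, aeval (Sum.elim x y) f = 0 →
      expG f p = 0) ∧ expG d p ≠ 0 ∧
        ∀ l, expG (X (Sum.inr (J l)) : MvPolynomial (Fin n ⊕ Fin n) k) p = t l := by
  obtain ⟨σ, hσ1, hσ2, hσ3⟩ := exists_spec htd x (y ∘ J) hJ t ht
  have hξ : (fun i => σ (x i)) = omX := funext hσ2
  have h1 : OV.td (Set.range fun i => σ (x i)) = n := by
    rw [hξ]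
    exact sp2_td_range
  have h2 : OV.td (Set.range (fun i => σ (x i)) ∪ Set.range fun i => σ (y i)) = n :=
    le_antisymm (td_le_Om _) (by
      rw [← h1]
      exact OV.td_mono Set.subset_union_left)
  have hη : ∀ i, σ (y i) ≠ 0 := fun i => (map_ne_zero σ).2 (hy i)
  have h3 := OV.hs_dominant hn (fun i => σ (x i)) (fun i => σ (y i)) hη h1 h2
  have hD : aeval (Sum.elim (fun i => σ (x i)) fun i => σ (y i)) (map (algebraMap k ℂ) d) ≠ 0 := by
    rw [aeval_spec x y σ hσ1]
    exact (map_ne_zero σ).2 hd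
  obtain ⟨p, -, hp2, hp3⟩ := h3 (map (algebraMap k ℂ) d) hD 0
  refine ⟨p, fun f hf => ?_, ?_, fun l => ?_⟩
  · have := hp3 (map (algebraMap k ℂ) f) (by rw [aeval_spec x y σ hσ1, hf, map_zero])
    rw [eval_map_expG] at this
    exact this
  · rw [eval_map_expG] at hp2
    exact hp2
  · have := hp3 (X (Sum.inr (J l)) - C (t l)) (by
      rw [map_sub, aeval_X, aeval_C, Sum.elim_inr, sub_eq_zero]
      exact hσ3 l)
    rw [map_sub, eval_X, eval_C, Sum.elim_inr, sub_eq_zero] at this
    rw [expG, aeval_X, Sum.elim_inr]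
    exact this

end Pool.Agent.Lib.MP_209724_lc.SC
end

section

namespace Pool.Agent.Lib.MP_209724_lc.SC

open MvPolynomial

/-- Generic exponential points in the case of a dominant projection. -/
theorem dominant {k F : Type} [Field k] [IsAlgClosed k] [Countable k] [Algebra k ℂ] [Field F]
    [Algebra k F] {n e : ℕ} (hn : 0 < n) (x y : Fin n → F) (hy : ∀ i, y i ≠ 0)
    (hgen : IntermediateField.adjoin k (Set.range x ∪ Set.range y) = ⊤)
    (htd : Algebra.trdeg k F = ((n + e : ℕ) : Cardinal)) (hs : Strict k x y)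
    (hx : AlgebraicIndependent k x) :
    ∃ p : Fin n → ℂ, (∀ f : MvPolynomial (Fin n ⊕ Fin n) k, aeval (Sum.elim x y) f = 0 →
        expG f p = 0) ∧
      ∃ s : Fin n ⊕ Fin e → ℂ, AlgebraicIndependent k s ∧
        ∀ a, s a ∈ Set.range p ∪ Set.range fun i => Complex.exp (p i) := by
  have hk0 : CharZero k := by
    have := (algebraMap k ℂ).charZero_iff (algebraMap k ℂ).injective
    exact this.2 inferInstance
  obtain ⟨J, hJ⟩ := exists_J x y hgen htd hx
  refine core x y hy hgen htd hs (fun l => X (Sum.inr (J l))) ?_ ?_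
  · intro D hD hD0
    refine nabla_unique x y hy hgen htd J hJ D hD fun l => ?_
    have h := hD0 l
    simpa using h
  · intro t ht d hd
    exact exists_point_dominant hn x y hy htd J hJ t ht d hd

end Pool.Agent.Lib.MP_209724_lc.SC
end

section

namespace Pool.Agent.Lib.MP_209724_lc.SC

open MvPolynomial

/-- GN-8a: the `g l` are algebraically independent over `k`. Proof: by `h` for one `m ≠ 0`, all of `F` is
algebraic over `k(x ∘ I, g, y ^ m)`, `I` as in `exists_z` (`n'` elements of `x` suffice), which has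
`n' + e + 1` generators; so these are algebraically independent. -/
theorem algInd_g {k F : Type} [Field k] [Field F] [Algebra k F] {n' e : ℕ}
    (x y : Fin (n' + 1) → F) (htd : Algebra.trdeg k F = ((n' + 1 + e : ℕ) : Cardinal))
    (hx : Algebra.trdeg k (Algebra.adjoin k (Set.range x)) = n') (g : Fin e → F)
    (h : ∀ m : Fin (n' + 1) → ℤ, m ≠ 0 → ∀ b : F, IsAlgebraic (Algebra.adjoin k
      (Set.range x ∪ Set.range g ∪ {∏ i, y i ^ m i})) b) : AlgebraicIndependent k g := by
  obtain ⟨I, j₀, h1, -⟩ := exists_z x y htd hx g h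
  exact h1.comp Sum.inr Sum.inr_injective

/-- Generic exponential points in the case of a projection of codimension one. -/
theorem codimOne {k F : Type} [Field k] [IsAlgClosed k] [Countable k] [Algebra k ℂ] [Field F]
    [Algebra k F] {n' e : ℕ} (x y : Fin (n' + 1) → F) (hy : ∀ i, y i ≠ 0)
    (hgen : IntermediateField.adjoin k (Set.range x ∪ Set.range y) = ⊤)
    (htd : Algebra.trdeg k F = ((n' + 1 + e : ℕ) : Cardinal)) (hs : Strict k x y)
    (hx : Algebra.trdeg k (Algebra.adjoin k (Set.range x)) = n')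
    (G : Fin e → MvPolynomial (Fin (n' + 1) ⊕ Fin (n' + 1)) k)
    (h : ∀ m : Fin (n' + 1) → ℤ, m ≠ 0 → ∀ b : F, IsAlgebraic (Algebra.adjoin k
      (Set.range x ∪ (Set.range fun l => aeval (Sum.elim x y) (G l)) ∪ {∏ i, y i ^ m i})) b) :
    ∃ p : Fin (n' + 1) → ℂ,
      (∀ f : MvPolynomial (Fin (n' + 1) ⊕ Fin (n' + 1)) k, aeval (Sum.elim x y) f = 0 →
        expG f p = 0) ∧
      ∃ s : Fin (n' + 1) ⊕ Fin e → ℂ, AlgebraicIndependent k s ∧
        ∀ a, s a ∈ Set.range p ∪ Set.range fun i => Complex.exp (p i) := by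
  have hk0 : CharZero k := by
    have := (algebraMap k ℂ).charZero_iff (algebraMap k ℂ).injective
    exact this.2 inferInstance
  refine core x y hy hgen htd hs G ?_ ?_
  · intro D hD hD0
    exact nabla_unique' x y hy hgen htd (fun l => aeval (Sum.elim x y) (G l))
      (algInd_g x y htd hx _ h) h D hD hD0
  · intro t ht d hd
    exact exists_point_codimOne x y hy htd hx G h (fun m c hc => free_of_strict x y hs m c hc)
      t ht d hd

end Pool.Agent.Lib.MP_209724_lc.SC
end

section

namespace Pool.Agent.Lib.MP_209724_lc.SC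

open MvPolynomial

variable {n : ℕ}

/-- The full axiom for dominant projections and strict `V`. -/
theorem final (hn : 0 < n) (Q : Ideal (MvPolynomial (Fin n ⊕ Fin n) ℂ)) [Q.IsPrime]
    (hy0 : ∀ i, (X (Sum.inr i) : MvPolynomial (Fin n ⊕ Fin n) ℂ) ∉ Q)
    (hdom : ∀ c : MvPolynomial (Fin n) ℂ, rename Sum.inl c ∈ Q → c = 0)
    {L : Type} [Field L] [Algebra ℂ L] (x y : Fin n → L)
    (hxy : ∀ f : MvPolynomial (Fin n ⊕ Fin n) ℂ, aeval (Sum.elim x y) f = 0 ↔ f ∈ Q)
    (hstr : ∀ B : Matrix (Fin n) (Fin n) ℤ, B ≠ 0 →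
      ((B.map (Int.cast : ℤ → ℚ)).rank : Cardinal) <
        Algebra.trdeg ℂ (Algebra.adjoin ℂ (Set.range (fun i => ∑ j, (B i j : L) * x j) ∪
          Set.range fun i => ∏ j, y j ^ B i j)))
    (K : Type) [Field K] [Algebra K ℂ] [Countable K]
    (I : Ideal (MvPolynomial (Fin n ⊕ Fin n) K)) (hQ : Q = I.map (map (algebraMap K ℂ))) :
    ∃ p : Fin n → ℂ,
      (∀ f ∈ Q, eval (Sum.elim p fun i => Complex.exp (p i)) f = 0) ∧
      Algebra.trdeg K (Algebra.adjoin K (Set.range p ∪ Set.range fun i => Complex.exp (p i))) =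
        Algebra.trdeg ℂ (MvPolynomial (Fin n ⊕ Fin n) ℂ ⧸ Q) := by
  classical
  have hc : Countable (algebraicClosure K ℂ) := countable_algClosure K
  have hac : IsAlgClosed (algebraicClosure K ℂ) := isAlgClosed_algClosure K
  set k := algebraicClosure K ℂ with hk
  have hs := strict_FK k Q x y hxy hstr
  have hx : AlgebraicIndependent k (xK k Q) := by
    rw [algebraicIndependent_iff]
    intro f hf
    have h1 : aeval (Sum.elim (xK k Q) (yK k Q)) (rename Sum.inl f) = 0 := by
      rw [aeval_rename, Sum.elim_comp_inl, hf]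
    rw [aeval_eq_zero_iff, map_rename] at h1
    have h2 := hdom _ h1
    exact map_injective _ (algebraMap k ℂ).injective (by rw [h2, map_zero])
  have hIK : Q = (I.map (map (algebraMap K k))).map (map (algebraMap k ℂ)) := by
    rw [Ideal.map_map, hQ]
    congr 1
    refine MvPolynomial.ringHom_ext (fun a => ?_) (fun i => ?_)
    · simp only [RingHom.comp_apply, map_C]
      rfl
    · simp only [RingHom.comp_apply, map_X]
  obtain ⟨N, hN⟩ : ∃ N : ℕ, Algebra.trdeg ℂ (MvPolynomial (Fin n ⊕ Fin n) ℂ ⧸ Q) = N :=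
    Cardinal.lt_aleph0.1 trdeg_lt_aleph0_of_finiteType
  have htd := trdeg_FK k Q _ hIK
  rw [hN] at htd
  have hnN : n ≤ N := by
    have h1 := hx.cardinalMk_le_trdeg
    rw [htd, Cardinal.mk_fin] at h1
    exact_mod_cast h1
  obtain ⟨e, rfl⟩ := Nat.exists_eq_add_of_le hnN
  obtain ⟨p, hp1, s, hs1, hs2⟩ := dominant hn (xK k Q) (yK k Q) (fun i h0 => hy0 i (by
    have h1 := (fnK_eq_zero k Q (X (Sum.inr i))).1 h0
    rwa [map_X] at h1)) (gen_FK k Q) htd hs hx
  have hmem : ∀ f ∈ Q, eval (Sum.elim p fun i => Complex.exp (p i)) f = 0 := by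
    intro f hf
    rw [hQ] at hf
    refine Submodule.span_induction (p := fun f _ => eval (Sum.elim p fun i =>
      Complex.exp (p i)) f = 0) ?_ (by simp) ?_ ?_ hf
    · rintro _ ⟨g, hg, rfl⟩
      have h1 : map (algebraMap K ℂ) g ∈ Q := by
        rw [hQ]
        exact Ideal.mem_map_of_mem _ hg
      have h2 : map (algebraMap k ℂ) (map (algebraMap K k) g) = map (algebraMap K ℂ) g := by
        rw [map_map]
        rfl
      rw [← h2] at h1
      have h3 := hp1 _ ((aeval_eq_zero_iff k Q _).2 h1)
      rw [← eval_map_expG, h2] at h3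
      exact h3
    · intro a b _ _ ha hb
      rw [map_add, ha, hb, add_zero]
    · intro a b _ hb
      rw [smul_eq_mul, map_mul, hb, mul_zero]
  refine ⟨p, hmem, le_antisymm ?_ ?_⟩
  · have h1 := trdeg_le_of_point K Q I hQ (Sum.elim p fun i => Complex.exp (p i)) (fun f hf => by
      have h2 := hmem _ hf
      rw [eval_map_expG] at h2
      exact h2)
    rwa [Set.Sum.elim_range] at h1
  · rw [hN]
    have h1 : AlgebraicIndependent K s := hs1.restrictScalars (algebraMap K k).injective
    let s' : Fin n ⊕ Fin e →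
        Algebra.adjoin K (Set.range p ∪ Set.range fun i => Complex.exp (p i)) :=
      fun a => ⟨s a, Algebra.subset_adjoin (hs2 a)⟩
    have h2 : AlgebraicIndependent K s' :=
      AlgebraicIndependent.of_comp (Algebra.adjoin K _).val h1
    have h3 := h2.cardinalMk_le_trdeg
    simpa using h3

end Pool.Agent.Lib.MP_209724_lc.SC
end

section

namespace Pool.Agent.Lib.MP_209724_lc.SC

open MvPolynomial

/-- From a generic exponential point over `k ⊇ K` to the conclusion. -/
theorem conclude {n N : ℕ} (Q : Ideal (MvPolynomial (Fin n ⊕ Fin n) ℂ)) [Q.IsPrime]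
    (K : Type) [Field K] [Algebra K ℂ] (I : Ideal (MvPolynomial (Fin n ⊕ Fin n) K))
    (hQ : Q = I.map (map (algebraMap K ℂ))) (k : Type) [Field k] [Algebra k ℂ] [Algebra K k]
    [IsScalarTower K k ℂ]
    (hN : Algebra.trdeg ℂ (MvPolynomial (Fin n ⊕ Fin n) ℂ ⧸ Q) = N) (p : Fin n → ℂ)
    (hp1 : ∀ f : MvPolynomial (Fin n ⊕ Fin n) k, aeval (Sum.elim (xK k Q) (yK k Q)) f = 0 →
      expG f p = 0)
    {ι : Type} [Fintype ι] (hι : Fintype.card ι = N) (s : ι → ℂ) (hs1 : AlgebraicIndependent k s)
    (hs2 : ∀ a, s a ∈ Set.range p ∪ Set.range fun i => Complex.exp (p i)) :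
    (∀ f ∈ Q, eval (Sum.elim p fun i => Complex.exp (p i)) f = 0) ∧
      Algebra.trdeg K (Algebra.adjoin K (Set.range p ∪ Set.range fun i => Complex.exp (p i))) =
        Algebra.trdeg ℂ (MvPolynomial (Fin n ⊕ Fin n) ℂ ⧸ Q) := by
  have hmem : ∀ f ∈ Q, eval (Sum.elim p fun i => Complex.exp (p i)) f = 0 := by
    intro f hf
    rw [hQ] at hf
    refine Submodule.span_induction (p := fun f _ => eval (Sum.elim p fun i =>
      Complex.exp (p i)) f = 0) ?_ (by simp) ?_ ?_ hf
    · rintro _ ⟨g, hg, rfl⟩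
      have h1 : map (algebraMap K ℂ) g ∈ Q := by
        rw [hQ]
        exact Ideal.mem_map_of_mem _ hg
      have h2 : map (algebraMap k ℂ) (map (algebraMap K k) g) = map (algebraMap K ℂ) g := by
        rw [map_map, ← IsScalarTower.algebraMap_eq]
      rw [← h2] at h1
      have h3 := hp1 _ ((aeval_eq_zero_iff k Q _).2 h1)
      rw [← eval_map_expG, h2] at h3
      exact h3
    · intro a b _ _ ha hb
      rw [map_add, ha, hb, add_zero]
    · intro a b _ hb
      rw [smul_eq_mul, map_mul, hb, mul_zero]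
  refine ⟨hmem, le_antisymm ?_ ?_⟩
  · have h1 := trdeg_le_of_point K Q I hQ (Sum.elim p fun i => Complex.exp (p i)) (fun f hf => by
      have h2 := hmem _ hf
      rw [eval_map_expG] at h2
      exact h2)
    rwa [Set.Sum.elim_range] at h1
  · rw [hN]
    have h1 : AlgebraicIndependent K s := hs1.restrictScalars (algebraMap K k).injective
    let s' : ι → Algebra.adjoin K (Set.range p ∪ Set.range fun i => Complex.exp (p i)) :=
      fun a => ⟨s a, Algebra.subset_adjoin (hs2 a)⟩
    have h2 : AlgebraicIndependent K s' :=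
      AlgebraicIndependent.of_comp (Algebra.adjoin K _).val h1
    have h3 := h2.cardinalMk_le_trdeg
    rw [Cardinal.mk_fintype, hι] at h3
    exact h3

/-- A countably generated extension of a countable field is countable. -/
theorem countable_adjoin_set {k : Type} [Field k] [Algebra k ℂ] [Countable k] (s : Set ℂ) (hs : s.Countable) :
    Countable (IntermediateField.adjoin k s) := by
  rw [← Cardinal.mk_le_aleph0_iff]
  refine (IntermediateField.cardinalMk_adjoin_le k s).trans ?_
  refine max_le (max_le ?_ ?_) le_rfl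
  · exact Cardinal.mk_le_aleph0_iff.2 inferInstance
  · have : Countable s := hs
    exact Cardinal.mk_le_aleph0_iff.2 inferInstance

/-- The full axiom for strict `V` whose projection has codimension one, without algebraic
monomials. -/
theorem final_codimOne {n : ℕ} (hn : 0 < n) (Q : Ideal (MvPolynomial (Fin n ⊕ Fin n) ℂ))
    [Q.IsPrime]
    (hy0 : ∀ i, (X (Sum.inr i) : MvPolynomial (Fin n ⊕ Fin n) ℂ) ∉ Q)
    {L : Type} [Field L] [Algebra ℂ L] (x y : Fin n → L)
    (hxy : ∀ f : MvPolynomial (Fin n ⊕ Fin n) ℂ, aeval (Sum.elim x y) f = 0 ↔ f ∈ Q)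
    (hL : ∀ b : L, IsAlgebraic (Algebra.adjoin ℂ (Set.range x ∪ Set.range y)) b)
    (hx : Algebra.trdeg ℂ (Algebra.adjoin ℂ (Set.range x)) + 1 = n)
    (hmon : ∀ m : Fin n → ℤ, m ≠ 0 →
      ¬ IsAlgebraic (Algebra.adjoin ℂ (Set.range x)) (∏ i, y i ^ m i))
    (hstr : ∀ B : Matrix (Fin n) (Fin n) ℤ, B ≠ 0 →
      ((B.map (Int.cast : ℤ → ℚ)).rank : Cardinal) <
        Algebra.trdeg ℂ (Algebra.adjoin ℂ (Set.range (fun i => ∑ j, (B i j : L) * x j) ∪
          Set.range fun i => ∏ j, y j ^ B i j)))
    (K : Type) [Field K] [Algebra K ℂ] [Countable K]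
    (I : Ideal (MvPolynomial (Fin n ⊕ Fin n) K)) (hQ : Q = I.map (map (algebraMap K ℂ))) :
    ∃ p : Fin n → ℂ,
      (∀ f ∈ Q, eval (Sum.elim p fun i => Complex.exp (p i)) f = 0) ∧
      Algebra.trdeg K (Algebra.adjoin K (Set.range p ∪ Set.range fun i => Complex.exp (p i))) =
        Algebra.trdeg ℂ (MvPolynomial (Fin n ⊕ Fin n) ℂ ⧸ Q) := by
  classical
  obtain ⟨n', rfl⟩ : ∃ n', n = n' + 1 := ⟨n - 1, by omega⟩
  obtain ⟨N, hN⟩ : ∃ N : ℕ, Algebra.trdeg ℂ
      (MvPolynomial (Fin (n' + 1) ⊕ Fin (n' + 1)) ℂ ⧸ Q) = N :=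
    Cardinal.lt_aleph0.1 trdeg_lt_aleph0_of_finiteType
  -- the transcendence degree of `L`
  have hev : ∀ f : MvPolynomial (Fin (n' + 1) ⊕ Fin (n' + 1)) ℂ,
      (aeval (Sum.elim x y)).toRingHom f = 0 ↔ f ∈ Q := hxy
  have hAN : Algebra.trdeg ℂ (Algebra.adjoin ℂ (Set.range x ∪ Set.range y)) = N := by
    rw [← hN]
    have hker : RingHom.ker (aeval (Sum.elim x y) :
        MvPolynomial (Fin (n' + 1) ⊕ Fin (n' + 1)) ℂ →ₐ[ℂ] L) = Q := by
      ext f
      exact hxy f
    have hrange : (aeval (Sum.elim x y) :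
        MvPolynomial (Fin (n' + 1) ⊕ Fin (n' + 1)) ℂ →ₐ[ℂ] L).range =
        Algebra.adjoin ℂ (Set.range x ∪ Set.range y) := by
      rw [← Algebra.adjoin_range_eq_range_aeval, Set.Sum.elim_range]
    have e1 := Ideal.quotientKerEquivRange (aeval (Sum.elim x y) :
        MvPolynomial (Fin (n' + 1) ⊕ Fin (n' + 1)) ℂ →ₐ[ℂ] L)
    have e2 := Subalgebra.equivOfEq _ _ hrange
    have e3 := Ideal.quotientEquivAlgOfEq ℂ hker
    exact ((e3.symm.trans e1).trans e2).trdeg_eq.symm
  have hLalg : Algebra.IsAlgebraic (Algebra.adjoin ℂ (Set.range x ∪ Set.range y)) L := ⟨hL⟩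
  have hLN : Algebra.trdeg ℂ L = N := by
    have h1 := trdeg_add_eq (R := ℂ) (S := Algebra.adjoin ℂ (Set.range x ∪ Set.range y)) (A := L)
    rw [(trdeg_eq_zero_iff (R := Algebra.adjoin ℂ (Set.range x ∪ Set.range y)) (A := L)).2 hLalg,
      add_zero, hAN] at h1
    exact h1.symm
  have hxn : Algebra.trdeg ℂ (Algebra.adjoin ℂ (Set.range x)) = n' := by
    have h1 : Algebra.trdeg ℂ (Algebra.adjoin ℂ (Set.range x)) + 1 = (n' : Cardinal) + 1 := by
      rw [hx]
      push_cast
      rfl
    exact Cardinal.add_one_inj.1 h1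
  have htdx : OV.td (Set.range x) = n' := OV.td_of_trdeg_adjoin _ hxn
  have htdN : OV.td (Set.range x ∪ Set.range y) = N := OV.td_of_trdeg_adjoin _ hAN
  -- `N ≥ n + 1`
  have hNn : n' + 1 ≤ N := by
    have h1 : OV.mon (Pi.single 0 1) y ∉ OV.cl (Set.range x) :=
      hmon _ (by
        intro h0
        have := congrFun h0 0
        simp at this)
    have h2 := OV.td_insert_eq h1
    rw [htdx] at h2
    have h3 : OV.td (insert (OV.mon (Pi.single 0 1) y) (Set.range x)) ≤
        OV.td (Set.range x ∪ Set.range y) := by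
      apply OV.td_mono
      intro b hb
      rcases hb with rfl | hb
      · right
        refine ⟨0, ?_⟩
        simp [OV.mon, Pi.single_apply]
      · exact Or.inl hb
    rw [h2, htdN] at h3
    exact_mod_cast h3
  obtain ⟨e, rfl⟩ := Nat.exists_eq_add_of_le hNn
  -- choice of the linear forms
  obtain ⟨a, ha⟩ := exists_forms (e := e) x y (fun b => hL b) (by
    rw [htdx, htdN]
    push_cast
    ring) (by
    intro m hm h
    exact hmon m hm h)
  -- the field of constants
  let K₁ := IntermediateField.adjoin K (Set.range a)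
  have hc1 : Countable K₁ := countable_adjoin_set _ (Set.countable_range a)
  have hc : Countable (algebraicClosure K₁ ℂ) := countable_algClosure K₁
  have hac : IsAlgClosed (algebraicClosure K₁ ℂ) := isAlgClosed_algClosure K₁
  set k := algebraicClosure K₁ ℂ with hk
  have hak : ∀ i, a i ∈ k := fun i => by
    have h1 : a i ∈ K₁ := IntermediateField.subset_adjoin _ _ ⟨i, rfl⟩
    exact IntermediateField.algebraMap_mem k (⟨a i, h1⟩ : K₁)
  have hIK : Q = (I.map (map (algebraMap K k))).map (map (algebraMap k ℂ)) := by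
    rw [Ideal.map_map, hQ]
    congr 1
    refine MvPolynomial.ringHom_ext (fun a => ?_) (fun i => ?_)
    · simp only [RingHom.comp_apply, map_C]
      rfl
    · simp only [RingHom.comp_apply, map_X]
  have htd := trdeg_FK k Q _ hIK
  rw [hN] at htd
  have hs := strict_FK k Q x y hxy hstr
  have hx' := trdeg_x k Q x y hxy _ hIK
  rw [hxn] at hx'
  obtain ⟨θ, hθ1, hθ2, hθ3, hθ4⟩ := exists_theta k Q x y hxy
  let G : Fin e → MvPolynomial (Fin (n' + 1) ⊕ Fin (n' + 1)) k := fun l =>
    ∑ j, C (⟨a (l, j), hak _⟩ : k) * X (Sum.inr j)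
  have hG : ∀ l, θ (aeval (Sum.elim (xK k Q) (yK k Q)) (G l)) = gform y a l := by
    intro l
    rw [aeval_fnK, hθ1]
    simp only [G, gform, map_sum, map_mul, map_C, map_X, aeval_C, aeval_X, Sum.elim_inr]
    rfl
  obtain ⟨p, hp1, s, hs1, hs2⟩ := codimOne (xK k Q) (yK k Q) (fun i h0 => hy0 i (by
    have h1 := (fnK_eq_zero k Q (X (Sum.inr i))).1 h0
    rwa [map_X] at h1)) (gen_FK k Q) htd hs hx' G (by
    intro m hm b
    have h1 := descend_span θ hθ2 htd hLN
      (Sum.elim (Sum.elim (xK k Q) fun l => aeval (Sum.elim (xK k Q) (yK k Q)) (G l))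
        fun _ : Unit => ∏ i, yK k Q i ^ m i) (by
        intro b
        have h2 := ha m hm b
        have h3 : (Set.range fun i => θ ((Sum.elim (Sum.elim (xK k Q) fun l =>
            aeval (Sum.elim (xK k Q) (yK k Q)) (G l))
            fun _ : Unit => ∏ i, yK k Q i ^ m i) i)) =
            Set.range x ∪ Set.range (gform y a) ∪ {OV.mon m y} := by
          ext c
          simp only [Set.mem_range, Sum.exists, Sum.elim_inl, Sum.elim_inr, hθ3, hG,
            map_prod, map_zpow₀, hθ4, Set.mem_union, Set.mem_singleton_iff, OV.mon]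
          constructor
          · rintro ((h | h) | ⟨_, h⟩)
            · exact Or.inl (Or.inl h)
            · exact Or.inl (Or.inr h)
            · exact Or.inr h.symm
          · rintro ((h | h) | h)
            · exact Or.inl (Or.inl h)
            · exact Or.inl (Or.inr h)
            · exact Or.inr ⟨(), h.symm⟩
        rw [h3]
        exact h2) b
    rw [Set.Sum.elim_range, Set.Sum.elim_range, Set.range_const] at h1
    exact h1)
  have hst : IsScalarTower K k ℂ := IsScalarTower.of_algebraMap_eq fun _ => rfl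
  exact ⟨p, conclude Q K I hQ k hN p hp1 (by simp) s hs1 hs2⟩

end Pool.Agent.Lib.MP_209724_lc.SC
end
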